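import Pool.Agent.Work.MP_7ba843_gt.C.Stm

/-! The criterion for cores of trisections. -/

open Set Topology
open scoped Manifold ContDiff

namespace Pool.Agent.Work.MP_7ba843_gt.S

open Pool.Agent.Work.MP_7ba843_gt Pool.Agent.Work.MP_7ba843_gt.N

variable {E : Type} [NormedAddCommGroup E] [NormedSpace ℝ E]
  (V : Type) [NormedAddCommGroup V] [NormedSpace ℝ V]

/-- The criterion, for the model `{0 ≤ F}` of the handlebody of genus `g` and closed connected
smooth manifolds `X` modelled on `V`. Let `T` be a trisection of `X` whose handlebody `T 0 ∩ T 1`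
is the image of the smooth embedding `f₀` and whose core is the image of `{F = 0}`.
(A) If the smooth embedding `f` has an equivalent map on fundamental groups, a diffeomorphism `ψ`
of `X` carries the handlebody to the image of `f`, and `T` to a trisection with core `f {F = 0}`.
Let the fundamental group `G` of `X` have `r` generators and let `b` be the first Betti number.
(B) If `T 0` has genus at most `g - r`, or `2 r + b ≤ g + 1`, or `r` is least and `b = 0` or the
Euler characteristic `c` has `0 ≤ c`, `2 ≤ r + c` or `r < g + c`, then the cores of the images of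
`T` under diffeomorphisms are exactly the boundaries of the smoothly embedded handlebodies whose
map on fundamental groups is a composite of surjections through the free group of rank `r`.
(C) If `G` is free of rank `r`, or `r < g` and the maximal subgroups of `G` are normal, or `G` is
finite with `r + log₂ |G| ≤ g`, then the boundary of a smoothly embedded handlebody is such a core
as soon as it carries the fundamental group of `X`. -/
def Cores (F : E → ℝ) (g : ℕ) : Prop :=
  ∀ (X : Type) [TopologicalSpace X] [ChartedSpace V X] [IsManifold 𝓘(ℝ, V) ∞ X] [T2Space X]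
    [CompactSpace X] [ConnectedSpace X] (f₀ : C({x | 0 ≤ F x}, X)) (T : Fin 3 → Set X),
    SmEmb V f₀ → Trisection g (f₀ '' {x | F x = 0}) T → T 0 ∩ T 1 = range f₀ →
    (∀ f : C({x | 0 ≤ F x}, X), SmEmb V f → PiEquiv f₀ f →
      ∃ ψ : X ≃ₘ⟮𝓘(ℝ, V), 𝓘(ℝ, V)⟯ X, ψ '' range f₀ = range f ∧
        Trisection g (f '' {x | F x = 0}) fun i => ψ '' T i) ∧
    ∀ (x : X) (r b : ℕ), Gens (FundamentalGroup X x) r →
      b = Module.finrank ℤ (Additive (FundamentalGroup X x) →+ ℤ) →
      ((∃ k, Nonempty (T 0 ≃ₜ Th 2 k) ∧ r + k ≤ g) ∨ 2 * r + b ≤ g + 1 ∨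
          ((∀ n, Gens (FundamentalGroup X x) n → r ≤ n) ∧
            (b = 0 ∨ ∃ c : ℤ, HasEulerChar X c ∧ (0 ≤ c ∨ 2 ≤ r + c ∨ r < g + c))) →
        ∀ S : Set X, (∃ ψ : X ≃ₘ⟮𝓘(ℝ, V), 𝓘(ℝ, V)⟯ X, Trisection g S fun i => ψ '' T i) ↔
          ∃ f : C({x | 0 ≤ F x}, X), SmEmb V f ∧ f '' {x | F x = 0} = S ∧ PiFact f r) ∧
      (Nonempty (FundamentalGroup X x ≃* FreeGroup (Fin r)) ∨
          (r < g ∧ ∀ M : Subgroup (FundamentalGroup X x), IsCoatom M → M.Normal) ∨
          (Finite (FundamentalGroup X x) ∧ r + Nat.log 2 (Nat.card (FundamentalGroup X x)) ≤ g) →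
        ∀ (f : C({x | 0 ≤ F x}, X)) (S : Set X) (y : S), SmEmb V f → f '' {x | F x = 0} = S →
          Function.Surjective
            (FundamentalGroup.map (⟨Subtype.val, continuous_subtype_val⟩ : C(S, X)) y) →
          ∃ ψ : X ≃ₘ⟮𝓘(ℝ, V), 𝓘(ℝ, V)⟯ X, Trisection g S fun i => ψ '' T i)

end Pool.Agent.Work.MP_7ba843_gt.S
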