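import Pool.Agent.Work.MP_7ba843_gt.X.Stm

/-! The earlier criterion follows from the present one. -/

namespace Pool.Agent.Work.MP_7ba843_gt.X

theorem crit_of_cores {E V : Type} [NormedAddCommGroup E] [NormedSpace ℝ E]
    [NormedAddCommGroup V] [NormedSpace ℝ V] {F : E → ℝ} {g : ℕ} (h : S.Cores V F g) :
    S.Crit V F g := fun X _ _ _ _ _ _ f₀ T a b c => ⟨(h X f₀ T a b c).1,
  fun x r b' hr hb hc => ((h X f₀ T a b c).2 x r b' hr hb).1
    (hc.imp id (Or.imp id fun k => ⟨k.2, Or.inl k.1⟩))⟩

/-- nilpotent groups satisfy the hypothesis on maximal subgroups -/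
theorem nilpotent_ok {G : Type} [Group G] [Group.IsNilpotent G] (M : Subgroup G)
    (h : IsCoatom M) : M.Normal :=
  Subgroup.NormalizerCondition.normal_of_coatom M Group.normalizerCondition_of_isNilpotent h

end Pool.Agent.Work.MP_7ba843_gt.X
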