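import Pool.Agent.Work.MP_6b5a33_co.Cell
import Pool.Agent.Work.MP_7ba843_gt.Defs
import Pool.Agent.Work.MP_7ba843_gt.C.Comb
import Pool.Agent.Work.MP_7ba843_gt.N.Main
import Pool.Agent.Work.MP_7ba843_gt.N.SurfC
import Pool.Agent.Work.MP_7ba843_gt.C.TupB
import Pool.Agent.Work.MP_7ba843_gt.N.Defs
import Pool.Agent.Work.MP_7ba843_gt.C.Stm
import Pool.Agent.Work.MP_7ba843_gt.X.Stm

-- merged part: Pool.Agent.Work.MP_7ba843_gt.X.Eu
section
/-! The cell count of a finite CW structure is additive over closed covers. -/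

open Set Topology Metric

namespace Pool.Agent.Work.MP_7ba843_gt.X

open Pool.Agent.Work.MP_6b5a33_co

variable {Y Z : Type} [TopologicalSpace Y] [TopologicalSpace Z]

/-- `U` has finite cohomology with compact supports and Euler characteristic `c` -/
def Eu (U : Set Y) (c : ℚ) : Prop := FD U ∧ Lef id U = c

theorem pres_id (U : Set Y) : Pres id U := ⟨continuous_id, fun _ => Iff.rfl⟩

theorem Eu.uniq {U : Set Y} {c d : ℚ} (h : Eu U c) (h' : Eu U d) : c = d := h.2.symm.trans h'.2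

theorem Eu.tr [T3Space Y] [T2Space Z] {f : Z → Y} {U' : Set Z} {U : Set Y} (h : Tr f U' U)
    (hU : LC U) {c : ℚ} : Eu U c ↔ Eu U' c := by
  unfold Eu
  rw [h.fd hU, h.lef hU (pres_id _) (pres_id _) fun _ => rfl]

theorem Eu.add [T3Space Y] {U F : Set Y} (hU : LC U) (hF : IsClosed F) {c d : ℚ}
    (h1 : Eu (U ∩ F) c) (h2 : Eu (U \ F) d) : Eu U (c + d) :=
  ⟨fd_add hU hF h1.1 h2.1, by
    rw [lef_add hU hF (pres_id _) (pres_id _) h1.1 h2.1, h1.2, h2.2]⟩

theorem Eu.sub [T3Space Y] {U F : Set Y} (hF : IsClosed F) {c d : ℚ}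
    (h1 : Eu (U ∩ F) c) (h2 : Eu U d) : Eu (U \ F) (d - c) := by
  have h3 := fd_open h2.1.1 hF h1.1 h2.1
  refine ⟨h3, ?_⟩
  have := lef_add h2.1.1 hF (pres_id _) (pres_id _) h1.1 h3
  rw [h1.2, h2.2] at this
  linarith only [this]

theorem Eu.union [T3Space Y] {A B : Set Y} (hA : IsCompact A) (hB : IsCompact B) {a b c : ℚ}
    (h1 : Eu A a) (h2 : Eu B b) (h3 : Eu (A ∩ B) c) : Eu (A ∪ B) (a + b - c) := by
  have h4 := Eu.sub hA.isClosed (inter_comm A B ▸ h3) h2
  have h5 := Eu.add (U := A ∪ B) (LC.of_compact (hA.union hB)) hA.isClosed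
    (by rwa [union_inter_cancel_left]) (by rwa [union_sdiff_left])
  rwa [add_sub_assoc]

theorem Eu.emb [T3Space Y] [T2Space Z] [CompactSpace Z] {f : Z → Y} (hf : Continuous f)
    (hi : Function.Injective f) {c : ℚ} (h : Eu (univ : Set Z) c) : Eu (range f) c :=
  (Eu.tr ⟨hf, ⟨univ, isCompact_univ, Subset.rfl, fun _ _ _ => trivial⟩,
    fun x _ => mem_range_self x, hi.injOn, fun _ ⟨x, hx⟩ => ⟨x, trivial, hx⟩⟩
    (LC.of_compact (isCompact_range hf))).2 h

theorem eu_ball (n : ℕ) : Eu (ball (0 : Fin n → ℝ) 1) ((-1) ^ n) := by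
  have l0 : LC ({0} : Set ℝ) := LC.of_compact isCompact_singleton
  obtain ⟨h1, -, h3⟩ := cell_real l0 n (Fin n → ℝ) (by simp)
  have t : Tr Prod.snd (({0} : Set ℝ) ×ˢ ball (0 : Fin n → ℝ) 1) (ball (0 : Fin n → ℝ) 1) :=
    ⟨continuous_snd, ⟨_, isCompact_singleton.prod (isCompact_closedBall 0 1),
      prod_mono Subset.rfl ball_subset_closedBall, fun x hx h => ⟨hx.1, h⟩⟩, fun x hx => hx.2,
      fun x hx y hy h => Prod.ext (hx.1.trans hy.1.symm) h, fun x hx => ⟨(0, x), ⟨rfl, hx⟩, rfl⟩⟩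
  refine (Eu.tr t (lc_ball _)).2 ⟨h1 (fd_pt 0), ?_⟩
  have := h3 id (pres_id _)
  rwa [Prod.map_id, lef_pt 0 (pres_id _), mul_one] at this

theorem eu_cell [T3Space Y] {n : ℕ} {f : (Fin n → ℝ) → Y} (hf : ContinuousOn f (closedBall 0 1))
    (hi : InjOn f (ball 0 1)) (hd : Disjoint (f '' sphere 0 1) (f '' ball 0 1)) :
    Eu (f '' ball 0 1) ((-1) ^ n) := by
  have cb : CompactSpace (closedBall (0 : Fin n → ℝ) 1) :=
    isCompact_iff_compactSpace.1 (isCompact_closedBall 0 1)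
  have t1 : Tr (Subtype.val : closedBall (0 : Fin n → ℝ) 1 → _) (Subtype.val ⁻¹' ball 0 1)
      (ball 0 1) := ⟨continuous_subtype_val, ⟨univ, isCompact_univ, subset_univ _, fun _ _ h => h⟩,
    fun _ h => h, Subtype.val_injective.injOn,
    fun x hx => ⟨⟨x, ball_subset_closedBall hx⟩, hx, rfl⟩⟩
  have t2 : Tr (fun x : closedBall (0 : Fin n → ℝ) 1 => f x) (Subtype.val ⁻¹' ball 0 1)
      (f '' ball 0 1) := by
    refine ⟨hf.domRestrict, ⟨univ, isCompact_univ, subset_univ _, fun x _ h => ?_⟩,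
      fun x hx => ⟨x, hx, rfl⟩, fun x hx y hy h => Subtype.ext (hi hx hy h), ?_⟩
    · by_contra hc
      exact disjoint_left.1 hd ⟨x, closedBall_sdiff_ball.subset ⟨x.2, hc⟩, rfl⟩ h
    · rintro _ ⟨x, hx, rfl⟩
      exact ⟨⟨x, ball_subset_closedBall hx⟩, hx, rfl⟩
  have l : LC (f '' ball 0 1) := by
    refine pr_lc ((isCompact_closedBall 0 1).image_of_continuousOn hf)
      ((isCompact_sphere 0 1).image_of_continuousOn (hf.mono sphere_subset_closedBall)) ?_
    rw [← ball_union_sphere, image_union, union_sdiff_right, hd.symm.sdiff_eq_left]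
  exact (Eu.tr t2 l).2 ((Eu.tr t1 (lc_ball _)).1 (eu_ball n))

theorem eu_cw [T3Space Y] {c : ℤ} (h : HasEulerChar Y c) : Eu (univ : Set Y) c := by
  classical
  obtain ⟨K, hK, rfl⟩ := h
  let I := Σ n, RelCWComplex.cell (univ : Set Y) n
  have : Finite I := hK
  have := Fintype.ofFinite I
  let o : I → Set Y := fun e => RelCWComplex.openCell e.1 e.2
  have dj : ∀ e e' : I, e ≠ e' → Disjoint (o e) (o e') := fun e e' h =>
    RelCWComplex.disjoint_openCell_of_ne h
  have fr : ∀ e : I, ∀ y ∈ RelCWComplex.cellFrontier e.1 e.2, ∃ e' : I, e'.1 < e.1 ∧ y ∈ o e' := by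
    intro e y hy
    obtain ⟨J, hJ⟩ := CWComplex.cellFrontier_subset_finite_openCell e.1 e.2
    have := hJ hy
    simp only [mem_iUnion] at this
    obtain ⟨m, hm, j, -, hj⟩ := this
    exact ⟨⟨m, j⟩, hm, hj⟩
  have ec : ∀ e : I, Eu (o e) ((-1) ^ e.1) := fun e => by
    refine eu_cell (RelCWComplex.continuousOn e.1 e.2)
      (RelCWComplex.source_eq e.1 e.2 ▸ (RelCWComplex.map e.1 e.2).injOn)
      (disjoint_left.2 fun y hy hy' => ?_)
    obtain ⟨e', h1, h2⟩ := fr e y hy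
    exact disjoint_left.1 (dj e' e fun q => h1.ne (congrArg Sigma.fst q)) h2 hy'
  have key : ∀ s : Finset I, (∀ e ∈ s, ∀ e' : I, e'.1 < e.1 → e' ∈ s) →
      IsCompact (⋃ e ∈ s, o e) ∧ Eu (⋃ e ∈ s, o e) (∑ e ∈ s, (-1) ^ e.1) := by
    intro s
    induction s using Finset.induction_on_max_value (fun e : I => e.1) with
    | empty => exact fun _ => by simpa using ⟨fd_empty, lef_empty _⟩
    | insert a s ha hm ih =>
      intro hs
      obtain ⟨i1, i2⟩ := ih fun e he e' h => (Finset.mem_insert.1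
        (hs e (Finset.mem_insert_of_mem he) e' h)).resolve_left fun q =>
          (h.trans_le (hm e he)).ne (congrArg Sigma.fst q)
      have cp : IsCompact (o a ∪ ⋃ e ∈ s, o e) := by
        have : o a ∪ ⋃ e ∈ s, o e = RelCWComplex.closedCell a.1 a.2 ∪ ⋃ e ∈ s, o e := by
          have q : RelCWComplex.cellFrontier a.1 a.2 ⊆ ⋃ e ∈ s, o e := fun y hy => by
            obtain ⟨e', h1, h2⟩ := fr a y hy
            exact mem_biUnion ((Finset.mem_insert.1 (hs a (Finset.mem_insert_self _ _) e'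
              h1)).resolve_left fun q => h1.ne (congrArg Sigma.fst q)) h2
          rw [← RelCWComplex.cellFrontier_union_openCell_eq_closedCell, union_right_comm,
            union_eq_right.2 q, union_comm]
        rw [this]
        exact RelCWComplex.isCompact_closedCell.union i1
      rw [Finset.set_biUnion_insert, Finset.sum_insert ha, add_comm]
      refine ⟨cp, Eu.add (LC.of_compact cp) i1.isClosed (by rwa [union_inter_cancel_right]) ?_⟩
      rw [union_sdiff_right, Disjoint.sdiff_eq_left]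
      · exact ec a
      · exact disjoint_iUnion₂_right.2 fun e he => dj a e fun q => ha (q ▸ he)
  have h1 := (key Finset.univ fun _ _ _ _ => Finset.mem_univ _).2
  have h2 : ⋃ e ∈ (Finset.univ : Finset I), o e = univ := by
    rw [← CWComplex.iUnion_openCell_eq_complex (C := (univ : Set Y))]
    simp only [Finset.mem_univ, iUnion_true, I, iUnion_sigma, o]
  rw [h2] at h1
  have h3 : ∑ᶠ n, (-1 : ℤ) ^ n * (Nat.card (K.cell n) : ℤ) = ∑ e : I, (-1) ^ e.1 := by
    rw [finsum_eq_sum_of_support_subset (s := Finset.univ.image (Sigma.fst : I → ℕ)),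
      ← Finset.sum_fiberwise_of_maps_to (g := Sigma.fst) fun e _ =>
        Finset.mem_image_of_mem _ (Finset.mem_univ e)]
    · refine Finset.sum_congr rfl fun n _ => ?_
      rw [Finset.sum_congr rfl fun c hc => by rw [(Finset.mem_filter.1 hc).2], Finset.sum_const,
        nsmul_eq_mul, mul_comm, ← Fintype.card_subtype, ← Nat.card_eq_fintype_card,
        Nat.card_congr (Equiv.sigmaSubtype n)]
      rfl
    · intro n hn
      by_contra h
      have : IsEmpty (K.cell n) := ⟨fun j => h (Finset.mem_coe.2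
        (Finset.mem_image_of_mem _ (Finset.mem_univ (⟨n, j⟩ : I))))⟩
      simp at hn
  rw [h3]
  push_cast
  exact h1

end Pool.Agent.Work.MP_7ba843_gt.X
end

-- merged part: Pool.Agent.Work.MP_7ba843_gt.C.Nrm
section
/-! Normal form of an immersion along a segment.

PLAN. For six smooth functions `m = (p, q, r, s, u, v)` of one variable let
`lin m x = (![x 0, 5 + p (x 0) * (x 1 - 5) + q (x 0) * (x 2 - 1), 1 + r (x 0) * (x 1 - 5) +
s (x 0) * (x 2 - 1)], u (x 0) * (x 1 - 5) + v (x 0) * (x 2 - 1))`. At a point of the segment its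
derivative is `w ↦ (![w 0, p w 1 + q w 2, r w 1 + s w 2], u w 1 + v w 2)`. Choose
`a < a' < a₂ < a₃ < b₃ < b₂ < b' < b` such that `h = i34` near all points of the segment with
`x 0 ∉ Ioo a₃ b₃`. `m₁`: the entries of the derivative of `h` at `![t, 5, 1]`, cut off to the
identity outside `[a, b]` (they are the identity for `t ∈ [a, a₃] ∪ [b₃, b]`); the derivative of
`h` fixes `e₀` when `a < b` because `h = i34` on the segment. The columns `(p, r, u)`, `(q, s, v)`
are independent for all `t`. `m₂`: replace `u, v` by `u + β c₁`, `v + β c₂` with `β` smooth,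
positive exactly on `(a₂, b₂)`, and `(c₁, c₂)` small (injectivity is open, compactness) and outside
the image of `t ↦ -(β t)⁻¹ • (u t, v t)` on `(a₂, b₂)` (`small_image`, `dense_of_small`). Then with
the cross product `n` of the two columns, `n 2 + |n| > 0` for all `t`, where `|n|` is the Euclidean
norm (`ContDiff.sqrt`). `m₃`: project both columns along `d = n + |n| e₂` to the plane of the first
two coordinates: `p₃ = p - u * d 0 / d 2` and so on. If `(1 - l) w + l (w - (w 2 / d 2) d) = 0` for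
`w` orthogonal to `n`, then `w` is a multiple of `d` and `⟪d, n⟫ > 0`, so `w = 0`. About 400
lines. -/

set_option linter.unusedSectionVars false
set_option linter.unusedVariables false

open Set Filter Topology Function
open scoped ContDiff

noncomputable section
namespace Pool.Agent.Work.MP_7ba843_gt.C

open Pool.Agent.Work.MP_bf98aa_gt.Ns (Dif)

variable {V E F : Type} [NormedAddCommGroup V] [NormedSpace ℝ V] [FiniteDimensional ℝ V]
  [NormedAddCommGroup E] [NormedSpace ℝ E] [FiniteDimensional ℝ E]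
  [NormedAddCommGroup F] [NormedSpace ℝ F] [FiniteDimensional ℝ F] {A : Amb V}

/-- the inclusion as a linear map -/
abbrev Nrm_I : E3 →L[ℝ] E4 := ContinuousLinearMap.inl ℝ E3 ℝ

/-- the line of the bridges -/
def Nrm_g (t : ℝ) : E3 := ![t, 5, 1]

theorem Nrm_g_eq (t : ℝ) : Nrm_g t = ![0, 5, 1] + t • ![1, 0, 0] := by
  ext i
  fin_cases i <;> simp [Nrm_g]

theorem Nrm_g_smooth : ContDiff ℝ ∞ Nrm_g := by
  rw [funext Nrm_g_eq]
  exact contDiff_const.add (contDiff_id.smul contDiff_const)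

theorem Nrm_g_der (t : ℝ) : HasDerivAt Nrm_g ![1, 0, 0] t := by
  rw [funext Nrm_g_eq]
  simpa using ((hasDerivAt_id t).smul_const (![1, 0, 0] : E3)).const_add ![0, 5, 1]

theorem Nrm_g_of {a b : ℝ} {x : E3} (hx : x ∈ Ls a b) : Nrm_g (x 0) = x := by
  ext i
  fin_cases i <;> simp [Nrm_g, hx.2.2.1, hx.2.2.2]

/-- the map that is linear on the planes orthogonal to the line -/
def Nrm_lin (M : ℝ → E3 →L[ℝ] E4) (x : E3) : E4 := i34 (Nrm_g (x 0)) + M (x 0) (x - Nrm_g (x 0))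

theorem Nrm_adm {a b a' b' a₃ b₃ : ℝ} (ha : a' < a₃) (hb : b₃ < b') {M : ℝ → E3 →L[ℝ] E4}
    (hM : ContDiff ℝ ∞ M) (h0 : ∀ t, M t ![1, 0, 0] = (![1, 0, 0], 0))
    (h1 : ∀ t, t ∉ Ioo a₃ b₃ → M t = Nrm_I) :
    Adm a b a' b' (Nrm_lin M) ∧ ∀ x ∈ Ls a b, fderiv ℝ (Nrm_lin M) x = M (x 0) := by
  have p0 : ContDiff ℝ ∞ fun x : E3 => x 0 := contDiff_apply ℝ ℝ 0
  refine ⟨⟨(Nrm_I.contDiff.comp (Nrm_g_smooth.comp p0)).add
    ((hM.comp p0).clm_apply (contDiff_id.sub (Nrm_g_smooth.comp p0))), fun x hx => ?_,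
    fun x _ hx => ?_⟩, fun x hx => ?_⟩
  · rw [Nrm_lin, Nrm_g_of hx, sub_self, map_zero, add_zero]
  · have h2 : (Icc a₃ b₃)ᶜ ∈ 𝓝 (x 0) := isClosed_Icc.isOpen_compl.mem_nhds fun k =>
      hx ⟨ha.trans_le k.1, k.2.trans_lt hb⟩
    filter_upwards [p0.continuous.continuousAt h2] with y hy
    rw [Nrm_lin, h1 _ fun k => hy (Ioo_subset_Icc_self k)]
    simp [i34]
  · have d0 : HasFDerivAt (fun x : E3 => x 0) (ContinuousLinearMap.proj 0 : E3 →L[ℝ] ℝ) x :=
      hasFDerivAt_apply 0 x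
    have d1 := (Nrm_g_der (x 0)).hasFDerivAt.comp x d0
    have d2 := ((hM.differentiable (by simp)) (x 0)).hasFDerivAt.comp x d0
    have d3 := (Nrm_I.hasFDerivAt.comp x d1).add (d2.clm_apply ((hasFDerivAt_id x).sub d1))
    refine (HasFDerivAt.fderiv (f := Nrm_lin M) d3).trans (ContinuousLinearMap.ext fun w => ?_)
    simp [Nrm_g_of hx, h0, -Matrix.smul_cons]

theorem Nrm_dec (w : E3) : w = w 0 • ![1, 0, 0] + w 1 • ![0, 1, 0] + w 2 • ![0, 0, 1] := by
  ext i
  fin_cases i <;> simp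

theorem Nrm_app {N : E3 →L[ℝ] E4} (h0 : N ![1, 0, 0] = (![1, 0, 0], 0)) (w : E3) :
    N w = w 0 • (![1, 0, 0], 0) + w 1 • N ![0, 1, 0] + w 2 • N ![0, 0, 1] := by
  conv_lhs => rw [Nrm_dec w]
  rw [map_add, map_add, map_smul, map_smul, map_smul, h0]

theorem Nrm_ind {N : E3 →L[ℝ] E4} (h0 : N ![1, 0, 0] = (![1, 0, 0], 0)) (hi : Injective N) (y z : ℝ)
    (e1 : (N ![0, 1, 0]).1 1 * y + (N ![0, 0, 1]).1 1 * z = 0)
    (e2 : (N ![0, 1, 0]).1 2 * y + (N ![0, 0, 1]).1 2 * z = 0)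
    (e3 : (N ![0, 1, 0]).2 * y + (N ![0, 0, 1]).2 * z = 0) : y = 0 ∧ z = 0 := by
  have h : N ![-((N ![0, 1, 0]).1 0 * y + (N ![0, 0, 1]).1 0 * z), y, z] = N 0 := by
    rw [Nrm_app h0, map_zero]
    refine Prod.ext (funext fun i => ?_) ?_
    · fin_cases i <;> simp [Matrix.vecHead, Matrix.vecTail] <;> linarith only [e1, e2]
    · simp
      linarith only [e3]
  exact ⟨congrFun (hi h) 1, congrFun (hi h) 2⟩

/-- the perturbation -/
def Nrm_C : ℝ × ℝ →L[ℝ] E3 →L[ℝ] E4 :=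
  (ContinuousLinearMap.fst ℝ ℝ ℝ).smulRight ((ContinuousLinearMap.proj 1).smulRight (0, 1)) +
    (ContinuousLinearMap.snd ℝ ℝ ℝ).smulRight ((ContinuousLinearMap.proj 2).smulRight (0, 1))

theorem Nrm_C_app (c : ℝ × ℝ) (w : E3) : Nrm_C c w = (0, c.1 * w 1 + c.2 * w 2) := by
  simp [Nrm_C]

theorem Nrm_gen {a b : ℝ} {M : ℝ → E3 →L[ℝ] E4} (hM : ContDiff ℝ ∞ M) (hi : ∀ t, Injective (M t)) :
    ∃ D : ℝ → ℝ × ℝ, ContDiff ℝ ∞ D ∧ (∀ t, t ∉ Ioo a b → D t = 0) ∧
      (∀ l ∈ Icc (0 : ℝ) 1, ∀ t, Injective (M t + l • Nrm_C (D t))) ∧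
      ∀ t ∈ Ioo a b, ((M t ![0, 1, 0]).2, (M t ![0, 0, 1]).2) + D t ≠ 0 := by
  let β : ℝ → ℝ := fun t => expNegInvGlue (t - a) * expNegInvGlue (b - t)
  have b1 : ContDiff ℝ ∞ β := (expNegInvGlue.contDiff.comp (contDiff_id.sub contDiff_const)).mul
    (expNegInvGlue.contDiff.comp (contDiff_const.sub contDiff_id))
  have b2 : ∀ t ∈ Ioo a b, β t ≠ 0 := fun t ht => (mul_pos
    (expNegInvGlue.pos_of_pos (sub_pos.2 ht.1)) (expNegInvGlue.pos_of_pos (sub_pos.2 ht.2))).ne'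
  have b3 : ∀ t, t ∉ Ioo a b → β t = 0 := fun t ht => by
    rcases not_and_or.1 ht with k | k
    · exact mul_eq_zero_of_left (expNegInvGlue.zero_of_nonpos (sub_nonpos.2 (not_lt.1 k))) _
    · exact mul_eq_zero_of_right _ (expNegInvGlue.zero_of_nonpos (sub_nonpos.2 (not_lt.1 k)))
  have u1 : ContDiff ℝ ∞ fun t => ((M t ![0, 1, 0]).2, (M t ![0, 0, 1]).2) :=
    (hM.clm_apply contDiff_const).snd.prodMk (hM.clm_apply contDiff_const).snd
  have h1 := dense_of_small (ι := Unit) (F := ℝ × ℝ) fun _ => small_image isOpen_Ioo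
    (f := fun t => -(β t)⁻¹ • ((M t ![0, 1, 0]).2, (M t ![0, 0, 1]).2))
    ((b1.contDiffOn.inv b2).neg.smul u1.contDiffOn) (by simp)
  have h2 : ∀ᶠ c in 𝓝 (0 : ℝ × ℝ), ∀ z ∈ Icc (0 : ℝ) 1 ×ˢ Icc a b,
      Injective (M z.2 + z.1 • Nrm_C (β z.2 • c)) := by
    refine (isCompact_Icc.prod isCompact_Icc).eventually_forall_of_forall_eventually fun z _ => ?_
    have c1 := hM.continuous
    have c2 := b1.continuous
    have c3 : Continuous fun y : (ℝ × ℝ) × ℝ × ℝ => M y.2.2 + y.2.1 • Nrm_C (β y.2.2 • y.1) := by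
      fun_prop
    refine c3.continuousAt.eventually_mem (ContinuousLinearMap.isOpen_injective.mem_nhds ?_)
    simpa using hi z.2
  obtain ⟨c, hc, hc'⟩ := h1.inter_nhds_nonempty h2
  refine ⟨fun t => β t • c, b1.smul contDiff_const, fun t ht => by simp only [b3 t ht, zero_smul],
    fun l hl t => ?_, fun t ht e => hc (mem_iUnion.2 ⟨(), t, ht, ?_⟩)⟩
  · by_cases ht : t ∈ Ioo a b
    · exact hc' (l, t) ⟨hl, Ioo_subset_Icc_self ht⟩
    · simpa [b3 t ht] using hi t
  · simp only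
    rw [eq_neg_of_add_eq_zero_left e, neg_smul_neg, inv_smul_smul₀ (b2 t ht)]

theorem Nrm_K {a b : ℝ} {f g : ℝ → ℝ} (hf : Continuous f) (hg : Continuous g) (h0 : ∀ t, 0 ≤ g t)
    (h1 : ∀ t, t ∉ Ioo a b → 0 < f t) (h2 : ∀ t ∈ Ioo a b, g t ≠ 0) :
    ∃ K : ℝ, ∀ t, 0 < K * g t + f t := by
  have h3 : ∀ t, f t ≤ 0 → 0 < g t := fun t ht =>
    (h0 t).lt_of_ne' (h2 t (by_contra fun k => (h1 t k).not_ge ht))
  obtain ⟨C, hC⟩ := (isCompact_Icc (a := a) (b := b)).inter_right (isClosed_le hf continuous_const)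
    |>.exists_bound_of_continuousOn (f := fun t => f t / g t)
      (hf.continuousOn.div hg.continuousOn fun t ht => (h3 t ht.2).ne')
  refine ⟨|C| + 1, fun t => ?_⟩
  by_cases ht : f t ≤ 0
  · have h4 := hC t ⟨Ioo_subset_Icc_self (by_contra fun k => (h1 t k).not_ge ht), ht⟩
    have h5 := (le_div_iff₀ (h3 t ht)).1 (abs_le.1 (h4.trans (le_abs_self C))).1
    linarith [h3 t ht]
  · exact add_pos_of_nonneg_of_pos (mul_nonneg (by positivity) (h0 t)) (not_le.1 ht)

/-- the derivative of a twist -/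
def Nrm_T (p q r s : ℝ) : E3 →L[ℝ] E4 :=
  (ContinuousLinearMap.proj 0).smulRight (![1, 0, 0], 0) +
    p • (ContinuousLinearMap.proj 1).smulRight (![0, 1, 0], 0) +
    q • (ContinuousLinearMap.proj 2).smulRight (![0, 1, 0], 0) +
    r • (ContinuousLinearMap.proj 1).smulRight (![0, 0, 1], 0) +
    s • (ContinuousLinearMap.proj 2).smulRight (![0, 0, 1], 0)

theorem Nrm_T_app (p q r s : ℝ) (w : E3) :
    Nrm_T p q r s w = (![w 0, p * w 1 + q * w 2, r * w 1 + s * w 2], 0) := by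
  refine Prod.ext (funext fun i => ?_) (by simp [Nrm_T])
  fin_cases i <;> simp [Nrm_T]

theorem Nrm_proj {a b a' b' : ℝ} (ha : a' < a) (hb : b < b') {N : ℝ → E3 →L[ℝ] E4}
    (hN : ContDiff ℝ ∞ N) (hi : ∀ t, Injective (N t)) (h0 : ∀ t, N t ![1, 0, 0] = (![1, 0, 0], 0))
    (h1 : ∀ t, t ∉ Ioo a b → N t = Nrm_I)
    (h2 : ∀ t ∈ Ioo a b, ((N t ![0, 1, 0]).2, (N t ![0, 0, 1]).2) ≠ 0) :
    ∃ τ : Tw a' b', (∀ t, t ∉ Ioo a b → Nrm_T (τ.p t) (τ.q t) (τ.r t) (τ.s t) = Nrm_I) ∧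
      ∀ l t : ℝ, Injective ((1 - l) • N t + l • Nrm_T (τ.p t) (τ.q t) (τ.r t) (τ.s t) :) := by
  have hI := fun t => Nrm_ind (h0 t) (hi t)
  have hA := fun t => Nrm_app (h0 t)
  have s1 : ∀ (w : E3) i, ContDiff ℝ ∞ fun t => (N t w).1 i := fun w i =>
    (contDiff_apply ℝ ℝ i).comp (hN.clm_apply contDiff_const).fst
  have s2 : ∀ w : E3, ContDiff ℝ ∞ fun t => (N t w).2 := fun w => (hN.clm_apply contDiff_const).snd
  have sp := s1 ![0, 1, 0] 1
  have sq := s1 ![0, 0, 1] 1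
  have sr := s1 ![0, 1, 0] 2
  have ss := s1 ![0, 0, 1] 2
  have su := s2 ![0, 1, 0]
  have sv := s2 ![0, 0, 1]
  set p := fun t => (N t ![0, 1, 0]).1 1 with hp
  set q := fun t => (N t ![0, 0, 1]).1 1 with hq
  set r := fun t => (N t ![0, 1, 0]).1 2 with hr
  set s := fun t => (N t ![0, 0, 1]).1 2 with hs
  set u := fun t => (N t ![0, 1, 0]).2 with hu
  set v := fun t => (N t ![0, 0, 1]).2 with hv
  replace hI : ∀ t y z, p t * y + q t * z = 0 → r t * y + s t * z = 0 → u t * y + v t * z = 0 →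
      y = 0 ∧ z = 0 := hI
  have ho : ∀ t, t ∉ Ioo a b → p t = 1 ∧ q t = 0 ∧ r t = 0 ∧ s t = 1 ∧ u t = 0 ∧ v t = 0 :=
    fun t ht => by simp [hp, hq, hr, hs, hu, hv, h1 t ht]
  have n0 := (sr.mul sv).sub (su.mul ss)
  have n1 := (su.mul sq).sub (sp.mul sv)
  obtain ⟨K, hK⟩ := Nrm_K (a := a) (b := b) ((sp.mul ss).sub (sq.mul sr)).continuous
    ((n0.pow 2).add (n1.pow 2)).continuous (fun t => by positivity)
    (fun t ht => by obtain ⟨e1, e2, e3, e4, -⟩ := ho t ht; simp [e1, e2, e3, e4]) fun t ht e => by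
      obtain ⟨e1, e2⟩ := (add_eq_zero_iff_of_nonneg (sq_nonneg _) (sq_nonneg _)).1 e
      obtain ⟨e3, e4⟩ := hI t (v t) (-u t) (by linarith only [e2, pow_eq_zero_iff two_ne_zero |>.1 e2])
        (by linarith only [e1, pow_eq_zero_iff two_ne_zero |>.1 e1]) (by ring)
      exact h2 t ht (Prod.ext (neg_eq_zero.1 e4) e3)
  refine ⟨⟨fun t => p t - u t * (K * (r t * v t - u t * s t)),
    fun t => q t - v t * (K * (r t * v t - u t * s t)),
    fun t => r t - u t * (K * (u t * q t - p t * v t)),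
    fun t => s t - v t * (K * (u t * q t - p t * v t)),
    sp.sub (su.mul (contDiff_const.mul n0)), sq.sub (sv.mul (contDiff_const.mul n0)),
    sr.sub (su.mul (contDiff_const.mul n1)), ss.sub (sv.mul (contDiff_const.mul n1)),
    fun t => ne_of_gt ((hK t).trans_eq (by ring)), fun t ht => ?_⟩, fun t ht => ?_, fun l t => ?_⟩
  · obtain ⟨e1, e2, e3, e4, e5, e6⟩ := ho t fun k => ht ⟨ha.trans k.1, k.2.trans hb⟩
    simp [e1, e2, e3, e4, e5, e6]
  · obtain ⟨e1, e2, e3, e4, e5, e6⟩ := ho t ht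
    refine ContinuousLinearMap.ext fun w => ?_
    rw [Nrm_T_app]
    refine Prod.ext (funext fun i => ?_) rfl
    fin_cases i <;> simp [e1, e2, e3, e4, e5, e6]
  · refine (injective_iff_map_eq_zero _).2 fun w hw => ?_
    simp only [add_apply, smul_apply, Nrm_T_app, hA t w] at hw
    have e0 := congrFun (congrArg Prod.fst hw) 0
    have e1 := congrFun (congrArg Prod.fst hw) 1
    have e2 := congrFun (congrArg Prod.fst hw) 2
    have e3 := congrArg Prod.snd hw
    simp only [Prod.fst_add, Prod.snd_add, Prod.smul_fst, Prod.smul_snd, Pi.add_apply, Pi.smul_apply,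
      smul_eq_mul, Matrix.cons_val, Prod.fst_zero, Prod.snd_zero, Pi.zero_apply] at e0 e1 e2 e3
    replace e1 : (1 - l) * (w 0 * 0 + w 1 * p t + w 2 * q t) + _ = 0 := e1
    replace e2 : (1 - l) * (w 0 * 0 + w 1 * r t + w 2 * s t) + _ = 0 := e2
    replace e3 : (1 - l) * (w 0 * 0 + w 1 * u t + w 2 * v t) + _ = 0 := e3
    have e4 : l * (u t * w 1 + v t * w 2) = 0 := (mul_eq_zero.1 (by
      linear_combination -(r t * v t - u t * s t) * e1 - (u t * q t - p t * v t) * e2 -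
        (p t * s t - q t * r t) * e3)).resolve_right (hK t).ne'
    obtain ⟨e5, e6⟩ := hI t (w 1) (w 2)
      (by linear_combination e1 + K * (r t * v t - u t * s t) * e4)
      (by linear_combination e2 + K * (u t * q t - p t * v t) * e4) (by linear_combination e3 + e4)
    rw [e5, e6] at e0
    rw [Nrm_dec w, e5, e6, show w 0 = 0 by linarith only [e0]]
    simp

theorem nrm {a b : ℝ} (hab : a < b) {h : E3 → E4} (hs : ContDiff ℝ ∞ h)
    (h1 : ∀ x ∈ Ls a b, h x = i34 x) (h2 : ∀ x ∈ Ls a b, Injective (fderiv ℝ h x))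
    (ha : h =ᶠ[𝓝 ![a, 5, 1]] i34) (hb : h =ᶠ[𝓝 ![b, 5, 1]] i34) :
    ∃ (a' b' : ℝ) (h₁ h₂ : E3 → E4) (τ : Tw a' b'), a < a' ∧ b' < b ∧ Adm a b a' b' h ∧
      Adm a b a' b' h₁ ∧ Adm a b a' b' h₂ ∧ Adm a b a' b' (fun x => i34 (τ.k x)) ∧
      SegI a b h h₁ ∧ SegI a b h₁ h₂ ∧ SegI a b h₂ fun x => i34 (τ.k x) := by
  have c1 := Nrm_g_smooth.continuous
  obtain ⟨ε, hε, e1⟩ := Metric.eventually_nhds_iff.1
    ((c1.continuousAt (x := a)).eventually ha.eventually_nhds)
  obtain ⟨η, hη, e2⟩ := Metric.eventually_nhds_iff.1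
    ((c1.continuousAt (x := b)).eventually hb.eventually_nhds)
  have e3 : ∀ t ∈ Icc a b, t ∉ Ioo (a + ε / 2) (b - η / 2) → h =ᶠ[𝓝 (Nrm_g t)] i34 := fun t ht k => by
    rcases not_and_or.1 k with k | k
    · exact e1 (abs_lt.2 ⟨by linarith only [hε, ht, ht.1], by linarith only [hε, k, not_lt.1 k]⟩)
    · exact e2 (abs_lt.2 ⟨by linarith only [hη, k, not_lt.1 k], by linarith only [hη, ht, ht.2]⟩)
  have gm : ∀ t ∈ Icc a b, Nrm_g t ∈ Ls a b := fun t ht => ⟨ht.1, ht.2, rfl, rfl⟩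
  obtain ⟨M, m1, m2, m3⟩ : ∃ M : ℝ → E3 →L[ℝ] E4, ContDiff ℝ ∞ M ∧
      (∀ t ∈ Icc a b, M t = fderiv ℝ h (Nrm_g t)) ∧
      ∀ t, t ∉ Ioo (a + ε / 2) (b - η / 2) → M t = Nrm_I := by
    have k1 : ∀ t, t ∉ Ioo (a + ε / 2) (b - η / 2) →
        (Icc a b).indicator (fun t => fderiv ℝ h (Nrm_g t) - Nrm_I) t = 0 := fun t ht =>
      indicator_apply_eq_zero.2 fun k => by rw [(e3 t k ht).fderiv_eq]; exact sub_eq_zero.2 Nrm_I.fderiv
    refine ⟨fun t => (Icc a b).indicator (fun t => fderiv ℝ h (Nrm_g t) - Nrm_I) t + Nrm_I,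
      ContDiff.add (MP_bf98aa_gt.Ns.contDiff_of_supp (U := Ioo a b) isOpen_Ioo
        (K := Icc (a + ε / 2) (b - η / 2)) isClosed_Icc (Icc_subset_Ioo (by linarith only [hε]) (by linarith))
        (ContDiffOn.congr ((((hs.fderiv_right (m := ∞) (by simp)).comp Nrm_g_smooth).sub
          (contDiff_const (c := Nrm_I))).contDiffOn) fun t ht =>
            indicator_of_mem (Ioo_subset_Icc_self ht) _)
        fun t ht => k1 t fun k => ht (Ioo_subset_Icc_self k)) contDiff_const,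
      fun t ht => by simp only [indicator_of_mem ht, sub_add_cancel],
      fun t ht => by simp only [k1 t ht, zero_add]⟩
  have m4 : ∀ t, t ∉ Icc a b → M t = Nrm_I := fun t ht => m3 t fun k =>
    ht ⟨by linarith only [hε, k, k.1], by linarith only [hη, k, k.2]⟩
  have mi : ∀ t, Injective (M t) := fun t => by
    by_cases ht : t ∈ Icc a b
    · rw [m2 t ht]
      exact h2 _ (gm t ht)
    · rw [m4 t ht]
      exact fun x y k => congrArg Prod.fst k
  have m0 : ∀ t, M t ![1, 0, 0] = (![1, 0, 0], 0) := fun t => by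
    by_cases ht : t ∈ Icc a b
    · rw [m2 t ht]
      have d1 := ((hs.differentiable (by simp)) (Nrm_g t)).hasFDerivAt.comp_hasDerivAt t (Nrm_g_der t)
      have d2 := Nrm_I.hasFDerivAt.comp_hasDerivAt t (Nrm_g_der t)
      exact (uniqueDiffOn_Icc hab t ht).eq_deriv _ d1.hasDerivWithinAt
        (d2.hasDerivWithinAt.congr (fun y hy => h1 _ (gm y hy)) (h1 _ (gm t ht)))
    · rw [m4 t ht]
      rfl
  obtain ⟨D, d1, d2, d3, d4⟩ := Nrm_gen (a := a + ε / 2) (b := b - η / 2) m1 mi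
  have n1 : ContDiff ℝ ∞ fun t => M t + Nrm_C (D t) := m1.add (Nrm_C.contDiff.comp d1)
  have n0 : ∀ t, (M t + Nrm_C (D t)) ![1, 0, 0] = (![1, 0, 0], 0) := fun t => by
    simp [m0, Nrm_C_app]
  have n3 : ∀ t, t ∉ Ioo (a + ε / 2) (b - η / 2) → M t + Nrm_C (D t) = Nrm_I := fun t ht => by
    rw [m3 t ht, d2 t ht, map_zero, add_zero]
  have l1 : a + ε / 4 < a + ε / 2 := by linarith only [hε]
  have l2 : b - η / 2 < b - η / 4 := by linarith only [hη]
  obtain ⟨τ, t1, t2⟩ := Nrm_proj l1 l2 n1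
    (fun t => by simpa using d3 1 ⟨zero_le_one, le_rfl⟩ t) n0 n3 fun t ht => by
      simpa [Nrm_C_app, Prod.ext_iff] using d4 t ht
  obtain ⟨a2, f2⟩ := Nrm_adm (a := a) (b := b) l1 l2 n1 n0 n3
  obtain ⟨a3, f3⟩ := Nrm_adm (a := a) (b := b) l1 l2
    (M := fun t => Nrm_T (τ.p t) (τ.q t) (τ.r t) (τ.s t))
    ((((contDiff_const.add (τ.sp.smul contDiff_const)).add (τ.sq.smul contDiff_const)).add
      (τ.sr.smul contDiff_const)).add (τ.ss.smul contDiff_const))
    (fun t => by simp [Nrm_T_app]) t1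
  have e4 : (fun x => i34 (τ.k x)) = Nrm_lin fun t => Nrm_T (τ.p t) (τ.q t) (τ.r t) (τ.s t) := by
    funext x
    refine Prod.ext (funext fun i => ?_) (by simp [Nrm_lin, i34, Nrm_T_app])
    fin_cases i <;> simp [Nrm_lin, i34, Nrm_T_app, Tw.k, Tw.k0, Nrm_g, Matrix.vecHead, Matrix.vecTail]
  have a1 : Adm a b (a + ε / 4) (b - η / 4) h := ⟨hs, h1, fun x hx k => by
    rw [← Nrm_g_of hx]
    exact e3 _ ⟨hx.1, hx.2.1⟩ fun k' => k ⟨l1.trans k'.1, k'.2.trans l2⟩⟩
  refine ⟨_, _, h, _, τ, by linarith only [hε], by linarith only [hη], a1, a1, a2, e4 ▸ a3, fun l _ x hx => ?_,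
    fun l hl x hx => ?_, fun l _ x hx => ?_⟩
  · rw [← add_smul, sub_add_cancel, one_smul]
    exact h2 x hx
  · rw [f2 x hx, ← Nrm_g_of hx, ← m2 _ ⟨hx.1, hx.2.1⟩, Nrm_g_of hx, smul_add, ← add_assoc, ← add_smul,
      sub_add_cancel, one_smul]
    exact d3 l hl _
  · rw [e4, f2 x hx, f3 x hx]
    exact t2 l _

end Pool.Agent.Work.MP_7ba843_gt.C
end
end

-- merged part: Pool.Agent.Work.MP_7ba843_gt.C.Gen
section
-- merged part: Pool.Agent.Work.MP_7ba843_gt.C.Tube0
section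
/-! A twisted tube is isotopic to the straight tube.

With the inverse twist `ki`, `f x = cs (x 1) (x 2)` and `S` the smooth transition, the family is
`G (t, x) = (1 - t) f x + t f (ki x) + t (1 - t) S (x 0 - a) S (b - x 0) S (1 - |x'| ^ 2 / R ^ 2)`.
All three terms have nonpositive radial derivative, and one is negative at the level one half. -/

set_option linter.unusedSectionVars false
set_option linter.unusedVariables false

open Set Filter Topology Function
open scoped ContDiff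

noncomputable section
namespace Pool.Agent.Work.MP_7ba843_gt.C

open Pool.Agent.Work.MP_bf98aa_gt.Ns (Dif)
open Pool.Agent.Work.MP_735653_gt Pool.Agent.Work.MP_7ba843_gt.N

theorem Tube0_S (t : ℝ) : HasDerivAt Real.smoothTransition (deriv Real.smoothTransition t) t :=
  ((Real.smoothTransition.contDiff (n := 1)).differentiable (by simp) t).hasDerivAt

theorem Tube0_d0 (t : ℝ) : 0 ≤ deriv Real.smoothTransition t :=
  Real.smoothTransition.monotone.deriv_nonneg

theorem Tube0_d1 {t : ℝ} (h : t ≤ 0) : deriv Real.smoothTransition t = 0 :=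
  IsLocalMin.deriv_eq_zero (.of_forall fun x => by
    rw [Real.smoothTransition.zero_of_nonpos h]
    exact Real.smoothTransition.nonneg x)

theorem Tube0_d2 {t : ℝ} (h : 1 ≤ t) : deriv Real.smoothTransition t = 0 :=
  IsLocalMax.deriv_eq_zero (.of_forall fun x => by
    rw [Real.smoothTransition.one_of_one_le h]
    exact Real.smoothTransition.le_one x)

theorem Tube0_psi (u : ℝ) :
    psi 0 (u + 1) = Real.smoothTransition (u + 3 / 2) - Real.smoothTransition (u - 1 / 2) := by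
  rw [psi, Int.cast_zero, show u + 1 - 2 * 0 + 1 / 2 = u + 3 / 2 by ring,
    show u + 1 - 2 * 0 - 2 + 1 / 2 = u - 1 / 2 by ring]

theorem Tube0_rad1 (u : ℝ) : ∃ D, HasDerivAt (fun l => psi 0 (l * u + 1)) D 1 ∧ D ≤ 0 ∧
    (D = 0 → psi 0 (u + 1) = 0 ∨ psi 0 (u + 1) = 1) := by
  have h0 : HasDerivAt (fun l : ℝ => l * u) u 1 := by
    simpa only [one_mul, id] using (hasDerivAt_id (1 : ℝ)).mul_const u
  have h1 := (Tube0_S _).comp (1 : ℝ) (h0.add_const (3 / 2))
  have h2 := (Tube0_S _).comp (1 : ℝ) (h0.sub_const (1 / 2))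
  rw [one_mul] at h1 h2
  refine ⟨_, (h1.sub h2).congr_of_eventuallyEq (.of_forall fun l => Tube0_psi _), ?_, fun h => ?_⟩
  · rcases le_total 0 u with hu | hu
    · rw [Tube0_d2 (by linarith only [hu]), zero_mul, zero_sub]
      exact neg_nonpos.2 (mul_nonneg (Tube0_d0 _) hu)
    · rw [Tube0_d1 (t := u - 1 / 2) (by linarith only [hu]), zero_mul, sub_zero]
      exact mul_nonpos_of_nonneg_of_nonpos (Tube0_d0 _) hu
  · by_contra hn
    obtain ⟨n0, n1⟩ := not_or.1 hn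
    have s0 := psi_supp n0
    rw [Int.cast_zero] at s0
    have s1 : u < -(1 / 2) ∨ 1 / 2 < u := by
      by_contra hc
      obtain ⟨c1, c2⟩ := not_or.1 hc
      exact n1 (psi_one (by rw [Int.cast_zero]; linarith only [c1]) (by rw [Int.cast_zero]; linarith only [c2]))
    rcases s1 with hu | hu
    · rw [Tube0_d1 (t := u - 1 / 2) (by linarith only [hu]), zero_mul, sub_zero] at h
      exact (mul_neg_of_pos_of_neg (deriv_smoothTransition_pos (by linarith only [s0, s0.1]) (by linarith only [hu]))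
        (by linarith only [hu])).ne h
    · rw [Tube0_d2 (by linarith only [hu]), zero_mul, zero_sub, neg_eq_zero] at h
      exact (mul_pos (deriv_smoothTransition_pos (by linarith only [hu]) (by linarith only [s0, s0.2]))
        (by linarith only [hu])).ne' h

theorem Tube0_rad (u v : ℝ) : ∃ D, HasDerivAt (fun l => cs (l * u) (l * v)) D 1 ∧ D ≤ 0 ∧
    (D = 0 → cs u v = 0 ∨ cs u v = 1) := by
  obtain ⟨D, d1, d2, d3⟩ := Tube0_rad1 u
  obtain ⟨E, e1, e2, e3⟩ := Tube0_rad1 v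
  have h := d1.mul e1
  simp only [one_mul] at h
  have p1 := mul_nonpos_of_nonpos_of_nonneg d2 (psi_nonneg 0 (v + 1))
  have p2 := mul_nonpos_of_nonneg_of_nonpos (psi_nonneg 0 (u + 1)) e2
  refine ⟨_, h, add_nonpos p1 p2, fun h0 => ?_⟩
  rw [cs]
  by_cases a : psi 0 (u + 1) = 0
  · exact Or.inl (by rw [a, zero_mul])
  by_cases b : psi 0 (v + 1) = 0
  · exact Or.inl (by rw [b, mul_zero])
  have q1 : D = 0 := (mul_eq_zero.1 (by linarith only [p2, h0, p1] : D * psi 0 (v + 1) = 0)).resolve_right b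
  have q2 : E = 0 := (mul_eq_zero.1 (by linarith only [p1, h0, p2] : psi 0 (u + 1) * E = 0)).resolve_left a
  exact Or.inr (by rw [(d3 q1).resolve_left a, (e3 q2).resolve_left b, one_mul])

theorem Tube0_supp {u v : ℝ} (h : cs u v ≠ 0) : |u| ≤ 3 / 2 ∧ |v| ≤ 3 / 2 := by
  have s0 := psi_supp (left_ne_zero_of_mul h)
  have s1 := psi_supp (right_ne_zero_of_mul h)
  rw [Int.cast_zero] at s0 s1
  exact ⟨abs_le.2 ⟨by linarith only [s0, s0.1], by linarith only [s0, s0.2]⟩,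
    abs_le.2 ⟨by linarith only [s1, s1.1], by linarith only [s1, s1.2]⟩⟩

theorem Tube0_zero : cs 0 0 = 1 := by
  rw [cs, psi_one (by norm_num) (by norm_num), one_mul]

theorem Tube0_cs {X : Type} [NormedAddCommGroup X] [NormedSpace ℝ X] {u v : X → ℝ}
    (hu : ContDiff ℝ ∞ u) (hv : ContDiff ℝ ∞ v) : ContDiff ℝ ∞ fun x => cs (u x) (v x) :=
  ((Reg_psi 0).comp (hu.add contDiff_const)).mul ((Reg_psi 0).comp (hv.add contDiff_const))

variable {a b : ℝ}

/-- The first new coordinate of the inverse twist. -/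
def Tube0_u (τ : Tw a b) (x : E3) : ℝ :=
  (τ.s (x 0) * x 1 - τ.q (x 0) * x 2) / (τ.p (x 0) * τ.s (x 0) - τ.q (x 0) * τ.r (x 0))

/-- The second new coordinate of the inverse twist. -/
def Tube0_v (τ : Tw a b) (x : E3) : ℝ :=
  (τ.p (x 0) * x 2 - τ.r (x 0) * x 1) / (τ.p (x 0) * τ.s (x 0) - τ.q (x 0) * τ.r (x 0))

theorem Tube0_inv (τ : Tw a b) (x : E3) :
    τ.p (x 0) * Tube0_u τ x + τ.q (x 0) * Tube0_v τ x = x 1 ∧
      τ.r (x 0) * Tube0_u τ x + τ.s (x 0) * Tube0_v τ x = x 2 := by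
  have h := τ.det (x 0)
  rw [Tube0_u, Tube0_v, ← mul_div_assoc, ← mul_div_assoc, ← mul_div_assoc, ← mul_div_assoc,
    ← add_div, ← add_div, div_eq_iff h, div_eq_iff h]
  constructor <;> ring

theorem Tube0_inv' (τ : Tw a b) (x : E3) :
    Tube0_u τ (τ.k0 x) = x 1 ∧ Tube0_v τ (τ.k0 x) = x 2 := by
  have h := τ.det (x 0)
  have e0 : τ.k0 x 0 = x 0 := rfl
  have e1 : τ.k0 x 1 = τ.p (x 0) * x 1 + τ.q (x 0) * x 2 := rfl
  have e2 : τ.k0 x 2 = τ.r (x 0) * x 1 + τ.s (x 0) * x 2 := rfl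
  rw [Tube0_u, Tube0_v, e0, e1, e2, div_eq_iff h, div_eq_iff h]
  constructor <;> ring

theorem Tube0_out (τ : Tw a b) {x : E3} (h : x 0 ∉ Ioo a b) :
    Tube0_u τ x = x 1 ∧ Tube0_v τ x = x 2 := by
  obtain ⟨h1, h2, h3, h4⟩ := τ.out _ h
  have h5 := Tube0_inv τ x
  rw [h1, h2, h3, h4] at h5
  exact ⟨by linarith only [h5, h5.1], by linarith [h5.2]⟩

theorem Tube0_bd {f : ℝ → ℝ} (hf : Continuous f) (h : ∀ t, t ∉ Ioo a b → |f t| ≤ 1) :
    ∃ B, 1 ≤ B ∧ ∀ t, |f t| ≤ B := by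
  obtain ⟨B, hB⟩ := (isCompact_Icc (a := a) (b := b)).exists_bound_of_continuousOn hf.continuousOn
  refine ⟨max 1 B, le_max_left _ _, fun t => ?_⟩
  by_cases ht : t ∈ Ioo a b
  · exact (hB t (Ioo_subset_Icc_self ht)).trans (le_max_right _ _)
  · exact (h t ht).trans (le_max_left _ _)

theorem Tube0_R (τ : Tw a b) : ∃ R : ℝ, 0 < R ∧ ∀ x : E3, R ^ 2 ≤ x 1 ^ 2 + x 2 ^ 2 →
    cs (x 1) (x 2) = 0 ∧ cs (Tube0_u τ x) (Tube0_v τ x) = 0 := by
  obtain ⟨B, h1, hB⟩ := Tube0_bd (a := a) (b := b)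
    (f := fun t => (|τ.p t| + |τ.q t| + |τ.r t| + |τ.s t|) / 2)
    ((((τ.sp.continuous.abs.add τ.sq.continuous.abs).add τ.sr.continuous.abs).add
      τ.ss.continuous.abs).div_const 2) fun t ht => by
      obtain ⟨h1, h2, h3, h4⟩ := τ.out t ht
      rw [h1, h2, h3, h4]
      norm_num
  have key : ∀ x : E3, |x 1| + |x 2| ≤ 3 * B → x 1 ^ 2 + x 2 ^ 2 < (4 * B) ^ 2 := fun x hx => by
    have h2 := pow_le_pow_left₀ (by positivity) hx 2
    have h3 := mul_nonneg (abs_nonneg (x 1)) (abs_nonneg (x 2))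
    rw [← sq_abs (x 1), ← sq_abs (x 2)]
    linarith only [h1, h2, h3, mul_nonneg_of_nonpos_of_nonpos (Mathlib.Tactic.Linarith.sub_nonpos_of_le h1) (Mathlib.Tactic.Linarith.sub_nonpos_of_le h1)]
  refine ⟨4 * B, by positivity, fun x hx => ⟨by_contra fun h => (key x ?_).not_ge hx,
    by_contra fun h => (key x ?_).not_ge hx⟩⟩
  · linarith only [h1, h, (Tube0_supp h).1, (Tube0_supp h).2]
  · obtain ⟨s1, s2⟩ := Tube0_supp h
    obtain ⟨e1, e2⟩ := Tube0_inv τ x
    have k : ∀ c d : ℝ, |c * Tube0_u τ x + d * Tube0_v τ x| ≤ (|c| + |d|) * (3 / 2) := fun c d => by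
      refine (abs_add_le _ _).trans ?_
      rw [abs_mul, abs_mul, add_mul]
      exact add_le_add (mul_le_mul_of_nonneg_left s1 (abs_nonneg _))
        (mul_le_mul_of_nonneg_left s2 (abs_nonneg _))
    have k1 := k (τ.p (x 0)) (τ.q (x 0))
    have k2 := k (τ.r (x 0)) (τ.s (x 0))
    rw [e1] at k1
    rw [e2] at k2
    linarith only [k1, k2, hB, (le_abs_self _).trans (hB (x 0))]

/-- The family of functions. -/
def Tube0_G (τ : Tw a b) (R : ℝ) (p : ℝ × E3) : ℝ :=
  (1 - p.1) * cs (p.2 1) (p.2 2) + p.1 * cs (Tube0_u τ p.2) (Tube0_v τ p.2) +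
    p.1 * (1 - p.1) * (Real.smoothTransition (p.2 0 - a) * Real.smoothTransition (b - p.2 0)) *
      Real.smoothTransition (1 - (p.2 1 ^ 2 + p.2 2 ^ 2) / R ^ 2)

theorem Tube0_smooth (τ : Tw a b) (R : ℝ) : ContDiff ℝ ∞ (Tube0_G τ R) := by
  have c : ∀ i, ContDiff ℝ ∞ fun p : ℝ × E3 => p.2 i := fun i =>
    (contDiff_apply ℝ ℝ i).comp contDiff_snd
  have hp := τ.sp.comp (c 0)
  have hq := τ.sq.comp (c 0)
  have hr := τ.sr.comp (c 0)
  have hs := τ.ss.comp (c 0)
  have hd := (hp.mul hs).sub (hq.mul hr)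
  have hu : ContDiff ℝ ∞ fun p : ℝ × E3 => Tube0_u τ p.2 :=
    ((hs.mul (c 1)).sub (hq.mul (c 2))).div hd fun p => τ.det _
  have hv : ContDiff ℝ ∞ fun p : ℝ × E3 => Tube0_v τ p.2 :=
    ((hp.mul (c 2)).sub (hr.mul (c 1))).div hd fun p => τ.det _
  have h1 : ContDiff ℝ ∞ fun p : ℝ × E3 => 1 - p.1 := contDiff_const.sub contDiff_fst
  exact ((h1.mul (Tube0_cs (c 1) (c 2))).add (contDiff_fst.mul (Tube0_cs hu hv))).add
    (((contDiff_fst.mul h1).mul
      ((Real.smoothTransition.contDiff.comp ((c 0).sub contDiff_const)).mul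
        (Real.smoothTransition.contDiff.comp (contDiff_const.sub (c 0))))).mul
      (Real.smoothTransition.contDiff.comp
        (contDiff_const.sub ((((c 1).pow 2).add ((c 2).pow 2)).div_const _))))

theorem Tube0_G0 (τ : Tw a b) (R : ℝ) (x : E3) : Tube0_G τ R (0, x) = cs (x 1) (x 2) := by
  simp only [Tube0_G, sub_zero, one_mul, zero_mul, add_zero]

theorem Tube0_G1 (τ : Tw a b) (R : ℝ) (x : E3) :
    Tube0_G τ R (1, x) = cs (Tube0_u τ x) (Tube0_v τ x) := by
  simp only [Tube0_G, sub_self, one_mul, zero_mul, add_zero, zero_add]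

theorem Tube0_Gout (τ : Tw a b) (R t : ℝ) {x : E3} (h : x 0 ∉ Ioo a b) :
    Tube0_G τ R (t, x) = cs (x 1) (x 2) := by
  have h0 : Real.smoothTransition (x 0 - a) * Real.smoothTransition (b - x 0) = 0 := by
    rcases not_and_or.1 h with h | h
    · rw [Real.smoothTransition.zero_of_nonpos (sub_nonpos.2 (not_lt.1 h)), zero_mul]
    · rw [Real.smoothTransition.zero_of_nonpos (sub_nonpos.2 (not_lt.1 h)), mul_zero]
  simp only [Tube0_G, (Tube0_out τ h).1, (Tube0_out τ h).2, h0]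
  ring

theorem Tube0_Gfar (τ : Tw a b) {R : ℝ} (hR : 0 < R) (t : ℝ) {x : E3}
    (h : R ^ 2 ≤ x 1 ^ 2 + x 2 ^ 2) (h1 : cs (x 1) (x 2) = 0)
    (h2 : cs (Tube0_u τ x) (Tube0_v τ x) = 0) : Tube0_G τ R (t, x) = 0 := by
  have h0 := Real.smoothTransition.zero_of_nonpos
    (sub_nonpos.2 ((one_le_div (pow_pos hR 2)).2 h))
  simp only [Tube0_G, h0, h1, h2, mul_zero, add_zero]

theorem Tube0_reg (τ : Tw a b) {R : ℝ} (hR : 0 < R) (hf : ∀ x : E3, R ^ 2 ≤ x 1 ^ 2 + x 2 ^ 2 →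
    cs (x 1) (x 2) = 0 ∧ cs (Tube0_u τ x) (Tube0_v τ x) = 0) {t : ℝ} (ht : t ∈ Icc (0 : ℝ) 1)
    {x : E3} (hx : Tube0_G τ R (t, x) = 1 / 2) :
    fderiv ℝ (fun y => Tube0_G τ R (t, y)) x ≠ 0 := by
  intro h0
  let w : E3 := ![0, x 1, x 2]
  have e : x - w + (1 : ℝ) • w = x := by rw [one_smul, sub_add_cancel]
  have h1 : HasDerivAt (fun l : ℝ => x - w + l • w) ((1 : ℝ) • w) 1 :=
    ((hasDerivAt_id (1 : ℝ)).smul_const w).const_add _
  have h2 : HasFDerivAt (fun y => Tube0_G τ R (t, y)) (0 : E3 →L[ℝ] ℝ) (x - w + (1 : ℝ) • w) := by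
    rw [e, ← h0]
    exact (((Tube0_smooth τ R).comp (contDiff_const.prodMk contDiff_id)).differentiable
      (by simp) x).hasFDerivAt
  have h3 := h2.comp_hasDerivAt (1 : ℝ) h1
  obtain ⟨D, d1, d2, d3⟩ := Tube0_rad (x 1) (x 2)
  obtain ⟨E, e1, e2, e3⟩ := Tube0_rad (Tube0_u τ x) (Tube0_v τ x)
  obtain ⟨ρ, hρ⟩ : ∃ ρ, ρ = (x 1 ^ 2 + x 2 ^ 2) / R ^ 2 := ⟨_, rfl⟩
  obtain ⟨β, hβ⟩ : ∃ β, β = Real.smoothTransition (x 0 - a) * Real.smoothTransition (b - x 0) :=
    ⟨_, rfl⟩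
  have f0 : HasDerivAt (fun l : ℝ => 1 - l ^ 2 * ρ) (-(2 * ρ)) 1 := by
    simpa using ((hasDerivAt_pow 2 (1 : ℝ)).mul_const ρ).const_sub 1
  have f1 := (Tube0_S _).comp (1 : ℝ) f0
  have h4 := ((d1.const_mul (1 - t)).add (e1.const_mul t)).add (f1.const_mul (t * (1 - t) * β))
  have h5 := h3.unique (h4.congr_of_eventuallyEq (.of_forall fun l => by
    have c0 : (x - w + l • w) 0 = x 0 := by
      change x 0 - 0 + l * 0 = _
      ring
    have c1 : (x - w + l • w) 1 = l * x 1 := by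
      change x 1 - x 1 + l * x 1 = _
      ring
    have c2 : (x - w + l • w) 2 = l * x 2 := by
      change x 2 - x 2 + l * x 2 = _
      ring
    have c3 : Tube0_u τ (x - w + l • w) = l * Tube0_u τ x := by
      rw [Tube0_u, Tube0_u, c0, c1, c2]
      ring
    have c4 : Tube0_v τ (x - w + l • w) = l * Tube0_v τ x := by
      rw [Tube0_v, Tube0_v, c0, c1, c2]
      ring
    have c5 : ((l * x 1) ^ 2 + (l * x 2) ^ 2) / R ^ 2 = l ^ 2 * ρ := by
      rw [hρ]
      ring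
    change Tube0_G τ R (t, x - w + l • w) = _
    rw [Tube0_G]
    dsimp only
    rw [c0, c1, c2, c3, c4, c5, hβ]
    rfl))
  rw [one_pow, one_mul, zero_apply] at h5
  have r0 : 0 ≤ ρ := by rw [hρ]; positivity
  have b0 : 0 ≤ β := by
    rw [hβ]
    exact mul_nonneg (Real.smoothTransition.nonneg _) (Real.smoothTransition.nonneg _)
  have t0 := ht.1
  have t1 := sub_nonneg.2 ht.2
  have p1 := mul_nonpos_of_nonneg_of_nonpos t1 d2
  have p2 := mul_nonpos_of_nonneg_of_nonpos t0 e2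
  have p3 := mul_nonneg (mul_nonneg (mul_nonneg t0 t1) b0) (mul_nonneg (Tube0_d0 (1 - ρ)) r0)
  have q1 : (1 - t) * D = 0 := by linarith only [h5, p2, p3, p1]
  have q2 : t * E = 0 := by linarith only [h5, p1, p3, p2]
  have q3 : t * (1 - t) * β * (deriv Real.smoothTransition (1 - ρ) * ρ) = 0 := by linarith only [p3, h5, p1, p2]
  have k : ∀ c : ℝ, c = 1 / 2 → ¬ (c = 0 ∨ c = 1) := fun c hc => by
    rw [hc]
    norm_num
  by_cases z0 : t = 0
  · rw [z0, Tube0_G0] at hx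
    exact k _ hx (d3 (by rwa [z0, sub_zero, one_mul] at q1))
  by_cases z1 : t = 1
  · rw [z1, Tube0_G1] at hx
    exact k _ hx (e3 (by rwa [z1, one_mul] at q2))
  have z2 : 1 - t ≠ 0 := sub_ne_zero.2 (Ne.symm z1)
  by_cases z3 : x 0 ∈ Ioo a b
  swap
  · rw [Tube0_Gout τ R t z3] at hx
    exact k _ hx (d3 ((mul_eq_zero.1 q1).resolve_left z2))
  have z4 : β ≠ 0 := by
    rw [hβ]
    exact (mul_pos (Real.smoothTransition.pos_of_pos (sub_pos.2 z3.1))
      (Real.smoothTransition.pos_of_pos (sub_pos.2 z3.2))).ne'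
  have z5 := (mul_eq_zero.1 q3).resolve_left (mul_ne_zero (mul_ne_zero z0 z2) z4)
  rcases le_or_gt (R ^ 2) (x 1 ^ 2 + x 2 ^ 2) with z6 | z6
  · rw [Tube0_Gfar τ hR t z6 (hf x z6).1 (hf x z6).2] at hx
    norm_num at hx
  have z7 : ρ < 1 := hρ ▸ (div_lt_one (pow_pos hR 2)).2 z6
  have z8 : ρ = 0 := by_contra fun h => by
    have := r0.lt_of_ne' h
    exact (mul_pos (deriv_smoothTransition_pos (by linarith only [z7]) (by linarith only [this])) this).ne' z5
  have z9 : x 1 ^ 2 + x 2 ^ 2 = 0 :=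
    (div_eq_zero_iff.1 (hρ ▸ z8)).resolve_right (pow_pos hR 2).ne'
  have s1 := sq_nonneg (x 1)
  have s2 := sq_nonneg (x 2)
  have x1 : x 1 = 0 := (pow_eq_zero_iff two_ne_zero).1 (by linarith only [s1, z9, s2])
  have x2 : x 2 = 0 := (pow_eq_zero_iff two_ne_zero).1 (by linarith only [s2, z9, s1])
  have y1 : Tube0_u τ x = 0 := by rw [Tube0_u, x1, x2]; ring
  have y2 : Tube0_v τ x = 0 := by rw [Tube0_v, x1, x2]; ring
  have p4 := mul_nonneg (mul_nonneg (mul_nonneg t0 t1) b0) (Real.smoothTransition.nonneg (1 - ρ))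
  simp only [Tube0_G, ← hβ, ← hρ] at hx
  rw [y1, y2, x1, x2, Tube0_zero] at hx
  linarith only [p4, hx]

theorem Tube0_img (τ : Tw a b) {m : E3 → E3} (hm : Surjective m) {P : ℝ → Prop}
    (h : ∀ x, P (cs (Tube0_u τ (m x)) (Tube0_v τ (m x))) ↔ P (cs (x 1) (x 2))) :
    m '' {x | P (cs (x 1) (x 2))} = τ.k0 '' {x | P (cs (x 1) (x 2))} := by
  refine Subset.antisymm ?_ ?_
  · rintro _ ⟨x, hx, rfl⟩
    refine ⟨![m x 0, Tube0_u τ (m x), Tube0_v τ (m x)], (h x).2 hx, funext fun i => ?_⟩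
    fin_cases i
    · rfl
    · exact (Tube0_inv τ (m x)).1
    · exact (Tube0_inv τ (m x)).2
  · rintro _ ⟨x, hx, rfl⟩
    obtain ⟨y, hy⟩ := hm (τ.k0 x)
    refine ⟨y, (h y).1 ?_, hy⟩
    rw [hy, (Tube0_inv' τ x).1, (Tube0_inv' τ x).2]
    exact hx

theorem unit_tube {a' b' a'' b'' : ℝ} (ha : a'' < a') (hb : b' < b'') (τ : Tw a' b') :
    ∃ (R : ℝ) (m : ℝ → E3 → E3), Isot m ∧
      (∀ t ∈ Icc (0 : ℝ) 1, ∀ x, x ∉ Bx ![a'', -R, -R] ![b'', R, R] → m t x = x) ∧
      (∀ t ∈ Icc (0 : ℝ) 1, ∀ x ∈ Bx ![a'', -R, -R] ![b'', R, R],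
        m t x ∈ Bx ![a'', -R, -R] ![b'', R, R]) ∧
      m 1 '' {x | 1 / 2 ≤ cs (x 1) (x 2)} = τ.k0 '' {x | 1 / 2 ≤ cs (x 1) (x 2)} ∧
      m 1 '' {x | cs (x 1) (x 2) = 1 / 2} = τ.k0 '' {x | cs (x 1) (x 2) = 1 / 2} := by
  obtain ⟨R, hR, hf⟩ := Tube0_R τ
  have hC : IsCompact (Bx ![a'', -R, -R] ![b'', R, R]) := by
    rw [show Bx ![a'', -R, -R] ![b'', R, R] = Icc ![a'', -R, -R] ![b'', R, R] from
      Set.ext fun x => forall_and]
    exact isCompact_Icc
  obtain ⟨m, d, h1, h2, h3, h4, h5⟩ := iso_fam (Tube0_smooth τ R) (c := 1 / 2) hC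
    (fun t _ x hx => by
      by_cases z : x 0 ∈ Ioo a' b'
      swap
      · rw [Tube0_Gout τ R t z, Tube0_Gout τ R 0 z]
      have z1 : R ^ 2 ≤ x 1 ^ 2 + x 2 ^ 2 := by
        by_contra hn
        have n1 := abs_le_of_sq_le_sq' (show x 1 ^ 2 ≤ R ^ 2 by linarith only [hn, sq_nonneg (x 2), sq_nonneg (x (2 : Fin (3 : ℕ)))]) hR.le
        have n2 := abs_le_of_sq_le_sq' (show x 2 ^ 2 ≤ R ^ 2 by linarith only [hn, sq_nonneg (x 1), sq_nonneg (x (1 : Fin (3 : ℕ)))]) hR.le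
        refine hx fun i => ?_
        fin_cases i
        exacts [⟨(ha.trans z.1).le, (z.2.trans hb).le⟩, n1, n2]
      rw [Tube0_Gfar τ hR t z1 (hf x z1).1 (hf x z1).2,
        Tube0_Gfar τ hR 0 z1 (hf x z1).1 (hf x z1).2])
    fun t ht x _ hx => Tube0_reg τ hR hf ht hx
  have hs : Surjective (m 1) := fun y => ⟨d.toEquiv.symm y, (h2 _).symm.trans
    (d.toEquiv.apply_symm_apply y)⟩
  have h6 := h5 1 ⟨zero_le_one, le_rfl⟩
  simp only [Tube0_G0, Tube0_G1] at h6
  exact ⟨R, m, h1, h3, h4, Tube0_img τ hs (P := fun c => 1 / 2 ≤ c) fun x => (h6 x).1,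
    Tube0_img τ hs (P := fun c => c = 1 / 2) fun x => (h6 x).2⟩

end Pool.Agent.Work.MP_7ba843_gt.C
end
end

-- merged part: Pool.Agent.Work.MP_7ba843_gt.C.Thin
section
/-! The contraction of the model towards its core graph.

PLAN. `stair g` is smooth and monotone, equals `4 i + 1` on `[4 i - 1 / 2, 4 i + 5 / 2]` for
`i ≤ 2 g + 1` and has values in `[4 i + 1, 4 i + 5]` on `[4 i + 5 / 2, 4 i + 7 / 2]`. Points of `NK`
have coordinates in `(-1 / 2, 8 g + 13 / 2)` (`FK_pos`). `tau_mem`: change one coordinate at a time.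
Along a coordinate line `FK K (update x i t) = ∑ b, psi b t * Q b` with `Q (odd) ≤ Q (adjacent
even)` for down-closed `K`; or use `FK_eq` with `pD_anti`: for `t` in the zone of the vertex
`v = 4 i + 1` moving towards `v` decreases the weight of the odd cell (treat `t ≥ v` and `t ≤ v`
with `k = 2 i + 1` and `k = 2 i`); for `t` in `[4 i + 5 / 2, 4 i + 7 / 2]` the weight of the odd cell
is one, first move to `4 i + 5 / 2` or `4 i + 7 / 2` at constant value. `tau_core`: take a cell from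
`FK_pos` and look at the cases of `Gp`. `thin`: `tau g ε x → tau g 0 x` uniformly on the compact
set (`IsCompact.eventually_forall_of_forall_eventually`). `tube_desc`: `t ↦ ε t + (1 - ε) stair g t`
is strictly increasing and onto; for `y 0 ∈ [8 j + 13 / 2, 8 j + 15 / 2]` and `y 1 > 5 / 2` one has
`FK (gr3 g) y = psi 2 (y 1) * psi 0 (y 2)` (`FK_congr`, `FK_prod`, `psi_shift`). About 400 lines. -/

set_option linter.unusedSectionVars false
set_option linter.unusedVariables false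

open Set Filter Topology Function
open scoped ContDiff

noncomputable section
namespace Pool.Agent.Work.MP_7ba843_gt.C

open Pool.Agent.Work.MP_bf98aa_gt.Ns (Dif)
open Pool.Agent.Work.MP_735653_gt Pool.Agent.Work.MP_7ba843_gt.N

variable {g : ℕ}

theorem Thin_smooth (g : ℕ) : ContDiff ℝ ∞ (stair g) := by
  unfold stair
  refine contDiff_const.add (contDiff_const.mul (ContDiff.sum fun i _ => ?_))
  exact Real.smoothTransition.contDiff.comp ((contDiff_id.sub contDiff_const).sub contDiff_const)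

theorem Thin_mono (g : ℕ) : Monotone (stair g) := fun s t h => by
  unfold stair
  have : ∑ i ∈ Finset.range (2 * g + 1), Real.smoothTransition (s - 4 * (i : ℕ) - 5 / 2) ≤
      ∑ i ∈ Finset.range (2 * g + 1), Real.smoothTransition (t - 4 * (i : ℕ) - 5 / 2) :=
    Finset.sum_le_sum fun i _ => Real.smoothTransition.monotone (by linarith only [h])
  linarith only [this]

theorem Thin_const {n : ℕ} (hn : n ≤ 2 * g + 1) {t : ℝ} (h1 : 4 * (n : ℝ) - 1 / 2 ≤ t)
    (h2 : t ≤ 4 * (n : ℝ) + 5 / 2) : stair g t = 4 * n + 1 := by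
  unfold stair
  rw [← Finset.sum_range_add_sum_Ico _ hn]
  have e1 : ∑ i ∈ Finset.range n, Real.smoothTransition (t - 4 * (i : ℕ) - 5 / 2) = n := by
    rw [Finset.sum_congr rfl fun i hi => Real.smoothTransition.one_of_one_le (by
      have : (i : ℝ) + 1 ≤ n := by exact_mod_cast Finset.mem_range.1 hi
      linarith only [h1, this])]
    simp
  have e2 : ∑ i ∈ Finset.Ico n (2 * g + 1), Real.smoothTransition (t - 4 * (i : ℕ) - 5 / 2) = 0 :=
    Finset.sum_eq_zero fun i hi => Real.smoothTransition.zero_of_nonpos (by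
      have : (n : ℝ) ≤ i := by exact_mod_cast (Finset.mem_Ico.1 hi).1
      linarith only [h2, this])
  rw [e1, e2]
  ring

theorem Thin_zone {t : ℝ} (h1 : -(1 / 2) < t) (h2 : t < 8 * g + 13 / 2) : ∃ n : ℕ,
    4 * (n : ℝ) - 1 / 2 ≤ t ∧ t < 4 * (n : ℝ) + 7 / 2 ∧ 4 * (n : ℝ) + 1 ≤ stair g t ∧
      stair g t ≤ 4 * (n : ℝ) + 5 ∧ (t ≤ 4 * (n : ℝ) + 5 / 2 → stair g t = 4 * n + 1) := by
  have h0 : 0 ≤ (t + 1 / 2) / 4 := by linarith only [h1]
  have a1 := Nat.floor_le h0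
  have a2 := Nat.lt_floor_add_one ((t + 1 / 2) / 4)
  generalize ⌊(t + 1 / 2) / 4⌋₊ = n at a1 a2
  have hn : n ≤ 2 * g + 1 := by
    have : (n : ℝ) < 2 * g + 1 + 1 := by linarith only [h2, a1]
    exact_mod_cast Nat.lt_succ_iff.1 (by exact_mod_cast this)
  have b1 : 4 * (n : ℝ) - 1 / 2 ≤ t := by linarith only [a1]
  refine ⟨n, b1, by linarith only [a2], ?_, ?_, fun h => Thin_const hn b1 h⟩
  · rw [← Thin_const hn le_rfl (by linarith only [])]
    exact Thin_mono g b1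
  · by_cases h : t ≤ 4 * (n : ℝ) + 5 / 2
    · rw [Thin_const hn b1 h]
      linarith only []
    · have hn' : n + 1 ≤ 2 * g + 1 := by
        have : (n : ℝ) < 2 * g + 1 := by linarith only [h2, h]
        exact_mod_cast this
      have h3 := Thin_const hn' (t := 4 * (n : ℝ) + 7 / 2) (by push_cast; linarith only [])
        (by push_cast; linarith only [])
      have h4 := Thin_mono g (show t ≤ 4 * (n : ℝ) + 7 / 2 by linarith only [a2])
      push_cast at h3
      linarith only [h4, h3]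

theorem Thin_cell {a : ℤ} (h0 : 0 ≤ a) (h1 : a ≤ 4 * g + 2) {t : ℝ} (h2 : 2 * (a : ℝ) - 1 / 2 < t)
    (h3 : t < 2 * (a : ℝ) + 5 / 2) : (a % 2 = 0 → stair g t = 2 * a + 1) ∧
      (a % 2 = 1 → 2 * (a : ℝ) - 1 ≤ stair g t ∧ stair g t ≤ 2 * a + 3) := by
  constructor
  · intro h
    obtain ⟨n, rfl⟩ : ∃ n : ℕ, a = 2 * n := ⟨(a / 2).toNat, by omega⟩
    push_cast at h2 h3 ⊢
    rw [Thin_const (n := n) (by omega) (by linarith only [h2]) (by linarith only [h3])]
    ring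
  · intro h
    obtain ⟨n, rfl⟩ : ∃ n : ℕ, a = 2 * n + 1 := ⟨(a / 2).toNat, by omega⟩
    push_cast at h2 h3 ⊢
    have e1 := Thin_const (g := g) (n := n) (by omega) (t := 4 * (n : ℝ) + 1) (by linarith only [])
      (by linarith only [])
    have e2 := Thin_const (g := g) (n := n + 1) (by omega) (t := 4 * (n : ℝ) + 5)
      (by push_cast; linarith only []) (by push_cast; linarith only [])
    have e3 := Thin_mono g (show 4 * (n : ℝ) + 1 ≤ t by linarith only [h2])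
    have e4 := Thin_mono g (show t ≤ 4 * (n : ℝ) + 5 by linarith only [h3])
    push_cast at e2
    constructor <;> linarith only [e1, e3, e4, e2]

theorem Thin_better {ε : ℝ} (hε : ε ∈ Icc (0 : ℝ) 1) {t : ℝ} (h1 : -(1 / 2) < t)
    (h2 : t < 8 * g + 13 / 2) : ∃ k : ℤ, |t - 2 * k| < 3 / 2 ∧
      |ε * t + (1 - ε) * stair g t - 2 * k| < 3 / 2 ∧
      qk k (ε * t + (1 - ε) * stair g t) ≤ qk k t := by
  obtain ⟨n, a1, a2, a3, a4, a5⟩ := Thin_zone h1 h2
  obtain ⟨e0, e1⟩ := hε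
  generalize stair g t = σ at a3 a4 a5
  rcases le_total σ t with h | h
  · have b1 : σ ≤ ε * t + (1 - ε) * σ := by linarith only [e0, h, mul_nonneg_of_nonpos_of_nonpos (Mathlib.Tactic.Linarith.sub_nonpos_of_le e0) (Mathlib.Tactic.Linarith.sub_nonpos_of_le h)]
    have b2 : ε * t + (1 - ε) * σ ≤ t := by linarith only [e1, h, mul_nonneg_of_nonpos_of_nonpos (Mathlib.Tactic.Linarith.sub_nonpos_of_le e1) (Mathlib.Tactic.Linarith.sub_nonpos_of_le h)]
    generalize ε * t + (1 - ε) * σ = s at b1 b2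
    refine ⟨2 * n + 1, ?_, ?_, ?_⟩
    · push_cast
      rw [abs_lt]
      constructor <;> linarith only [a3, h, a2]
    · push_cast
      rw [abs_lt]
      constructor <;> linarith only [a3, b1, a2, b2]
    · rw [qk, qk, dk, if_pos (by omega)]
      linarith only [b2]
  · have b1 : ε * t + (1 - ε) * σ ≤ σ := by linarith only [e0, h, mul_nonneg_of_nonpos_of_nonpos (Mathlib.Tactic.Linarith.sub_nonpos_of_le e0) (Mathlib.Tactic.Linarith.sub_nonpos_of_le h)]
    have b2 : t ≤ ε * t + (1 - ε) * σ := by linarith only [e1, h, mul_nonneg_of_nonpos_of_nonpos (Mathlib.Tactic.Linarith.sub_nonpos_of_le e1) (Mathlib.Tactic.Linarith.sub_nonpos_of_le h)]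
    generalize ε * t + (1 - ε) * σ = s at b1 b2
    by_cases h3 : t ≤ 4 * (n : ℝ) + 5 / 2
    · have a6 := a5 h3
      refine ⟨2 * n, ?_, ?_, ?_⟩
      · push_cast
        rw [abs_lt]
        constructor <;> linarith only [a1, h, a6]
      · push_cast
        rw [abs_lt]
        constructor <;> linarith only [a1, b2, b1, a6]
      · rw [qk, qk, dk, if_neg (by omega)]
        linarith only [b2]
    · refine ⟨2 * n + 2, ?_, ?_, ?_⟩
      · push_cast
        rw [abs_lt]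
        constructor <;> linarith only [h3, a2]
      · push_cast
        rw [abs_lt]
        constructor <;> linarith only [b2, h3, a4, b1]
      · rw [qk, qk, dk, if_neg (by omega)]
        linarith only [b2]

theorem Thin_strict (g : ℕ) {ε : ℝ} (h0 : 0 < ε) (h1 : ε ≤ 1) :
    StrictMono fun t => ε * t + (1 - ε) * stair g t := fun s t h => by
  have h2 := mul_le_mul_of_nonneg_left (Thin_mono g h.le) (sub_nonneg.2 h1)
  have h3 := mul_lt_mul_of_pos_left h h0
  simp only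
  linarith

theorem Thin_surj (g : ℕ) {ε : ℝ} (h0 : 0 < ε) (h1 : ε ≤ 1) (u : ℝ) :
    ∃ t, ε * t + (1 - ε) * stair g t = u := by
  have hc : Continuous fun t => ε * t + (1 - ε) * stair g t :=
    (continuous_const.mul continuous_id).add (continuous_const.mul (Thin_smooth g).continuous)
  have hM : 0 ≤ |u - (1 - ε) * stair g 0| / ε := by positivity
  have hM' : ε * (|u - (1 - ε) * stair g 0| / ε) = |u - (1 - ε) * stair g 0| := by field_simp
  have a1 := le_abs_self (u - (1 - ε) * stair g 0)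
  have a2 := neg_abs_le (u - (1 - ε) * stair g 0)
  generalize |u - (1 - ε) * stair g 0| = A at hM hM' a1 a2
  generalize A / ε = M at hM hM'
  have b1 := mul_le_mul_of_nonneg_left (Thin_mono g hM) (sub_nonneg.2 h1)
  have b2 := mul_le_mul_of_nonneg_left (Thin_mono g (neg_nonpos.2 hM)) (sub_nonneg.2 h1)
  exact intermediate_value_univ (-M) M hc ⟨by linarith only [a2, hM', b2], by linarith⟩

theorem Thin_inj (g : ℕ) {ε : ℝ} (h0 : 0 < ε) (h1 : ε ≤ 1) : Injective (tau g ε) :=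
  fun _ _ h => funext fun i => (Thin_strict g h0 h1).injective (congrFun h i)

theorem Thin_imm (g : ℕ) {ε : ℝ} (h0 : 0 < ε) (h1 : ε ≤ 1) (x : E3) :
    Injective (fderiv ℝ (tau g ε) x) := by
  have hd : ∀ t, HasDerivAt (fun t => ε * t + (1 - ε) * stair g t)
      (ε * 1 + (1 - ε) * deriv (stair g) t) t := fun t =>
    ((hasDerivAt_id t).const_mul ε).add
      (((Thin_smooth g).differentiable (by simp) t).hasDerivAt.const_mul (1 - ε))
  have hF : HasFDerivAt (tau g ε) (ContinuousLinearMap.pi fun i =>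
      (ε * 1 + (1 - ε) * deriv (stair g) (x i)) •
        (ContinuousLinearMap.proj i : E3 →L[ℝ] ℝ)) x :=
    hasFDerivAt_pi.2 fun i => HasDerivAt.comp_hasFDerivAt (f := fun y : E3 => y i) x (hd (x i))
      (hasFDerivAt_apply i x)
  rw [hF.fderiv]
  intro v w h
  funext i
  have h2 := congrFun h i
  simp only [ContinuousLinearMap.pi_apply, smul_apply,
    ContinuousLinearMap.proj_apply, smul_eq_mul] at h2
  have h3 := mul_nonneg (sub_nonneg.2 h1) ((Thin_mono g).deriv_nonneg (x := x i))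
  exact mul_left_cancel₀ (by linarith) h2

theorem Thin_psi {n : ℕ} (hn : n ≤ 2 * g + 1) {ε : ℝ} (h0 : 0 < ε) (h1 : ε ≤ 1) (t : ℝ) :
    psi 0 ((ε * t + (1 - ε) * stair g t - (4 * n + 1)) / ε + 1) = psi (2 * n) t := by
  have z : ∀ (a : ℤ) (u : ℝ), (u ≤ 2 * a - 1 / 2 ∨ 2 * a + 5 / 2 ≤ u) → psi a u = 0 := by
    intro a u h
    by_contra hne
    have := psi_supp hne
    rcases h with h | h <;> linarith only [this, h, this.1, this.2]
  rcases le_or_gt t (4 * (n : ℝ) - 1 / 2) with h | h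
  · have a1 := (Thin_strict g h0 h1).monotone h
    rw [Thin_const hn le_rfl (by linarith only [])] at a1
    rw [z _ t (Or.inl (by push_cast; linarith only [h])), z _ _ (Or.inl ?_)]
    have : (ε * t + (1 - ε) * stair g t - (4 * n + 1)) / ε ≤ -(3 / 2) := by
      rw [div_le_iff₀ h0]
      linarith only [a1]
    push_cast
    linarith only [this]
  rcases le_or_gt (4 * (n : ℝ) + 5 / 2) t with h' | h'
  · have a1 := (Thin_strict g h0 h1).monotone h'
    rw [Thin_const hn (by linarith only []) le_rfl] at a1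
    rw [z _ t (Or.inr (by push_cast; linarith only [h'])), z _ _ (Or.inr ?_)]
    have : 3 / 2 ≤ (ε * t + (1 - ε) * stair g t - (4 * n + 1)) / ε := by
      rw [le_div_iff₀ h0]
      linarith only [a1]
    push_cast
    linarith only [this]
  · rw [Thin_const hn h.le h'.le, ← psi_shift (2 * n) 0, zero_add]
    congr 1
    push_cast
    field_simp
    ring

theorem Thin_range {x : E3} (hx : x ∈ NK (gr3 g)) : ∃ a : Cell 3, Gp g (a 0) (a 1) ∧ a 2 = 0 ∧
    (∀ i, 0 ≤ a i ∧ a i ≤ 4 * g + 2) ∧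
      ∀ i, 2 * (a i : ℝ) - 1 / 2 < x i ∧ x i < 2 * (a i : ℝ) + 5 / 2 := by
  have h0 : FK (gr3 g) x ≠ 0 := by
    have : 1 / 2 ≤ FK (gr3 g) x := hx
    linarith only [this]
  obtain ⟨a, ha, h⟩ := FK_pos h0
  obtain ⟨h1, h2⟩ := mem_gr3.1 ha
  refine ⟨a, h1, h2, fun i => ?_, h⟩
  simp only [Gp, Tt, Tp] at h1
  fin_cases i
  · show 0 ≤ a 0 ∧ a 0 ≤ _
    omega
  · show 0 ≤ a 1 ∧ a 1 ≤ _
    omega
  · show 0 ≤ a 2 ∧ a 2 ≤ _
    omega

theorem Thin_FK {j : ℕ} (hj : j < g) {y : E3} (ha : 8 * (j : ℝ) + 13 / 2 ≤ y 0)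
    (hb : y 0 ≤ 8 * (j : ℝ) + 15 / 2) (hy : 5 / 2 < y 1) :
    FK (gr3 g) y = psi 2 (y 1) * psi 0 (y 2) := by
  have e : FK (gr3 g) y = FK {![4 * (j : ℤ) + 3, 2, 0]} y := by
    refine FK_congr fun a h => ?_
    have a1 : a 0 < 4 * j + 4 := by
      have : (a 0 : ℝ) < 4 * j + 4 := by linarith only [hb, h, (h 0).1]
      exact_mod_cast this
    have a2 : 4 * j + 2 < a 0 := by
      have : 4 * (j : ℝ) + 2 < a 0 := by linarith only [ha, h, (h 0).2]
      exact_mod_cast this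
    have a3 : 0 < a 1 := by
      have : (0 : ℝ) < a 1 := by linarith only [hy, h, (h 1).2]
      exact_mod_cast this
    rw [mem_gr3, Finset.mem_singleton]
    simp only [Gp, Tt, Tp]
    constructor
    · intro h1
      funext i
      fin_cases i
      · show a 0 = 4 * (j : ℤ) + 3
        omega
      · show a 1 = 2
        omega
      · exact h1.2
    · intro h1
      have b1 : a 1 = 2 := by rw [h1]; rfl
      have b2 : a 2 = 0 := by rw [h1]; rfl
      omega
  rw [e, FK, Finset.sum_singleton, Fin.prod_univ_three]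
  show psi (4 * (j : ℤ) + 3) (y 0) * psi 2 (y 1) * psi 0 (y 2) = _
  rw [psi_one (by push_cast; linarith only [ha]) (by push_cast; linarith only [hb]), one_mul]

theorem tau_one (g : ℕ) (x : E3) : tau g 1 x = x := by
  funext i
  simp [tau]

theorem tau_smooth (g : ℕ) : ContDiff ℝ ∞ fun p : ℝ × E3 => tau g p.1 p.2 := by
  refine contDiff_pi.2 fun i => ?_
  have h : ContDiff ℝ ∞ fun p : ℝ × E3 => p.2 i := (contDiff_apply ℝ ℝ i).comp contDiff_snd
  exact (contDiff_fst.mul h).add ((contDiff_const.sub contDiff_fst).mul ((Thin_smooth g).comp h))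

theorem tau_p0 (g : ℕ) (ε : ℝ) : tau g ε p0 = p0 := by
  have h : stair g 1 = 1 := by
    simpa using Thin_const (g := g) (n := 0) (by omega) (t := 1) (by norm_num) (by norm_num)
  have h1 : ∀ i, p0 i = 1 := fun i => by fin_cases i <;> rfl
  funext i
  simp only [tau, h1, h]
  ring

theorem tau_mem {ε : ℝ} (hε : ε ∈ Icc (0 : ℝ) 1) {x : E3} (hx : x ∈ NK (gr3 g)) :
    tau g ε x ∈ NK (gr3 g) := by
  obtain ⟨a, -, -, h1, h2⟩ := Thin_range hx
  choose k k1 k2 k3 using fun i => Thin_better (g := g) hε (t := x i) (by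
    have : (0 : ℝ) ≤ a i := by exact_mod_cast (h1 i).1
    linarith only [this, h2, (h2 i).1]) (by
    have : (a i : ℝ) ≤ 4 * g + 2 := by exact_mod_cast (h1 i).2
    linarith only [this, h2, (h2 i).2])
  refine le_trans (show 1 / 2 ≤ FK (gr3 g) x from hx) ?_
  rw [FK_eq _ k x k1, FK_eq _ k (tau g ε x) k2]
  exact pD_anti (famK_down (down_gr 1 g) k) (fun i => Real.smoothTransition.nonneg _)
    (fun i => Real.smoothTransition.monotone (k3 i)) fun i => Real.smoothTransition.le_one _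

theorem tau_core {x : E3} (hx : x ∈ NK (gr3 g)) : tau g 0 x ∈ core g := by
  obtain ⟨a, hG, h0, h1, h2⟩ := Thin_range hx
  have c := fun i => Thin_cell (h1 i).1 (h1 i).2 (h2 i).1 (h2 i).2
  have e : ∀ i, tau g 0 x i = stair g (x i) := fun i => by simp [tau]
  have e2 : tau g 0 x 2 = 1 := by
    rw [e, (c 2).1 (by omega), h0]
    simp
  have e1 : 1 ≤ tau g 0 x 1 ∧ tau g 0 x 1 ≤ 5 ∧ (a 1 = 0 → tau g 0 x 1 = 1) ∧
      (a 1 = 2 → tau g 0 x 1 = 5) := by
    have c1 := c 1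
    rw [e]
    have : a 1 = 0 ∨ a 1 = 1 ∨ a 1 = 2 := by
      simp only [Gp, Tt, Tp] at hG
      omega
    rcases this with h | h | h <;> rw [h] at c1 ⊢
    · rw [c1.1 rfl]
      norm_num
    · have := c1.2 rfl
      push_cast at this
      exact ⟨by linarith only [this], by linarith, by simp, by simp⟩
    · rw [c1.1 rfl]
      norm_num
  have c0 := c 0
  rw [← e] at c0
  rcases Int.emod_two_eq_zero_or_one (a 0) with h | h
  · obtain ⟨n, hn⟩ : ∃ n : ℕ, a 0 = 2 * n := ⟨(a 0 / 2).toNat, by have := h1 0; omega⟩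
    refine Or.inl ⟨e2, Or.inr ⟨n, by have := h1 0; omega, ?_, e1.1, e1.2.1⟩⟩
    rw [c0.1 h, hn]
    push_cast
    ring
  · obtain ⟨d1, d2⟩ := c0.2 h
    rcases hG with hG | hG
    · have b1 : (1 : ℝ) ≤ a 0 := by exact_mod_cast (show 1 ≤ a 0 by have := h1 0; omega)
      have b2 : (a 0 : ℝ) ≤ 4 * g + 1 := by
        exact_mod_cast (show a 0 ≤ 4 * g + 1 by have := h1 0; omega)
      exact Or.inl ⟨e2, Or.inl ⟨e1.2.2.1 (hG.2.2.2.2 h), by linarith only [d1, b1], by linarith⟩⟩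
    · obtain ⟨g1, g2, g3, g4⟩ := hG
      obtain ⟨n, hn⟩ : ∃ n : ℕ, a 0 = 4 * n + 3 := ⟨(a 0 / 4).toNat, by omega⟩
      rw [hn] at d1 d2
      push_cast at d1 d2
      exact Or.inr (mem_iUnion₂.2 ⟨n, by omega, by linarith only [d1], by linarith, e1.2.2.2 g4, e2⟩)

theorem tau_isot (g : ℕ) {ε : ℝ} (h0 : 0 < ε) (h1 : ε ≤ 1) :
    Isot fun t => tau g (1 - t * (1 - ε)) := by
  have h : ∀ t ∈ Icc (0 : ℝ) 1, 0 < 1 - t * (1 - ε) ∧ 1 - t * (1 - ε) ≤ 1 := fun t ht =>
    ⟨by linarith only [h0, h1, ht, ht.1, ht.2, mul_nonneg_of_nonpos_of_nonpos (Mathlib.Tactic.Linarith.sub_nonpos_of_le h1) (Mathlib.Tactic.Linarith.sub_nonpos_of_le ht.right)], by nlinarith [ht.1, ht.2]⟩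
  refine ⟨?_, fun x => ?_, fun t ht => Thin_inj g (h t ht).1 (h t ht).2,
    fun t ht x => Thin_imm g (h t ht).1 (h t ht).2 x⟩
  · exact (tau_smooth g).comp
      ((contDiff_const.sub (contDiff_fst.mul contDiff_const)).prodMk contDiff_snd)
  · rw [zero_mul, sub_zero, tau_one]

theorem thin {W : Set E3} (hW : W ∈ 𝓝ˢ (core g)) :
    ∀ᶠ ε in 𝓝[>] (0 : ℝ), tau g ε '' NK (gr3 g) ⊆ W := by
  have h := (NK_compact (gr3 g)).eventually_forall_of_forall_eventually (x₀ := (0 : ℝ))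
    (P := fun ε x => tau g ε x ∈ W) fun x hx =>
      (tau_smooth g).continuous.continuousAt (mem_nhdsSet_iff_forall.1 hW _ (tau_core hx))
  refine (h.filter_mono nhdsWithin_le_nhds).mono fun ε hε => ?_
  rintro _ ⟨x, hx, rfl⟩
  exact hε x hx

theorem tube_desc {j : ℕ} (hj : j < g) {ε : ℝ} (h0 : 0 < ε) (h1 : ε ≤ 1) {x : E3}
    (ha : 8 * j + 5 + 3 / 2 * ε ≤ x 0) (hb : x 0 ≤ 8 * j + 9 - 3 / 2 * ε) (hy : 3 ≤ x 1) :
    (x ∈ tau g ε '' NK (gr3 g) ↔ 1 / 2 ≤ cs ((x 1 - 5) / ε) ((x 2 - 1) / ε)) ∧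
      (x ∈ tau g ε '' BK (gr3 g) ↔ cs ((x 1 - 5) / ε) ((x 2 - 1) / ε) = 1 / 2) := by
  choose y hy' using fun i => Thin_surj g h0 h1 (x i)
  obtain rfl : tau g ε y = x := funext hy'
  have hs := Thin_strict g h0 h1
  have c1 := Thin_const (g := g) (n := 2 * j + 1) (by omega) (t := 8 * (j : ℝ) + 13 / 2)
    (by push_cast; linarith only []) (by push_cast; linarith only [])
  have c2 := Thin_const (g := g) (n := 2 * j + 2) (by omega) (t := 8 * (j : ℝ) + 15 / 2)
    (by push_cast; linarith only []) (by push_cast; linarith only [])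
  have c3 := Thin_const (g := g) (n := 0) (by omega) (t := 5 / 2) (by norm_num) (by norm_num)
  push_cast at c1 c2 c3
  simp only [tau] at ha hb hy
  have d1 : 8 * (j : ℝ) + 13 / 2 ≤ y 0 := hs.le_iff_le.1 (by simp only [c1]; linarith only [ha])
  have d2 : y 0 ≤ 8 * (j : ℝ) + 15 / 2 := hs.le_iff_le.1 (by simp only [c2]; linarith only [hb])
  have d3 : 5 / 2 < y 1 := hs.lt_iff_lt.1 (by simp only [c3]; linarith only [h1, hy])
  have p1 := Thin_psi (g := g) (n := 1) (by omega) h0 h1 (y 1)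
  have p2 := Thin_psi (g := g) (n := 0) (by omega) h0 h1 (y 2)
  have e : cs ((tau g ε y 1 - 5) / ε) ((tau g ε y 2 - 1) / ε) = FK (gr3 g) y := by
    rw [Thin_FK hj d1 d2 d3, cs]
    norm_num at p1 p2
    simp only [tau, p1, p2]
  rw [e, (Thin_inj g h0 h1).mem_set_image, (Thin_inj g h0 h1).mem_set_image]
  exact ⟨Iff.rfl, Iff.rfl⟩

end Pool.Agent.Work.MP_7ba843_gt.C
end
end

-- merged part: Pool.Agent.Work.MP_7ba843_gt.C.Tube
section
/-! Twisting a thin handle does not change the surface up to isotopy.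

PLAN. Choose `8 j + 5 < a'' < a'`, `b' < b'' < 8 j + 9` and `R, m` from `unit_tube`. With the affine
map `s ε x = ![x 0, 5 + ε x 1, 1 + ε x 2]` put `m' t = s ε ∘ m t ∘ (s ε)⁻¹`; it is supported in the
box `s ε '' Bx ..`, which for small `ε` lies in `W` and in `x 1 ≥ 4`. `τ.k ∘ s ε = s ε ∘ τ.k0`. Split
a point of the thin set according to `x 0 ∈ [a'', b''] ∧ 3 ≤ x 1` (then `tube_desc` applies,
`|x 1 - 5| < 3 ε / 2` and `τ.kh x = τ.k x`) or not (then `τ.kh x = x = m' 1 x`). Both `m' 1` and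
`τ.k` preserve the slab `x 0 ∈ [a'', b'']` and its complement. `same_kh`: `Emb.nhd`,
`Same.of_isot`, `image_image`. `same_thin`: `Same.of_isot` with `tau_isot`, `tau_mem`. About 250
lines. -/

set_option linter.unusedSectionVars false
set_option linter.unusedVariables false

open Set Filter Topology Function
open scoped ContDiff

noncomputable section
namespace Pool.Agent.Work.MP_7ba843_gt.C

open Pool.Agent.Work.MP_bf98aa_gt.Ns (Dif)
open Pool.Agent.Work.MP_735653_gt Pool.Agent.Work.MP_7ba843_gt.N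

variable {V E F : Type} [NormedAddCommGroup V] [NormedSpace ℝ V] [FiniteDimensional ℝ V]
  [NormedAddCommGroup E] [NormedSpace ℝ E] [FiniteDimensional ℝ E]
  [NormedAddCommGroup F] [NormedSpace ℝ F] [FiniteDimensional ℝ F] {A : Amb V}

variable {g : ℕ}

/-- the affine map onto the thin tube -/
def Tube_s (ε : ℝ) (x : E3) : E3 := ![x 0, 5 + ε * x 1, 1 + ε * x 2]

/-- its inverse -/
def Tube_si (ε : ℝ) (y : E3) : E3 := ![y 0, (y 1 - 5) / ε, (y 2 - 1) / ε]

theorem Tube_s0 (ε : ℝ) (x : E3) : Tube_s ε x 0 = x 0 := rfl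

theorem Tube_s1 (ε : ℝ) (x : E3) : Tube_s ε x 1 = 5 + ε * x 1 := rfl

theorem Tube_s2 (ε : ℝ) (x : E3) : Tube_s ε x 2 = 1 + ε * x 2 := rfl

theorem Tube_si0 (ε : ℝ) (x : E3) : Tube_si ε x 0 = x 0 := rfl

theorem Tube_si1 (ε : ℝ) (x : E3) : Tube_si ε x 1 = (x 1 - 5) / ε := rfl

theorem Tube_si2 (ε : ℝ) (x : E3) : Tube_si ε x 2 = (x 2 - 1) / ε := rfl

theorem Tube_ext {x y : E3} (h0 : x 0 = y 0) (h1 : x 1 = y 1) (h2 : x 2 = y 2) : x = y := by
  funext i
  fin_cases i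
  · exact h0
  · exact h1
  · exact h2

theorem Tube_s_si {ε : ℝ} (h : ε ≠ 0) (y : E3) : Tube_s ε (Tube_si ε y) = y := by
  apply Tube_ext
  · rfl
  · rw [Tube_s1, Tube_si1]; field_simp; ring
  · rw [Tube_s2, Tube_si2]; field_simp; ring

theorem Tube_si_s {ε : ℝ} (h : ε ≠ 0) (x : E3) : Tube_si ε (Tube_s ε x) = x := by
  apply Tube_ext
  · rfl
  · rw [Tube_si1, Tube_s1]; field_simp; ring
  · rw [Tube_si2, Tube_s2]; field_simp; ring

theorem Tube_s_smooth2 : ContDiff ℝ ∞ fun p : ℝ × E3 => Tube_s p.1 p.2 := by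
  refine contDiff_pi.2 fun i => ?_
  fin_cases i
  · show ContDiff ℝ ∞ fun p : ℝ × E3 => p.2 0
    fun_prop
  · show ContDiff ℝ ∞ fun p : ℝ × E3 => 5 + p.1 * p.2 1
    fun_prop
  · show ContDiff ℝ ∞ fun p : ℝ × E3 => 1 + p.1 * p.2 2
    fun_prop

theorem Tube_s_smooth (ε : ℝ) : ContDiff ℝ ∞ (Tube_s ε) :=
  Tube_s_smooth2.comp (contDiff_const.prodMk contDiff_id)

theorem Tube_si_smooth (ε : ℝ) : ContDiff ℝ ∞ (Tube_si ε) := by
  refine contDiff_pi.2 fun i => ?_
  fin_cases i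
  · show ContDiff ℝ ∞ fun p : E3 => p 0
    fun_prop
  · show ContDiff ℝ ∞ fun p : E3 => (p 1 - 5) / ε
    fun_prop
  · show ContDiff ℝ ∞ fun p : E3 => (p 2 - 1) / ε
    fun_prop

theorem Tube_fd_inj {s si : E → E} (hs : ContDiff ℝ ∞ s) (hi : ContDiff ℝ ∞ si)
    (h : ∀ x, si (s x) = x) (x : E) : Injective (fderiv ℝ s x) := by
  have h1 : HasFDerivAt (si ∘ s) ((fderiv ℝ si (s x)).comp (fderiv ℝ s x)) x :=
    ((hi.differentiable (by simp)) _).hasFDerivAt.comp x
      ((hs.differentiable (by simp)) _).hasFDerivAt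
  have h2 : si ∘ s = id := funext h
  rw [h2] at h1
  have h3 := h1.unique (hasFDerivAt_id x)
  intro u v huv
  have h4 : ((fderiv ℝ si (s x)).comp (fderiv ℝ s x)) u =
      ((fderiv ℝ si (s x)).comp (fderiv ℝ s x)) v := by
    simp only [ContinuousLinearMap.comp_apply, huv]
  rw [h3] at h4
  exact h4

theorem Tube_isot_conj {s si : E → E} (hs : ContDiff ℝ ∞ s) (hi : ContDiff ℝ ∞ si)
    (h : ∀ x, si (s x) = x) (h' : ∀ y, s (si y) = y) {m : ℝ → E → E} (hm : Isot m) :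
    Isot fun t y => s (m t (si y)) := by
  refine ⟨?_, ?_, ?_, ?_⟩
  · exact hs.comp (hm.smooth.comp (contDiff_fst.prodMk (hi.comp contDiff_snd)))
  · intro y
    rw [hm.zero, h']
  · intro t ht u v huv
    have h1 : m t (si u) = m t (si v) := by
      have := congrArg si huv
      simpa only [h] using this
    have h2 := hm.inj t ht h1
    rw [← h' u, h2, h']
  · intro t ht y
    have hmt : ContDiff ℝ ∞ (m t) := hm.smooth.comp (contDiff_const.prodMk contDiff_id)
    have h1 : HasFDerivAt (fun y => s (m t (si y)))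
        ((fderiv ℝ s (m t (si y))).comp ((fderiv ℝ (m t) (si y)).comp (fderiv ℝ si y))) y :=
      ((hs.differentiable (by simp)) _).hasFDerivAt.comp y
        (((hmt.differentiable (by simp)) _).hasFDerivAt.comp y
          ((hi.differentiable (by simp)) _).hasFDerivAt)
    rw [h1.fderiv]
    exact (Tube_fd_inj hs hi h _).comp ((hm.imm t ht _).comp (Tube_fd_inj hi hs h' _))

theorem Tube_k_s {a b : ℝ} (τ : Tw a b) (ε : ℝ) (z : E3) :
    τ.k (Tube_s ε z) = Tube_s ε (τ.k0 z) := by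
  apply Tube_ext
  · simp [Tw.k, Tw.k0, Tube_s]
  · simp [Tw.k, Tw.k0, Tube_s]; ring
  · simp [Tw.k, Tw.k0, Tube_s]; ring

theorem Tube_kh_hi {a b : ℝ} (τ : Tw a b) {x : E3} (h : 4 ≤ x 1) : τ.kh x = τ.k x := by
  rw [Tw.kh, Real.smoothTransition.one_of_one_le (by linarith), one_smul]
  abel

theorem Tube_kh_lo {a b : ℝ} (τ : Tw a b) {x : E3} (h : x 1 ≤ 3) : τ.kh x = x := by
  rw [Tw.kh, Real.smoothTransition.zero_of_nonpos (by linarith), zero_smul, add_zero]

theorem Tube_kh_out {a b : ℝ} (τ : Tw a b) {x : E3} (h : x 0 ∉ Ioo a b) : τ.kh x = x := by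
  obtain ⟨h1, h2, h3, h4⟩ := τ.out _ h
  have : τ.k x = x := by
    apply Tube_ext
    · simp [Tw.k, Tw.k0]
    · simp [Tw.k, Tw.k0, h1, h2]
    · simp [Tw.k, Tw.k0, h3, h4]
  rw [Tw.kh, this, sub_self, smul_zero, add_zero]

theorem Tube_bx_compact (a b : E3) : IsCompact (Bx a b) := by
  have : Bx a b = Icc a b := by
    ext x
    simp only [Bx, mem_ofPred_eq, mem_Icc, Pi.le_def]
    exact ⟨fun h => ⟨fun i => (h i).1, fun i => (h i).2⟩, fun h i => ⟨h.1 i, h.2 i⟩⟩
  rw [this]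
  exact isCompact_Icc

theorem Tube_cs {u v : ℝ} (h : cs u v ≠ 0) : -(3 / 2) < u := by
  have h1 : psi 0 (u + 1) ≠ 0 := left_ne_zero_of_mul h
  have h2 := (psi_supp h1).1
  simp only [Int.cast_zero] at h2
  linarith only [h2]

theorem Tube_img {a' b' a'' b'' R ε : ℝ} (ha : a'' < a') (hb : b' < b'') (τ : Tw a' b')
    (h0 : 0 < ε) (h1 : ε ≤ 2 / 3) (hR : ε * R ≤ 1) {n : E3 → E3}
    (hout : ∀ x, x ∉ Bx ![a'', -R, -R] ![b'', R, R] → n x = x)
    (hin : ∀ x ∈ Bx ![a'', -R, -R] ![b'', R, R], n x ∈ Bx ![a'', -R, -R] ![b'', R, R])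
    {P T : Set E3} (hP : ∀ z ∈ P, -(3 / 2) < z 1) (hn : n '' P = τ.k0 '' P)
    (hT : ∀ x : E3, a'' ≤ x 0 → x 0 ≤ b'' → 3 ≤ x 1 → (x ∈ T ↔ Tube_si ε x ∈ P)) :
    (fun y => Tube_s ε (n (Tube_si ε y))) '' T = τ.kh '' T := by
  have hne : ε ≠ 0 := h0.ne'
  have slab : ∀ x : E3, (a'' ≤ n x 0 ∧ n x 0 ≤ b'') ↔ (a'' ≤ x 0 ∧ x 0 ≤ b'') := by
    intro x
    by_cases hx : x ∈ Bx ![a'', -R, -R] ![b'', R, R]
    · exact ⟨fun _ => hx 0, fun _ => hin x hx 0⟩
    · rw [hout x hx]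
  have four : ∀ z ∈ P, 4 ≤ Tube_s ε z 1 := by
    intro z hz
    have := hP z hz
    rw [Tube_s1]
    linarith only [h1, h0, this, mul_pos_of_neg_of_neg (Mathlib.Tactic.Linarith.sub_neg_of_lt h0) (Mathlib.Tactic.Linarith.sub_neg_of_lt this)]
  have sT : ∀ z ∈ P, a'' ≤ z 0 → z 0 ≤ b'' → Tube_s ε z ∈ T := by
    intro z hz h2 h3
    refine (hT (Tube_s ε z) h2 h3 (by linarith only [h0, h1, four, hz, four z hz])).2 ?_
    rw [Tube_si_s hne]
    exact hz
  have caseB : ∀ x : E3, ¬ (a'' ≤ x 0 ∧ x 0 ≤ b'' ∧ 3 ≤ x 1) →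
      Tube_s ε (n (Tube_si ε x)) = τ.kh x := by
    intro x hx
    have e1 : τ.kh x = x := by
      by_cases h3 : 3 ≤ x 1
      · refine Tube_kh_out τ fun h => hx ⟨by linarith only [ha, h, h.1], by linarith [h.2], h3⟩
      · exact Tube_kh_lo τ (not_le.1 h3).le
    have e2 : Tube_si ε x ∉ Bx ![a'', -R, -R] ![b'', R, R] := by
      intro h
      have k0 : a'' ≤ x 0 ∧ x 0 ≤ b'' := h 0
      have k1 : -R ≤ Tube_si ε x 1 := (h 1).1
      refine hx ⟨k0.1, k0.2, ?_⟩
      have k2 : x 1 = 5 + ε * Tube_si ε x 1 := by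
        rw [← Tube_s1, Tube_s_si hne]
      linarith only [h1, hR, k2, h0, k1, mul_pos_of_neg_of_neg (Mathlib.Tactic.Linarith.sub_neg_of_lt h0) (Mathlib.Tactic.Linarith.sub_neg_of_lt h0), mul_nonneg_of_nonpos_of_nonpos (le_of_lt (Mathlib.Tactic.Linarith.sub_neg_of_lt h0)) (Mathlib.Tactic.Linarith.sub_nonpos_of_le h1), mul_nonneg_of_nonpos_of_nonpos (le_of_lt (Mathlib.Tactic.Linarith.sub_neg_of_lt h0)) (Mathlib.Tactic.Linarith.sub_nonpos_of_le k1)]
    rw [hout _ e2, Tube_s_si hne, e1]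
  apply Subset.antisymm
  · rintro _ ⟨x, hx, rfl⟩
    by_cases hc : a'' ≤ x 0 ∧ x 0 ≤ b'' ∧ 3 ≤ x 1
    · have k1 : Tube_si ε x ∈ P := (hT x hc.1 hc.2.1 hc.2.2).1 hx
      have k2 : n (Tube_si ε x) ∈ τ.k0 '' P := hn ▸ mem_image_of_mem n k1
      obtain ⟨z, hz, e⟩ := k2
      have k3 := (slab (Tube_si ε x)).2 ⟨hc.1, hc.2.1⟩
      rw [← e] at k3
      refine ⟨Tube_s ε z, sT z hz k3.1 k3.2, ?_⟩
      show τ.kh (Tube_s ε z) = Tube_s ε (n (Tube_si ε x))
      rw [Tube_kh_hi τ (four z hz), Tube_k_s, e]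
    · exact ⟨x, hx, (caseB x hc).symm⟩
  · rintro _ ⟨x, hx, rfl⟩
    by_cases hc : a'' ≤ x 0 ∧ x 0 ≤ b'' ∧ 3 ≤ x 1
    · have k1 : Tube_si ε x ∈ P := (hT x hc.1 hc.2.1 hc.2.2).1 hx
      have k2 : τ.k0 (Tube_si ε x) ∈ n '' P := hn.symm ▸ mem_image_of_mem τ.k0 k1
      obtain ⟨z, hz, e⟩ := k2
      have k3 : a'' ≤ n z 0 ∧ n z 0 ≤ b'' := by
        rw [e]
        exact ⟨hc.1, hc.2.1⟩
      have k4 := (slab z).1 k3
      refine ⟨Tube_s ε z, sT z hz k4.1 k4.2, ?_⟩
      show Tube_s ε (n (Tube_si ε (Tube_s ε z))) = τ.kh x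
      have k5 : 4 ≤ x 1 := by
        have := four _ k1
        rwa [Tube_s_si hne] at this
      rw [Tube_si_s hne, e, ← Tube_k_s, Tube_s_si hne, Tube_kh_hi τ k5]
    · exact ⟨x, hx, caseB x hc⟩

theorem tube_iso {j : ℕ} (hj : j < g) {a' b' : ℝ} (ha : 8 * j + 5 < a') (hb : b' < 8 * j + 9)
    (τ : Tw a' b') {W : Set E3} (hW : W ∈ 𝓝ˢ (core g)) : ∀ᶠ ε in 𝓝[>] (0 : ℝ),
      ∃ m : ℝ → E3 → E3, Isot m ∧ (∀ t ∈ Icc (0 : ℝ) 1, MapsTo (m t) (tau g ε '' NK (gr3 g)) W) ∧
        m 1 '' (tau g ε '' NK (gr3 g)) = τ.kh '' (tau g ε '' NK (gr3 g)) ∧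
        m 1 '' (tau g ε '' BK (gr3 g)) = τ.kh '' (tau g ε '' BK (gr3 g)) := by
  obtain ⟨a'', ha1, ha2⟩ := exists_between ha
  obtain ⟨b'', hb1, hb2⟩ := exists_between hb
  obtain ⟨R, m, hm, hout, hin, hN, hB⟩ := unit_tube ha2 hb1 τ
  have e1 : ∀ᶠ ε in 𝓝 (0 : ℝ), ∀ y ∈ Bx ![a'', -R, -R] ![b'', R, R], Tube_s ε y ∈ W := by
    refine (Tube_bx_compact _ _).eventually_forall_of_forall_eventually
      (P := fun ε y => Tube_s ε y ∈ W) fun y hy => ?_
    have k0 : a'' ≤ y 0 ∧ y 0 ≤ b'' := hy 0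
    have k1 : Tube_s 0 y ∈ core g := by
      refine Or.inr (mem_iUnion₂.2 ⟨j, hj, ?_⟩)
      refine ⟨?_, ?_, ?_, ?_⟩
      · rw [Tube_s0]; linarith only [ha1, k0, k0.1]
      · rw [Tube_s0]; linarith [k0.2]
      · rw [Tube_s1]; ring
      · rw [Tube_s2]; ring
    exact Tube_s_smooth2.continuous.continuousAt (x := (0, y))
      (mem_nhdsSet_iff_forall.1 hW _ k1)
  have e2 : ∀ᶠ ε in 𝓝 (0 : ℝ), ε * R < 1 :=
    (continuous_id.mul continuous_const).continuousAt.eventually_lt continuousAt_const (by simp)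
  have e3 : ∀ᶠ ε in 𝓝 (0 : ℝ), ε < 2 / 3 := eventually_lt_nhds (by norm_num)
  have e4 : ∀ᶠ ε in 𝓝 (0 : ℝ), ε < 2 / 3 * (a'' - (8 * j + 5)) :=
    eventually_lt_nhds (by linarith only [ha1])
  have e5 : ∀ᶠ ε in 𝓝 (0 : ℝ), ε < 2 / 3 * (8 * j + 9 - b'') :=
    eventually_lt_nhds (by linarith only [hb2])
  filter_upwards [thin hW, self_mem_nhdsWithin, mem_nhdsWithin_of_mem_nhds e1,
    mem_nhdsWithin_of_mem_nhds e2, mem_nhdsWithin_of_mem_nhds e3, mem_nhdsWithin_of_mem_nhds e4,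
    mem_nhdsWithin_of_mem_nhds e5] with ε k0 k1 k2 k3 k4 k5 k6
  have h0 : 0 < ε := k1
  have hne : ε ≠ 0 := h0.ne'
  have one : (1 : ℝ) ∈ Icc (0 : ℝ) 1 := ⟨zero_le_one, le_rfl⟩
  refine ⟨fun t y => Tube_s ε (m t (Tube_si ε y)),
    Tube_isot_conj (Tube_s_smooth ε) (Tube_si_smooth ε) (Tube_si_s hne) (Tube_s_si hne) hm,
    ?_, ?_, ?_⟩
  · intro t ht x hx
    by_cases hc : Tube_si ε x ∈ Bx ![a'', -R, -R] ![b'', R, R]
    · exact k2 _ (hin t ht _ hc)
    · show Tube_s ε (m t (Tube_si ε x)) ∈ W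
      rw [hout t ht _ hc, Tube_s_si hne]
      exact k0 hx
  · refine Tube_img ha2 hb1 τ h0 k4.le k3.le (hout 1 one) (hin 1 one) ?_ hN ?_
    · intro z hz
      have hz' : 1 / 2 ≤ cs (z 1) (z 2) := hz
      exact Tube_cs (v := z 2) (by linarith only [k4, h0, hz'])
    · intro x h1 h2 h3
      exact (tube_desc hj h0 (by linarith only [k4, h0]) (by linarith only [k5, h1]) (by linarith only [k6, h2]) h3).1
  · refine Tube_img ha2 hb1 τ h0 k4.le k3.le (hout 1 one) (hin 1 one) ?_ hB ?_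
    · intro z hz
      have hz' : cs (z 1) (z 2) = 1 / 2 := hz
      exact Tube_cs (v := z 2) (by linarith only [k4, h0, hz'])
    · intro x h1 h2 h3
      exact (tube_desc hj h0 (by linarith only [k4, h0]) (by linarith only [k5, h1]) (by linarith only [k6, h2]) h3).2

theorem same_kh {j : ℕ} (hj : j < g) {a' b' : ℝ} (ha : 8 * j + 5 < a') (hb : b' < 8 * j + 9)
    (τ : Tw a' b') {Φ : E3 → V} (h : Emb A (core g) Φ) : ∀ᶠ ε in 𝓝[>] (0 : ℝ),
      Same A (Φ '' (tau g ε '' NK (gr3 g))) (Φ '' (tau g ε '' BK (gr3 g)))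
        ((fun x => Φ (τ.kh x)) '' (tau g ε '' NK (gr3 g)))
        ((fun x => Φ (τ.kh x)) '' (tau g ε '' BK (gr3 g))) := by
  obtain ⟨K, hK, hs, -, hE⟩ := h.nhd (core_compact g) (O := univ) univ_mem
  have hW : K ∈ 𝓝ˢ (core g) := subset_interior_iff_mem_nhdsSet.1 hs
  filter_upwards [tube_iso hj ha hb τ hW] with ε hε
  obtain ⟨m, hm, h1, h2, h3⟩ := hε
  have hc : Continuous (tau g ε) :=
    (tau_smooth g).continuous.comp (continuous_const.prodMk continuous_id)
  have := Same.of_isot ((NK_compact (gr3 g)).image hc) (image_mono (BK_sub (gr3 g))) hE hm h1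
  rw [h2, h3, image_image Φ τ.kh, image_image Φ τ.kh] at this
  exact this

theorem same_thin {Φ : E3 → V} (h : Emb A (NK (gr3 g)) Φ) {ε : ℝ} (h0 : 0 < ε) (h1 : ε ≤ 1) :
    Same A (Φ '' NK (gr3 g)) (Φ '' BK (gr3 g)) (Φ '' (tau g ε '' NK (gr3 g)))
      (Φ '' (tau g ε '' BK (gr3 g))) := by
  have := Same.of_isot (NK_compact (gr3 g)) (BK_sub (gr3 g)) h (tau_isot g h0 h1)
    (fun t ht x hx => tau_mem ⟨by linarith only [ht, h0, ht.1, ht.2, mul_nonneg_of_nonpos_of_nonpos (le_of_lt (Mathlib.Tactic.Linarith.sub_neg_of_lt h0)) (Mathlib.Tactic.Linarith.sub_nonpos_of_le ht.left)], by nlinarith [ht.1, ht.2]⟩ hx)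
  have e : (1 : ℝ) - 1 * (1 - ε) = ε := by ring
  simp only [e] at this
  exact this

end Pool.Agent.Work.MP_7ba843_gt.C
end
end

-- merged part: Pool.Agent.Work.MP_7ba843_gt.C.Hol
section
/-! Path functionals and fundamental groups.

PLAN. `Hol_path`: a path `c` in `S` gives a `Path (⟨c 0, _⟩ : S) ⟨c 1, _⟩`. `exists_hol`: fix
`y₀ : S`, paths `σ y` from `y₀` to `y`, `G = FundamentalGroup S y₀`, and
`h c = (mk ((σ _).trans (path c) |>.trans (σ _).symm))⁻¹` if `IsP S c`, else `1`. Recall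
`FundamentalGroup.mul_def : p * q = q.trans p`. It is convenient to prove first, for `q a b p` the
class of `σ a · p · (σ b)⁻¹`, that it depends only on the function (`subst` the end points), and
the relation of the square: `Path.Homotopic.map_trans_evalAt` or
`ContinuousMap.Homotopy.evalAt` for the homotopy `t ↦ (s ↦ H (t, s))` of maps from the interval.
`exists_ind`: `Quotient.lift`, `IsPF.htp`, `IsPF.cat` (`Path.trans` agrees with `cat` on the
interval). About 300 lines. -/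

set_option linter.unusedSectionVars false
set_option linter.unusedVariables false

open Set Filter Topology Function

noncomputable section
namespace Pool.Agent.Work.MP_7ba843_gt.C

variable {Y Z Z' : Type} [TopologicalSpace Y] [TopologicalSpace Z] [TopologicalSpace Z']
  {G : Type} [Group G] {S : Set Y} {h : (ℝ → Y) → G}

open Path.Homotopic.Quotient in
/-- a trivialisation of the fundamental groupoid of a path connected space -/
lemma Hol_q (Z : Type) [TopologicalSpace Z] [PathConnectedSpace Z] :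
    ∃ (G : Type) (_ : Group G) (q : ∀ {a b : Z}, Path a b → G),
      (∀ {a b c : Z} (p : Path a b) (p' : Path b c), q (p.trans p') = q p * q p') ∧
      (∀ {a b : Z} (p p' : Path a b), q p = q p' ↔ p.Homotopic p') ∧
      ∀ (a b : Z) (w : G), ∃ p : Path a b, q p = w := by
  obtain ⟨z⟩ : Nonempty Z := inferInstance
  let σ : ∀ a : Z, Path.Homotopic.Quotient z a := fun a => mk (PathConnectedSpace.somePath z a)
  let r : ∀ {a b : Z}, Path a b → FundamentalGroup Z z := fun {a b} p =>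
    (σ a).trans ((mk p).trans (σ b).symm)
  have k : ∀ {a b : Z} (p : Path a b), (σ a).symm.trans (trans (r p) (σ b)) = mk p := by
    intro a b p
    simp only [r]
    rw [trans_assoc, trans_assoc, symm_trans, trans_refl, ← trans_assoc, symm_trans, refl_trans]
  refine ⟨FundamentalGroup Z z, inferInstance, fun p => (r p)⁻¹, fun {a b c} p p' => ?_,
    fun {a b} p p' => ?_, fun a b w => ?_⟩
  · rw [← mul_inv_rev, inv_inj, FundamentalGroup.mul_def]
    simp only [r]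
    rw [trans_assoc, trans_assoc, ← trans_assoc (σ b).symm, symm_trans, refl_trans, mk_trans,
      trans_assoc]
  · rw [inv_inj, ← Path.Homotopic.Quotient.eq]
    exact ⟨fun e => by rw [← k p, ← k p', e], fun e => by simp only [r]; rw [e]⟩
  · obtain ⟨p, hp⟩ := mk_surjective ((σ a).symm.trans (trans (w⁻¹ : FundamentalGroup Z z) (σ b)))
    refine ⟨p, inv_eq_iff_eq_inv.2 ?_⟩
    simp only [r]
    rw [hp, trans_assoc, trans_assoc, trans_symm, trans_refl, ← trans_assoc, trans_symm,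
      refl_trans]

/-- a homotopy of paths as a map on the square -/
lemma Hol_sq {a b : Z} {p p' : Path a b} (e : p.Homotopic p') :
    ∃ K : ℝ × ℝ → Z, Continuous K ∧ (∀ s, K (0, s) = p.extend s ∧ K (1, s) = p'.extend s) ∧
      ∀ t, K (t, 0) = a ∧ K (t, 1) = b := by
  obtain ⟨F⟩ := e
  refine ⟨fun x => F (projIcc 0 1 zero_le_one x.1, projIcc 0 1 zero_le_one x.2),
    F.continuous.comp ((continuous_projIcc.comp continuous_fst).prodMk
      (continuous_projIcc.comp continuous_snd)), fun s => ⟨?_, ?_⟩, fun t => ⟨?_, ?_⟩⟩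
  · simp only [projIcc_left]
    exact F.apply_zero _
  · simp only [projIcc_right]
    exact F.apply_one _
  · simp only [projIcc_left]
    exact F.source _
  · simp only [projIcc_right]
    exact F.target _

lemma Hol_cont {K : ℝ × ℝ → Z} (hK : ContinuousOn K Sq) :
    Continuous fun x : unitInterval × unitInterval => K (x.1, x.2) :=
  hK.comp_continuous (by fun_prop) fun x => ⟨x.1.2, x.2.2⟩

/-- a map on the square as a homotopy of paths -/
lemma Hol_htpy {a b : Z} {p p' : Path a b} {K : ℝ × ℝ → Z} (hK : ContinuousOn K Sq)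
    (h1 : ∀ s : unitInterval, K (0, s) = p s ∧ K (1, s) = p' s)
    (h2 : ∀ t : unitInterval, K (t, 0) = a ∧ K (t, 1) = b) : p.Homotopic p' := by
  refine ⟨⟨⟨⟨fun x => K (x.1, x.2), Hol_cont hK⟩, fun s => (h1 s).1, fun s => (h1 s).2⟩,
    fun t s hs => ?_⟩⟩
  rcases hs with rfl | rfl
  · exact (h2 t).1.trans p.source.symm
  · exact (h2 t).2.trans p.target.symm

/-- an equivalence for a path connected space -/
lemma Hol_univ (Z : Type) [TopologicalSpace Z] [PathConnectedSpace Z] :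
    ∃ (G : Type) (_ : Group G) (h : (ℝ → Z) → G), IsHol univ h := by
  classical
  obtain ⟨G, _, q, q1, q2, q3⟩ := Hol_q Z
  let h : (ℝ → Z) → G := fun c =>
    if hc : ContinuousOn c (Icc 0 1) then q (Path.ofLine hc rfl rfl) else 1
  have key : ∀ {a b : Z} (p : Path a b) (c : ℝ → Z), (∀ t : unitInterval, c t = p t) →
      h c = q p := by
    intro a b p c e
    have hc : ContinuousOn c (Icc 0 1) := p.continuous_extend.continuousOn.congr fun t ht =>
      (e ⟨t, ht⟩).trans (p.extend_extends' ⟨t, ht⟩).symm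
    obtain rfl : c 0 = a := (e 0).trans p.source
    obtain rfl : c 1 = b := (e 1).trans p.target
    simp only [h, dif_pos hc]
    congr 1
    ext t
    exact e t
  refine ⟨G, inferInstance, h, ⟨fun c d e => ?_, fun a _ => ?_, fun H hH _ => ?_⟩,
    fun c d hc hd e0 e1 e => ?_, fun a _ b _ w => ?_⟩
  · by_cases hd : ContinuousOn d (Icc 0 1)
    · rw [key (Path.ofLine hd rfl rfl) c fun t => e t.2, key (Path.ofLine hd rfl rfl) d fun t => rfl]
    · simp only [h, dif_neg hd, dif_neg fun hc : ContinuousOn c (Icc 0 1) => hd (hc.congr e.symm)]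
  · rw [key (Path.refl a) _ fun t => rfl]
    have := q1 (Path.refl a) (Path.refl a)
    rw [(q2 _ _).2 (Path.Homotopic.refl_trans _)] at this
    exact left_eq_mul.1 this
  · have hc := Hol_cont hH
    let f : C(unitInterval, Z) := ⟨fun s => H (0, s), hc.comp (Continuous.prodMk_right 0)⟩
    let g : C(unitInterval, Z) := ⟨fun s => H (1, s), hc.comp (Continuous.prodMk_right 1)⟩
    let F : f.Homotopy g := ⟨⟨fun x => H (x.1, x.2), hc⟩, fun s => rfl, fun s => rfl⟩
    rw [key (Path.id.map (map_continuous f)) _ fun t => rfl, key (F.evalAt 1) _ fun t => rfl,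
      key (F.evalAt 0) _ fun t => rfl, key (Path.id.map (map_continuous g)) _ fun t => rfl,
      ← q1, ← q1, q2]
    exact Path.Homotopic.map_trans_evalAt F Path.id
  · rw [key (Path.ofLine hc.1 rfl rfl) c fun t => rfl,
      key (Path.ofLine hd.1 e0.symm e1.symm) d fun t => rfl, q2] at e
    obtain ⟨K, k1, k2, k3⟩ := Hol_sq e
    refine ⟨K, k1.continuousOn, mapsTo_univ _ _, fun s hs => ?_, fun t _ => k3 t⟩
    rw [(k2 s).1, (k2 s).2, Path.extend_apply _ hs, Path.extend_apply _ hs]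
    exact ⟨rfl, rfl⟩
  · obtain ⟨p, hp⟩ := q3 a b w
    exact ⟨p.extend, ⟨p.continuous_extend.continuousOn, mapsTo_univ _ _⟩, p.extend_zero,
      p.extend_one, (key p _ fun t => p.extend_extends' t).trans hp⟩

/-- an inverse of an embedding -/
lemma Hol_inv {f : Z → Y} (hf : IsEmbedding f) (hr : range f = S) (z : Z) :
    ∃ g : Y → Z, ContinuousOn g S ∧ (∀ y ∈ S, f (g y) = y) ∧ ∀ x, g (f x) = x := by
  have : Nonempty Z := ⟨z⟩
  have e : ∀ y ∈ S, f (invFun f y) = y := fun y hy => invFun_eq (hr ▸ hy : y ∈ range f)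
  exact ⟨invFun f, hf.isInducing.continuousOn_iff.2 (continuousOn_id.congr e), e,
    leftInverse_invFun hf.injective⟩

theorem exists_hol (hS : IsPathConnected S) :
    ∃ (G : Type) (_ : Group G) (h : (ℝ → Y) → G), IsHol S h := by
  have := isPathConnected_iff_pathConnectedSpace.1 hS
  obtain ⟨G, _, h, H⟩ := Hol_univ S
  obtain ⟨y, hy⟩ := hS.nonempty
  obtain ⟨g, g1, g2, g3⟩ := Hol_inv (S := S) IsEmbedding.subtypeVal Subtype.range_coe ⟨y, hy⟩
  have m0 : (0 : ℝ) ∈ Icc (0 : ℝ) 1 := ⟨le_rfl, zero_le_one⟩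
  have m1 : (1 : ℝ) ∈ Icc (0 : ℝ) 1 := ⟨zero_le_one, le_rfl⟩
  refine ⟨G, inferInstance, fun c => h (g ∘ c), H.toIsPF.comap g1 (mapsTo_univ _ _),
    fun c d hc hd e0 e1 e => ?_, fun a ha b hb w => ?_⟩
  · obtain ⟨K, k1, -, k2, k3⟩ := H.inj _ _ (hc.map g1 (mapsTo_univ _ _))
      (hd.map g1 (mapsTo_univ _ _)) (congrArg g e0) (congrArg g e1) e
    refine ⟨fun x => K x, continuous_subtype_val.comp_continuousOn k1, fun x _ => (K x).2,
      fun s hs => ?_, fun t ht => ?_⟩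
    · simp only [(k2 s hs).1, (k2 s hs).2]
      exact ⟨g2 _ (hc.2 hs), g2 _ (hd.2 hs)⟩
    · simp only [(k3 t ht).1, (k3 t ht).2]
      exact ⟨g2 _ (hc.2 m0), g2 _ (hc.2 m1)⟩
  · obtain ⟨c, hc, c0, c1, e⟩ := H.surj ⟨a, ha⟩ trivial ⟨b, hb⟩ trivial w
    refine ⟨fun t => c t, ⟨continuous_subtype_val.comp_continuousOn hc.1, fun t _ => (c t).2⟩,
      congrArg Subtype.val c0, congrArg Subtype.val c1, ?_⟩
    rw [← e]
    exact congrArg h (funext fun t => g3 (c t))

lemma Hol_isP {f : Z → Y} (hf : Continuous f) (hm : ∀ z, f z ∈ S) {a b : Z} (p : Path a b) :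
    IsP S fun t => f (p.extend t) :=
  ⟨(hf.comp p.continuous_extend).continuousOn, fun _ _ => hm _⟩

lemma Hol_htp (H : IsPF S h) {f : Z → Y} (hf : Continuous f) (hm : ∀ z, f z ∈ S) {a b : Z}
    {p p' : Path a b} (e : p.Homotopic p') :
    (h fun t => f (p.extend t)) = h fun t => f (p'.extend t) := by
  obtain ⟨K, k1, k2, k3⟩ := Hol_sq e
  refine H.htp (K := fun x => f (K x)) (hf.comp k1).continuousOn (fun _ _ => hm _)
    (fun s _ => ?_) fun t _ => ?_
  · rw [(k2 s).1, (k2 s).2]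
    exact ⟨rfl, rfl⟩
  · rw [(k3 t).1, (k3 t).2, p.extend_zero, p.extend_one]
    exact ⟨rfl, rfl⟩

lemma Hol_trans (H : IsPF S h) {f : Z → Y} (hf : Continuous f) (hm : ∀ z, f z ∈ S) {a b c : Z}
    (p : Path a b) (p' : Path b c) : (h fun t => f ((p.trans p').extend t)) =
      (h fun t => f (p.extend t)) * h fun t => f (p'.extend t) := by
  rw [← H.cat (Hol_isP hf hm p) (Hol_isP hf hm p') (by rw [p.extend_one, p'.extend_zero])]
  refine congrArg h (funext fun t => ?_)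
  unfold cat
  split_ifs with ht
  · rw [Path.extend_trans_of_le_half _ _ ht]
  · rw [Path.extend_trans_of_half_le _ _ (not_le.1 ht).le]

lemma Hol_symm (H : IsPF S h) {f : Z → Y} (hf : Continuous f) (hm : ∀ z, f z ∈ S) {a b : Z}
    (p : Path a b) : (h fun t => f (p.symm.extend t)) = (h fun t => f (p.extend t))⁻¹ := by
  rw [← H.rev (Hol_isP hf hm p)]
  exact congrArg h (funext fun t => by rw [Path.extend_symm_apply])

theorem exists_ind (H : IsPF S h) {f : Z → Y} (hf : Continuous f) (hm : ∀ z, f z ∈ S) (z : Z) :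
    ∃ φ, Ind h f z φ := by
  refine ⟨MonoidHom.mk' (fun a => Quotient.lift
    (fun γ : Path z z => (h fun t => f (γ.extend t))⁻¹)
    (fun p p' e => congrArg _ (Hol_htp H hf hm e)) a) fun a b => ?_, fun γ => rfl⟩
  obtain ⟨p, rfl⟩ := Path.Homotopic.Quotient.mk_surjective a
  obtain ⟨p', rfl⟩ := Path.Homotopic.Quotient.mk_surjective b
  exact (congrArg Inv.inv (Hol_trans H hf hm p' p)).trans (mul_inv_rev _ _)

theorem Ind.unique {f : Z → Y} {z : Z} {φ φ' : FundamentalGroup Z z →* G} (H : Ind h f z φ)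
    (H' : Ind h f z φ') : φ = φ' := by
  refine MonoidHom.ext fun a => ?_
  obtain ⟨p, rfl⟩ := Path.Homotopic.Quotient.mk_surjective a
  exact (H p).trans (H' p).symm

theorem Ind.comp {f : Z → Y} (k : C(Z', Z)) {z : Z'} {φ : FundamentalGroup Z (k z) →* G}
    (H : Ind h f (k z) φ) : Ind h (f ∘ k) z (φ.comp (FundamentalGroup.map k z)) :=
  fun γ => H (γ.map k.continuous)

theorem Ind.bij (H : IsHol S h) {f : Z → Y} (hf : IsEmbedding f) (hr : range f = S) {z : Z}
    {φ : FundamentalGroup Z z →* G} (hφ : Ind h f z φ) : Bijective φ := by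
  obtain ⟨g, g1, g2, g3⟩ := Hol_inv hf hr z
  have hm : ∀ x, f x ∈ S := fun x => hr ▸ mem_range_self x
  refine ⟨fun a b e => ?_, fun w => ?_⟩
  · obtain ⟨p, rfl⟩ := Path.Homotopic.Quotient.mk_surjective a
    obtain ⟨p', rfl⟩ := Path.Homotopic.Quotient.mk_surjective b
    obtain ⟨K, k1, k2, k3, k4⟩ := H.inj _ _ (Hol_isP hf.continuous hm p)
      (Hol_isP hf.continuous hm p') (by simp only [Path.extend_zero])
      (by simp only [Path.extend_one]) (inv_injective ((hφ p).symm.trans (e.trans (hφ p'))))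
    refine Path.Homotopic.Quotient.eq.2 (Hol_htpy (K := fun x => g (K x)) (g1.comp k1 k2)
      (fun s => ?_) fun t => ?_)
    · rw [(k3 s s.2).1, (k3 s s.2).2, g3, g3, p.extend_extends', p'.extend_extends']
      exact ⟨rfl, rfl⟩
    · rw [(k4 t t.2).1, (k4 t t.2).2, g3, g3, p.extend_zero, p.extend_one]
      exact ⟨rfl, rfl⟩
  · obtain ⟨c, hc, c0, c1, e⟩ := H.surj _ (hm z) _ (hm z) w⁻¹
    refine ⟨Path.Homotopic.Quotient.mk (Path.ofLine (f := g ∘ c) (g1.comp hc.1 hc.2)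
      ((congrArg g c0).trans (g3 z)) ((congrArg g c1).trans (g3 z))), (hφ _).trans ?_⟩
    rw [inv_eq_iff_eq_inv, ← e]
    refine H.congr _ _ fun t ht => ?_
    simp only [Path.extend_apply _ ht]
    exact g2 _ (hc.2 ht)

theorem Ind.path (H : IsPF S h) {f : Z → Y} (hf : Continuous f) (hm : ∀ z, f z ∈ S) {z z' : Z}
    {φ : FundamentalGroup Z z →* G} {φ' : FundamentalGroup Z z' →* G} (h1 : Ind h f z φ)
    (h2 : Ind h f z' φ') (γ : Path z z') (a : FundamentalGroup Z z) :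
    φ' (FundamentalGroup.fundamentalGroupMulEquivOfPath γ a) =
      (h fun t => f (γ.extend t))⁻¹ * φ a * h fun t => f (γ.extend t) := by
  obtain ⟨p, rfl⟩ := Path.Homotopic.Quotient.mk_surjective a
  have e : FundamentalGroup.fundamentalGroupMulEquivOfPath γ (Path.Homotopic.Quotient.mk p) =
      Path.Homotopic.Quotient.mk (γ.symm.trans (p.trans γ)) := rfl
  rw [e, h2, h1 p, Hol_trans H hf hm, Hol_trans H hf hm, Hol_symm H hf hm, mul_inv_rev,
    mul_inv_rev, inv_inv]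

theorem ind_loop {T : Set Y} {x : T} {c : ℝ → Y} (hc : IsP T c) (h0 : c 0 = x) (h1 : c 1 = x) :
    ∃ a : FundamentalGroup T x, ∀ (G : Type) [Group G] (k : (ℝ → Y) → G)
      (φ : FundamentalGroup T x →* G), IsPF T k → Ind k Subtype.val x φ → φ a = k c := by
  obtain ⟨g, g1, g2, g3⟩ := Hol_inv (S := T) IsEmbedding.subtypeVal Subtype.range_coe x
  let p : Path x x := Path.ofLine (f := g ∘ c) (g1.comp hc.1 hc.2)
    ((congrArg g h0).trans (g3 x)) ((congrArg g h1).trans (g3 x))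
  let a : FundamentalGroup T x := Path.Homotopic.Quotient.mk p
  refine ⟨a⁻¹, fun G _ k φ H hφ => ?_⟩
  rw [map_inv, hφ p, inv_inv]
  refine H.congr _ _ fun t ht => ?_
  simp only [Path.extend_apply _ ht]
  exact g2 _ (hc.2 ht)

end Pool.Agent.Work.MP_7ba843_gt.C
end
end

-- merged part: Pool.Agent.Work.MP_7ba843_gt.C.Gen
section
/-! The standard loops generate the fundamental group of the model.

PLAN. `gen_core`: `loc2glob` on `S = core g` with the gauge
`γ x = k (seg p0 ![x 0, 1, 1]) * k (seg ![x 0, 1, 1] x)` on the tree, and on the `j`-th bridge off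
the tree `γ x = γ e * k (seg e x)` with `e = ![8 j + 5, 5, 1]` if `x 0 ≤ 8 j + 7` and
`e = ![8 j + 9, 5, 1]` otherwise. For `y ∈ core g` and a small ball `O` the set `core g ∩ O` is
star-shaped about `y` (the core is a finite union of segments; `O` misses those not containing
`y`), so by `IsPF.star` it suffices that `γ y * k (seg y z) * (γ z)⁻¹ ∈ N` if `y, z` lie on one of
the segments (bar, tooth, bridge); `IsPF.tri` on that segment; `γ p0 = 1`. `gen_loop`:
`IsPF.gauge` for `(t, x) ↦ tau g (1 - t) x`. `model_free`: `exists_LG`, `univ_LCv`, `super_homeo`,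
`Cv.homeo`, `fundamentalGroupEquiv` as in `pi1_gen` (../N/CvA.lean, ../N/Surf.lean).
`exists_gens`: `Segs.loop`, `ind_loop`, `exists_hol`, `exists_ind`, `Ind.bij`. About 300 lines. -/

set_option linter.unusedSectionVars false
set_option linter.unusedVariables false

open Set Filter Topology Function
open scoped ContDiff

noncomputable section
namespace Pool.Agent.Work.MP_7ba843_gt.C

open Pool.Agent.Work.MP_bf98aa_gt.Ns (Dif)
open Pool.Agent.Work.MP_735653_gt Pool.Agent.Work.MP_7ba843_gt.N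

variable {g : ℕ} {G : Type} [Group G] {k : (ℝ → E3) → G}

/-- a finite union of closed convex sets -/
theorem Gen_fin {S : Set E3} (H : IsPF S k) (N : Subgroup G) (γ : E3 → G) {A : Set (Set E3)}
    (hA : A.Finite) (h1 : ∀ y ∈ S, ∃ C ∈ A, y ∈ C)
    (h2 : ∀ C ∈ A, IsClosed C ∧ Convex ℝ C ∧ C ⊆ S ∧
      ∀ y ∈ C, ∀ z ∈ C, γ y * k (seg y z) * (γ z)⁻¹ ∈ N)
    {c : ℝ → E3} (hc : IsP S c) : γ (c 0) * k c * (γ (c 1))⁻¹ ∈ N := by
  refine loc2glob H N γ (fun y hy => ⟨(⋃₀ {C ∈ A | y ∉ C})ᶜ, IsOpen.mem_nhds ?_ ?_,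
    fun c hc => ?_⟩) hc
  · rw [isOpen_compl_iff, sUnion_eq_biUnion]
    exact (hA.subset (sep_subset _ _)).isClosed_biUnion fun C hC => (h2 C hC.1).1
  · rintro ⟨C, hC, h⟩
    exact hC.2 h
  have hc' : IsP (⋃₀ {C ∈ A | y ∈ C}) c := hc.mono fun z hz => by
    obtain ⟨C, hC, h⟩ := h1 z hz.1
    exact ⟨C, ⟨hC, by_contra fun h' => hz.2 ⟨C, ⟨hC, h'⟩, h⟩⟩, h⟩
  have e := H.star (x := y) (sUnion_subset fun C hC => (h2 C hC.1).2.2.1)
    (starConvex_sUnion fun C hC => (h2 C hC.1).2.1 hC.2) hc'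
  obtain ⟨C, hC, h⟩ := hc'.2 (left_mem_Icc.2 zero_le_one)
  obtain ⟨C', hC', h'⟩ := hc'.2 (right_mem_Icc.2 zero_le_one)
  have := N.mul_mem (N.inv_mem ((h2 C hC.1).2.2.2 y hC.2 _ h)) ((h2 C' hC'.1).2.2.2 y hC'.2 _ h')
  rw [e]
  simpa only [mul_inv_rev, inv_inv, mul_assoc, inv_mul_cancel_left] using this

theorem Gen_mem {a b c d e f : ℝ} {x : E3} : x ∈ Bx ![a, b, c] ![d, e, f] ↔
    (a ≤ x 0 ∧ x 0 ≤ d) ∧ (b ≤ x 1 ∧ x 1 ≤ e) ∧ c ≤ x 2 ∧ x 2 ≤ f := by
  simp [Bx, Fin.forall_fin_succ]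

theorem Gen_closed (a b : E3) : IsClosed (Bx a b) := by
  rw [Bx, ofPred_forall]
  exact isClosed_iInter fun i => isClosed_Icc.preimage (continuous_apply i)

theorem Gen_eq {x : E3} {a b c : ℝ} (h0 : x 0 = a) (h1 : x 1 = b) (h2 : x 2 = c) :
    x = ![a, b, c] := by
  funext i
  fin_cases i
  exacts [h0, h1, h2]

theorem Gen_bar : Bx ![1, 1, 1] ![8 * g + 5, 1, 1] ⊆ tree g := fun x hx =>
  have h := Gen_mem.1 hx
  ⟨le_antisymm h.2.2.2 h.2.2.1, Or.inl ⟨le_antisymm h.2.1.2 h.2.1.1, h.1⟩⟩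

theorem Gen_tooth {i : ℕ} (hi : i ≤ 2 * g + 1) :
    Bx ![4 * i + 1, 1, 1] ![4 * i + 1, 5, 1] ⊆ tree g := fun x hx =>
  have h := Gen_mem.1 hx
  ⟨le_antisymm h.2.2.2 h.2.2.1, Or.inr ⟨i, hi, le_antisymm h.1.2 h.1.1, h.2.1⟩⟩

/-- the gauge on the tree -/
def Gen_T (k : (ℝ → E3) → G) (x : E3) : G := k (seg p0 ![x 0, 1, 1]) * k (seg ![x 0, 1, 1] x)

/-- the gauge on a bridge -/
def Gen_B (k : (ℝ → E3) → G) (j : ℕ) (x : E3) : G :=
  Gen_T k ![8 * j + 5, 5, 1] * k (seg ![8 * j + 5, 5, 1] x)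

theorem Gen_ends (H : IsPF (core g) k) {j : ℕ} (hj : j < g) {x : E3} (h1 : x ∈ tree g)
    (h2 : x ∈ Ls (8 * j + 5) (8 * j + 9)) :
    Gen_T k x * (Gen_B k j x)⁻¹ ∈ Subgroup.closure (range (tup g k)) := by
  obtain ⟨a, b, c, d⟩ := h2
  obtain h | ⟨i, -, h, -⟩ := h1.2
  · linarith only [c, h, h.1]
  have e1 : 2 * j + 1 ≤ i := by exact_mod_cast (by linarith only [a, h] : (2 * j + 1 : ℝ) ≤ i)
  have e2 : i ≤ 2 * j + 2 := by exact_mod_cast (by linarith only [b, h] : (i : ℝ) ≤ 2 * j + 2)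
  obtain rfl | rfl : i = 2 * j + 1 ∨ i = 2 * j + 2 := by omega
  · obtain rfl : x = ![8 * (j : ℝ) + 5, 5, 1] := Gen_eq (by rw [h]; push_cast; ring) c d
    rw [Gen_B, H.seg_self (Or.inl h1), mul_one, mul_inv_cancel]
    exact one_mem _
  · obtain rfl : x = ![8 * (j : ℝ) + 9, 5, 1] := Gen_eq (by rw [h]; push_cast; ring) c d
    have s := segs_core hj
    have := inv_mem (Subgroup.subset_closure (k := range (tup g k)) ⟨⟨j, hj⟩, rfl⟩)
    simpa only [Gen_T, Gen_B, tup, tj, Matrix.cons_val_zero, H.seg_inv s.2.2.2.1,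
      H.seg_inv s.2.2.2.2, mul_inv_rev, mul_assoc] using this

theorem gen_core (H : IsPF (core g) k) {c : ℝ → E3} (hc : IsP (core g) c) (h0 : c 0 = p0)
    (h1 : c 1 = p0) : k c ∈ Subgroup.closure (range (tup g k)) := by
  have ex : ∀ x : E3, ∃ a : G, (x ∈ tree g → a = Gen_T k x) ∧ ∀ j < g,
      x ∈ Ls (8 * (j : ℕ) + 5) (8 * (j : ℕ) + 9) →
        a * (Gen_B k j x)⁻¹ ∈ Subgroup.closure (range (tup g k)) := fun x => by
    by_cases e : x ∈ tree g
    · exact ⟨_, fun _ => rfl, fun j hj => Gen_ends H hj e⟩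
    by_cases e' : ∃ j : ℕ, x ∈ Ls (8 * j + 5) (8 * j + 9)
    · obtain ⟨j, a, b, -⟩ := e'
      refine ⟨Gen_B k j x, fun h => absurd h e, fun i _ h => ?_⟩
      have e1 : i < j + 1 := by exact_mod_cast (by linarith only [b, h, h.1] : (i : ℝ) < j + 1)
      have e2 : j < i + 1 := by exact_mod_cast (by linarith only [a, h, h.2.1] : (j : ℝ) < i + 1)
      rw [show i = j by omega, mul_inv_cancel]
      exact one_mem _
    · exact ⟨1, fun h => absurd h e, fun j _ h => absurd ⟨j, h⟩ e'⟩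
  choose γ γ1 γ2 using ex
  have g0 : (0 : ℝ) ≤ g := Nat.cast_nonneg g
  have key := Gen_fin H (Subgroup.closure (range (tup g k))) γ
    (A := insert (Bx ![1, 1, 1] ![8 * g + 5, 1, 1])
      ((fun i : ℕ => Bx ![4 * i + 1, 1, 1] ![4 * i + 1, 5, 1]) '' Iic (2 * g + 1) ∪
        (fun j : ℕ => Ls (8 * j + 5) (8 * j + 9)) '' Iio g))
    ((((finite_Iic _).image _).union ((finite_Iio _).image _)).insert _) ?_ ?_ hc
  · have e : γ p0 = 1 := by
      rw [γ1 _ (p0_mem g), Gen_T]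
      exact (congrArg₂ (· * ·) (H.seg_self (Or.inl (p0_mem g)))
        (H.seg_self (Or.inl (p0_mem g)))).trans (one_mul 1)
    rwa [h0, h1, e, one_mul, inv_one, mul_one] at key
  · rintro y (⟨a, b | ⟨i, hi, b, c⟩⟩ | h)
    · exact ⟨_, Or.inl rfl, Gen_mem.2 ⟨b.2, ⟨b.1.ge, b.1.le⟩, a.ge, a.le⟩⟩
    · exact ⟨_, Or.inr (Or.inl ⟨i, hi, rfl⟩), Gen_mem.2 ⟨⟨b.ge, b.le⟩, c, a.ge, a.le⟩⟩
    · obtain ⟨j, hj, h⟩ := mem_iUnion₂.1 h
      exact ⟨_, Or.inr (Or.inr ⟨j, hj, rfl⟩), h⟩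
  · rintro _ (rfl | ⟨i, hi, rfl⟩ | ⟨j, hj, rfl⟩)
    · have s : Bx ![1, 1, 1] ![8 * g + 5, 1, 1] ⊆ core g := Gen_bar.trans subset_union_left
      refine ⟨Gen_closed _ _, Bx_convex _ _, s, fun y hy z hz => ?_⟩
      have e : ∀ x ∈ Bx ![1, 1, 1] ![8 * g + 5, 1, 1], γ x = k (seg p0 x) := fun x hx => by
        have h := Gen_bar hx
        rw [γ1 x h, Gen_T, ← Gen_eq rfl (le_antisymm (Gen_mem.1 hx).2.1.2 (Gen_mem.1 hx).2.1.1) h.1,
          H.seg_self (s hx), mul_one]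
      rw [e y hy, e z hz, H.tri s (Bx_convex _ _) (a := p0)
        (Gen_mem.2 (by simp only [p0, Matrix.cons_val, le_refl, and_true, true_and]; linarith only [])) hy hz,
        mul_inv_cancel]
      exact one_mem _
    · have s := (Gen_tooth hi).trans (subset_union_left : tree g ⊆ core g)
      refine ⟨Gen_closed _ _, Bx_convex _ _, s, fun y hy z hz => ?_⟩
      rw [γ1 y (Gen_tooth hi hy), γ1 z (Gen_tooth hi hz), Gen_T, Gen_T,
        le_antisymm (Gen_mem.1 hy).1.2 (Gen_mem.1 hy).1.1,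
        le_antisymm (Gen_mem.1 hz).1.2 (Gen_mem.1 hz).1.1, mul_assoc (k _), H.tri s (Bx_convex _ _)
        (Gen_mem.2 (by simp only [Matrix.cons_val, le_refl, and_true, true_and]; norm_num)) hy hz,
        mul_inv_cancel]
      exact one_mem _
    · have s : Ls (8 * j + 5) (8 * j + 9) ⊆ core g := fun x hx => Or.inr (mem_iUnion₂.2 ⟨j, hj, hx⟩)
      refine ⟨(Ls_compact _ _).isClosed, Ls_convex _ _, s, fun y hy z hz => ?_⟩
      have e : Gen_B k j z = Gen_B k j y * k (seg y z) := by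
        rw [Gen_B, Gen_B, mul_assoc, H.tri s (Ls_convex _ _) (a := ![8 * j + 5, 5, 1])
          ⟨le_rfl, show (8 * j + 5 : ℝ) ≤ 8 * j + 9 by linarith, rfl, rfl⟩ hy hz]
      have := mul_mem (γ2 y j hj hy) (inv_mem (γ2 z j hj hz))
      rw [e] at this
      simpa only [mul_inv_rev, inv_inv, mul_assoc, inv_mul_cancel_left] using this

theorem gen_loop (H : IsPF (NK (gr3 g)) k) {c : ℝ → E3} (hc : IsP (NK (gr3 g)) c) (h0 : c 0 = p0)
    (h1 : c 1 = p0) : k c ∈ Subgroup.closure (range (tup g k)) := by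
  have ct := (tau_smooth g).continuous
  have s : core g ⊆ NK (gr3 g) := (core_sub g).trans interior_subset
  have e := H.gauge (T := NK (gr3 g)) (K := fun p => tau g (1 - p.1) p.2)
    (ct.comp ((continuous_const.sub continuous_fst).prodMk continuous_snd)).continuousOn
    (fun p hp => tau_mem ⟨sub_nonneg.2 hp.1.2, sub_le_self _ hp.1.1⟩ hp.2) c hc
  simp only [h0, h1, tau_p0, H.const p0 (s (Or.inl (p0_mem g))), sub_zero, sub_self, tau_one,
    inv_one, one_mul, mul_one] at e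
  have h := gen_core (H.mono s) (hc.map (f := fun z => tau g 0 z)
    (ct.comp (continuous_const.prodMk continuous_id)).continuousOn fun x hx => tau_core hx)
    (by rw [comp_apply, h0, tau_p0]) (by rw [comp_apply, h1, tau_p0])
  rwa [e] at h

theorem model_free {S : Set E3} (hS : S = NK (gr3 g)) : IsPathConnected S ∧
    ∀ x : S, Nonempty (FundamentalGroup S x ≃* FreeGroup (Fin g)) := by
  subst hS
  obtain ⟨ν, hν, c1, c2, -⟩ := exists_LG 1 g
  obtain ⟨e⟩ := super_homeo (down_gr 1 g)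
  obtain ⟨C, hC⟩ : ∃ C : Cv (NK (gr3 g)) (FreeGroup (Fin g)), C.Univ :=
    ⟨(LCv (LC.W ⟨_, ν, down_gr 1 g, hν⟩)).homeo e.symm, univ_LCv c1.W c2.W⟩
  have := hC.1
  refine ⟨isPathConnected_iff_pathConnectedSpace.2
    (C.cov.surjective.pathConnectedSpace C.cov.continuous), fun x => ?_⟩
  obtain ⟨y, hy⟩ := C.cov.surjective x
  exact ⟨((MulEquiv.inv' _).trans (C.cov.fundamentalGroupEquiv ⟨y, hy⟩).symm).symm⟩

theorem exists_gens {S : Set E3} (hS : S = NK (gr3 g)) {x : S} (hx : x.1 = p0) :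
    ∃ u : Fin g → FundamentalGroup S x, Subgroup.closure (range u) = ⊤ ∧
      ∀ (G : Type) [Group G] (k : (ℝ → E3) → G) (φ : FundamentalGroup S x →* G), IsPF S k →
        Ind k Subtype.val x φ → ∀ j, φ (u j) = tup g k j := by
  have ex : ∀ j : Fin g, ∃ a : FundamentalGroup S x, ∀ (G : Type) [Group G] (k : (ℝ → E3) → G)
      (φ : FundamentalGroup S x →* G), IsPF S k → Ind k Subtype.val x φ → φ a = tup g k j :=
    fun j => by
      obtain ⟨l, l1, l2, l3, l4⟩ := ((segs_core j.2).mono (T' := S)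
        (hS ▸ (core_sub g).trans interior_subset)).loop
      obtain ⟨a, ha⟩ := ind_loop (x := x) l1 (l2.trans hx.symm) (l3.trans hx.symm)
      exact ⟨a, fun G _ k φ H hφ => (ha G k φ H hφ).trans (l4 G k H)⟩
  choose u hu using ex
  refine ⟨u, ?_, fun G _ k φ H hφ j => hu j G k φ H hφ⟩
  obtain ⟨G, _, h, H⟩ := exists_hol (model_free hS).1
  obtain ⟨φ, hφ⟩ := exists_ind H.toIsPF continuous_subtype_val (fun z : S => z.2) x
  have hb := Ind.bij H IsEmbedding.subtypeVal Subtype.range_coe hφ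
  refine Subgroup.map_injective hb.1 ?_
  rw [MonoidHom.map_closure, ← range_comp, Subgroup.map_top_of_surjective _ hb.2,
    show φ ∘ u = tup g h from funext fun j => hu j G h φ H.toIsPF hφ, eq_top_iff]
  intro w _
  obtain ⟨c, c1, c2, c3, rfl⟩ := H.surj x x.2 x x.2 w
  subst hS
  exact gen_loop H.toIsPF c1 (c2.trans hx) (c3.trans hx)

end Pool.Agent.Work.MP_7ba843_gt.C
end
end
end

-- merged part: Pool.Agent.Work.MP_7ba843_gt.C.AlgN
section
-- merged part: Pool.Agent.Work.MP_7ba843_gt.C.Pt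
section
/-! Moving the base point along a path, and the effect of an isotopy on the tuple.

PLAN. `move_pt`: let `c' t = c (max 0 (min 1 (3 t - 1)))`, continuous on the line, constant near
`t ≤ 0` and near `t ≥ 1`, `η c' = η c` (`IsPF.htp`). `approx` with `C = Iic 0 ∪ Ici 1`,
`O = Iio (1/3) ∪ Ioi (2/3)` gives `σ`; `γ = r ∘ σ` is smooth, homotopic to `c'` through
`r ((1 - t) • c' s + t • σ s)`. Apply `IE` with `E = Fin 0 → ℝ`, `K = K₁ = G = univ`,
`Φ t x = γ t`. `tup_ist`: `IsPF.gauge` for the homotopy `(t, x) ↦ ξ.f t (Φ x)` on `core g`, then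
`Gauge.tj` with `segs_core`. About 130 lines. -/

set_option linter.unusedSectionVars false
set_option linter.unusedVariables false

open Set Filter Topology Function
open scoped ContDiff

noncomputable section
namespace Pool.Agent.Work.MP_7ba843_gt.C

open Pool.Agent.Work.MP_bf98aa_gt.Ns (Dif)
open Pool.Agent.Work.MP_735653_gt Pool.Agent.Work.MP_7ba843_gt.N

variable {V E F : Type} [NormedAddCommGroup V] [NormedSpace ℝ V] [FiniteDimensional ℝ V]
  [NormedAddCommGroup E] [NormedSpace ℝ E] [FiniteDimensional ℝ E]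
  [NormedAddCommGroup F] [NormedSpace ℝ F] [FiniteDimensional ℝ F] {A : Amb V}

variable {G : Type} [Group G] {η : (ℝ → V) → G}

theorem move_pt (hη : IsPF A.M η) {c : ℝ → V} (hc : IsP A.M c) :
    ∃ ξ : Ist A, ξ.d (c 0) = c 1 ∧ η (fun t => ξ.f t (c 0)) = η c := by
  obtain ⟨κ, hκ⟩ : ∃ κ : ℝ → ℝ, κ = fun t => max 0 (min 1 (3 * t - 1)) := ⟨_, rfl⟩
  have k1 : Continuous κ := by
    rw [hκ]
    fun_prop
  have k2 : ∀ t, κ t ∈ Icc (0 : ℝ) 1 := fun t => by
    rw [hκ]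
    exact ⟨le_max_left _ _, max_le zero_le_one (min_le_left _ _)⟩
  have k3 : ∀ t, t < 1 / 3 → κ t = 0 := fun t ht => by
    rw [hκ]
    exact max_eq_left ((min_le_right _ _).trans (by linarith only [ht]))
  have k4 : ∀ t, 2 / 3 < t → κ t = 1 := fun t ht => by
    rw [hκ]
    simp only [min_eq_left (by linarith : 1 ≤ 3 * t - 1), max_eq_right zero_le_one]
  have k5 : κ 0 = 0 := k3 0 (by norm_num)
  have k6 : κ 1 = 1 := k4 1 (by norm_num)
  have c1 : Continuous fun t => c (κ t) := hc.1.comp_continuous k1 k2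
  obtain ⟨σ, s1, s2, s3⟩ := approx c1 (Q := Icc 0 1) (C := Iic 0 ∪ Ici 1)
    (O := Iio (1 / 3) ∪ Ioi (2 / 3)) isCompact_Icc A.isOpen (fun t _ => A.sub (hc.2 (k2 t)))
    (isClosed_Iic.union isClosed_Ici) (isOpen_Iio.union isOpen_Ioi)
    (union_subset_union (Iic_subset_Iio.2 (by norm_num)) (Ici_subset_Ioi.2 (by norm_num))) (by
      rintro t (ht | ht)
      · refine ((contDiffAt_const (c := c 0)).congr_of_eventuallyEq ?_).contDiffWithinAt
        filter_upwards [Iio_mem_nhds ht] with s hs using congrArg c (k3 s hs)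
      · refine ((contDiffAt_const (c := c 1)).congr_of_eventuallyEq ?_).contDiffWithinAt
        filter_upwards [Ioi_mem_nhds ht] with s hs using congrArg c (k4 s hs))
  have e0 : σ 0 = c 0 := (s2 (.inl self_mem_Iic)).trans (congrArg c k5)
  have e1 : σ 1 = c 1 := (s2 (.inr self_mem_Ici)).trans (congrArg c k6)
  have m0 : c 0 ∈ A.M := hc.2 (left_mem_Icc.2 zero_le_one)
  have m1 : c 1 ∈ A.M := hc.2 (right_mem_Icc.2 zero_le_one)
  obtain ⟨ξ, C, -, -, -, hξ⟩ := IE (A := A) (E := Fin 0 → ℝ) (K := {0}) (K₁ := univ) (G := univ)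
    (Φ := fun t _ => A.r (σ t)) isCompact_singleton isClosed_univ
    ⟨A.smooth.comp (s1.comp contDiff_fst),
      fun t ht _ _ => A.maps _ (s3 t ht (right_mem_segment _ _ _)),
      fun _ _ _ _ _ _ _ => Subsingleton.elim _ _, fun _ _ _ _ _ _ _ => Subsingleton.elim _ _⟩
    isOpen_univ (fun _ _ h => absurd trivial h) fun _ _ _ _ _ => trivial
  simp only [e0, A.fix _ m0, mem_singleton_iff, forall_eq] at hξ
  refine ⟨ξ, by rw [← ξ.one, hξ 1 (right_mem_Icc.2 zero_le_one), e1, A.fix _ m1], ?_⟩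
  have m : ∀ p ∈ Sq, (1 - p.1) * p.2 + p.1 * κ p.2 ∈ Icc (0 : ℝ) 1 := fun p hp =>
    convex_Icc 0 1 hp.2 (k2 p.2) (sub_nonneg.2 hp.1.2) hp.1.1 (sub_add_cancel _ _)
  have h1 : η c = η fun t => c (κ t) :=
    hη.htp (K := fun p => c ((1 - p.1) * p.2 + p.1 * κ p.2))
      (hc.1.comp (Continuous.continuousOn (by fun_prop)) m) (fun p hp => hc.2 (m p hp))
      (fun s _ => by simp) fun t _ => by simp [k5, k6]
  have h2 : (η fun t => c (κ t)) = η fun t => A.r (σ t) :=
    hη.htp (K := fun p => A.r ((1 - p.1) • c (κ p.2) + p.1 • σ p.2))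
      (A.smooth.continuous.comp (((continuous_const.sub continuous_fst).smul
        (c1.comp continuous_snd)).add (continuous_fst.smul
          (s1.continuous.comp continuous_snd)))).continuousOn
      (fun p hp => A.maps _ (s3 p.2 hp.2 ⟨1 - p.1, p.1, sub_nonneg.2 hp.1.2, hp.1.1,
        sub_add_cancel _ _, rfl⟩))
      (fun s _ => by simpa using A.fix _ (hc.2 (k2 s))) fun t _ => by
        simp only [k5, k6, e0, e1, ← add_smul, sub_add_cancel, one_smul]
        exact ⟨A.fix _ m0, A.fix _ m1⟩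
  rw [h1, h2]
  exact hη.congr _ _ hξ

theorem tup_ist (hη : IsPF A.M η) (ξ : Ist A) {g : ℕ} {Φ : E3 → V} (h : Emb A (core g) Φ)
    (j : Fin g) : tup g (fun c => η ((fun x => ξ.d (Φ x)) ∘ c)) j =
      (η fun t => ξ.f t (Φ p0))⁻¹ * tup g (fun c => η (Φ ∘ c)) j * η fun t => ξ.f t (Φ p0) := by
  have := (hη.gauge (T := core g) (K := fun p => ξ.f p.1 (Φ p.2))
    (ξ.cont.comp (continuous_fst.prodMk (h.smooth.continuous.comp continuous_snd))).continuousOn
    fun p hp => ξ.maps _ hp.1 _ (h.maps.self_of_nhdsSet _ hp.2)).tj (segs_core j.2)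
  simp only [ξ.zero, ξ.one] at this
  exact this

end Pool.Agent.Work.MP_7ba843_gt.C
end
end

-- merged part: Pool.Agent.Work.MP_7ba843_gt.C.Thick
section
/-! Thickening an embedding along a star-shaped set, and lifting maps through it.

PLAN. `Thick_loc`: near `q`, with a chart, `h = ρ ∘ Φ` (`ext_smooth`), `ν` outside the range of the
derivative of `h` at `q` (dimensions three and four), `Ψ₀ (x, w) = χ (h x + w • ν)` is an embedding
along `{(q, 0)}`, hence along a compact neighbourhood (`Emb.nhd`), and `Ψ₀ (x, 0) = Φ x` near `q`.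
`thick`: `j t x = q + (1 - t (1 - δ)) • (x - q)` maps `L` into `L`; `Emb.fam`, `Mv.of_fam` give `ξ`
with `ξ.d (Φ x) = Φ (j 1 x)` near `L`; put `Ψ (x, w) = ξ.d.symm (Ψ₀ (j 1 x, w))`
(`Ist.exists_symm`, `Emb.ist`, `Emb.comp`). `Thick_open`: for `z ∈ K` the image of a neighbourhood
of `z` is a neighbourhood of `Ψ z` within `M` (`HasStrictFDerivAt.map_nhds_eq_of_equiv` for
`ρ ∘ Ψ`). `lift4`: `h = L ∘ Φ` with `L` from `left_inv`. About 250 lines. -/

set_option linter.unusedSectionVars false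
set_option linter.unusedVariables false

open Set Filter Topology Function
open scoped ContDiff

noncomputable section
namespace Pool.Agent.Work.MP_7ba843_gt.C

open Pool.Agent.Work.MP_bf98aa_gt.Ns (Dif)

variable {V E F : Type} [NormedAddCommGroup V] [NormedSpace ℝ V] [FiniteDimensional ℝ V]
  [NormedAddCommGroup E] [NormedSpace ℝ E] [FiniteDimensional ℝ E]
  [NormedAddCommGroup F] [NormedSpace ℝ F] [FiniteDimensional ℝ F] {A : Amb V}

theorem Thick_inj {f : E → F} {g : F → V} {k : E → V} {x : E} (hf : DifferentiableAt ℝ f x)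
    (hg : DifferentiableAt ℝ g (f x)) (e : ∀ᶠ y in 𝓝 x, g (f y) = k y)
    (hk : Injective (fderiv ℝ k x)) : Injective (fderiv ℝ f x) := by
  have e1 : fderiv ℝ (g ∘ f) x = fderiv ℝ k x := Filter.EventuallyEq.fderiv_eq e
  rw [← e1, fderiv_comp x hg hf, ContinuousLinearMap.coe_comp] at hk
  exact hk.of_comp

theorem Thick_id (x : E) : Injective (fderiv ℝ (fun y : E => y) x) := by
  rw [fderiv_fun_id]
  exact injective_id

theorem Thick_d {f : E → F} (hf : ContDiff ℝ ∞ f) (x : E) : DifferentiableAt ℝ f x :=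
  hf.differentiable (by simp) x

theorem Thick_chart {y : V} (c : Chart A.M y) : Emb A univ c.χ where
  smooth := c.sχ
  maps := Eventually.of_forall fun a => (c.χ_mem a).1
  inj a _ b _ h := by rw [← c.ρχ a, h, c.ρχ]
  imm a _ := Thick_inj (Thick_d c.sχ a)
    ((c.sρ.contDiffAt (c.isOpen.mem_nhds (c.χ_mem a).2)).differentiableAt (by simp))
    (Eventually.of_forall c.ρχ) (Thick_id a)

theorem Thick_ev {K : Set E} {Φ : E → V} (h : Emb A K Φ) {q : E} (hq : q ∈ K)
    (c : Chart A.M (Φ q)) : ∀ᶠ x in 𝓝 q, c.χ (c.ρ (Φ x)) = Φ x := by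
  filter_upwards [h.maps.filter_mono (nhds_le_nhdsSet hq),
    h.smooth.continuous.continuousAt (c.isOpen.mem_nhds c.mem)] with x h1 h2
  exact c.χρ _ ⟨h1, h2⟩

theorem Thick_i34 : Continuous i34 := continuous_id.prodMk continuous_const

theorem Thick_loc {L : Set E3} {q : E3} (hq : q ∈ L) {Φ : E3 → V} (h : Emb A L Φ) :
    ∃ Ψ : E4 → V, Emb A {i34 q} Ψ ∧ ∀ᶠ x in 𝓝 q, Ψ (i34 x) = Φ x := by
  obtain ⟨c⟩ := A.chart _ (h.mem hq)
  obtain ⟨g, hg, e⟩ := ext_smooth (f := fun x => c.ρ (Φ x)) (isCompact_singleton (x := q))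
    (c.isOpen.preimage h.smooth.continuous) (singleton_subset_iff.2 c.mem)
    (c.sρ.comp h.smooth.contDiffOn fun _ hx => hx)
  rw [nhdsSet_singleton] at e
  have e2 : ∀ᶠ x in 𝓝 q, c.χ (g x) = Φ x := by
    filter_upwards [e, Thick_ev h hq c] with x h1 h2
    rw [h1, h2]
  have hi := Thick_inj (Thick_d hg q) (Thick_d c.sχ _) e2 (h.imm q hq)
  obtain ⟨ν, hν⟩ : ∃ ν, ∀ a, fderiv ℝ g q a ≠ ν := by
    by_contra hn
    push Not at hn
    have := LinearMap.finrank_le_finrank_of_surjective (f := (fderiv ℝ g q).toLinearMap) hn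
    simp at this
  have d : HasFDerivAt (fun p : E4 => g p.1 + p.2 • ν)
      ((fderiv ℝ g q).comp (ContinuousLinearMap.fst ℝ E3 ℝ) +
        (ContinuousLinearMap.snd ℝ E3 ℝ).smulRight ν) (i34 q) :=
    ((Thick_d hg q).hasFDerivAt.comp (i34 q) hasFDerivAt_fst).add (hasFDerivAt_snd.smul_const ν)
  refine ⟨_, (Thick_chart c).comp (j := fun p : E4 => g p.1 + p.2 • ν)
    ((hg.comp contDiff_fst).add (contDiff_snd.smul contDiff_const)) (mapsTo_univ _ _)
    (subsingleton_singleton.injOn _) ?_, e2.mono fun x hx => ?_⟩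
  · rintro _ rfl
    rw [d.fderiv, injective_iff_map_eq_zero]
    rintro ⟨a, b⟩ hab
    change fderiv ℝ g q a + b • ν = 0 at hab
    obtain rfl : b = 0 := by
      by_contra hb
      refine hν (-b⁻¹ • a) ?_
      rw [map_smul, eq_neg_of_add_eq_zero_left hab, neg_smul_neg, inv_smul_smul₀ hb]
    rw [zero_smul, add_zero] at hab
    rw [(injective_iff_map_eq_zero _).1 hi a hab]
    rfl
  · change c.χ (g x + (0 : ℝ) • ν) = Φ x
    rw [zero_smul, add_zero, hx]

theorem Thick_open {K : Set E4} {Ψ : E4 → V} (h : Emb A K Ψ) {z : E4} (hz : z ∈ K) {N : Set E4}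
    (hN : N ∈ 𝓝 z) : ∀ᶠ y in 𝓝 (Ψ z), y ∈ A.M → y ∈ Ψ '' N := by
  obtain ⟨c⟩ := A.chart _ (h.mem hz)
  have hρ := c.sρ.contDiffAt (c.isOpen.mem_nhds c.mem)
  have hF : ContDiffAt ℝ ∞ (fun w => c.ρ (Ψ w)) z := hρ.comp z h.smooth.contDiffAt
  have e := Thick_ev h hz c
  have hi := Thick_inj (hF.differentiableAt (by simp)) (Thick_d c.sχ _) e (h.imm z hz)
  let T : E4 ≃L[ℝ] E4 := (LinearEquiv.ofInjectiveEndo
    (fderiv ℝ (fun w => c.ρ (Ψ w)) z).toLinearMap hi).toContinuousLinearEquiv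
  have hT : (T : E4 →L[ℝ] E4) = fderiv ℝ (fun w => c.ρ (Ψ w)) z :=
    ContinuousLinearMap.ext fun _ => rfl
  have hs : HasStrictFDerivAt (fun w => c.ρ (Ψ w)) (T : E4 →L[ℝ] E4) z :=
    hT ▸ hF.hasStrictFDerivAt (by simp)
  have h1 := image_mem_map (m := fun w => c.ρ (Ψ w)) (inter_mem hN e)
  rw [hs.map_nhds_eq_of_equiv] at h1
  filter_upwards [hρ.continuousAt h1, c.isOpen.mem_nhds c.mem] with y ⟨w, hw, e1⟩ h2 h3
  refine ⟨w, hw.1, ?_⟩
  rw [← c.χρ y ⟨h3, h2⟩, ← e1]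
  exact Eq.symm hw.2

theorem thick {L : Set E3} (hL : IsCompact L) {q : E3} (hq : q ∈ L) (hs : StarConvex ℝ q L)
    {Φ : E3 → V} (h : Emb A L Φ) :
    ∃ Ψ : E4 → V, Emb A (i34 '' L) Ψ ∧ ∀ᶠ x in 𝓝ˢ L, Ψ (i34 x) = Φ x := by
  obtain ⟨Ψ, hΨ, e⟩ := Thick_loc hq h
  obtain ⟨K, -, hK, -, hK'⟩ := hΨ.nhd isCompact_singleton univ_mem
  obtain ⟨ε, hε, hb⟩ := Metric.eventually_nhds_iff.1 (e.and
    (Thick_i34.continuousAt (mem_interior_iff_mem_nhds.1 (hK rfl))))
  obtain ⟨R, hR, hLR⟩ := hL.isBounded.subset_ball_lt 0 q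
  obtain ⟨δ, h0, h1, h2⟩ : ∃ δ : ℝ, 0 < δ ∧ δ ≤ 1 ∧ δ * R ≤ ε :=
    ⟨min 1 (ε / R), by positivity, min_le_left _ _, (le_div_iff₀ hR).1 (min_le_right _ _)⟩
  obtain ⟨j, hj⟩ : ∃ j : ℝ → E3 → E3, ∀ c x, j c x = q + c • (x - q) := ⟨_, fun _ _ => rfl⟩
  have sj : ContDiff ℝ ∞ fun p : ℝ × E3 => j p.1 p.2 := by
    simp only [hj]
    fun_prop
  have sj1 : ∀ c, ContDiff ℝ ∞ (j c) := fun c => sj.comp (contDiff_const.prodMk contDiff_id)
  have jj : ∀ c : ℝ, c ≠ 0 → ∀ x, j c⁻¹ (j c x) = x := fun c hc x => by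
    rw [hj, hj, add_sub_cancel_left, inv_smul_smul₀ hc, add_sub_cancel]
  have hc : ∀ t ∈ Icc (0 : ℝ) 1, 0 < 1 - t * (1 - δ) ∧ 1 - t * (1 - δ) ≤ 1 := fun t ht =>
    ⟨by linarith only [h0, h1, ht, ht.1, ht.2, mul_nonneg_of_nonpos_of_nonpos (Mathlib.Tactic.Linarith.sub_nonpos_of_le h1) (Mathlib.Tactic.Linarith.sub_nonpos_of_le ht.right)], by linarith only [h1, ht, ht.1, ht.2, mul_nonneg_of_nonpos_of_nonpos (Mathlib.Tactic.Linarith.sub_nonpos_of_le h1) (Mathlib.Tactic.Linarith.sub_nonpos_of_le ht.left)]⟩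
  obtain ⟨f1, f2⟩ := h.fam hL (j := fun t => j (1 - t * (1 - δ)))
    (sj.comp ((show ContDiff ℝ ∞ fun p : ℝ × E3 => 1 - p.1 * (1 - δ) by fun_prop).prodMk contDiff_snd))
    (fun t ht x hx => by rw [hj]; exact hs.add_smul_sub_mem hx (hc t ht).1.le (hc t ht).2)
    (fun t ht => (LeftInverse.injective (jj _ (hc t ht).1.ne')).injOn)
    fun t ht x _ => Thick_inj (Thick_d (sj1 _) x) (Thick_d (sj1 _) _)
      (Eventually.of_forall (jj _ (hc t ht).1.ne')) (Thick_id x)
  obtain ⟨ξ, -, hξ⟩ := Mv.of_fam hL f1 f2 hq fun t _ => by simp [hj]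
  obtain ⟨ζ, -, hζ⟩ := ξ.exists_symm
  have jb : ∀ x ∈ Metric.ball q R, dist (j δ x) q < ε := fun x hx => by
    rw [hj, dist_eq_norm, add_sub_cancel_left, norm_smul, Real.norm_of_nonneg h0.le]
    exact (mul_lt_mul_of_pos_left (mem_ball_iff_norm.1 hx) h0).trans_le h2
  have sJ : ∀ c, ContDiff ℝ ∞ fun p : E4 => ((j c p.1, p.2) : E4) := fun c =>
    ((sj1 c).comp contDiff_fst).prodMk contDiff_snd
  have JJ : ∀ p : E4, ((j δ⁻¹ (j δ p.1), p.2) : E4) = p := fun p => by rw [jj δ h0.ne']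
  have J1 : LeftInverse (fun p : E4 => ((j δ⁻¹ p.1, p.2) : E4)) fun p : E4 => (j δ p.1, p.2) := JJ
  refine ⟨_, (hK'.comp (sJ δ) ?_ J1.injective.injOn fun p _ => Thick_inj (Thick_d (sJ δ) p)
    (Thick_d (sJ δ⁻¹) _) (Eventually.of_forall JJ) (Thick_id p)).ist ζ, ?_⟩
  · rintro _ ⟨x, hx, rfl⟩
    exact (hb (jb x (hLR hx))).2
  · filter_upwards [hξ, Metric.isOpen_ball.mem_nhdsSet.2 hLR] with x a b
    simp only [zero_mul, sub_zero, one_mul, sub_sub_cancel] at a
    rw [hj 1, one_smul, add_sub_cancel] at a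
    change ζ.d (Ψ (i34 (j δ x))) = Φ x
    rw [(hb (jb x b)).1, ← a, hζ]
    exact ξ.d.left_inv _

theorem lift4 {L : Set E3} (hL : IsCompact L) {Ψ : E4 → V} (hΨ : Emb A (i34 '' L) Ψ) {Φ : E3 → V}
    (h : Emb A L Φ) (e : ∀ x ∈ L, Φ x = Ψ (i34 x)) :
    ∃ k : E3 → E4, ContDiff ℝ ∞ k ∧ (∀ᶠ x in 𝓝ˢ L, Ψ (k x) = Φ x) ∧ (∀ x ∈ L, k x = i34 x) ∧
      (∀ x ∈ L, Injective (fderiv ℝ k x)) ∧
      ∀ x ∈ L, (∀ᶠ y in 𝓝 x, Φ y = Ψ (i34 y)) → k =ᶠ[𝓝 x] i34 := by
  obtain ⟨Λ, hΛ, e1⟩ := left_inv hΨ.smooth (hL.image Thick_i34) hΨ.inj hΨ.imm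
  have e2 : ∀ x ∈ L, ∀ᶠ z in 𝓝 (i34 x), Λ (Ψ z) = z := fun x hx =>
    e1.filter_mono (nhds_le_nhdsSet (mem_image_of_mem _ hx))
  have e3 : ∀ x ∈ L, ∀ᶠ y in 𝓝 x, Ψ (Λ (Φ y)) = Φ y := fun x hx => by
    have a := Thick_open hΨ (mem_image_of_mem _ hx) (e2 x hx)
    rw [← e x hx] at a
    filter_upwards [h.smooth.continuous.continuousAt.eventually a,
      h.maps.filter_mono (nhds_le_nhdsSet hx)] with y h1 h2
    obtain ⟨w, hw, e4⟩ := h1 h2
    rw [← e4, show Λ (Ψ w) = w from hw]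
  refine ⟨fun x => Λ (Φ x), hΛ.comp h.smooth, eventually_nhdsSet_iff_forall.2 e3,
    fun x hx => (congrArg Λ (e x hx)).trans (e2 x hx).self_of_nhds,
    fun x hx => Thick_inj (Thick_d (hΛ.comp h.smooth) x) (Thick_d hΨ.smooth _) (e3 x hx)
      (h.imm x hx), fun x hx a => ?_⟩
  filter_upwards [a, Thick_i34.continuousAt.eventually (e2 x hx)] with y h1 h2
  rw [h1, h2]

end Pool.Agent.Work.MP_7ba843_gt.C
end
end

-- merged part: Pool.Agent.Work.MP_7ba843_gt.C.Twist
section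
/-! Agreement near a bridge, up to a twist.

PLAN. `arc_germ`: `thick` for `Φ'`, `lift4` for `Φ`, `nrm`, three times `seg_mc`, `Mc.trans`; near
the segment `Ψ (i34 (τ.k x)) = Φ' (τ.k x)` because `τ.k` is continuous and fixes the segment.
`kh_emb`: `τ.kh` fixes the core pointwise; its derivative at a point of the core is invertible:
near points with `x 1 < 3` or `x 0 ∉ Icc a' b'` it is the identity, and the remaining points of the
core lie on the bridge, where `τ.kh = τ.k` nearby and `τ.k` has a smooth inverse (or compute the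
derivative). `twist`: `G = (Φ '' (core g ∩ {x | x ∉ open bridge}))ᶜ`, the set being compact;
`τ.kh = id` near `S`. About 250 lines. -/

set_option linter.unusedSectionVars false
set_option linter.unusedVariables false

open Set Filter Topology Function
open scoped ContDiff

noncomputable section
namespace Pool.Agent.Work.MP_7ba843_gt.C

open Pool.Agent.Work.MP_bf98aa_gt.Ns (Dif)
open Pool.Agent.Work.MP_735653_gt Pool.Agent.Work.MP_7ba843_gt.N

variable {V E F : Type} [NormedAddCommGroup V] [NormedSpace ℝ V] [FiniteDimensional ℝ V]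
  [NormedAddCommGroup E] [NormedSpace ℝ E] [FiniteDimensional ℝ E]
  [NormedAddCommGroup F] [NormedSpace ℝ F] [FiniteDimensional ℝ F] {A : Amb V}

theorem Twist_k0 {a b : ℝ} (τ : Tw a b) (x : E3) : τ.k x 0 = x 0 := by
  simp [Tw.k, Tw.k0]

theorem Twist_k1 {a b : ℝ} (τ : Tw a b) (x : E3) :
    τ.k x 1 = 5 + (τ.p (x 0) * (x 1 - 5) + τ.q (x 0) * (x 2 - 1)) := by
  simp [Tw.k, Tw.k0]

theorem Twist_k2 {a b : ℝ} (τ : Tw a b) (x : E3) :
    τ.k x 2 = 1 + (τ.r (x 0) * (x 1 - 5) + τ.s (x 0) * (x 2 - 1)) := by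
  simp [Tw.k, Tw.k0]

theorem Twist_ext {x y : E3} (h0 : x 0 = y 0) (h1 : x 1 = y 1) (h2 : x 2 = y 2) : x = y := by
  funext i
  fin_cases i
  exacts [h0, h1, h2]

theorem Twist_smooth {a b : ℝ} (τ : Tw a b) : ContDiff ℝ ∞ τ.k := by
  have c : ∀ i : Fin 3, ContDiff ℝ ∞ fun x : E3 => x i := fun i => contDiff_apply ℝ ℝ i
  refine contDiff_pi.2 fun i => ?_
  fin_cases i
  · exact (funext (Twist_k0 τ) : (fun x => τ.k x 0) = _) ▸ c 0
  · exact (funext (Twist_k1 τ) : (fun x => τ.k x 1) = _) ▸ contDiff_const.add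
      (((τ.sp.comp (c 0)).mul ((c 1).sub contDiff_const)).add
        ((τ.sq.comp (c 0)).mul ((c 2).sub contDiff_const)))
  · exact (funext (Twist_k2 τ) : (fun x => τ.k x 2) = _) ▸ contDiff_const.add
      (((τ.sr.comp (c 0)).mul ((c 1).sub contDiff_const)).add
        ((τ.ss.comp (c 0)).mul ((c 2).sub contDiff_const)))

theorem Twist_fix {a b : ℝ} (τ : Tw a b) {x : E3} (h1 : x 1 = 5) (h2 : x 2 = 1) : τ.k x = x :=
  Twist_ext (Twist_k0 τ x) (by rw [Twist_k1, h1, h2]; ring) (by rw [Twist_k2, h1, h2]; ring)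

theorem Twist_out {a b : ℝ} (τ : Tw a b) {x : E3} (h : x 0 ∉ Ioo a b) : τ.k x = x := by
  obtain ⟨h1, h2, h3, h4⟩ := τ.out _ h
  exact Twist_ext (Twist_k0 τ x) (by rw [Twist_k1, h1, h2]; ring) (by rw [Twist_k2, h3, h4]; ring)

theorem Twist_inv {a b : ℝ} (τ : Tw a b) : ∃ σ : Tw a b, ∀ x, σ.k (τ.k x) = x := by
  have d : ContDiff ℝ ∞ fun t => τ.p t * τ.s t - τ.q t * τ.r t :=
    (τ.sp.mul τ.ss).sub (τ.sq.mul τ.sr)
  refine ⟨⟨fun t => τ.s t / (τ.p t * τ.s t - τ.q t * τ.r t),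
    fun t => -τ.q t / (τ.p t * τ.s t - τ.q t * τ.r t),
    fun t => -τ.r t / (τ.p t * τ.s t - τ.q t * τ.r t),
    fun t => τ.p t / (τ.p t * τ.s t - τ.q t * τ.r t), τ.ss.div d τ.det, τ.sq.neg.div d τ.det,
    τ.sr.neg.div d τ.det, τ.sp.div d τ.det, fun t => ?_, fun t ht => ?_⟩, fun x => ?_⟩
  · have h := τ.det t
    have e : τ.s t / (τ.p t * τ.s t - τ.q t * τ.r t) * (τ.p t / (τ.p t * τ.s t - τ.q t * τ.r t)) -
        -τ.q t / (τ.p t * τ.s t - τ.q t * τ.r t) * (-τ.r t / (τ.p t * τ.s t - τ.q t * τ.r t)) =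
        (τ.p t * τ.s t - τ.q t * τ.r t)⁻¹ := by
      field_simp
    rw [e]
    exact inv_ne_zero h
  · obtain ⟨h1, h2, h3, h4⟩ := τ.out _ ht
    simp [h1, h2, h3, h4]
  · have h := mul_inv_cancel₀ (τ.det (x 0))
    refine Twist_ext (by rw [Twist_k0, Twist_k0]) ?_ ?_
    · rw [Twist_k1, Twist_k0, Twist_k1, Twist_k2]
      simp only [div_eq_mul_inv]
      linear_combination (x 1 - 5) * h
    · rw [Twist_k2, Twist_k0, Twist_k1, Twist_k2]
      simp only [div_eq_mul_inv]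
      linear_combination (x 2 - 1) * h

theorem Twist_imm {a b : ℝ} (τ : Tw a b) (x : E3) : Injective (fderiv ℝ τ.k x) := by
  obtain ⟨σ, hσ⟩ := Twist_inv τ
  have h1 := ((Twist_smooth τ).differentiable (by simp) x).hasFDerivAt
  have h2 := ((Twist_smooth σ).differentiable (by simp) (τ.k x)).hasFDerivAt
  have h3 := h2.comp x h1
  rw [show σ.k ∘ τ.k = id from funext hσ] at h3
  have h4 := h3.unique (hasFDerivAt_id x)
  refine LeftInverse.injective (g := fderiv ℝ σ.k (τ.k x)) fun v => ?_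
  exact DFunLike.congr_fun h4 v

theorem Twist_kh_smooth {a b : ℝ} (τ : Tw a b) : ContDiff ℝ ∞ τ.kh :=
  contDiff_id.add ((Real.smoothTransition.contDiff.comp
    ((contDiff_apply ℝ ℝ (1 : Fin 3)).sub contDiff_const)).smul ((Twist_smooth τ).sub contDiff_id))

theorem Twist_kh_fix {a b : ℝ} (τ : Tw a b) {x : E3} (h : τ.k x = x) : τ.kh x = x := by
  rw [Tw.kh, h, sub_self, smul_zero, add_zero]

theorem Twist_id {a b : ℝ} (τ : Tw a b) {x : E3} (h : x 1 < 3 ∨ x 0 ∉ Icc a b) :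
    ∀ᶠ y in 𝓝 x, τ.kh y = y := by
  rcases h with h | h
  · filter_upwards [((continuous_apply (1 : Fin 3)).tendsto x).eventually (gt_mem_nhds h)] with y hy
    rw [Tw.kh, Real.smoothTransition.zero_of_nonpos (by linarith), zero_smul, add_zero]
  · filter_upwards [((continuous_apply (0 : Fin 3)).tendsto x).eventually
      (isClosed_Icc.isOpen_compl.mem_nhds h)] with y hy
    exact Twist_kh_fix τ (Twist_out τ fun k => hy (Ioo_subset_Icc_self k))

theorem Twist_top {a b : ℝ} (τ : Tw a b) {x : E3} (h : x 1 = 5) :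
    ∀ᶠ y in 𝓝 x, τ.kh y = τ.k y := by
  filter_upwards [((continuous_apply (1 : Fin 3)).tendsto x).eventually
    (lt_mem_nhds (by rw [h]; norm_num : (4 : ℝ) < x 1))] with y hy
  rw [Tw.kh, Real.smoothTransition.one_of_one_le (by linarith), one_smul, add_sub_cancel]

theorem Twist_tree {g j : ℕ} {x : E3} (hx : x ∈ tree g) :
    x 1 = 1 ∨ x 0 ∉ Ioo (8 * j + 5 : ℝ) (8 * j + 9) := by
  obtain ⟨-, h | ⟨i, -, h, -⟩⟩ := hx
  · exact Or.inl h.1
  · refine Or.inr fun k => ?_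
    rw [h] at k
    have h1 : 8 * j + 5 < 4 * i + 1 := by exact_mod_cast k.1
    have h2 : 4 * i + 1 < 8 * j + 9 := by exact_mod_cast k.2
    omega

theorem Twist_other {i j : ℕ} (hij : i ≠ j) {x : E3} (hx : x ∈ Ls (8 * i + 5) (8 * i + 9)) :
    x 0 ∉ Ioo (8 * j + 5 : ℝ) (8 * j + 9) := by
  intro k
  have h1 : 8 * j + 5 < 8 * i + 9 := by exact_mod_cast k.1.trans_le hx.2.1
  have h2 : 8 * i + 5 < 8 * j + 9 := by exact_mod_cast hx.1.trans_lt k.2
  omega

theorem Twist_core {g : ℕ} (j : ℕ) {x : E3} (hx : x ∈ core g) :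
    (x 1 = 1 ∨ x 0 ∉ Ioo (8 * j + 5 : ℝ) (8 * j + 9)) ∨ x ∈ Ls (8 * j + 5) (8 * j + 9) := by
  rcases hx with hx | hx
  · exact Or.inl (Twist_tree hx)
  · obtain ⟨i, -, hi⟩ := mem_iUnion₂.1 hx
    rcases eq_or_ne i j with rfl | hij
    · exact Or.inr hi
    · exact Or.inl (Or.inr (Twist_other hij hi))

theorem Twist_off {j : ℕ} {a' b' : ℝ} (ha : 8 * j + 5 < a') (hb : b' < 8 * j + 9) (τ : Tw a' b')
    {x : E3} (h : x 1 = 1 ∨ x 0 ∉ Ioo (8 * j + 5 : ℝ) (8 * j + 9)) : ∀ᶠ y in 𝓝 x, τ.kh y = y :=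
  Twist_id τ (h.imp (fun h => by rw [h]; norm_num) fun h k => h (Icc_subset_Ioo ha hb k))

theorem arc_germ {a b : ℝ} (hab : a < b) {Φ Φ' : E3 → V} (h : Emb A (Ls a b) Φ)
    (h' : Emb A (Ls a b) Φ') (e : EqOn Φ Φ' (Ls a b)) (ha : Φ =ᶠ[𝓝 ![a, 5, 1]] Φ')
    (hb : Φ =ᶠ[𝓝 ![b, 5, 1]] Φ') {G : Set V} (hG : IsOpen G)
    (hin : ∀ x ∈ Ls a b, x 0 ∈ Ioo a b → Φ x ∈ G) :
    ∃ (a' b' : ℝ) (τ : Tw a' b'), a < a' ∧ b' < b ∧ Mc A G (Ls a b) Φ fun x => Φ' (τ.k x) := by
  have hq : (![a, 5, 1] : E3) ∈ Ls a b := ⟨le_rfl, hab.le, rfl, rfl⟩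
  have hq' : (![b, 5, 1] : E3) ∈ Ls a b := ⟨hab.le, le_rfl, rfl, rfl⟩
  obtain ⟨Ψ, hΨ, eΨ⟩ := thick (Ls_compact a b) hq ((Ls_convex a b).starConvex hq) h'
  have eΨ' := eventually_nhdsSet_iff_forall.1 eΨ
  have e' : ∀ x ∈ Ls a b, Φ x = Ψ (i34 x) := fun x hx =>
    (e hx).trans (eΨ' x hx).self_of_nhds.symm
  obtain ⟨k, k0, k1, k2, k3, k4⟩ := lift4 (Ls_compact a b) hΨ h e'
  obtain ⟨a', b', h₁, h₂, τ, ha', hb', A0, A1, A2, A3, S1, S2, S3⟩ := nrm hab k0 k2 k3
    (k4 _ hq (by filter_upwards [ha, eΨ' _ hq] with y h1 h2; rw [h1, h2]))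
    (k4 _ hq' (by filter_upwards [hb, eΨ' _ hq'] with y h1 h2; rw [h1, h2]))
  have hin' : ∀ x ∈ Ls a b, x 0 ∈ Icc a' b' → Ψ (i34 x) ∈ G := fun x hx h0 =>
    e' x hx ▸ hin x hx (Icc_subset_Ioo ha' hb' h0)
  refine ⟨a', b', τ, ha', hb', (Mc.of_eq (k1.mono fun x hx => hx.symm)).trans
    ((seg_mc hΨ A0 A1 S1 hG hin').trans ((seg_mc hΨ A1 A2 S2 hG hin').trans
      ((seg_mc hΨ A2 A3 S3 hG hin').trans (Mc.of_eq ?_))))⟩
  exact ((Twist_smooth τ).continuous.tendsto_nhdsSet fun x hx => by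
    rw [Twist_fix τ hx.2.2.1 hx.2.2.2]; exact hx).eventually eΨ

theorem kh_core {g j : ℕ} (hj : j < g) {a' b' : ℝ} (ha : 8 * j + 5 < a') (hb : b' < 8 * j + 9)
    (τ : Tw a' b') : ∀ x ∈ core g, τ.kh x = x := by
  intro x hx
  rcases Twist_core j hx with h | h
  · exact (Twist_off ha hb τ h).self_of_nhds
  · exact Twist_kh_fix τ (Twist_fix τ h.2.2.1 h.2.2.2)

theorem kh_emb {g j : ℕ} (hj : j < g) {a' b' : ℝ} (ha : 8 * j + 5 < a') (hb : b' < 8 * j + 9)
    (τ : Tw a' b') {Φ : E3 → V} (h : Emb A (core g) Φ) : Emb A (core g) fun x => Φ (τ.kh x) := by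
  have hc := kh_core hj ha hb τ
  refine h.comp (Twist_kh_smooth τ) (fun x hx => by rw [hc x hx]; exact hx)
    (fun x hx y hy e => by rwa [hc x hx, hc y hy] at e) fun x hx => ?_
  rcases Twist_core j hx with h | h
  · rw [EventuallyEq.fderiv_eq (f := id) (Twist_off ha hb τ h), fderiv_id]
    exact injective_id
  · rw [EventuallyEq.fderiv_eq (Twist_top τ h.2.2.1)]
    exact Twist_imm τ x

theorem twist {g j : ℕ} (hj : j < g) {Φ Φ' : E3 → V} (h : Emb A (core g) Φ)
    (h' : Emb A (core g) Φ') (e : EqOn Φ Φ' (core g))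
    (hS : ∀ᶠ x in 𝓝ˢ (tree g ∪ ⋃ i < j, Ls (8 * (i : ℕ) + 5) (8 * (i : ℕ) + 9)), Φ x = Φ' x) :
    ∃ (ξ : Ist A) (a' b' : ℝ) (τ : Tw a' b'), 8 * j + 5 < a' ∧ b' < 8 * j + 9 ∧
      (∀ x ∈ core g, ξ.d (Φ x) = Φ' (τ.kh x)) ∧
      ∀ᶠ x in 𝓝ˢ (tree g ∪ ⋃ i < j + 1, Ls (8 * (i : ℕ) + 5) (8 * (i : ℕ) + 9)),
        ξ.d (Φ x) = Φ' (τ.kh x) := by
  have hL : Ls (8 * j + 5) (8 * j + 9) ⊆ core g := fun x hx => Or.inr (mem_iUnion₂.2 ⟨j, hj, hx⟩)
  have hS' := eventually_nhdsSet_iff_forall.1 hS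
  have hK : IsCompact (core g ∩ {x | x 1 = 1 ∨ x 0 ∉ Ioo (8 * j + 5 : ℝ) (8 * j + 9)}) :=
    (core_compact g).inter_right ((isClosed_eq (continuous_apply 1) continuous_const).union
      (isOpen_Ioo.preimage (continuous_apply 0)).isClosed_compl)
  have h0 : (0 : ℝ) ≤ j := Nat.cast_nonneg j
  obtain ⟨a', b', τ, ha, hb, ξ, C, hC, hCG, hξ, hn⟩ := arc_germ (by linarith only []) (h.mono hL)
    (h'.mono hL) (e.mono hL)
    (hS' _ (Or.inl ⟨rfl, Or.inr ⟨2 * j + 1, by omega, by simp; ring, by simp, by simp⟩⟩))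
    (hS' _ (Or.inl ⟨rfl, Or.inr ⟨2 * j + 2, by omega, by simp; ring, by simp, by simp⟩⟩))
    (hK.image h.smooth.continuous).isClosed.isOpen_compl (by
      rintro x hx h1 ⟨y, hy, hxy⟩
      obtain rfl := h.inj hy.1 (hL hx) hxy
      rcases hy.2 with h2 | h2
      · have := hx.2.2.1
        linarith only [h2, this]
      · exact h2 h1)
  have hn' := eventually_nhdsSet_iff_forall.1 hn
  have hoff : ∀ x ∈ core g, (x 1 = 1 ∨ x 0 ∉ Ioo (8 * j + 5 : ℝ) (8 * j + 9)) →
      ∀ᶠ y in 𝓝 x, ξ.d (Φ y) = Φ y := by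
    intro x hx h1
    have : Φ x ∈ Cᶜ := fun k => hCG k ⟨x, ⟨hx, h1⟩, rfl⟩
    filter_upwards [(h.smooth.continuous.tendsto x).eventually
      (hC.isClosed.isOpen_compl.mem_nhds this)] with y hy
    exact hξ _ hy
  have hon : ∀ x ∈ Ls (8 * j + 5) (8 * j + 9), ∀ᶠ y in 𝓝 x, ξ.d (Φ y) = Φ' (τ.kh y) := by
    intro x hx
    filter_upwards [hn' x hx, Twist_top τ hx.2.2.1] with y h1 h2
    rw [h1, h2]
  refine ⟨ξ, a', b', τ, ha, hb, fun x hx => ?_, eventually_nhdsSet_iff_forall.2 fun x hx => ?_⟩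
  · rcases Twist_core j hx with h1 | h1
    · rw [(hoff x hx h1).self_of_nhds, kh_core hj ha hb τ x hx, e hx]
    · exact (hon x h1).self_of_nhds
  · have key : x ∈ tree g ∪ ⋃ i < j, Ls (8 * (i : ℕ) + 5) (8 * (i : ℕ) + 9) → x ∈ core g →
        (x 1 = 1 ∨ x 0 ∉ Ioo (8 * j + 5 : ℝ) (8 * j + 9)) →
        ∀ᶠ y in 𝓝 x, ξ.d (Φ y) = Φ' (τ.kh y) := by
      intro k1 k2 k3
      filter_upwards [hoff x k2 k3, hS' x k1, Twist_off ha hb τ k3] with y h1 h2 h3
      rw [h1, h2, h3]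
    rcases hx with hx | hx
    · exact key (Or.inl hx) (Or.inl hx) (Twist_tree hx)
    · obtain ⟨i, hi, hy⟩ := mem_iUnion₂.1 hx
      rcases Nat.lt_succ_iff_lt_or_eq.1 hi with hi | rfl
      · exact key (Or.inr (mem_iUnion₂.2 ⟨i, hi, hy⟩))
          (Or.inr (mem_iUnion₂.2 ⟨i, hi.trans hj, hy⟩)) (Or.inr (Twist_other hi.ne hy))
      · exact hon x hy

end Pool.Agent.Work.MP_7ba843_gt.C
end
end

-- merged part: Pool.Agent.Work.MP_7ba843_gt.C.Shr
section
/-! Shrinking neighbourhoods and matching tuples.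

PLAN. `shr_of_pcol`: `col_fam`, `iso_fam`. `Shr.down`: `θ` itself; for `h` on `NK K` use
`IsPF.gauge` for the homotopy `(t, x) ↦ θ (H (t, θ.symm x))` on `NK K`, from the identity to `θ`.
`Shr.up`: `θ.symm`; for `h` on `NK K'` use the homotopy `(t, x) ↦ H (1 - t, θ.symm x)` on `NK K`,
from the identity to `θ.symm`. About 130 lines. -/

set_option linter.unusedSectionVars false
set_option linter.unusedVariables false

open Set Filter Topology Function
open scoped ContDiff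

noncomputable section
namespace Pool.Agent.Work.MP_7ba843_gt.C

open Pool.Agent.Work.MP_bf98aa_gt.Ns (Dif)
open Pool.Agent.Work.MP_735653_gt Pool.Agent.Work.MP_7ba843_gt.N

variable {ι G : Type} [Group G] {K K' K'' : Finset (Cell 3)}
  {τ τ' τ'' : ((ℝ → E3) → G) → ι → G}

theorem shr_of_pcol {j : Fin 3} {v ε : ℤ} (h : PCol K K' j v ε) : Shr K K' := by
  obtain ⟨Γ, C, h1, h2, h3, h4, h5, h6, h7⟩ := col_fam h
  obtain ⟨m, d, k1, k2, -, -, k3⟩ := iso_fam h1 (c := 1 / 2) h2 h6 fun t ht x _ => h7 t ht x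
  refine ⟨NK_mono h.sub, d, fun p => m p.1 p.2, fun x => ?_, k1.smooth.continuous, k1.zero,
    fun x => (k2 x).symm, fun t ht x hx => ?_⟩
  · have := k3 1 ⟨zero_le_one, le_rfl⟩ x
    rw [h3, h4, ← k2] at this
    exact this
  · have := (k3 t ht x).1.2 (by rw [h3]; exact hx)
    exact this.trans (h5 t ht _)

theorem Rl.trans (h : Rl K τ K' τ') (h' : Rl K' τ' K'' τ'') : Rl K τ K'' τ'' := by
  obtain ⟨θ, h1, h2⟩ := h
  obtain ⟨θ', k1, k2⟩ := h'
  exact ⟨θ.trans θ', fun x => ⟨(k1 (θ x)).1.trans (h1 x).1, (k1 (θ x)).2.trans (h1 x).2⟩,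
    fun k hk => (k2 k hk).trans (h2 _ (hk.comap θ'.smooth.continuous.continuousOn
      fun x hx => (k1 x).1.2 hx))⟩

theorem Rl.map (h : Rl K τ K' τ') {m : (ι → G) → ι → G}
    (hm : ∀ v v', Conj v v' → Conj (m v) (m v')) :
    Rl K (fun k => m (τ k)) K' fun k => m (τ' k) := by
  obtain ⟨θ, h1, h2⟩ := h
  exact ⟨θ, h1, fun k hk => hm _ _ (h2 k hk)⟩

theorem Rl.of_eq (h : ∀ k, IsPF (NK K) k → τ k = τ' k) : Rl K τ K τ' := by
  refine ⟨Dif.refl E3, fun x => ⟨Iff.rfl, Iff.rfl⟩, fun k hk => ?_⟩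
  rw [← h k hk]
  exact Conj.refl _

theorem Rl.of_inv {θ : Dif E3} (h1 : ∀ x, FK K (θ x) = FK K x)
    (h : ∀ k, IsPF (NK K) k → τ (fun c => k (θ ∘ c)) = τ' k) : Rl K τ K τ' := by
  refine ⟨θ, fun x => ⟨?_, ?_⟩, fun k hk => ?_⟩
  · show 1 / 2 ≤ FK K (θ x) ↔ 1 / 2 ≤ FK K x
    rw [h1]
  · show FK K (θ x) = 1 / 2 ↔ FK K x = 1 / 2
    rw [h1]
  · rw [h k hk]
    exact Conj.refl _

theorem Shr_app (θ : Dif E3) (x : E3) : θ (θ.symm x) = x := θ.toEquiv.apply_symm_apply x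

theorem Shr_symm {θ : Dif E3} (h : Meq K K' θ) : Meq K' K θ.symm := fun x => by
  have := h (θ.symm x)
  rw [Shr_app] at this
  exact ⟨this.1.symm, this.2.symm⟩

theorem Shr.down (h : Shr K K') (hτ : GInv (NK K) τ) : Rl K' τ K τ := by
  obtain ⟨-, θ, H, h1, h2, h3, h4, h5⟩ := h
  refine ⟨θ, h1, fun k hk => ?_⟩
  have k1 := hk.gauge (T := NK K) (K := fun p => θ (H (p.1, θ.symm p.2)))
    (θ.smooth.continuous.comp (h2.comp (continuous_fst.prodMk
      (θ.symm.smooth.continuous.comp continuous_snd)))).continuousOn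
    fun p hp => (h1 _).1.2 (h5 _ hp.1 _ ((Shr_symm h1 _).1.2 hp.2))
  simp only [h3, h4, Shr_app] at k1
  exact hτ _ _ _ k1

theorem Shr.up (h : Shr K K') (hτ : GInv (NK K) τ) : Rl K τ K' τ := by
  obtain ⟨-, θ, H, h1, h2, h3, h4, h5⟩ := h
  refine ⟨θ.symm, Shr_symm h1, fun k hk => ?_⟩
  have k1 := hk.gauge (T := NK K) (K := fun p => H (1 - p.1, θ.symm p.2))
    (h2.comp ((continuous_const.sub continuous_fst).prodMk
      (θ.symm.smooth.continuous.comp continuous_snd))).continuousOn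
    fun p hp => h5 _ ⟨sub_nonneg.2 hp.1.2, sub_le_self _ hp.1.1⟩ _ ((Shr_symm h1 _).1.2 hp.2)
  simp only [sub_zero, sub_self, h3, h4, Shr_app] at k1
  exact hτ _ _ _ k1

theorem ginv_tup {g : ℕ} {S : Set E3} (h : ∀ j < g, Segs S j) : GInv S (tup (G := G) g) := by
  exact fun k k' γ H => ⟨γ p0, fun j => H.tj (h j j.2)⟩

theorem ginv_tupC {g : ℕ} {S : Set E3} (h : ∀ j < g, j ≠ 1 → Segs S j) (h' : SegsC S) :
    GInv S (tupC (G := G) g) := by
  refine fun k k' γ H => ⟨γ p0, fun j => ?_⟩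
  unfold tupC
  split_ifs with e
  exacts [H.tc h', H.tj (h j j.2 e)]

end Pool.Agent.Work.MP_7ba843_gt.C
end
end

-- merged part: Pool.Agent.Work.MP_7ba843_gt.C.NMove
section
/-! Nielsen moves are realised by diffeomorphisms of the model.

PLAN. `NMove_up : Rl (gr3 g) (tup g) R (tup g)` and `NMove_down` from `pcol_1`, `pcol_R`. For a move
`m`: up, `Rl.of_inv` with `exists_rot`, `rot_inv`, `sym_*`, `tup_*`, then `Rl.map` of down. For
`real_th` the chain is `gr ↑ R ↓ A ↑ B = B ↓ C ↑ D ↑ E ↑ T`, the half turn, and back with `Rl.map`.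
`ne_emb`: `closed_moves` for `P v := ∃ Φ', Emb ∧ same images ∧ Conj v (tup of Φ')`; replace `Φ'` by
`Φ' ∘ θ` (`Emb.dif`, `IsPF.comap`). About 150 lines. -/

set_option linter.unusedSectionVars false
set_option linter.unusedVariables false

open Set Filter Topology Function
open scoped ContDiff

noncomputable section
namespace Pool.Agent.Work.MP_7ba843_gt.C

open Pool.Agent.Work.MP_bf98aa_gt.Ns (Dif)
open Pool.Agent.Work.MP_735653_gt Pool.Agent.Work.MP_7ba843_gt.N

variable {V E F : Type} [NormedAddCommGroup V] [NormedSpace ℝ V] [FiniteDimensional ℝ V]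
  [NormedAddCommGroup E] [NormedSpace ℝ E] [FiniteDimensional ℝ E]
  [NormedAddCommGroup F] [NormedSpace ℝ F] [FiniteDimensional ℝ F] {A : Amb V}

variable {g : ℕ} {G : Type} [Group G]

theorem NMove_both {ι : Type} {K K' : Finset (Cell 3)} {τ : ((ℝ → E3) → G) → ι → G} {j : Fin 3}
    {v ε : ℤ} (h : PCol K K' j v ε) (hτ : GInv (NK K) τ) : Rl K τ K' τ ∧ Rl K' τ K τ :=
  ⟨(shr_of_pcol h).up hτ, (shr_of_pcol h).down hτ⟩

theorem NMove_R (g : ℕ) : Rl (G := G) (gr3 g) (tup g) (cx g (PR g)) (tup g) ∧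
    Rl (G := G) (cx g (PR g)) (tup g) (gr3 g) (tup g) := by
  have a := NMove_both (G := G) (pcol_1 g) (ginv_tup fun j hj => segs_gr hj)
  have b := NMove_both (G := G) (pcol_R g) (ginv_tup fun j hj => segs_1 hj)
  exact ⟨a.1.trans b.1, b.2.trans a.2⟩

theorem NMove_segsC {T T' : Set E3} (H : SegsC T) (hT : T ⊆ T') : SegsC T' :=
  ⟨H.1.mono hT, H.2.1.mono hT, H.2.2.1.mono hT, H.2.2.2.1.mono hT, H.2.2.2.2.mono hT⟩

theorem NMove_T (hg : 2 ≤ g) : Rl (G := G) (gr3 g) (tup g) (cx g (PT g)) (tupC g) ∧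
    Rl (G := G) (cx g (PT g)) (tupC g) (gr3 g) (tup g) := by
  have key : ∀ S : Set E3, NK (cx g (PC g)) ⊆ S → GInv S (tupC (G := G) g) := fun S hS =>
    ginv_tupC (fun j hj h1 => (segs_C hj h1).mono hS) (NMove_segsC (segsC_C hg) hS)
  have sD := (shr_of_pcol (pcol_D hg)).1
  have sE := (shr_of_pcol (pcol_E hg)).1
  have r := NMove_R (G := G) g
  have a := NMove_both (G := G) (pcol_A g) (ginv_tup fun j hj => segs_A hj)
  have b := NMove_both (G := G) (pcol_B hg) (ginv_tup fun j hj => segs_A hj)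
  have f : Rl (G := G) (cx g (PB g)) (tup g) (cx g (PB g)) (tupC g) :=
    Rl.of_eq fun k H => tup_fill hg H
  have f' : Rl (G := G) (cx g (PB g)) (tupC g) (cx g (PB g)) (tup g) :=
    Rl.of_eq fun k H => (tup_fill hg H).symm
  have c := NMove_both (pcol_C hg) (key _ Subset.rfl)
  have d := NMove_both (pcol_D hg) (key _ Subset.rfl)
  have e := NMove_both (pcol_E hg) (key _ sD)
  have t := NMove_both (pcol_T hg) (key _ (sD.trans sE))
  exact ⟨((((((r.1.trans a.2).trans b.1).trans f).trans c.2).trans d.1).trans e.1).trans t.1,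
    ((((((t.2.trans e.2).trans d.2).trans c.1).trans f').trans b.2).trans a.1).trans r.2⟩

theorem NMove_image {K : Finset (Cell 3)} {θ : Dif E3} (h : Meq K K θ) (Φ : E3 → V) :
    (fun x => Φ (θ x)) '' NK K = Φ '' NK K ∧ (fun x => Φ (θ x)) '' BK K = Φ '' BK K := by
  have key : ∀ S : Set E3, (∀ x, θ x ∈ S ↔ x ∈ S) → (fun x => Φ (θ x)) '' S = Φ '' S := by
    intro S hS
    refine Subset.antisymm ?_ ?_
    · rintro _ ⟨x, hx, rfl⟩
      exact ⟨θ x, (hS x).2 hx, rfl⟩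
    · rintro _ ⟨y, hy, rfl⟩
      obtain ⟨x, rfl⟩ : ∃ x, θ x = y := θ.toEquiv.surjective y
      exact ⟨x, (hS x).1 hy, rfl⟩
  exact ⟨key _ fun x => (h x).1, key _ fun x => (h x).2⟩

theorem real_inv (i : Fin g) :
    Rl (G := G) (gr3 g) (tup g) (gr3 g) fun k => mInv i (tup g k) := by
  obtain ⟨θ, hθ⟩ := exists_rot (8 * i.1 + 7) (α := 22 / 5) (by norm_num)
  have hθ' : IsRot (2 * ((4 * i.1 + 3 : ℤ) : ℝ) + 1) (2 * ((1 : ℤ) : ℝ) + 12 / 5) θ := by
    rw [show 2 * ((4 * i.1 + 3 : ℤ) : ℝ) + 1 = 8 * i.1 + 7 by push_cast; ring,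
      show 2 * ((1 : ℤ) : ℝ) + 12 / 5 = 22 / 5 by norm_num]
    exact hθ
  have m : Rl (G := G) (cx g (PR g)) (tup g) (cx g (PR g)) fun k => mInv i (tup g k) :=
    Rl.of_inv (rot_inv (.inl rfl) hθ' fun a h0 h2 => sym_inv i.2 a h0 h2)
      fun k H => tup_inv i hθ H
  exact ((NMove_R g).1.trans m).trans ((NMove_R g).2.map fun _ _ h => h.mInv i)

theorem real_swap {i j : Fin g} (hij : j.1 = i.1 + 1) :
    Rl (G := G) (gr3 g) (tup g) (gr3 g) fun k => mSwap i j (tup g k) := by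
  obtain ⟨θ, hθ⟩ := exists_rot (8 * i.1 + 11) (α := 42 / 5) (by norm_num)
  have hθ' : IsRot (2 * ((4 * i.1 + 5 : ℤ) : ℝ) + 1) (2 * ((3 : ℤ) : ℝ) + 12 / 5) θ := by
    rw [show 2 * ((4 * i.1 + 5 : ℤ) : ℝ) + 1 = 8 * i.1 + 11 by push_cast; ring,
      show 2 * ((3 : ℤ) : ℝ) + 12 / 5 = 42 / 5 by norm_num]
    exact hθ
  have m : Rl (G := G) (cx g (PR g)) (tup g) (cx g (PR g)) fun k => mSwap i j (tup g k) :=
    Rl.of_inv (rot_inv (.inr rfl) hθ' fun a h0 h2 => sym_swap (hij ▸ j.2) a h0 h2)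
      fun k H => tup_swap hij hθ H
  exact ((NMove_R g).1.trans m).trans ((NMove_R g).2.map fun _ _ h => h.mSwap i j)

theorem real_th {i j : Fin g} (hi : i.1 = 0) (hj : j.1 = 1) :
    Rl (G := G) (gr3 g) (tup g) (gr3 g) fun k => mTh i j (tup g k) := by
  have hg : 2 ≤ g := by have := j.2; omega
  obtain ⟨θ, hθ⟩ := exists_rot 7 (α := 22 / 5) (by norm_num)
  have hθ' : IsRot (2 * ((3 : ℤ) : ℝ) + 1) (2 * ((1 : ℤ) : ℝ) + 12 / 5) θ := by
    rw [show 2 * ((3 : ℤ) : ℝ) + 1 = 7 by norm_num,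
      show 2 * ((1 : ℤ) : ℝ) + 12 / 5 = 22 / 5 by norm_num]
    exact hθ
  have m : Rl (G := G) (cx g (PT g)) (tupC g) (cx g (PT g)) fun k => mTh i j (tupC g k) :=
    Rl.of_inv (rot_inv (.inl rfl) hθ' fun a h0 h2 => sym_th hg a h0 h2)
      fun k H => tup_th hi hj hθ H
  exact ((NMove_T hg).1.trans m).trans ((NMove_T hg).2.map fun _ _ h => h.mTh i j)

theorem ne_emb {η : (ℝ → V) → G} (hη : IsPF A.M η) {Φ : E3 → V} (h : Emb A (NK (gr3 g)) Φ)
    {v v' : Fin g → G} (h1 : Conj v (tup g fun c => η (Φ ∘ c))) (h2 : NE v v') :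
    ∃ Φ', Emb A (NK (gr3 g)) Φ' ∧ Φ' '' NK (gr3 g) = Φ '' NK (gr3 g) ∧
      Φ' '' BK (gr3 g) = Φ '' BK (gr3 g) ∧ Conj v' (tup g fun c => η (Φ' ∘ c)) := by
  have step : ∀ m : (Fin g → G) → Fin g → G, (∀ u u', Conj u u' → Conj (m u) (m u')) →
      (Rl (G := G) (gr3 g) (tup g) (gr3 g) fun k => m (tup g k)) → ∀ u,
      (∃ Φ', Emb A (NK (gr3 g)) Φ' ∧ Φ' '' NK (gr3 g) = Φ '' NK (gr3 g) ∧
        Φ' '' BK (gr3 g) = Φ '' BK (gr3 g) ∧ Conj u (tup g fun c => η (Φ' ∘ c))) →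
      ∃ Φ', Emb A (NK (gr3 g)) Φ' ∧ Φ' '' NK (gr3 g) = Φ '' NK (gr3 g) ∧
        Φ' '' BK (gr3 g) = Φ '' BK (gr3 g) ∧ Conj (m u) (tup g fun c => η (Φ' ∘ c)) := by
    rintro m hm ⟨θ, t1, t2⟩ u ⟨Φ', a1, a2, a3, a4⟩
    exact ⟨fun x => Φ' (θ x), a1.dif θ fun x hx => (t1 x).1.2 hx,
      (NMove_image t1 Φ').1.trans a2, (NMove_image t1 Φ').2.trans a3, (hm _ _ a4).trans
        (t2 _ (hη.comap a1.smooth.continuous.continuousOn fun x hx => a1.mem hx))⟩
  exact closed_moves (P := fun u => ∃ Φ', Emb A (NK (gr3 g)) Φ' ∧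
      Φ' '' NK (gr3 g) = Φ '' NK (gr3 g) ∧ Φ' '' BK (gr3 g) = Φ '' BK (gr3 g) ∧
      Conj u (tup g fun c => η (Φ' ∘ c)))
    (fun u i => step (mInv i) (fun _ _ k => k.mInv i) (real_inv i) u)
    (fun u i j e => step (mSwap i j) (fun _ _ k => k.mSwap i j) (real_swap e) u)
    (fun u i j e e' => step (mTh i j) (fun _ _ k => k.mTh i j) (real_th e e') u) h2
    ⟨Φ, h, rfl, rfl, h1⟩

end Pool.Agent.Work.MP_7ba843_gt.C
end
end

-- merged part: Pool.Agent.Work.MP_7ba843_gt.C.U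
section
/-! Uniqueness of embedded handlebodies with equivalent tuples. -/

set_option linter.unusedSectionVars false
set_option linter.unusedVariables false

open Set Filter Topology Function
open scoped ContDiff

noncomputable section
namespace Pool.Agent.Work.MP_7ba843_gt.C

open Pool.Agent.Work.MP_bf98aa_gt.Ns (Dif)
open Pool.Agent.Work.MP_735653_gt Pool.Agent.Work.MP_7ba843_gt.N

variable {V E F : Type} [NormedAddCommGroup V] [NormedSpace ℝ V] [FiniteDimensional ℝ V]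
  [NormedAddCommGroup E] [NormedSpace ℝ E] [FiniteDimensional ℝ E]
  [NormedAddCommGroup F] [NormedSpace ℝ F] [FiniteDimensional ℝ F] {A : Amb V}

variable {g : ℕ} {G : Type} [Group G] {η : (ℝ → V) → G}

theorem U_sub {ε : ℝ} : tau g ε '' BK (gr3 g) ⊆ tau g ε '' NK (gr3 g) := image_mono (BK_sub _)

theorem U_ind (n : ℕ) : ∀ j : ℕ, j + n = g → ∀ {Φ Φ' : E3 → V}, Emb A (core g) Φ →
    Emb A (core g) Φ' → EqOn Φ Φ' (core g) →
    (∀ᶠ x in 𝓝ˢ (tree g ∪ ⋃ i < j, Ls (8 * (i : ℕ) + 5) (8 * (i : ℕ) + 9)), Φ x = Φ' x) →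
    ∀ᶠ ε in 𝓝[>] (0 : ℝ),
      Same A (Φ '' (tau g ε '' NK (gr3 g))) (Φ '' (tau g ε '' BK (gr3 g)))
        (Φ' '' (tau g ε '' NK (gr3 g))) (Φ' '' (tau g ε '' BK (gr3 g))) := by
  induction n with
  | zero =>
    intro j hj Φ Φ' h h' e hS
    obtain rfl : j = g := hj
    filter_upwards [thin (g := j) hS] with ε hε
    rw [image_congr fun x hx => hε hx, image_congr fun x hx => hε (U_sub hx)]
    exact Same.refl _ _
  | succ n ih =>
    intro j hj Φ Φ' h h' e hS
    have hjg : j < g := by omega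
    obtain ⟨ξ, a', b', τ, ha, hb, h1, h2⟩ := twist hjg h h' e hS
    filter_upwards [ih (j + 1) (by omega) (h.ist ξ) (kh_emb hjg ha hb τ h') h1 h2,
      same_kh hjg ha hb τ h'] with ε k1 k2
    exact ((Same.of_ist ξ U_sub fun _ _ => rfl).trans k1).trans k2.symm

theorem same_core {Φ Φ' : E3 → V} (h : Emb A (core g) Φ) (h' : Emb A (core g) Φ')
    (e : EqOn Φ Φ' (core g)) (hS : ∀ᶠ x in 𝓝ˢ (tree g), Φ x = Φ' x) : ∀ᶠ ε in 𝓝[>] (0 : ℝ),
      Same A (Φ '' (tau g ε '' NK (gr3 g))) (Φ '' (tau g ε '' BK (gr3 g)))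
        (Φ' '' (tau g ε '' NK (gr3 g))) (Φ' '' (tau g ε '' BK (gr3 g))) :=
  U_ind g 0 (zero_add g) h h' e (by simpa using hS)

theorem same_of_conj (hη : IsHol A.M η) {Φ Φ' : E3 → V} (h : Emb A (NK (gr3 g)) Φ)
    (h' : Emb A (NK (gr3 g)) Φ')
    (ht : Conj (tup g fun c => η (Φ ∘ c)) (tup g fun c => η (Φ' ∘ c))) :
    Same A (Φ '' NK (gr3 g)) (Φ '' BK (gr3 g)) (Φ' '' NK (gr3 g)) (Φ' '' BK (gr3 g)) := by
  have sc : core g ⊆ NK (gr3 g) := (core_sub g).trans interior_subset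
  have sb : Cb g ⊆ NK (gr3 g) := (Cb_sub g).trans interior_subset
  have hp : p0 ∈ NK (gr3 g) := sc (Or.inl (p0_mem g))
  obtain ⟨w, hw⟩ := ht
  obtain ⟨c, c1, c2, c3, c4⟩ := hη.surj _ (h.mem hp) _ (h'.mem hp) w
  obtain ⟨ξ₁, a1, a2⟩ := move_pt hη.toIsPF c1
  rw [c2, c3] at a1
  rw [c2, c4] at a2
  have h₁ := h.ist ξ₁
  have t₁ : (tup g fun c => η ((fun x => ξ₁.d (Φ x)) ∘ c)) = tup g fun c => η (Φ' ∘ c) :=
    funext fun j => by rw [tup_ist hη.toIsPF ξ₁ (h.mono sc), a2, hw]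
  obtain ⟨ξ₂, b1, b2⟩ := comb (h₁.mono sb) (h'.mono sb) a1
  have h₂ := h₁.ist ξ₂
  have t₂ : (tup g fun c => η ((fun x => ξ₂.d (ξ₁.d (Φ x))) ∘ c)) = tup g fun c => η (Φ' ∘ c) :=
    funext fun j => by
      have e1 : η (fun t => ξ₂.f t (ξ₁.d (Φ p0))) = 1 :=
        (hη.congr _ _ fun t ht => b1 t ht _ rfl).trans (hη.const _ (h₁.mem hp))
      rw [tup_ist hη.toIsPF ξ₂ (h₁.mono sc), e1, t₁, inv_one, one_mul, mul_one]
  obtain ⟨ξ₃, d1, d2⟩ := arcs hη h₂ h' (fun x hx => b2.self_of_nhdsSet x hx) t₂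
  have h₃ := h₂.ist ξ₃
  obtain ⟨ε, k1, k2, k3⟩ := ((same_core (h₃.mono sc) (h'.mono sc) d1 d2).and
    (Ioc_mem_nhdsGT (zero_lt_one' ℝ))).exists
  exact (((((Same.of_ist ξ₁ (BK_sub _) fun _ _ => rfl).trans
    (Same.of_ist ξ₂ (BK_sub _) fun _ _ => rfl)).trans
    (Same.of_ist ξ₃ (BK_sub _) fun _ _ => rfl)).trans (same_thin h₃ k2 k3)).trans k1).trans
    (same_thin h' k2 k3).symm

theorem same_of_ne (hη : IsHol A.M η) {Φ Φ' : E3 → V} (h : Emb A (NK (gr3 g)) Φ)
    (h' : Emb A (NK (gr3 g)) Φ') {v : Fin g → G} (h1 : Conj v (tup g fun c => η (Φ ∘ c)))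
    (h2 : NE v (tup g fun c => η (Φ' ∘ c))) :
    Same A (Φ '' NK (gr3 g)) (Φ '' BK (gr3 g)) (Φ' '' NK (gr3 g)) (Φ' '' BK (gr3 g)) := by
  obtain ⟨Ψ, a1, a2, a3, a4⟩ := ne_emb hη.toIsPF h h1 h2
  rw [← a2, ← a3]
  exact same_of_conj hη a1 h' a4.symm

end Pool.Agent.Work.MP_7ba843_gt.C
end
end

-- merged part: Pool.Agent.Work.MP_7ba843_gt.C.AlgN
section
/-! Generating tuples of a free group are Nielsen equivalent to the standard tuple.

PLAN. Copy `NielA_inv` (../N/NielA.lean) with the additional conclusion `l.length ≤ R.length`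
(in the step `R = B₁ ++ R'` with `B₁ ≠ []`), and copy `nielsen` (../N/NielB.lean) with the
hypothesis of `free_of_cancel` in place of injectivity. So for a reduced tuple `u` without trivial
entry, `norm (lift u x) ≥ length x.toWord` (`A ≠ []` as in `free_of_cancel`). If `u` generates, each
`of a` is `lift u x` with `x` of length one, so `of a = val u (σ a, b a)`; `σ` is injective, and
surjective because `lift u` is injective. `AlgN_emb`: by induction on `Fintype.card ι` (remove a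
trivial entry, pass to `{j // j ≠ i}` and extend moves by `1` at `i`): `NE v u` with an embedding
`σ : Fin k ↪ ι`, `u (σ a) = of a`, `u = 1` elsewhere. Finally permute (`NE.perm`,
`Equiv.Perm.exists_extending_pair`). About 280 lines. -/

set_option linter.unusedSectionVars false
set_option linter.unusedVariables false

open Set Filter Topology Function

noncomputable section
namespace Pool.Agent.Work.MP_7ba843_gt.C

open Pool.Agent.Work.MP_7ba843_gt.N

theorem AlgN_inv {α ι : Type} [DecidableEq α] (u : ι → FreeGroup α)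
    (h : ∀ s s' s'' : ι × Bool, s' ≠ (s.1, !s.2) → s'' ≠ (s'.1, !s'.2) →
      (val u s).norm + (val u s'').norm <
        (val u s * val u s').norm + (val u s' * val u s'').norm) (l : List (ι × Bool)) :
    ∀ s : ι × Bool, FreeGroup.IsReduced (s :: l) → ∃ A D R : List (α × Bool),
      (val u s).toWord = A ++ D ∧ (FreeGroup.lift u (FreeGroup.mk (s :: l))).toWord = A ++ R ∧
      l.length ≤ R.length ∧ ∀ s₀ : ι × Bool, s ≠ (s₀.1, !s₀.2) →
        (val u s₀).norm + (val u s).norm < (val u s₀ * val u s).norm + 2 * A.length := by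
  have hne : ∀ s : ι × Bool, s ≠ (s.1, !s.2) := fun s e => by
    have := congrArg Prod.snd e
    simp at this
  induction l with
  | nil =>
    intro s _
    refine ⟨(val u s).toWord, [], [], by simp, ?_, le_rfl, fun s₀ hs => ?_⟩
    · rw [NielA_lift_cons, ← FreeGroup.one_eq_mk, map_one, mul_one, List.append_nil]
    · have h1 := h s₀ s s hs (hne s)
      have h2 := FreeGroup.norm_mul_le (val u s) (val u s)
      have h3 : (val u s).toWord.length = (val u s).norm := rfl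
      omega
  | cons s' l ih =>
    intro s hr
    obtain ⟨hss, hr'⟩ := FreeGroup.isReduced_cons_cons.1 hr
    have hs : s' ≠ (s.1, !s.2) := fun e => by
      have := hss (by rw [e])
      rw [e] at this
      simp at this
    obtain ⟨A', D', R', e₁, e₂, e₄, e₃⟩ := ih s' hr'
    obtain ⟨A, C, B, f₁, f₂, f₃⟩ := exists_cancel (val u s) (val u s')
    have n₁ : (val u s).norm = A.length + C.length := by
      change (val u s).toWord.length = _
      rw [f₁]; simp
    have n₂ : (val u s').norm = C.length + B.length := by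
      change (val u s').toWord.length = _
      rw [f₂]; simp
    have n₃ : (val u s * val u s').norm = A.length + B.length := by
      change (val u s * val u s').toWord.length = _
      rw [f₃]; simp
    have hlt : C.length < A'.length := by
      have := e₃ s hs
      omega
    obtain ⟨B₁, hA, hB⟩ : ∃ B₁, A' = C ++ B₁ ∧ B = B₁ ++ D' := by
      rcases List.append_eq_append_iff.1 (e₁.symm.trans f₂) with ⟨B₁, a, -⟩ | ⟨B₁, a, b⟩
      · rw [a, List.length_append] at hlt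
        omega
      · exact ⟨B₁, a, b⟩
    have hB₁ : B₁ ≠ [] := by
      rintro rfl
      simp [hA] at hlt
    have r₁ : FreeGroup.IsReduced (A ++ B₁) := by
      refine red_of_inf (L₂ := A ++ B) (f₃ ▸ FreeGroup.isReduced_toWord) ⟨[], D', ?_⟩
      simp [hB]
    have r₂ : FreeGroup.IsReduced (B₁ ++ R') := by
      refine red_of_inf (L₂ := A' ++ R') (e₂ ▸ FreeGroup.isReduced_toWord) ⟨C, [], ?_⟩
      simp [hA]
    refine ⟨A, FreeGroup.invRev C, B₁ ++ R', f₁, ?_, ?_, fun s₀ hs₀ => ?_⟩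
    · have : FreeGroup.lift u (FreeGroup.mk (s :: s' :: l)) = FreeGroup.mk (A ++ (B₁ ++ R')) := by
        rw [NielA_lift_cons, ← NielA_mk_cancel A C, ← f₁, FreeGroup.mk_toWord,
          ← List.append_assoc, ← hA, ← e₂, FreeGroup.mk_toWord]
      rw [this, toWord_mk_red]
      rw [← List.append_assoc]
      exact r₁.append_overlap r₂ hB₁
    · have := List.length_pos_iff.2 hB₁
      rw [List.length_append, List.length_cons]
      omega
    · have := h s₀ s s' hs₀ hs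
      omega

theorem AlgN_one {α ι : Type} [DecidableEq α] (u : ι → FreeGroup α)
    (h : ∀ s s' s'' : ι × Bool, s' ≠ (s.1, !s.2) → s'' ≠ (s'.1, !s'.2) →
      (val u s).norm + (val u s'').norm <
        (val u s * val u s').norm + (val u s' * val u s'').norm) {x : FreeGroup ι} {a : α}
    (hx : FreeGroup.lift u x = FreeGroup.of a) : ∃ s, val u s = FreeGroup.of a := by
  classical
  have hne : x ≠ 1 := by
    rintro rfl
    rw [map_one] at hx
    exact FreeGroup.of_ne_one a hx.symm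
  obtain ⟨s, l, e⟩ : ∃ s l, x.toWord = s :: l :=
    List.exists_cons_of_ne_nil fun e => hne (FreeGroup.toWord_eq_nil_iff.1 e)
  obtain ⟨A, D, R, -, e₂, e₄, e₃⟩ := AlgN_inv u h l s (e ▸ FreeGroup.isReduced_toWord)
  rw [← e, FreeGroup.mk_toWord, hx, FreeGroup.toWord_of] at e₂
  have h1 := e₃ s fun e => by
    have := congrArg Prod.snd e
    simp at this
  have h2 := FreeGroup.norm_mul_le (val u s) (val u s)
  have h3 := congrArg List.length e₂
  rw [List.length_append, List.length_singleton] at h3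
  have h4 := h s s s (fun e => by
    have := congrArg Prod.snd e
    simp at this) fun e => by
    have := congrArg Prod.snd e
    simp at this
  obtain rfl : l = [] := List.length_eq_zero_iff.1 (by omega)
  refine ⟨s, ?_⟩
  rw [← hx, ← FreeGroup.mk_toWord (x := x), e, NielA_lift_cons, ← FreeGroup.one_eq_mk, map_one,
    mul_one]

theorem AlgN_red {k : ℕ} {ι : Type} [Fintype ι] [DecidableEq ι]
    (P : (ι → FreeGroup (Fin k)) → Prop)
    (hinv : ∀ u i, P u → P (Function.update u i (u i)⁻¹))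
    (hmul : ∀ u i j, i ≠ j → P u → P (Function.update u i (u i * u j)))
    {u₀ : ι → FreeGroup (Fin k)} (h₀ : P u₀) :
    ∃ u, P u ∧ ∀ s s' s'' : ι × Bool, u s.1 ≠ 1 → u s'.1 ≠ 1 → s' ≠ (s.1, !s.2) →
      s'' ≠ (s'.1, !s'.2) → (val u s).norm + (val u s'').norm <
        (val u s * val u s').norm + (val u s' * val u s'').norm := by
  obtain ⟨u₁, h₁, m₁⟩ := (measure fun u : ι → FreeGroup (Fin k) => ∑ j, (u j).norm).wf.has_min
    {u | P u} ⟨u₀, h₀⟩
  obtain ⟨u, ⟨hu, e⟩, m₂⟩ :=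
    (measure fun u : ι → FreeGroup (Fin k) => ∑ j, NielB_phi (u j)).wf.has_min
      {u | P u ∧ ∑ j, (u j).norm = ∑ j, (u₁ j).norm} ⟨u₁, h₁, rfl⟩
  refine ⟨u, hu, ?_⟩
  have vn := NielB_val FreeGroup.norm (fun _ => FreeGroup.norm_inv_eq) u
  have vp := NielB_val NielB_phi NielB_phi_inv u
  have nz : ∀ s : ι × Bool, u s.1 ≠ 1 → val u s ≠ 1 := fun s hne h =>
    hne (FreeGroup.norm_eq_zero.1 (by rw [← vn, h, FreeGroup.norm_one]))
  have M : ∀ s s' : ι × Bool, s.1 ≠ s'.1 → (val u s).norm ≤ (val u s * val u s').norm ∧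
      ((val u s * val u s').norm = (val u s).norm →
        NielB_phi (val u s) ≤ NielB_phi (val u s * val u s')) := fun s s' hs => by
    have p := NielB_move hinv hmul hu hs
    have a := NielB_sum FreeGroup.norm u s.1 (val u s * val u s')
    have b := NielB_sum NielB_phi u s.1 (val u s * val u s')
    have c : ¬ ∑ j, (Function.update u s.1 (val u s * val u s') j).norm < ∑ j, (u₁ j).norm :=
      m₁ _ p
    rw [vn s, vp s]
    refine ⟨by omega, fun q => ?_⟩
    have d : ¬ ∑ j, NielB_phi (Function.update u s.1 (val u s * val u s') j) <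
      ∑ j, NielB_phi (u j) := m₂ _ ⟨p, by omega⟩
    omega
  have M' : ∀ s s' : ι × Bool, s.1 ≠ s'.1 → (val u s').norm ≤ (val u s * val u s').norm ∧
      ((val u s * val u s').norm = (val u s').norm →
        NielB_phi (val u s') ≤ NielB_phi (val u s * val u s')) := fun s s' hs => by
    have := M (s'.1, !s'.2) (s.1, !s.2) hs.symm
    rwa [NielB_val_not, NielB_val_not, ← mul_inv_rev, FreeGroup.norm_inv_eq, FreeGroup.norm_inv_eq,
      NielB_phi_inv, NielB_phi_inv] at this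
  have D : ∀ s s' : ι × Bool, s' ≠ (s.1, !s.2) → s.1 ≠ s'.1 ∨ s = s' := by
    rintro ⟨i, a⟩ ⟨j, b⟩ h
    refine or_iff_not_imp_left.2 fun q => ?_
    obtain rfl : i = j := not_not.1 q
    cases a <;> cases b
    exacts [rfl, absurd rfl h, absurd rfl h, rfl]
  intro s s' s'' z z' a b
  rcases D s s' a with a | rfl <;> rcases D _ s'' b with b | rfl
  · by_contra c
    obtain ⟨a1, a2⟩ := M s s' a
    obtain ⟨b1, b2⟩ := M' s' s'' b
    have e1 : (val u s * val u s').norm = (val u s).norm := by omega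
    have e2 : (val u s' * val u s'').norm = (val u s'').norm := by omega
    exact (NielB_three (nz s' z') e1 (M' s s' a).1 e2 (M s' s'' b).1).elim (not_lt.2 (b2 e2))
      (not_lt.2 (a2 e1))
  · exact Nat.add_lt_add_of_le_of_lt (M s s' a).1 (NielB_sq (nz s' z'))
  · exact Nat.add_lt_add_of_lt_of_le (NielB_sq (nz s z)) (M' s s'' b).1
  · exact Nat.add_lt_add (NielB_sq (nz s z)) (NielB_sq (nz s z))

theorem AlgN_sign {ι G : Type} [Group G] [DecidableEq ι] (u : ι → G) (S : Finset ι) :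
    NE u fun i => if i ∈ S then (u i)⁻¹ else u i := by
  induction S using Finset.induction_on with
  | empty =>
    simp only [Finset.notMem_empty, if_false]
    exact Relation.ReflTransGen.refl
  | insert j S hj ih =>
    refine Relation.ReflTransGen.tail ih (Or.inl ⟨j, funext fun i => ?_⟩)
    by_cases h : i = j
    · subst h
      simp [hj]
    · simp [h]

theorem AlgN_of_inv {α : Type} (a b : α) : FreeGroup.of a ≠ (FreeGroup.of b)⁻¹ := by
  classical
  intro h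
  have := congrArg FreeGroup.toWord h
  rw [FreeGroup.toWord_inv, FreeGroup.toWord_of, FreeGroup.toWord_of] at this
  simp [FreeGroup.invRev] at this

theorem AlgN_emb {k : ℕ} {ι : Type} [Fintype ι] [DecidableEq ι] {v : ι → FreeGroup (Fin k)}
    (h : Subgroup.closure (range v) = ⊤) : ∃ (u : ι → FreeGroup (Fin k)) (σ : Fin k → ι),
      NE v u ∧ Injective σ ∧ (∀ a, u (σ a) = FreeGroup.of a) ∧ ∀ i, i ∉ range σ → u i = 1 := by
  classical
  obtain ⟨u, hu, H⟩ := AlgN_red (NE v) (fun u i p => p.tail (Or.inl ⟨i, rfl⟩))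
    (fun u i j hij p => p.tail (Or.inr ⟨i, j, hij, rfl⟩)) (Relation.ReflTransGen.refl : NE v v)
  let w : {j // u j ≠ 1} → FreeGroup (Fin k) := fun j => u j.1
  have H' : ∀ s s' s'' : {j // u j ≠ 1} × Bool, s' ≠ (s.1, !s.2) → s'' ≠ (s'.1, !s'.2) →
      (val w s).norm + (val w s'').norm <
        (val w s * val w s').norm + (val w s' * val w s'').norm := fun s s' s'' a b =>
    H (s.1.1, s.2) (s'.1.1, s'.2) (s''.1.1, s''.2) s.1.2 s'.1.2
      (fun e => a (Prod.ext (Subtype.ext (Prod.mk.inj e).1) (Prod.mk.inj e).2))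
      fun e => b (Prod.ext (Subtype.ext (Prod.mk.inj e).1) (Prod.mk.inj e).2)
  have hs : ∀ y, ∃ x, FreeGroup.lift w x = y := fun y => by
    have hy : y ∈ Subgroup.closure (range u) := by
      rw [← hu.closure, h]
      trivial
    refine (Subgroup.closure_le (FreeGroup.lift w).range).2 ?_ hy
    rintro _ ⟨i, rfl⟩
    by_cases hi : u i = 1
    · exact ⟨1, by rw [map_one, hi]⟩
    · exact ⟨FreeGroup.of ⟨i, hi⟩, FreeGroup.lift_apply_of⟩
  choose t ht using fun a : Fin k => (hs (FreeGroup.of a)).elim fun x hx => AlgN_one w H' hx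
  have hinj : Injective fun a => (t a).1.1 := fun a b e => by
    have ha := ht a
    have hb := ht b
    have e' : (t a).1 = (t b).1 := Subtype.ext e
    unfold val at ha hb
    rw [e'] at ha
    split_ifs at ha hb
    · exact FreeGroup.of_injective (ha.symm.trans hb)
    · exact absurd (by rw [← ha, ← hb, inv_inv]) (AlgN_of_inv a b)
    · exact absurd (by rw [← ha, ← hb]) (AlgN_of_inv a b)
    · exact FreeGroup.of_injective (ha.symm.trans hb)
  have hsur : ∀ i, i ∉ range (fun a => (t a).1.1) → u i = 1 := fun i hi => by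
    by_contra c
    let τ : FreeGroup (Fin k) →* FreeGroup {j // u j ≠ 1} :=
      FreeGroup.lift fun a => val FreeGroup.of (t a)
    have h1 : (FreeGroup.lift w).comp τ = MonoidHom.id _ := FreeGroup.ext_hom _ _ fun a => by
      have := ht a
      unfold val at this
      simp only [τ, val, MonoidHom.comp_apply, FreeGroup.lift_apply_of, MonoidHom.id_apply]
      split_ifs at this ⊢
      · rw [FreeGroup.lift_apply_of, this]
      · rw [map_inv, FreeGroup.lift_apply_of, this]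
    have h2 : τ (u i) = FreeGroup.of ⟨i, c⟩ := free_of_cancel w H' (by
      rw [FreeGroup.lift_apply_of]
      exact DFunLike.congr_fun h1 (u i))
    let κ : FreeGroup {j // u j ≠ 1} →* FreeGroup ι :=
      FreeGroup.lift fun j => if j.1 = i then FreeGroup.of i else 1
    have h3 : κ.comp τ = 1 := FreeGroup.ext_hom _ _ fun a => by
      have n : (t a).1.1 ≠ i := fun e => hi ⟨a, e⟩
      simp only [τ, κ, val, MonoidHom.comp_apply, FreeGroup.lift_apply_of, MonoidHom.one_apply]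
      split_ifs
      · rw [FreeGroup.lift_apply_of, if_neg n]
      · rw [map_inv, FreeGroup.lift_apply_of, if_neg n, inv_one]
    have h4 := DFunLike.congr_fun h3 (u i)
    rw [MonoidHom.comp_apply, h2] at h4
    simp [κ] at h4
  refine ⟨_, fun a => (t a).1.1, hu.trans
    (AlgN_sign u (Finset.univ.filter fun i => ∃ a, (t a).1.1 = i ∧ (t a).2 = false)), hinj,
    fun a => ?_, fun i hi => ?_⟩
  · have := ht a
    unfold val at this
    by_cases b : (t a).2 = true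
    · rw [if_pos b] at this
      rw [if_neg]
      · exact this
      · simp only [Finset.mem_filter, Finset.mem_univ, true_and, not_exists, not_and]
        intro a' e
        rw [hinj e, b]
        simp
    · rw [if_neg b] at this
      rw [if_pos]
      · exact this
      · simp only [Finset.mem_filter, Finset.mem_univ, true_and]
        exact ⟨a, rfl, by simpa using b⟩
  · rw [hsur i hi]
    simp

theorem niel_std {g k : ℕ} {v : Fin g → FreeGroup (Fin k)} (h : Subgroup.closure (range v) = ⊤) :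
    k ≤ g ∧ NE v fun i => std g FreeGroup.of (FreeGroup.of i) := by
  obtain ⟨u, σ, hu, hσ, h1, h2⟩ := AlgN_emb h
  have hk : k ≤ g := by simpa using Fintype.card_le_of_injective σ hσ
  obtain ⟨π, hπ⟩ := Equiv.Perm.exists_extending_pair _ _ (Fin.castLE_injective hk) hσ
  refine ⟨hk, ?_⟩
  have e : (fun i => std g FreeGroup.of (FreeGroup.of i)) = u ∘ π := funext fun i => by
    simp only [std, FreeGroup.lift_apply_of, comp_apply]
    split_ifs with hi
    · rw [← h1, ← hπ]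
      rfl
    · refine (h2 _ ?_).symm
      rintro ⟨a, ha⟩
      rw [← hπ] at ha
      exact hi (π.injective ha ▸ a.2)
  rw [e]
  exact Relation.ReflTransGen.trans hu (NE.perm u π)

end Pool.Agent.Work.MP_7ba843_gt.C
end
end
end

-- merged part: Pool.Agent.Work.MP_7ba843_gt.C.Sur
section
-- merged part: Pool.Agent.Work.MP_7ba843_gt.C.Ret
section
/-! A smooth retraction onto a compact submanifold.

PLAN. Let `n y` be a nearest point of `M` (`IsCompact.exists_infDist_eq_dist`; `M` empty is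
trivial). Fix `x₀ ∈ M`, a chart, `a₀ = ρ x₀`. Put `Θ (y, a) = (y, g (y, a))` with
`g (y, a) = (innerSL ℝ (y - χ a)).comp (fderiv ℝ χ a) : E4 →L[ℝ] ℝ`. The derivative of `Θ` at
`(x₀, a₀)` is injective (if `(0, w)` is killed then `⟪Dχ w, Dχ w⟫ = 0`, and `Dχ` is injective as
`ρ ∘ χ = id`), hence `left_inv` for the compact set `{(x₀, a₀)}` gives a smooth `L` with
`L (Θ p) = p` near `(x₀, a₀)`. For `y` near `x₀` the point `n y` is near `x₀`
(`dist (n y) y ≤ dist x₀ y`), lies in `W`, `a = ρ (n y)` is near `a₀` and minimises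
`‖y - χ a‖ ^ 2`, so `g (y, a) = 0` and `n y = χ (L (y, 0)).2`. Hence `n` is smooth on an open set
containing `M`; finish with `ext_smooth`. About 150 lines. -/

set_option linter.unusedSectionVars false
set_option linter.unusedVariables false

open Set Filter Topology Function
open scoped ContDiff

noncomputable section
namespace Pool.Agent.Work.MP_7ba843_gt.C

open Pool.Agent.Work.MP_bf98aa_gt.Ns (Dif)

variable {V E F : Type} [NormedAddCommGroup V] [NormedSpace ℝ V] [FiniteDimensional ℝ V]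
  [NormedAddCommGroup E] [NormedSpace ℝ E] [FiniteDimensional ℝ E]
  [NormedAddCommGroup F] [NormedSpace ℝ F] [FiniteDimensional ℝ F] {A : Amb V}

theorem Ret_loc {W : Type} [NormedAddCommGroup W] [InnerProductSpace ℝ W]
    [FiniteDimensional ℝ W] {M : Set W} {n : W → W} (h1 : ∀ y, n y ∈ M)
    (h2 : ∀ y, ∀ z ∈ M, ‖y - n y‖ ≤ ‖y - z‖) {x₀ : W} (hx : x₀ ∈ M) (c : Chart M x₀) :
    ∃ φ : W → W, ContDiff ℝ ∞ φ ∧ n =ᶠ[𝓝 x₀] φ := by
  obtain ⟨I, hI⟩ : ∃ I : W →L[ℝ] W →L[ℝ] ℝ, ∀ u v, I u v = inner ℝ u v :=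
    ⟨innerSL ℝ, fun _ _ => rfl⟩
  have dχ : Differentiable ℝ c.χ := c.sχ.differentiable (by simp)
  have sB : ContDiff ℝ ∞ (fderiv ℝ c.χ) := c.sχ.fderiv_right (m := ∞) (by simp)
  have e0 : c.χ (c.ρ x₀) = x₀ := c.χρ x₀ ⟨hx, c.mem⟩
  have sρ : ContDiffAt ℝ ∞ c.ρ x₀ := c.sρ.contDiffAt (c.isOpen.mem_nhds c.mem)
  have iB : ∀ w, fderiv ℝ c.χ (c.ρ x₀) w = 0 → w = 0 := fun w hw => by
    have d1 : HasFDerivAt c.ρ (fderiv ℝ c.ρ x₀) (c.χ (c.ρ x₀)) := by
      rw [e0]
      exact (sρ.differentiableAt (by simp)).hasFDerivAt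
    have d2 := d1.comp _ (dχ (c.ρ x₀)).hasFDerivAt
    have e : c.ρ ∘ c.χ = id := funext c.ρχ
    rw [e] at d2
    have := ContinuousLinearMap.ext_iff.1 (d2.unique (hasFDerivAt_id _)) w
    rw [ContinuousLinearMap.comp_apply, hw, map_zero] at this
    exact this.symm
  have s1 : ContDiff ℝ ∞ fun p : W × E4 => I (p.1 - c.χ p.2) :=
    I.contDiff.comp (contDiff_fst.sub (c.sχ.comp contDiff_snd))
  have s2 : ContDiff ℝ ∞ fun p : W × E4 => fderiv ℝ c.χ p.2 := sB.comp contDiff_snd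
  have sΘ : ContDiff ℝ ∞ fun p : W × E4 =>
      (p.1, (I (p.1 - c.χ p.2)).comp (fderiv ℝ c.χ p.2)) := contDiff_fst.prodMk (s1.clm_comp s2)
  obtain ⟨L, sL, hL⟩ := left_inv sΘ (K := {(x₀, c.ρ x₀)}) isCompact_singleton
    (injOn_singleton _ _) (by
      rintro _ rfl
      have d1 : HasFDerivAt (fun p : W × E4 => I (p.1 - c.χ p.2))
          (I.comp (ContinuousLinearMap.fst ℝ W E4 -
            (fderiv ℝ c.χ (c.ρ x₀)).comp (ContinuousLinearMap.snd ℝ W E4))) (x₀, c.ρ x₀) :=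
        I.hasFDerivAt.comp _ (hasFDerivAt_fst.sub
          ((dχ (c.ρ x₀)).hasFDerivAt.comp (x₀, c.ρ x₀) hasFDerivAt_snd))
      have d2 := (s2.differentiable (by simp) (x₀, c.ρ x₀)).hasFDerivAt
      rw [(hasFDerivAt_fst.prodMk (d1.clm_comp d2)).fderiv, injective_iff_map_eq_zero]
      rintro ⟨v, w⟩ h
      have a1 : v = 0 := congrArg Prod.fst h
      have a2 := congrArg (fun q => q.2 w) h
      subst a1
      simp [e0, hI] at a2
      rw [iB w a2]
      rfl)
  rw [nhdsSet_singleton] at hL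
  have t1 : Tendsto n (𝓝 x₀) (𝓝 x₀) := by
    have : Tendsto (fun y => y - n y) (𝓝 x₀) (𝓝 0) :=
      squeeze_zero_norm (fun y => h2 y x₀ hx) (tendsto_norm_sub_self x₀)
    simpa using tendsto_id.sub this
  have t2 : Tendsto (fun y => (y, c.ρ (n y))) (𝓝 x₀) (𝓝 (x₀, c.ρ x₀)) :=
    tendsto_id.prodMk_nhds (sρ.continuousAt.tendsto.comp t1)
  refine ⟨fun y => c.χ (L (y, 0)).2,
    c.sχ.comp (contDiff_snd.comp (sL.comp (contDiff_id.prodMk contDiff_const))), ?_⟩
  filter_upwards [t2.eventually hL, t1.eventually (c.isOpen.mem_nhds c.mem)] with y k1 k2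
  have e1 : c.χ (c.ρ (n y)) = n y := c.χρ _ ⟨h1 y, k2⟩
  have m : IsLocalMin (fun a => ‖y - c.χ a‖ ^ 2) (c.ρ (n y)) := Eventually.of_forall fun a => by
    have := h2 y _ (c.χ_mem a).1
    simp only [e1]
    gcongr
  have z := m.hasFDerivAt_eq_zero ((dχ (c.ρ (n y))).hasFDerivAt.const_sub y).norm_sq
  have z' : (I (y - c.χ (c.ρ (n y)))).comp (fderiv ℝ c.χ (c.ρ (n y))) = 0 := by
    refine ContinuousLinearMap.ext fun v => ?_
    have := ContinuousLinearMap.ext_iff.1 z v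
    simp [hI] at this ⊢
    linarith only [this]
  simp only [z'] at k1
  rw [k1, e1]

theorem exists_retr {W : Type} [NormedAddCommGroup W] [InnerProductSpace ℝ W]
    [FiniteDimensional ℝ W] {M : Set W} (hM : IsCompact M) (hc : ∀ y ∈ M, Nonempty (Chart M y)) :
    ∃ A : Amb W, A.M = M := by
  rcases M.eq_empty_or_nonempty with rfl | hne
  · exact ⟨⟨∅, ∅, id, hM, isOpen_empty, subset_rfl, contDiff_id, fun _ h => h, fun _ _ => rfl,
      hc⟩, rfl⟩
  choose n h1 h2 using fun y : W =>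
    hM.exists_isMinOn hne (f := fun z => ‖y - z‖) (by fun_prop)
  have hO : IsOpen {y | ∃ φ : W → W, ContDiff ℝ ∞ φ ∧ n =ᶠ[𝓝 y] φ} :=
    isOpen_iff_mem_nhds.2 fun y ⟨φ, k1, k2⟩ =>
      k2.eventually_nhds.mono fun z hz => ⟨φ, k1, hz⟩
  obtain ⟨g, g1, g2⟩ := ext_smooth (f := n) hM hO
    (fun y hy => (hc y hy).elim fun c => Ret_loc h1 (fun y z hz => h2 y hz) hy c)
    fun y ⟨φ, k1, k2⟩ => (k1.contDiffAt.congr_of_eventuallyEq k2).contDiffWithinAt
  obtain ⟨U, u1, u2, u3⟩ := eventually_nhdsSet_iff_exists.1 g2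
  refine ⟨⟨M, U, g, hM, u1, u2, g1, fun y hy => ?_, fun y hy => ?_, hc⟩, rfl⟩
  · rw [u3 y hy]
    exact h1 y
  · have : ‖y - n y‖ ≤ ‖y - y‖ := h2 y hy
    rw [sub_self, norm_zero, norm_le_zero_iff, sub_eq_zero] at this
    rw [u3 y (u2 hy), ← this]

end Pool.Agent.Work.MP_7ba843_gt.C
end
end

-- merged part: Pool.Agent.Work.MP_7ba843_gt.C.Stmt
section
/-! Definitions used in the statement of the criterion for cores of trisections. -/

open Set
open scoped Manifold ContDiff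

namespace Pool.Agent.Work.MP_7ba843_gt.C

/-- A smooth embedding into the 4-manifold `X` of the compact domain `{0 ≤ F}` of three-space:
an injective immersion of an open neighbourhood of the domain. -/
structure Hb (F : (Fin 3 → ℝ) → ℝ) (X : Type) [TopologicalSpace X]
    [ChartedSpace (EuclideanSpace ℝ (Fin 4)) X] where
  O : Set (Fin 3 → ℝ)
  Φ : (Fin 3 → ℝ) → X
  isOpen : IsOpen O
  sub : {x | 0 ≤ F x} ⊆ O
  smooth : ContMDiffOn 𝓘(ℝ, Fin 3 → ℝ) (𝓡 4) ∞ Φ O
  inj : InjOn Φ O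
  imm : ∀ x ∈ O, Function.Injective (mfderiv 𝓘(ℝ, Fin 3 → ℝ) (𝓡 4) Φ x)

variable {F : (Fin 3 → ℝ) → ℝ} {X : Type} [TopologicalSpace X]
  [ChartedSpace (EuclideanSpace ℝ (Fin 4)) X]

/-- the embedded domain -/
def Hb.body (e : Hb F X) : Set X := e.Φ '' {x | 0 ≤ F x}

/-- its boundary surface -/
def Hb.bdry (e : Hb F X) : Set X := e.Φ '' {x | F x = 0}

/-- the embedding as a continuous map on the domain -/
def Hb.map (e : Hb F X) : C({x | 0 ≤ F x}, X) :=
  ⟨fun x => e.Φ x, (e.smooth.continuousOn.mono e.sub).domRestrict⟩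

/-- The maps induced by `e` and `e'` on fundamental groups agree up to an automorphism of the
fundamental group of the domain and a change of base point along a path in `X`. -/
def Hb.Equiv (e e' : Hb F X) : Prop :=
  ∃ (x : {x | 0 ≤ F x}) (γ : Path (e.map x) (e'.map x))
    (α : FundamentalGroup {x | 0 ≤ F x} x ≃* FundamentalGroup {x | 0 ≤ F x} x),
    ∀ a, FundamentalGroup.fundamentalGroupMulEquivOfPath γ (FundamentalGroup.map e.map x a) =
      FundamentalGroup.map e'.map x (α a)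

/-- The map induced by `e` on fundamental groups is a composite of two surjections through the
free group of rank `r`. -/
def Hb.Fact (e : Hb F X) (r : ℕ) : Prop :=
  ∃ (x : {x | 0 ≤ F x}) (f : FundamentalGroup {x | 0 ≤ F x} x →* FreeGroup (Fin r))
    (h : FreeGroup (Fin r) →* FundamentalGroup X (e.map x)),
    Function.Surjective f ∧ Function.Surjective h ∧ h.comp f = FundamentalGroup.map e.map x

end Pool.Agent.Work.MP_7ba843_gt.C
end

-- merged part: Pool.Agent.Work.MP_7ba843_gt.C.AmbX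
section
/-! A compact smooth 4-manifold inside a Euclidean space.

PLAN. `exists_embedding_euclidean_of_compact` gives `e`. Chart at `e x`: let `c = extChartAt x`,
`f = e ∘ c.symm`, smooth on the open target with injective derivative (see `exists_charts` in
Work/MP_dd0bbc_gt/GeoChart.lean for the chain rule); `ext_smooth` and `left_inv` at the point
`c x` give a smooth `L` with `L (f a) = a` on a ball `B` around `c x` inside the target; let
`u = OpenPartialHomeomorph.univBall (c x) r` (`contDiff_univBall`, `contDiffOn_univBall_symm`),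
`T : E4 ≃L[ℝ] EuclideanSpace ℝ (Fin 4)` (`ContinuousLinearEquiv.ofFinrankEq`), `χ = f ∘ u ∘ T`,
`ρ = T.symm ∘ u.symm ∘ L`, `W = L ⁻¹' B ∩ W'` where `W'` is open with
`e ⁻¹' W' = c.source ∩ c ⁻¹' B`. `AmbX_smooth`: a continuous map `k` into `X` with `e ∘ k` smooth
is smooth (`contMDiffAt_iff_target`, `c ∘ k = L ∘ e ∘ k` locally). Embeddings: `e ∘ Φ` is smooth on
`O`, `ext_smooth`; the derivative is the composite of two injective maps (`mfderiv_comp`,
`mfderiv_eq_fderiv`). Diffeomorphisms: `ψ x` is the point with `e (ψ x) = ξ.d (e x)`. About 300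
lines. -/

set_option linter.unusedSectionVars false
set_option linter.unusedVariables false

open Set Filter Topology Function
open scoped ContDiff

noncomputable section
namespace Pool.Agent.Work.MP_7ba843_gt.C

open Pool.Agent.Work.MP_bf98aa_gt.Ns (Dif)

variable {V E F : Type} [NormedAddCommGroup V] [NormedSpace ℝ V] [FiniteDimensional ℝ V]
  [NormedAddCommGroup E] [NormedSpace ℝ E] [FiniteDimensional ℝ E]
  [NormedAddCommGroup F] [NormedSpace ℝ F] [FiniteDimensional ℝ F] {A : Amb V}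

section
open scoped Manifold

variable {X : Type} [TopologicalSpace X] [ChartedSpace (EuclideanSpace ℝ (Fin 4)) X]
  [IsManifold (𝓡 4) ∞ X] {n : ℕ} {e : X → EuclideanSpace ℝ (Fin n)}

theorem AmbX_cd (he : ContMDiff (𝓡 4) (𝓡 n) ∞ e) (x : X) :
    ContDiffOn ℝ ∞ (e ∘ (extChartAt (𝓡 4) x).symm) (extChartAt (𝓡 4) x).target :=
  contMDiffOn_iff_contDiffOn.1 (he.comp_contMDiffOn (contMDiffOn_extChartAt_symm x))

theorem AmbX_loc (he : ContMDiff (𝓡 4) (𝓡 n) ∞ e)
    (hd : ∀ x, Injective (mfderiv (𝓡 4) (𝓡 n) e x)) (x : X) :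
    ∃ (L : EuclideanSpace ℝ (Fin n) → EuclideanSpace ℝ (Fin 4)) (r : ℝ), ContDiff ℝ ∞ L ∧ 0 < r ∧
      Metric.ball (extChartAt (𝓡 4) x x) r ⊆ (extChartAt (𝓡 4) x).target ∧
      ∀ a ∈ Metric.ball (extChartAt (𝓡 4) x x) r, L (e ((extChartAt (𝓡 4) x).symm a)) = a := by
  have cG := AmbX_cd he x
  set φ := extChartAt (𝓡 4) x with hφ
  have op : IsOpen φ.target := isOpen_extChartAt_target x
  have xs : x ∈ φ.source := mem_extChartAt_source x
  have xt : φ x ∈ φ.target := φ.map_source xs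
  have dG : DifferentiableAt ℝ (e ∘ φ.symm) (φ x) :=
    (cG.differentiableOn (by simp)).differentiableAt (op.mem_nhds xt)
  have ch : ∃ T : EuclideanSpace ℝ (Fin 4) → EuclideanSpace ℝ (Fin 4), Surjective T ∧
      ∀ v, mfderiv (𝓡 4) (𝓡 n) e x v = fderiv ℝ (e ∘ φ.symm) (φ x) (T v) := by
    obtain ⟨T, hT⟩ := isInvertible_mfderiv_extChartAt (I := 𝓡 4) xs
    refine ⟨T, T.surjective, fun v => ?_⟩
    have h1 : e =ᶠ[𝓝 x] (e ∘ φ.symm) ∘ φ := by
      filter_upwards [(isOpen_extChartAt_source x).mem_nhds xs] with q hq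
      simp only [Function.comp, φ.left_inv hq]
    rw [h1.mfderiv_eq, mfderiv_comp x dG.mdifferentiableAt
      (mdifferentiableAt_extChartAt (by rwa [← extChartAt_source (𝓡 4)])), mfderiv_eq_fderiv,
      ← hT]
    rfl
  obtain ⟨T, t1, t2⟩ := ch
  have hi : Injective (fderiv ℝ (e ∘ φ.symm) (φ x)) := by
    intro u u' h
    obtain ⟨v, rfl⟩ := t1 u
    obtain ⟨v', rfl⟩ := t1 u'
    rw [hd x ((t2 v).trans (h.trans (t2 v').symm))]
  obtain ⟨g, hg, hgf⟩ := ext_smooth (K := {φ x}) isCompact_singleton op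
    (singleton_subset_iff.2 xt) cG
  rw [nhdsSet_singleton] at hgf
  have hgf' : g =ᶠ[𝓝 (φ x)] e ∘ φ.symm := hgf
  obtain ⟨L, hL, hLg⟩ := left_inv hg (K := {φ x}) isCompact_singleton (injOn_singleton _ _)
    (by
      intro y hy
      rw [mem_singleton_iff.1 hy, hgf'.fderiv_eq]
      exact hi)
  rw [nhdsSet_singleton] at hLg
  have ht : ∀ᶠ y in 𝓝 (φ x), y ∈ φ.target := op.mem_nhds xt
  obtain ⟨r, r0, hr⟩ := Metric.eventually_nhds_iff_ball.1 (ht.and (hgf.and hLg))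
  refine ⟨L, r, hL, r0, fun a ha => (hr a ha).1, fun a ha => ?_⟩
  have h1 := (hr a ha).2.1
  have h2 := (hr a ha).2.2
  rw [h1] at h2
  exact h2

theorem AmbX_chart (he : ContMDiff (𝓡 4) (𝓡 n) ∞ e) (hc : IsClosedEmbedding e)
    (hd : ∀ x, Injective (mfderiv (𝓡 4) (𝓡 n) e x)) (x : X) :
    Nonempty (Chart (range e) (e x)) := by
  obtain ⟨L, r, hL, r0, hB, hLe⟩ := AmbX_loc he hd x
  have cG := AmbX_cd he x
  set φ := extChartAt (𝓡 4) x with hφ
  have xs : x ∈ φ.source := mem_extChartAt_source x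
  have ho : IsOpen (φ.source ∩ φ ⁻¹' Metric.ball (φ x) r) :=
    (continuousOn_extChartAt x).isOpen_inter_preimage (isOpen_extChartAt_source x)
      Metric.isOpen_ball
  obtain ⟨W', hW', hW⟩ := hc.isInducing.isOpen_iff.1 ho
  have hT : Module.finrank ℝ E4 = Module.finrank ℝ (EuclideanSpace ℝ (Fin 4)) := by simp
  let T : E4 ≃L[ℝ] EuclideanSpace ℝ (Fin 4) := ContinuousLinearEquiv.ofFinrankEq hT
  let u : OpenPartialHomeomorph (EuclideanSpace ℝ (Fin 4)) (EuclideanSpace ℝ (Fin 4)) :=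
    OpenPartialHomeomorph.univBall (φ x) r
  have us : u.source = univ := OpenPartialHomeomorph.univBall_source _ _
  have ut : u.target = Metric.ball (φ x) r := OpenPartialHomeomorph.univBall_target _ r0
  have um : ∀ a, u a ∈ Metric.ball (φ x) r := fun a => by
    rw [← ut]
    exact u.map_source (by rw [us]; exact mem_univ _)
  have hu : ContDiff ℝ ∞ u := OpenPartialHomeomorph.contDiff_univBall
  have hu' : ContDiffOn ℝ ∞ u.symm (Metric.ball (φ x) r) :=
    OpenPartialHomeomorph.contDiffOn_univBall_symm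
  have key : ∀ z, z ∈ φ.source → φ z ∈ Metric.ball (φ x) r → L (e z) = φ z := fun z hz hz' => by
    have h := hLe _ hz'
    rwa [φ.left_inv hz] at h
  have inW : ∀ z, e z ∈ W' ↔ z ∈ φ.source ∧ φ z ∈ Metric.ball (φ x) r := fun z => by
    have : z ∈ e ⁻¹' W' ↔ z ∈ φ.source ∩ φ ⁻¹' Metric.ball (φ x) r := by rw [hW]
    exact this
  refine ⟨⟨fun a => e (φ.symm (u (T a))), fun y => T.symm (u.symm (L y)),
    L ⁻¹' Metric.ball (φ x) r ∩ W', (Metric.isOpen_ball.preimage hL.continuous).inter hW',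
    ⟨?_, (inW x).2 ⟨xs, Metric.mem_ball_self r0⟩⟩, ?_, ?_, ?_, ?_, ?_⟩⟩
  · show L (e x) ∈ Metric.ball (φ x) r
    rw [key x xs (Metric.mem_ball_self r0)]
    exact Metric.mem_ball_self r0
  · exact cG.comp_contDiff (hu.comp T.contDiff) fun a => hB (um _)
  · exact T.symm.contDiff.comp_contDiffOn (hu'.comp hL.contDiffOn fun y hy => hy.1)
  · intro a
    refine ⟨mem_range_self _, ?_, (inW _).2 ⟨φ.map_target (hB (um _)), ?_⟩⟩
    · show L (e (φ.symm (u (T a)))) ∈ Metric.ball (φ x) r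
      rw [hLe _ (um _)]
      exact um _
    · rw [φ.right_inv (hB (um _))]
      exact um _
  · intro a
    show T.symm (u.symm (L (e (φ.symm (u (T a)))))) = a
    rw [hLe _ (um _), u.left_inv (by rw [us]; exact mem_univ _), T.symm_apply_apply]
  · rintro _ ⟨⟨z, rfl⟩, -, hz⟩
    obtain ⟨h1, h2⟩ := (inW z).1 hz
    show e (φ.symm (u (T (T.symm (u.symm (L (e z))))))) = e z
    rw [T.apply_symm_apply, key z h1 h2, u.right_inv (by rw [ut]; exact h2), φ.left_inv h1]

theorem AmbX_smooth (he : ContMDiff (𝓡 4) (𝓡 n) ∞ e) (hc : IsClosedEmbedding e)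
    (hd : ∀ x, Injective (mfderiv (𝓡 4) (𝓡 n) e x)) {k : X → X}
    (hk : ContMDiff (𝓡 4) (𝓡 n) ∞ (e ∘ k)) : ContMDiff (𝓡 4) (𝓡 4) ∞ k := by
  have ck : Continuous k := hc.isInducing.continuous_iff.2 hk.continuous
  intro p
  obtain ⟨L, r, hL, r0, hB, hLe⟩ := AmbX_loc he hd (k p)
  refine contMDiffAt_iff_target.2 ⟨ck.continuousAt, ?_⟩
  set φ := extChartAt (𝓡 4) (k p) with hφ
  have nb : φ.source ∩ φ ⁻¹' Metric.ball (φ (k p)) r ∈ 𝓝 (k p) :=
    inter_mem (extChartAt_source_mem_nhds _)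
      (continuousAt_extChartAt (k p) (Metric.ball_mem_nhds _ r0))
  have h1 : φ ∘ k =ᶠ[𝓝 p] L ∘ (e ∘ k) := by
    filter_upwards [ck.continuousAt nb] with q hq
    have h := hLe _ hq.2
    rw [φ.left_inv hq.1] at h
    exact h.symm
  exact ((hL.contMDiff.comp hk) p).congr_of_eventuallyEq h1

end

open scoped Manifold in
theorem exists_amb (X : Type) [TopologicalSpace X] [ChartedSpace (EuclideanSpace ℝ (Fin 4)) X]
    [IsManifold (𝓡 4) ∞ X] [T2Space X] [CompactSpace X] :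
    ∃ (n : ℕ) (e : X → EuclideanSpace ℝ (Fin n)) (A : Amb (EuclideanSpace ℝ (Fin n))),
      IsClosedEmbedding e ∧ range e = A.M ∧
      (∀ (G : E3 → ℝ) (b : Hb G X), IsCompact {x | 0 ≤ G x} →
        ∃ Φ, Emb A {x | 0 ≤ G x} Φ ∧ ∀ x, 0 ≤ G x → Φ x = e (b.Φ x)) ∧
      ∀ ξ : Ist A, ∃ ψ : X ≃ₘ⟮𝓡 4, 𝓡 4⟯ X, ∀ x, e (ψ x) = ξ.d (e x) := by
  obtain ⟨n, e, he, hc, hd⟩ := exists_embedding_euclidean_of_compact (I := 𝓡 4) (M := X)
  obtain ⟨A, hA⟩ := exists_retr (M := range e) (isCompact_range he.continuous) (by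
    rintro _ ⟨x, rfl⟩
    exact AmbX_chart he hc hd x)
  refine ⟨n, e, A, hc, hA.symm, fun G b hK => ?_, fun ξ => ?_⟩
  · have h1 : ContDiffOn ℝ ∞ (e ∘ b.Φ) b.O :=
      contMDiffOn_iff_contDiffOn.1 (he.comp_contMDiffOn b.smooth)
    obtain ⟨g, hg, hgf⟩ := ext_smooth hK b.isOpen b.sub h1
    have hp : ∀ x, 0 ≤ G x → g x = e (b.Φ x) := fun x hx => hgf.self_of_nhdsSet x hx
    refine ⟨g, ⟨hg, ?_, ?_, ?_⟩, hp⟩
    · filter_upwards [hgf] with x hx
      rw [hx, hA]
      exact mem_range_self _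
    · intro x hx y hy h
      rw [hp x hx, hp y hy] at h
      exact b.inj (b.sub hx) (b.sub hy) (hc.injective h)
    · intro x hx
      have h2 : g =ᶠ[𝓝 x] e ∘ b.Φ := hgf.filter_mono (nhds_le_nhdsSet hx)
      have h3 : MDifferentiableAt 𝓘(ℝ, Fin 3 → ℝ) (𝓡 4) b.Φ x :=
        (b.smooth.contMDiffAt (b.isOpen.mem_nhds (b.sub hx))).mdifferentiableAt (by simp)
      have h4 : MDifferentiableAt (𝓡 4) (𝓡 n) e (b.Φ x) := (he _).mdifferentiableAt (by simp)
      rw [h2.fderiv_eq, ← mfderiv_eq_fderiv, mfderiv_comp x h4 h3]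
      exact (hd _).comp (b.imm x (b.sub hx))
  · have m1 : ∀ x, ∃ y, e y = ξ.d (e x) := fun x => by
      have h : ξ.f 1 (e x) ∈ A.M :=
        ξ.maps 1 ⟨zero_le_one, le_rfl⟩ _ (by rw [hA]; exact mem_range_self _)
      rw [ξ.one, hA] at h
      exact h
    have m2 : ∀ x, ∃ y, e y = ξ.d.symm (e x) := fun x => by
      have h : ξ.d.symm (e x) ∈ A.M := ξ.inv _ (by rw [hA]; exact mem_range_self _)
      rw [hA] at h
      exact h
    choose k hk using m1
    choose k' hk' using m2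
    have s1 : ContMDiff (𝓡 4) (𝓡 4) ∞ k := AmbX_smooth he hc hd (by
      have h : e ∘ k = ξ.d.toFun ∘ e := funext hk
      rw [h]
      exact ξ.d.smooth.contMDiff.comp he)
    have s2 : ContMDiff (𝓡 4) (𝓡 4) ∞ k' := AmbX_smooth he hc hd (by
      have h : e ∘ k' = ξ.d.invFun ∘ e := funext hk'
      rw [h]
      exact ξ.d.smooth_inv.contMDiff.comp he)
    refine ⟨⟨⟨k, k', fun x => hc.injective ?_, fun x => hc.injective ?_⟩, s1, s2⟩, hk⟩
    · rw [hk', hk]
      exact ξ.d.left_inv _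
    · rw [hk, hk']
      exact ξ.d.right_inv _

end Pool.Agent.Work.MP_7ba843_gt.C
end
end

-- merged part: Pool.Agent.Work.MP_7ba843_gt.C.Sec
section
/-! The fundamental group of a union of closed sets is generated by those of the pieces.

PLAN. `X` is path connected; take `h` from `exists_hol` for `univ`, `φ` from `exists_ind` with
`f = id` (bijective, `Ind.bij`), `N' = N.map φ`; loops at `x` inside one `T i` have value in `N'`
(`ind_loop`, `Ind.comp`, `Ind.unique`). For `y` choose `i y` with `y ∈ T (i y)` and a path `σ y` in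
`T (i y)` from `x` to `y`, `γ y = h (σ y)`; for `y = x` correct at the end. Key: for every path `c`
from `x` to `y` inside some `T i`, `γ y * (h c)⁻¹ ∈ N'` (compare both with a path in
`T i ∩ T (i y)`). Local statement for `loc2glob`: let `O'` be the preimage of a ball under a chart
at `y` (paths in `O'` with the same end points have the same value: `IsPF.cvx` for the pulled back
functional), `O ⊆ O'` a neighbourhood that misses the `T i` with `y ∉ T i` and such that each point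
of `O ∩ T i` is joined to `y` inside `O' ∩ T i` (`pathComponentIn_mem_nhds` in the subtype). About
250 lines. -/

set_option linter.unusedSectionVars false
set_option linter.unusedVariables false

open Set Filter Topology Function

noncomputable section
namespace Pool.Agent.Work.MP_7ba843_gt.C

theorem Sec_join {Y : Type} [TopologicalSpace Y] {S : Set Y} {a b : Y} (H : JoinedIn S a b) :
    ∃ c, IsP S c ∧ c 0 = a ∧ c 1 = b := by
  obtain ⟨γ, hγ⟩ := H
  refine ⟨γ.extend, ⟨γ.continuous_extend.continuousOn, fun t ht => ?_⟩, γ.extend_zero,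
    γ.extend_one⟩
  rw [γ.extend_apply ht]
  exact hγ _

theorem Sec_chart {X G : Type} [TopologicalSpace X] [ChartedSpace (EuclideanSpace ℝ (Fin 4)) X]
    [Group G] {h : (ℝ → X) → G} (H : IsPF univ h) (y : X) :
    ∃ O ∈ 𝓝 y, ∀ c d, IsP O c → IsP O d → c 0 = d 0 → c 1 = d 1 → h c = h d := by
  set ch := chartAt (EuclideanSpace ℝ (Fin 4)) y with hch
  have hy : y ∈ ch.source := mem_chart_source _ y
  obtain ⟨ε, hε, hB⟩ := Metric.isOpen_iff.1 ch.open_target (ch y) (ch.map_source hy)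
  have hk : IsPF (Metric.ball (ch y) ε) fun c => h (ch.symm ∘ c) :=
    H.comap (ch.continuousOn_symm.mono hB) (fun _ _ => mem_univ _)
  have key : ∀ c, IsP (ch.source ∩ ch ⁻¹' Metric.ball (ch y) ε) c →
      h c = h (ch.symm ∘ seg (ch (c 0)) (ch (c 1))) := by
    intro c hc
    have h1 : IsP (Metric.ball (ch y) ε) (ch ∘ c) :=
      hc.map (ch.continuousOn.mono inter_subset_left) (fun z hz => hz.2)
    have h2 := hk.cvx (subset_refl _) (convex_ball _ _) h1
    refine Eq.trans (H.congr _ _ fun t ht => ?_) h2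
    exact (ch.left_inv (hc.2 ht).1).symm
  refine ⟨ch.source ∩ ch ⁻¹' Metric.ball (ch y) ε, ?_, fun c d hc hd h0 h1 => ?_⟩
  · exact (ch.isOpen_inter_preimage Metric.isOpen_ball).mem_nhds ⟨hy, Metric.mem_ball_self hε⟩
  · rw [key c hc, key d hd, h0, h1]

theorem Sec_loc {X : Type} [TopologicalSpace X] {T : Set X} (hc : IsClosed T)
    (hl : LocallyPathConnectedSpace T) {y : X} {O : Set X} (hO : O ∈ 𝓝 y) :
    ∃ P ∈ 𝓝 y, ∀ z ∈ P, z ∈ T → y ∈ T ∧ ∃ c, IsP (O ∩ T) c ∧ c 0 = y ∧ c 1 = z := by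
  by_cases hy : y ∈ T
  · have h1 : (Subtype.val ⁻¹' O : Set T) ∈ 𝓝 (⟨y, hy⟩ : T) :=
      continuous_subtype_val.continuousAt.preimage_mem_nhds hO
    have h2 := pathComponentIn_mem_nhds h1
    rw [nhds_subtype_eq_comap, mem_comap] at h2
    obtain ⟨P, hP, hPs⟩ := h2
    refine ⟨P, hP, fun z hz hzT => ⟨hy, ?_⟩⟩
    have h3 : JoinedIn (Subtype.val ⁻¹' O : Set T) ⟨y, hy⟩ ⟨z, hzT⟩ := hPs (a := ⟨z, hzT⟩) hz
    obtain ⟨c, hc1, hc2, hc3⟩ := Sec_join h3
    refine ⟨Subtype.val ∘ c, hc1.map continuous_subtype_val.continuousOn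
      (fun w hw => ⟨hw, w.2⟩), ?_, ?_⟩
    · simp only [Function.comp_apply, hc2]
    · simp only [Function.comp_apply, hc3]
  · exact ⟨Tᶜ, hc.isOpen_compl.mem_nhds hy, fun z hz hzT => absurd hzT hz⟩

theorem sec {X ι : Type} [TopologicalSpace X] [ChartedSpace (EuclideanSpace ℝ (Fin 4)) X]
    [Finite ι] {T : ι → Set X} (hc : ∀ i, IsClosed (T i)) (hu : (⋃ i, T i) = univ)
    (hl : ∀ i, LocallyPathConnectedSpace (T i)) (hp : ∀ i j, IsPathConnected (T i ∩ T j)) {x : X}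
    (hx : ∀ i, x ∈ T i) (N : Subgroup (FundamentalGroup X x))
    (hN : ∀ i a, FundamentalGroup.map (⟨Subtype.val, continuous_subtype_val⟩ : C(T i, X))
      ⟨x, hx i⟩ a ∈ N) : N = ⊤ := by
  have hT : ∀ i, IsPathConnected (T i) := fun i => by simpa using hp i i
  have hi : ∀ y : X, ∃ i, y ∈ T i := fun y => mem_iUnion.1 (hu ▸ mem_univ y)
  choose ix hix using hi
  have hX : IsPathConnected (univ : Set X) :=
    ⟨x, mem_univ _, fun y _ =>
      ((hT (ix y)).joinedIn x (hx _) y (hix y)).mono (subset_univ _)⟩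
  obtain ⟨G, _, h, H⟩ := exists_hol hX
  obtain ⟨φ, hφ⟩ := exists_ind H.toIsPF (f := id) continuous_id (fun _ => mem_univ _) x
  have hb : Bijective φ := Ind.bij H IsEmbedding.id range_id hφ
  have loop : ∀ i c, IsP (T i) c → c 0 = x → c 1 = x → h c ∈ N.map φ := by
    intro i c hc h0 h1
    obtain ⟨a, ha⟩ := ind_loop (x := (⟨x, hx i⟩ : T i)) hc h0 h1
    have h2 := Ind.comp (h := h) (f := id)
      (⟨Subtype.val, continuous_subtype_val⟩ : C(T i, X)) (z := ⟨x, hx i⟩) (φ := φ) hφ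
    have h3 := ha G h _ (H.toIsPF.mono (subset_univ _)) h2
    exact ⟨_, hN i a, h3⟩
  have two : ∀ i c d, IsP (T i) c → IsP (T i) d → c 0 = x → d 0 = x → c 1 = d 1 →
      h c * (h d)⁻¹ ∈ N.map φ := by
    intro i c d hc hd h0 h0' h1
    have e : c 1 = (fun s => d (1 - s)) 0 := by simp only [sub_zero, h1]
    obtain ⟨q1, q2, q3⟩ := hc.cat hd.rev e
    have h3 := loop i _ q1 (q2.trans h0) (q3.trans (by simp only [sub_self, h0']))
    rwa [H.toIsPF.cat (hc.mono (subset_univ _)) (hd.rev.mono (subset_univ _)) e,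
      H.toIsPF.rev (hd.mono (subset_univ _))] at h3
  have hσ : ∀ y, ∃ c, IsP (T (ix y)) c ∧ c 0 = x ∧ c 1 = y := fun y =>
    Sec_join ((hT (ix y)).joinedIn x (hx _) y (hix y))
  choose σ hσ1 hσ2 hσ3 using hσ
  have loc : ∀ y ∈ (univ : Set X), ∃ O ∈ 𝓝 y, ∀ c, IsP (univ ∩ O) c →
      h (σ (c 0)) * h c * (h (σ (c 1)))⁻¹ ∈ N.map φ := by
    intro y _
    obtain ⟨O, hO, hOe⟩ := Sec_chart H.toIsPF y
    choose P hP hPe using fun i => Sec_loc (hc i) (hl i) hO
    refine ⟨O ∩ ⋂ i, P i, inter_mem hO (iInter_mem.2 hP), fun c hcP => ?_⟩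
    have m0 := (hcP.2 (left_mem_Icc.2 zero_le_one)).2
    have m1 := (hcP.2 (right_mem_Icc.2 zero_le_one)).2
    have hcO : IsP O c := hcP.mono fun z hz => hz.2.1
    obtain ⟨y0, α, a1, a2, a3⟩ := hPe (ix (c 0)) (c 0) (mem_iInter.1 m0.2 _) (hix _)
    obtain ⟨y1, β, b1, b2, b3⟩ := hPe (ix (c 1)) (c 1) (mem_iInter.1 m1.2 _) (hix _)
    obtain ⟨τ, t1, t2, t3⟩ := Sec_join ((hp (ix (c 0)) (ix (c 1))).joinedIn x ⟨hx _, hx _⟩ y
      ⟨y0, y1⟩)
    have u1 : IsP univ τ := t1.mono (subset_univ _)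
    have u2 : IsP univ α := a1.mono (subset_univ _)
    have u3 : IsP univ β := b1.mono (subset_univ _)
    obtain ⟨p1, p2, p3⟩ := (a1.mono inter_subset_left).cat hcO a3
    have e1 : h α * h c = h β := by
      rw [← H.toIsPF.cat u2 (hcO.mono (subset_univ _)) a3]
      exact hOe _ _ p1 (b1.mono inter_subset_left) (p2.trans (a2.trans b2.symm))
        (p3.trans b3.symm)
    obtain ⟨r1, r2, r3⟩ := (t1.mono inter_subset_left).cat (a1.mono inter_subset_right)
      (t3.trans a2.symm)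
    obtain ⟨s1, s2, s3⟩ := (t1.mono inter_subset_right).cat (b1.mono inter_subset_right)
      (t3.trans b2.symm)
    have e2 := two _ _ _ (hσ1 (c 0)) r1 (hσ2 _) (r2.trans t2) ((hσ3 _).trans (r3.trans a3).symm)
    have e3 := two _ _ _ (hσ1 (c 1)) s1 (hσ2 _) (s2.trans t2) ((hσ3 _).trans (s3.trans b3).symm)
    rw [H.toIsPF.cat u1 u2 (t3.trans a2.symm)] at e2
    rw [H.toIsPF.cat u1 u3 (t3.trans b2.symm), ← e1] at e3
    have e4 := (N.map φ).mul_mem e2 ((N.map φ).inv_mem e3)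
    have e5 : h (σ (c 0)) * (h τ * h α)⁻¹ * (h (σ (c 1)) * (h τ * (h α * h c))⁻¹)⁻¹ =
        h (σ (c 0)) * h c * (h (σ (c 1)))⁻¹ := by group
    rwa [e5] at e4
  have top : ∀ w : G, w ∈ N.map φ := by
    intro w
    obtain ⟨c, c1, c2, c3, c4⟩ := H.surj x (mem_univ _) x (mem_univ _) w
    have h1 := loc2glob H.toIsPF (N.map φ) (fun y => h (σ y)) loc c1
    have h2 : h (σ x) ∈ N.map φ := loop _ _ (hσ1 x) (hσ2 x) (hσ3 x)
    simp only [c2, c3, c4] at h1
    have h3 := (N.map φ).mul_mem ((N.map φ).mul_mem ((N.map φ).inv_mem h2) h1) h2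
    have e : (h (σ x))⁻¹ * (h (σ x) * w * (h (σ x))⁻¹) * h (σ x) = w := by group
    rwa [e] at h3
  rw [eq_top_iff]
  intro a _
  obtain ⟨b, hb1, hb2⟩ := top (φ a)
  rwa [← hb.1 hb2]

end Pool.Agent.Work.MP_7ba843_gt.C
end
end

-- merged part: Pool.Agent.Work.MP_7ba843_gt.C.Sur
section
/-! The handlebody of a trisection factors through the free group of a sector.

PLAN. `sur_sector`: repeat the part `su` of `no_tri` (../N/NoTri.lean) with `tri_data`,
`surf_lifts`, `sector_cv` as in ../N/Main.lean, then `pi1_surj` inside the model of the sector and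
transport along the homeomorphism onto `T i`; the connectivity statements come from the universal
coverings (`LatA_re`, `Cv.Univ`). `tri_fact`: `j = e.Φ ∘ level_near`; take `x` with `Fg g x = 0`;
`N = range (map e.map x)`; the inclusion of the core factors through `e.map` and through every
`T i`, so `sec` gives `N = ⊤`; `e.map` factors through `T 0`, the first factor is onto by
`sur_sector`, and the fundamental group of `T 0` is free of rank `k` (`sector_cv`, `Re_WK_gr`).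
Functoriality of `FundamentalGroup.map` is best checked on representatives (`Quotient.ind`, `rfl`).
About 300 lines. -/

set_option linter.unusedSectionVars false
set_option linter.unusedVariables false

open Set Filter Topology Function
open scoped ContDiff

noncomputable section
namespace Pool.Agent.Work.MP_7ba843_gt.C

open Pool.Agent.Work.MP_bf98aa_gt.Ns (Dif)
open Pool.Agent.Work.MP_735653_gt Pool.Agent.Work.MP_7ba843_gt.N

theorem Sur_rep {Y : Type} [TopologicalSpace Y] {y : Y} (a : FundamentalGroup Y y) :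
    ∃ γ : Path y y, a = Path.Homotopic.Quotient.mk γ := by
  obtain ⟨γ⟩ := a
  exact ⟨γ, rfl⟩

theorem Sur_pc {Y Γ : Type} [TopologicalSpace Y] [Group Γ] {C : Cv Y Γ} (h : C.Univ) :
    PathConnectedSpace Y :=
  have := h.1
  C.cov.surjective.pathConnectedSpace C.cov.continuous

theorem Sur_su {X Y W P FW : Type} [TopologicalSpace X] [TopologicalSpace Y]
    [TopologicalSpace W] [Group P] [Group FW] [CompactSpace W] {Z : Fin 3 → Type}
    [∀ i, TopologicalSpace (Z i)] [∀ i, T2Space (Z i)] {k : Fin 3 → ℕ} {CS : Cv Y P}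
    (hS : CS.Univ) {CW : Cv W FW} (hW : CW.Univ) {CZ : ∀ i, Cv (Z i) (FreeGroup (Fin (k i)))}
    {ι : Y → W} {p : P →* FW} {F₀ : CS.E → CW.E} (l₀ : Lf CS CW ι p F₀) (hp : Surjective p)
    {j : Y → X} (hj : IsEmbedding j) {h : ∀ i, Z i → X} {b : Fin 3 → W → X}
    {β : Fin 3 → Y ≃ₜ Y} (hh : ∀ i, IsEmbedding (h i)) (hb : ∀ i, IsEmbedding (b i))
    (hcap : (⋂ i, range (h i)) = range j)
    (hr : ∀ i, range (b i) = range (h i) ∩ range (h (i + 1)))
    (hβ : ∀ i y, b i (ι (β i y)) = j y)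
    (hc : ∀ i, IsPreconnected ((CZ i).p ⁻¹' (h i ⁻¹' (range (b i) ∪ range (b (i + 2))))))
    (i : Fin 3) : ∃ (z : Y → Z i) (ψ : P →* FreeGroup (Fin (k i))) (F : CS.E → (CZ i).E),
      Continuous z ∧ (∀ y, h i (z y) = j y) ∧ Lf CS (CZ i) z ψ F ∧ Surjective ψ := by
  have := hS.1
  have : Nonempty Y := ⟨CS.p (Classical.arbitrary _)⟩
  have n3 : ∀ i : Fin 3, i + 2 + 1 = i := by decide
  have n4 : ∀ i l : Fin 3, l = i ∨ l = i + 1 ∨ l = i + 2 := by decide
  choose α A lA using fun i => Lf.exists hS CS (β i).continuous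
  let e : Fin 3 → P ≃* P := fun i => MulEquiv.ofBijective (α i) (Lf.bij hS hS (β i) (lA i))
  have lW := fun i => (lA i).comp l₀
  have hρ : ∀ i, Surjective (p.comp (α i)) := fun i => hp.comp (e i).surjective
  obtain ⟨z, hz, ez⟩ := lift_emb (hh i) hj (hcap ▸ iInter_subset _ i)
  obtain ⟨ψ, F, lZ⟩ := Lf.exists hS (CZ i) hz.continuous
  have inc : ∀ l, range (b l) ⊆ range (h i) → ∃ (m : W → Z i) (η : FW →* _) (M : CW.E → _),
      IsClosedEmbedding m ∧ (∀ w, h i (m w) = b l w) ∧ (∀ y, m (ι (β l y)) = z y) ∧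
      Lf CW (CZ i) m η M ∧ (∀ x, M (F₀ (A l x)) = F x) ∧ ∀ γ, η (p.comp (α l) γ) = ψ γ := by
    intro l s
    obtain ⟨m, hm, em⟩ := lift_emb (hh i) (hb l) s
    have e1 : ∀ y, m (ι (β l y)) = z y := fun y =>
      (hh i).injective (by rw [em, hβ, ez])
    obtain ⟨η, M, k1, k2, k3⟩ := Lf.factor hW hm.continuous (lW l)
      ((funext e1 : m ∘ ι ∘ β l = z) ▸ lZ)
    exact ⟨m, η, M, hm.continuous.isClosedEmbedding hm.injective, em, e1, k1, k2, k3⟩
  obtain ⟨m, η, M, c1, e1, f1, l1, g1, k1⟩ := inc i (hr i ▸ inter_subset_left)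
  obtain ⟨m', η', M', c2, e2, f2, l2, g2, k2⟩ := inc (i + 2) (by
    rw [hr, n3]
    exact inter_subset_right)
  refine ⟨z, ψ, F, hz.continuous, ez, lZ, sector_surj c1 c2 (lW i) (lW (i + 2)) (hρ i) (hρ _) l1 l2
    (fun x => (g1 x).trans (g2 x).symm) k1 k2 ?_ ?_⟩
  · rintro _ ⟨⟨w, rfl⟩, w', hw⟩
    have a1 := (hr i).subset (mem_range_self w)
    have a2 := (hr (i + 2)).subset (mem_range_self w')
    rw [← e2, hw, e1] at a2
    obtain ⟨y, hy⟩ := hcap.subset (mem_iInter.2 fun l => by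
      rcases n4 i l with rfl | rfl | rfl
      exacts [a1.1, a1.2, a2.1] : b i w ∈ _)
    exact ⟨y, (f1 y).trans ((hh i).injective (by rw [ez, e1, hy]))⟩
  · have : range m ∪ range m' = h i ⁻¹' (range (b i) ∪ range (b (i + 2))) := by
      ext y
      refine or_congr ⟨?_, ?_⟩ ⟨?_, ?_⟩
      · rintro ⟨w, rfl⟩
        exact ⟨w, (e1 w).symm⟩
      · exact fun ⟨w, hw⟩ => ⟨w, (hh i).injective ((e1 w).trans hw)⟩
      · rintro ⟨w, rfl⟩
        exact ⟨w, (e2 w).symm⟩
      · exact fun ⟨w, hw⟩ => ⟨w, (hh i).injective ((e2 w).trans hw)⟩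
    rw [this]
    exact hc i

/-- an embedding with range `A` as a homeomorphism onto `A` -/
theorem Sur_homeo {X Z : Type} [TopologicalSpace X] [TopologicalSpace Z] {h : Z → X}
    (hh : IsEmbedding h) {A : Set X} (hA : range h = A) : ∃ e : Z ≃ₜ A, ∀ z, (e z).1 = h z := by
  subst hA
  exact ⟨hh.toHomeomorph, fun _ => rfl⟩

theorem sur_sector {X : Type} [TopologicalSpace X] [T2Space X] (hX : Loc 4 X) {g : ℕ}
    {T : Fin 3 → Set X} {j : Re (EK (gr3 g)) → X} (hj : IsEmbedding j)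
    (hT : Trisection g (range j) T) : (∀ i, IsClosed (T i)) ∧
      (∀ i, LocallyPathConnectedSpace (T i)) ∧ (∀ i l, IsPathConnected (T i ∩ T l)) ∧
      ∀ (i : Fin 3) (h : range j ⊆ T i) (x : range j),
        Surjective (FundamentalGroup.map (ContinuousMap.inclusion h) x) := by
  obtain ⟨P, _, CS, CW, p, L₀, F₀, s1, s2, s3, s4, -⟩ := surf_lifts g
  have := Sur_pc s1
  have := Sur_pc s2
  obtain ⟨k, h, b, β, t1, t2, t3, t4, t5, t6⟩ := tri_data hX hj hT
  choose CZ z1 z2 using fun i => sector_cv (k i)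
  choose E hE using fun i => Sur_homeo (t1 i) (t3 i)
  have n3 : ∀ i : Fin 3, i + 2 + 1 = i := by decide
  have n4 : ∀ i l : Fin 3, l = i ∨ l = i + 1 ∨ l = i + 2 := by decide
  refine ⟨fun i => t3 i ▸ (isCompact_range (t1 i).continuous).isClosed, fun i => ?_,
    fun i l => ?_, fun i hi x => ?_⟩
  · have := LatA_re (down_WK (down_gr 2 (k i)))
    exact (E i).symm.isOpenEmbedding.locallyPathConnectedSpace
  · rcases n4 i l with rfl | rfl | rfl
    · have := Sur_pc (z1 l)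
      rw [inter_self, ← t3]
      exact isPathConnected_range (t1 l).continuous
    · rw [← t4]
      exact isPathConnected_range (t2 i).continuous
    · have := t4 (i + 2)
      rw [n3, inter_comm] at this
      rw [← this]
      exact isPathConnected_range (t2 _).continuous
  · obtain ⟨z, ψ, F, a1, a2, a3, a4⟩ := Sur_su s1 s2 (CZ := CZ) s3 s4 hj t1 t2
      (by simpa only [t3] using hT.2.2.2.2) (by simpa only [t3] using t4) t6 (fun i => by
        rw [← t5, range_comp, preimage_image_eq _ (t1 i).injective]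
        exact z2 i) i
    have l : Lf CS ((CZ i).homeo (E i)) (E i ∘ z) ψ F :=
      ⟨a3.cont, fun y => congrArg (E i) (a3.proj y), a3.eqv⟩
    have q : ∀ y, ((E i ∘ z) y).1 = j y := fun y => (hE i _).trans (a2 y)
    have := s1.1
    have hx : inclusion hi x ∈ range (E i ∘ z) := by
      obtain ⟨y, hy⟩ := x.2
      exact ⟨y, Subtype.ext ((q y).trans hy)⟩
    have su := pi1_surj (C' := (CZ i).homeo (E i)) (z1 i) ((E i).continuous.comp a1) l a4 rfl
      ⟨inclusion hi x, hx⟩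
    intro a
    obtain ⟨d, hd⟩ := su a
    obtain ⟨δ, rfl⟩ := Sur_rep d
    let u : range (E i ∘ z) → range j := fun y => ⟨y.1.1, by
      obtain ⟨_, w, rfl⟩ := y
      exact ⟨w, (q w).symm⟩⟩
    have hu : Continuous u :=
      (continuous_subtype_val.comp continuous_subtype_val).subtype_mk _
    exact ⟨Path.Homotopic.Quotient.mk (δ.map hu), hd⟩

theorem tri_fact {X : Type} [TopologicalSpace X] [ChartedSpace (EuclideanSpace ℝ (Fin 4)) X]
    [T2Space X] {g k : ℕ} (e : Hb (Fg g) X) {T : Fin 3 → Set X} (hT : Trisection g e.bdry T)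
    (h01 : T 0 ∩ T 1 = e.body) (hk : Nonempty (T 0 ≃ₜ Th 2 k)) : e.Fact k := by
  have hF : ∀ x, Fg g x = 0 ↔ FK (gr3 g) x = 1 / 2 := fun x => sub_eq_zero
  obtain ⟨u⟩ := super_homeo (down_gr 1 g)
  have q : {x | 0 ≤ Fg g x} = {x | 1 / 2 ≤ FK (gr3 g) x} := by
    simp only [Fg, sub_nonneg]
  have : CompactSpace {x | 0 ≤ Fg g x} := ((Homeomorph.setCongr q).trans u).symm.compactSpace
  have he : IsEmbedding e.map := (e.map.continuous.isClosedEmbedding fun x y h =>
    Subtype.ext (e.inj (e.sub x.2) (e.sub y.2) h)).isEmbedding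
  obtain ⟨e₃, -⟩ := level_near (down_gr 1 g)
  let w : Re (EK (gr3 g)) → {x | 0 ≤ Fg g x} := fun y => ⟨(e₃ y).1, ((hF _).2 (e₃ y).2).ge⟩
  have hw : IsEmbedding w := (IsEmbedding.subtypeVal.comp e₃.isEmbedding).codRestrict
    {x | 0 ≤ Fg g x} fun y => (w y).2
  have hj : IsEmbedding (e.map ∘ w) := he.comp hw
  have hS : e.bdry = range (e.map ∘ w) := by
    ext z
    constructor
    · rintro ⟨x, hx, rfl⟩
      obtain ⟨y, hy⟩ := e₃.surjective ⟨x, (hF x).1 hx⟩
      exact ⟨y, congrArg e.Φ (congrArg Subtype.val hy)⟩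
    · rintro ⟨y, rfl⟩
      exact ⟨_, (hF _).2 (e₃ y).2, rfl⟩
  rw [hS] at hT
  obtain ⟨c1, c2, c3, c4⟩ := sur_sector loc_chart hj hT
  obtain ⟨P, _, CS, CW, p, L₀, F₀, s1, -⟩ := surf_lifts g
  obtain ⟨y₀⟩ := (Sur_pc s1).nonempty
  have hi : ∀ i, range (e.map ∘ w) ⊆ T i := fun i => hT.2.2.2.2 ▸ iInter_subset _ i
  have h0 : ∀ d, e.map d ∈ T 0 := fun d => (h01.symm.subset ⟨d.1, d.2, rfl⟩).1
  let a : C({x | 0 ≤ Fg g x}, T 0) := ⟨fun d => ⟨e.map d, h0 d⟩, e.map.continuous.subtype_mk _⟩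
  let x₀ : range (e.map ∘ w) := ⟨e.map (w y₀), y₀, rfl⟩
  obtain ⟨m, hm, em⟩ := lift_emb he (IsEmbedding.subtypeVal (p := (· ∈ range (e.map ∘ w))))
    (Subtype.range_val.subset.trans (range_comp_subset_range _ _))
  have lift : ∀ δ : Path x₀ x₀, ∃ δ' : Path (w y₀) (w y₀), ∀ t, e.map (δ' t) = (δ t).1 := by
    intro δ
    have : m x₀ = w y₀ := he.injective (em x₀)
    exact ⟨⟨⟨fun t => m (δ t), hm.continuous.comp δ.continuous⟩,
      (congrArg m δ.source).trans this, (congrArg m δ.target).trans this⟩, fun t => em _⟩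
  have sa : Surjective (FundamentalGroup.map a (w y₀)) := by
    intro c
    obtain ⟨d, rfl⟩ := c4 0 (hi 0) x₀ c
    obtain ⟨δ, rfl⟩ := Sur_rep d
    obtain ⟨δ', hδ⟩ := lift δ
    refine ⟨Path.Homotopic.Quotient.mk δ', ?_⟩
    have : δ'.map a.continuous = δ.map (ContinuousMap.inclusion (hi 0)).continuous :=
      Path.ext (funext fun t => Subtype.ext (hδ t))
    exact congrArg Path.Homotopic.Quotient.mk this
  have st : (FundamentalGroup.map e.map (w y₀)).range = ⊤ := by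
    refine sec c1 hT.1 c2 c3 (fun i => hi i x₀.2) _ fun i c => ?_
    obtain ⟨d, rfl⟩ := c4 i (hi i) x₀ c
    obtain ⟨δ, rfl⟩ := Sur_rep d
    obtain ⟨δ', hδ⟩ := lift δ
    refine ⟨Path.Homotopic.Quotient.mk δ', ?_⟩
    have : δ'.map e.map.continuous = δ.map continuous_subtype_val :=
      Path.ext (funext fun t => hδ t)
    exact congrArg Path.Homotopic.Quotient.mk this
  obtain ⟨v⟩ := hk
  obtain ⟨C, z1, -⟩ := sector_cv k
  let C' := C.homeo ((Homeomorph.setCongr (Re_WK_gr 2 k)).trans v.symm)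
  have : SimplyConnectedSpace C'.E := z1.1
  obtain ⟨t, ht⟩ := C'.cov.surjective (a (w y₀))
  let φ : FreeGroup (Fin k) ≃* FundamentalGroup (T 0) (a (w y₀)) :=
    (MulEquiv.inv' _).trans (C'.cov.fundamentalGroupEquiv ⟨t, ht⟩).symm
  let vl : C(T 0, X) := ⟨Subtype.val, continuous_subtype_val⟩
  have fc : ∀ c, FundamentalGroup.map vl (a (w y₀)) (FundamentalGroup.map a (w y₀) c) =
      FundamentalGroup.map e.map (w y₀) c := by
    intro c
    obtain ⟨δ, rfl⟩ := Sur_rep c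
    rfl
  refine ⟨w y₀, φ.symm.toMonoidHom.comp (FundamentalGroup.map a (w y₀)),
    (FundamentalGroup.map vl (a (w y₀))).comp φ.toMonoidHom, φ.symm.surjective.comp sa,
    fun c => ?_, MonoidHom.ext fun c => ?_⟩
  · obtain ⟨d, rfl⟩ := MonoidHom.range_eq_top.1 st c
    exact ⟨φ.symm (FundamentalGroup.map a (w y₀) d),
      (congrArg (FundamentalGroup.map vl (a (w y₀))) (φ.apply_symm_apply _)).trans (fc d)⟩
  · exact (congrArg (FundamentalGroup.map vl (a (w y₀))) (φ.apply_symm_apply _)).trans (fc c)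

end Pool.Agent.Work.MP_7ba843_gt.C
end
end
end

-- merged part: Pool.Agent.Work.MP_7ba843_gt.C.Fin
section
-- merged part: Pool.Agent.Work.MP_7ba843_gt.C.AlgB
section
/-! Homomorphisms from a free group that factor through smaller free groups.

PLAN. Reduce to `Γ = FreeGroup (Fin g)` along `e`. `AlgB_std`: if `φ = h ∘ f` with `f` onto then
`NE (φ ∘ of) (std g (h ∘ of) ∘ of)` (`niel_std`, `NE.map`). `AlgB_stab`: if `s : Fin r → G` and
`s' : Fin k → G` both generate and `r + k ≤ g`, then `NE (std g s ∘ of) (std g s' ∘ of)`: permute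
`s'` to the last `k` places, fill the first `r` places with `s` one at a time (`NE.mul_mem`), then
clear the last places. `NE.aut` turns equivalences into automorphisms;
`std g s = (lift s).comp (std g of)` and `std g of` is onto. About 200 lines. -/

set_option linter.unusedSectionVars false
set_option linter.unusedVariables false

open Set Filter Topology Function

noncomputable section
namespace Pool.Agent.Work.MP_7ba843_gt.C

variable {Γ G : Type} [Group Γ] [Group G] {g : ℕ}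

lemma AlgB_gen {ι G' : Type} [Group G'] {u : ι → G} (hu : Subgroup.closure (range u) = ⊤)
    {f : G →* G'} (hf : Surjective f) : Subgroup.closure (range (f ∘ u)) = ⊤ := by
  rw [range_comp, ← MonoidHom.map_closure, hu, Subgroup.map_top_of_surjective f hf]

lemma AlgB_fill {ι κ : Type} [DecidableEq ι] [Finite ι] {s : κ → G}
    (hs : Subgroup.closure (range s) = ⊤) (T : Set ι) {v v' : ι → G} (h1 : ∀ i ∈ T, v i = v' i)
    (h2 : ∀ a, ∃ i ∈ T, v' i = s a) : NE v v' := by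
  classical
  have key : ∀ D : Finset ι, ∀ v : ι → G, (∀ i ∈ D, i ∉ T) → (∀ i ∉ D, v i = v' i) → NE v v' := by
    intro D
    induction D using Finset.induction_on with
    | empty => exact fun v _ h => (funext fun i => h i (Finset.notMem_empty i) : v = v') ▸
        Relation.ReflTransGen.refl
    | insert i D hi ih =>
      intro v a b
      have hw : (v i)⁻¹ * v' i ∈ Subgroup.closure (v '' {j | j ≠ i}) := by
        refine Subgroup.closure_mono ?_ (hs.ge (Subgroup.mem_top _))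
        rintro _ ⟨c, rfl⟩
        obtain ⟨j, hj, e⟩ := h2 c
        exact ⟨j, fun e' => a i (Finset.mem_insert_self _ _) (e' ▸ hj),
          (b j fun h => a j h hj).trans e⟩
      refine Relation.ReflTransGen.trans (NE.mul_mem v i hw)
        (ih _ (fun j hj => a j (Finset.mem_insert_of_mem hj)) fun j hj => ?_)
      by_cases e : j = i
      · rw [e, update_self, mul_inv_cancel_left]
      · rw [update_of_ne e]
        exact b j fun h => (Finset.mem_insert.1 h).elim e hj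
  exact key (toFinite Tᶜ).toFinset v (fun i hi => (Finite.mem_toFinset _).1 hi) fun i hi =>
    h1 i (not_not.1 fun h => hi ((Finite.mem_toFinset _).2 h))

/-- a finite tuple extended by `1` -/
def AlgB_ext {r : ℕ} (s : Fin r → G) (n : ℕ) : G := if h : n < r then s ⟨n, h⟩ else 1

lemma AlgB_ext_val {r : ℕ} (s : Fin r → G) (a : Fin r) : AlgB_ext s a = s a := dif_pos a.2

lemma AlgB_std_of {r : ℕ} (s : Fin r → G) (i : Fin g) :
    std g s (FreeGroup.of i) = AlgB_ext s i := FreeGroup.lift_apply_of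

lemma AlgB_stab0 {r k : ℕ} (hr : r + k ≤ g) (hk : k ≤ r) {s : Fin r → G} {s' : Fin k → G}
    (hs : Subgroup.closure (range s) = ⊤) (hs' : Subgroup.closure (range s') = ⊤) :
    NE (fun i : Fin g => AlgB_ext s i) fun i => AlgB_ext s' i := by
  have h1 : NE (fun i : Fin g => AlgB_ext s i)
      fun i => if i.1 < r then AlgB_ext s i else AlgB_ext s' (i - r) :=
    AlgB_fill hs {i : Fin g | i.1 < r} (fun i (hi : i.1 < r) => (if_pos hi).symm) fun a =>
      ⟨⟨a, by omega⟩, a.2, (if_pos a.2).trans (AlgB_ext_val s a)⟩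
  have h2 : NE (fun i : Fin g => if i.1 < r then AlgB_ext s i else AlgB_ext s' (i - r))
      fun i => if i.1 < r then AlgB_ext s' i else AlgB_ext s' (i - r) :=
    AlgB_fill hs' {i : Fin g | ¬ i.1 < r} (fun i (hi : ¬ i.1 < r) => (if_neg hi).trans (if_neg hi).symm) fun a =>
      ⟨⟨r + a, by omega⟩, Nat.not_lt.2 (Nat.le_add_right _ _),
        (if_neg (Nat.not_lt.2 (Nat.le_add_right _ _))).trans (by
          simp only [Nat.add_sub_cancel_left, AlgB_ext_val])⟩
  have h3 : NE (fun i : Fin g => if i.1 < r then AlgB_ext s' i else AlgB_ext s' (i - r))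
      fun i => AlgB_ext s' i :=
    AlgB_fill hs' {i : Fin g | i.1 < r} (fun i (hi : i.1 < r) => if_pos hi) fun a =>
      ⟨⟨a, by omega⟩, a.2.trans_le hk, AlgB_ext_val s' a⟩
  exact Relation.ReflTransGen.trans (Relation.ReflTransGen.trans h1 h2) h3

lemma AlgB_stab {r k : ℕ} (hr : r + k ≤ g) {s : Fin r → G} {s' : Fin k → G}
    (hs : Subgroup.closure (range s) = ⊤) (hs' : Subgroup.closure (range s') = ⊤) :
    NE (fun i : Fin g => AlgB_ext s i) fun i => AlgB_ext s' i := by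
  rcases le_total k r with h | h
  · exact AlgB_stab0 hr h hs hs'
  · exact (AlgB_stab0 (by omega) h hs' hs).symm

lemma AlgB_std {k : ℕ} {f : FreeGroup (Fin g) →* FreeGroup (Fin k)} (hf : Surjective f)
    (h : FreeGroup (Fin k) →* G) :
    NE (fun i => h (f (FreeGroup.of i))) fun i : Fin g => AlgB_ext (h ∘ FreeGroup.of) i := by
  have h1 := (niel_std (AlgB_gen (FreeGroup.closure_range_of (Fin g)) hf)).2.map h
  have e : (h ∘ fun i : Fin g => std g FreeGroup.of (FreeGroup.of i)) =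
      fun i : Fin g => AlgB_ext (h ∘ FreeGroup.of) i := by
    funext i
    simp only [comp_apply, AlgB_std_of, AlgB_ext]
    split_ifs
    · rfl
    · exact map_one h
  rw [e] at h1
  exact h1

lemma AlgB_two (e : Γ ≃* FreeGroup (Fin g)) {k r : ℕ} (hr : r + k ≤ g)
    {f : Γ →* FreeGroup (Fin k)} {h : FreeGroup (Fin k) →* G} (hf : Surjective f)
    (hh : Surjective h) {f' : Γ →* FreeGroup (Fin r)} {h' : FreeGroup (Fin r) →* G}
    (hf' : Surjective f') (hh' : Surjective h') : ∃ α : Γ ≃* Γ, ∀ a, h' (f' (α a)) = h (f a) := by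
  have h1 := AlgB_std (f := f.comp e.symm.toMonoidHom) (hf.comp e.symm.surjective) h
  have h2 := AlgB_std (f := f'.comp e.symm.toMonoidHom) (hf'.comp e.symm.surjective) h'
  have h3 := AlgB_stab hr (AlgB_gen (FreeGroup.closure_range_of (Fin r)) hh')
    (AlgB_gen (FreeGroup.closure_range_of (Fin k)) hh)
  obtain ⟨α, hα⟩ := NE.aut
    (Relation.ReflTransGen.trans (Relation.ReflTransGen.trans h2 h3) h1.symm)
  have key : ∀ φ : FreeGroup (Fin g) →* G, FreeGroup.lift (fun i => φ (FreeGroup.of i)) = φ :=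
    fun φ => FreeGroup.ext_hom _ _ fun i => FreeGroup.lift_apply_of
  refine ⟨e.trans (α.trans e.symm), fun a => ?_⟩
  have h4 := hα (e a)
  have k1 := key (h.comp (f.comp e.symm.toMonoidHom))
  have k2 := key (h'.comp (f'.comp e.symm.toMonoidHom))
  have h5 := (DFunLike.congr_fun k2 _).symm.trans (h4.trans (DFunLike.congr_fun k1 _))
  simpa using h5

theorem alg_A (e : Γ ≃* FreeGroup (Fin g)) {u : Fin g → Γ} (hu : Subgroup.closure (range u) = ⊤)
    (α : Γ ≃* Γ) (φ : Γ →* G) : NE (fun j => φ (α (u j))) fun j => φ (u j) := by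
  have h1 := (niel_std (AlgB_gen hu (f := e.toMonoidHom) e.surjective)).2
  have h2 := (niel_std (AlgB_gen hu (f := (α.trans e).toMonoidHom) (α.trans e).surjective)).2
  have h3 := NE.map (φ.comp e.symm.toMonoidHom) (Relation.ReflTransGen.trans h2 h1.symm)
  simpa [comp_def] using h3

theorem alg_B1 (e : Γ ≃* FreeGroup (Fin g)) {k r : ℕ} (hr : r + k ≤ g) {f : Γ →* FreeGroup (Fin k)}
    {h : FreeGroup (Fin k) →* G} (hf : Surjective f) (hh : Surjective h) {s : Fin r → G}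
    (hs : Subgroup.closure (range s) = ⊤) :
    ∃ (f' : Γ →* FreeGroup (Fin r)) (h' : FreeGroup (Fin r) →* G),
      Surjective f' ∧ Surjective h' ∧ h'.comp f' = h.comp f := by
  have h1 : Surjective (FreeGroup.lift s) := by
    rw [← MonoidHom.range_eq_top, FreeGroup.range_lift_eq_closure, hs]
  have h2 : Surjective (std g (FreeGroup.of : Fin r → FreeGroup (Fin r))) := by
    rw [← MonoidHom.range_eq_top, eq_top_iff, ← FreeGroup.closure_range_of, Subgroup.closure_le]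
    rintro _ ⟨a, rfl⟩
    exact ⟨FreeGroup.of ⟨a, by omega⟩, (AlgB_std_of _ _).trans (AlgB_ext_val _ a)⟩
  obtain ⟨α, hα⟩ := AlgB_two e hr hf hh (f' := (std g FreeGroup.of).comp e.toMonoidHom)
    (h2.comp e.surjective) h1
  exact ⟨((std g FreeGroup.of).comp e.toMonoidHom).comp α.toMonoidHom, FreeGroup.lift s,
    (h2.comp e.surjective).comp α.surjective, h1, MonoidHom.ext hα⟩

theorem alg_B2 (e : Γ ≃* FreeGroup (Fin g)) {k r : ℕ} (hr : r + k ≤ g) {f : Γ →* FreeGroup (Fin k)}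
    {h : FreeGroup (Fin k) →* G} (hf : Surjective f) (hh : Surjective h)
    {f' : Γ →* FreeGroup (Fin r)} {h' : FreeGroup (Fin r) →* G} (hf' : Surjective f')
    (hh' : Surjective h') : ∃ α : Γ ≃* Γ, ∀ a, h' (f' (α a)) = h (f a) := by
  exact AlgB_two e hr hf hh hf' hh'

end Pool.Agent.Work.MP_7ba843_gt.C
end
end

-- merged part: Pool.Agent.Work.MP_7ba843_gt.C.Main
section
/-! The criterion. -/

set_option linter.unusedSectionVars false
set_option linter.unusedVariables false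

open Set Filter Topology Function
open scoped ContDiff

noncomputable section
namespace Pool.Agent.Work.MP_7ba843_gt.C

open Pool.Agent.Work.MP_bf98aa_gt.Ns (Dif)
open Pool.Agent.Work.MP_735653_gt Pool.Agent.Work.MP_7ba843_gt.N

open scoped Manifold

theorem Main_N (g : ℕ) : {x | 0 ≤ Fg g x} = NK (gr3 g) :=
  Set.ext fun x => (sub_nonneg : 0 ≤ FK (gr3 g) x - 1 / 2 ↔ _)

theorem Main_B (g : ℕ) : {x | Fg g x = 0} = BK (gr3 g) :=
  Set.ext fun _ => sub_eq_zero

theorem model (g : ℕ) : ContDiff ℝ ∞ (Fg g) ∧ (∀ x, Fg g x = 0 → fderiv ℝ (Fg g) x ≠ 0) ∧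
    Nonempty ({x | 0 ≤ Fg g x} ≃ₜ Th 1 g) := by
  refine ⟨(contDiff_FK _).sub contDiff_const, fun x hx h => ?_, ?_⟩
  · obtain ⟨i, hi⟩ := FK_regular (down_gr 1 g) x (sub_eq_zero.1 hx)
    have e : fderiv ℝ (Fg g) x = fderiv ℝ (FK (gr3 g)) x := fderiv_sub_const _
    rw [← e, h] at hi
    exact hi rfl
  · obtain ⟨e⟩ := super_homeo (down_gr 1 g)
    exact ⟨(Homeomorph.setCongr (Main_N g)).trans (e.trans (Homeomorph.setCongr (Re_WK_gr 1 g)))⟩

section Nat
variable {Y Z W : Type} [TopologicalSpace Y] [TopologicalSpace Z] [TopologicalSpace W]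

theorem Main_path {y y' : Y} (γ : Path y y') (l : Path y y) :
    FundamentalGroup.fundamentalGroupMulEquivOfPath γ (Path.Homotopic.Quotient.mk l) =
      Path.Homotopic.Quotient.mk (γ.symm.trans (l.trans γ)) := rfl

theorem Main_nat (f : C(Y, Z)) {y y' : Y} (γ : Path y y') (a : FundamentalGroup Y y) :
    FundamentalGroup.map f y' (FundamentalGroup.fundamentalGroupMulEquivOfPath γ a) =
      FundamentalGroup.fundamentalGroupMulEquivOfPath (γ.map f.continuous)
        (FundamentalGroup.map f y a) := by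
  obtain ⟨l⟩ := a
  change Path.Homotopic.Quotient.mk ((γ.symm.trans (l.trans γ)).map f.continuous) =
    Path.Homotopic.Quotient.mk (((γ.map f.continuous).symm.trans
      ((l.map f.continuous).trans (γ.map f.continuous))))
  rw [Path.map_trans, Path.map_trans, Path.map_symm]

theorem Main_comp (f : C(Y, Z)) (k : C(Z, W)) (y : Y) (a : FundamentalGroup Y y) :
    FundamentalGroup.map (k.comp f) y a =
      FundamentalGroup.map k (f y) (FundamentalGroup.map f y a) := by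
  obtain ⟨l⟩ := a
  rfl

theorem Main_surj (k : C(Y, Z)) (k' : C(Z, Y)) (h : ∀ z, k (k' z) = z) (h' : ∀ y, k' (k y) = y)
    (y : Y) : Surjective (FundamentalGroup.map k y) := by
  rintro ⟨l⟩
  refine ⟨Path.Homotopic.Quotient.mk ((l.map k'.continuous).cast (h' y).symm (h' y).symm), ?_⟩
  change Path.Homotopic.Quotient.mk _ = Path.Homotopic.Quotient.mk l
  congr 1
  ext t
  exact h _

end Nat

variable {X : Type} [TopologicalSpace X] [ChartedSpace (EuclideanSpace ℝ (Fin 4)) X]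
  [IsManifold (𝓡 4) ∞ X] [T2Space X] [CompactSpace X] [ConnectedSpace X] {g : ℕ}

theorem Main_pc (X : Type) [TopologicalSpace X] [ChartedSpace (EuclideanSpace ℝ (Fin 4)) X]
    [ConnectedSpace X] : PathConnectedSpace X := by
  have := ChartedSpace.locallyPathConnectedSpace (EuclideanSpace ℝ (Fin 4)) X
  exact pathConnectedSpace_iff_connectedSpace.2 inferInstance

theorem Hb.Fact.rebase {e : Hb (Fg g) X} {k : ℕ} (h : e.Fact k) (x : {x | 0 ≤ Fg g x}) :
    ∃ (f : FundamentalGroup {x | 0 ≤ Fg g x} x →* FreeGroup (Fin k))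
      (h : FreeGroup (Fin k) →* FundamentalGroup X (e.map x)),
      Surjective f ∧ Surjective h ∧ h.comp f = FundamentalGroup.map e.map x := by
  obtain ⟨x', f, h, h1, h2, h3⟩ := h
  have := isPathConnected_iff_pathConnectedSpace.1 (model_free (Main_N g)).1
  let γ := PathConnectedSpace.somePath x' x
  let B := FundamentalGroup.fundamentalGroupMulEquivOfPath γ
  let B' := FundamentalGroup.fundamentalGroupMulEquivOfPath (γ.map e.map.continuous)
  refine ⟨f.comp B.symm.toMonoidHom, B'.toMonoidHom.comp h, h1.comp B.symm.surjective,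
    B'.surjective.comp h2, MonoidHom.ext fun a => ?_⟩
  obtain ⟨a, rfl⟩ := B.surjective a
  change B' (h (f (B.symm (B a)))) = _
  rw [B.symm_apply_apply, Main_nat]
  exact congrArg B' (DFunLike.congr_fun h3 a)

theorem main_A (e e' : Hb (Fg g) X) (h : e.Equiv e') :
    ∃ ψ : X ≃ₘ⟮𝓡 4, 𝓡 4⟯ X, ψ '' e.body = e'.body ∧ ψ '' e.bdry = e'.bdry := by
  have pc := Main_pc X
  obtain ⟨n, i, A, hi, hr, h1, h2⟩ := exists_amb X
  have hc : IsCompact {x | 0 ≤ Fg g x} := Main_N g ▸ NK_compact _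
  obtain ⟨Φ, a1, a2⟩ := h1 _ e hc
  obtain ⟨Φ', b1, b2⟩ := h1 _ e' hc
  obtain ⟨G, _, η, hη⟩ := exists_hol (hr ▸ isPathConnected_range hi.continuous : IsPathConnected A.M)
  have hm : ∀ x, i x ∈ A.M := fun x => hr ▸ mem_range_self x
  obtain ⟨x, γ, α, hα⟩ := h
  have := isPathConnected_iff_pathConnectedSpace.1 (model_free (Main_N g)).1
  let p : {x | 0 ≤ Fg g x} :=
    ⟨p0, (Main_N g).symm.subset (interior_subset (core_sub g (Or.inl (p0_mem g))))⟩
  choose φ hφ using exists_ind hη.toIsPF hi.continuous hm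
  have ind : ∀ (b : Hb (Fg g) X) (Ψ : E3 → _), (∀ y, 0 ≤ Fg g y → Ψ y = i (b.Φ y)) → ∀ z,
      Ind (fun c => η (Ψ ∘ c)) Subtype.val z
        ((φ (b.map z)).comp (FundamentalGroup.map b.map z)) := fun b Ψ hb z l => by
    rw [(hφ (b.map z)).comp b.map l]
    exact congrArg (fun c => (η c)⁻¹) (funext fun t => (hb _ (l.extend t).2).symm)
  have pf : ∀ {Ψ : E3 → _}, Emb A {x | 0 ≤ Fg g x} Ψ →
      IsPF {x | 0 ≤ Fg g x} fun c => η (Ψ ∘ c) := fun hΨ =>
    hη.toIsPF.comap hΨ.smooth.continuous.continuousOn fun _ hy => hΨ.mem hy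
  obtain ⟨u, u1, u2⟩ := exists_gens (Main_N g) (x := p) rfl
  obtain ⟨F⟩ := (model_free (Main_N g)).2 p
  let δ := PathConnectedSpace.somePath x p
  let B := FundamentalGroup.fundamentalGroupMulEquivOfPath δ
  have k1 := Ind.path (pf a1) continuous_subtype_val (fun z => z.2) (ind e Φ a2 x) (ind e Φ a2 p) δ
  have k2 := Ind.path (pf b1) continuous_subtype_val (fun z => z.2) (ind e' Φ' b2 x)
    (ind e' Φ' b2 p) δ
  have k3 := Ind.path hη.toIsPF hi.continuous hm (hφ _) (hφ _) γ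
  have t1 := u2 G _ _ (pf a1) (ind e Φ a2 p)
  have t2 := u2 G _ _ (pf b1) (ind e' Φ' b2 p)
  have ne := alg_A F u1 ((B.symm.trans α).trans B)
    ((φ (e'.map p)).comp (FundamentalGroup.map e'.map p))
  rw [funext t2] at ne
  generalize (η (Φ ∘ fun t => (δ.extend t).1)) = w₁ at k1
  generalize (η (Φ' ∘ fun t => (δ.extend t).1)) = w₂ at k2
  generalize (η fun t => i (γ.extend t)) = w₃ at k3
  have cj : Conj (fun j => ((φ (e'.map p)).comp (FundamentalGroup.map e'.map p))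
      (((B.symm.trans α).trans B) (u j))) (tup g fun c => η (Φ ∘ c)) := by
    refine ⟨w₂⁻¹ * w₃⁻¹ * w₁, fun j => ?_⟩
    rw [← t1 j]
    beta_reduce
    obtain ⟨a, ha⟩ := B.surjective (u j)
    have q1 := k1 a
    have q2 := k2 (α a)
    have q3 := k3 (FundamentalGroup.map e.map x a)
    rw [hα] at q3
    rw [← ha, MulEquiv.trans_apply, MulEquiv.trans_apply, B.symm_apply_apply, q1, q2,
      MonoidHom.comp_apply, MonoidHom.comp_apply, q3]
    group
  rw [Main_N] at a1 b1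
  obtain ⟨ξ, s1, s2⟩ := same_of_ne hη a1 b1 cj ne
  obtain ⟨ψ, hψ⟩ := h2 ξ
  have key : ∀ S ⊆ {x | 0 ≤ Fg g x}, ξ.d '' (Φ '' S) = Φ' '' S → ψ '' (e.Φ '' S) = e'.Φ '' S := by
    intro S hS q
    apply hi.injective.image_injective
    rw [image_image, image_congr fun y _ => hψ y, ← image_image ξ.d i, image_image i, image_image i,
      ← image_congr fun y hy => a2 y (hS hy), ← image_congr fun y hy => b2 y (hS hy), q]
  exact ⟨ψ, key _ Subset.rfl (Main_N g ▸ s1), key _ (fun y hy => le_of_eq (Eq.symm hy))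
    (Main_B g ▸ s2)⟩

theorem main_B2 (e e' : Hb (Fg g) X) {k r : ℕ} (hr : r + k ≤ g) (h : e.Fact k) (h' : e'.Fact r) :
    e.Equiv e' := by
  have pc := Main_pc X
  obtain ⟨x, f, h, h1, h2, h3⟩ := h
  obtain ⟨f', h', k1, k2, k3⟩ := h'.rebase x
  obtain ⟨F⟩ := (model_free (Main_N g)).2 x
  let γ := PathConnectedSpace.somePath (e.map x) (e'.map x)
  let B := FundamentalGroup.fundamentalGroupMulEquivOfPath γ
  obtain ⟨α, hα⟩ := alg_B2 F hr (h := B.toMonoidHom.comp h) h1 (B.surjective.comp h2) k1 k2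
  refine ⟨x, γ, α, fun a => ?_⟩
  rw [← k3, ← h3]
  exact (hα a).symm

/-- the image of an embedded domain under a diffeomorphism -/
def Hb.push {F : E3 → ℝ} (e : Hb F X) (ψ : X ≃ₘ⟮𝓡 4, 𝓡 4⟯ X) : Hb F X where
  O := e.O
  Φ := ψ ∘ e.Φ
  isOpen := e.isOpen
  sub := e.sub
  smooth := ψ.contMDiff.comp_contMDiffOn e.smooth
  inj := ψ.injective.comp_injOn e.inj
  imm := fun x hx => by
    rw [mfderiv_comp x (ψ.contMDiff.mdifferentiableAt (by simp))
      ((e.smooth.contMDiffAt (e.isOpen.mem_nhds hx)).mdifferentiableAt (by simp))]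
    exact (ψ.mfderivToContinuousLinearEquiv (by simp) (e.Φ x)).injective.comp (e.imm x hx)

theorem main_B1 (e : Hb (Fg g) X) {k r : ℕ} (hr : r + k ≤ g) (h : e.Fact k)
    (hs : ∀ x : X, ∃ s : Fin r → FundamentalGroup X x, Subgroup.closure (range s) = ⊤)
    (ψ : X ≃ₘ⟮𝓡 4, 𝓡 4⟯ X) : ∃ e' : Hb (Fg g) X, e'.bdry = ψ '' e.bdry ∧ e'.Fact r := by
  obtain ⟨x, f, h, h1, h2, h3⟩ := h
  obtain ⟨s, hs⟩ := hs (e.map x)
  obtain ⟨F⟩ := (model_free (Main_N g)).2 x
  obtain ⟨f', h', k1, k2, k3⟩ := alg_B1 F hr h1 h2 hs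
  let c : C(X, X) := ⟨ψ, ψ.continuous⟩
  refine ⟨e.push ψ, image_comp ψ e.Φ _, x, f', (FundamentalGroup.map c (e.map x)).comp h', k1,
    (Main_surj c ⟨ψ.symm, ψ.symm.continuous⟩ ψ.apply_symm_apply ψ.symm_apply_apply _).comp k2,
    MonoidHom.ext fun a => ?_⟩
  change FundamentalGroup.map c (e.map x) (h'.comp f' a) = _
  rw [k3, h3]
  exact (Main_comp e.map c x a).symm

end Pool.Agent.Work.MP_7ba843_gt.C
end
end

-- merged part: Pool.Agent.Work.MP_7ba843_gt.C.Rk
section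
/-! The ranks of two sectors of a trisection add up to at most the genus plus the first Betti
number. -/

set_option linter.unusedSectionVars false
set_option linter.unusedVariables false

open Set Filter Topology Function

noncomputable section
namespace Pool.Agent.Work.MP_7ba843_gt.C

open Pool.Agent.Work.MP_735653_gt Pool.Agent.Work.MP_7ba843_gt.N

theorem Rk_int {Γ : Type} [Group Γ] (ν : Γ →* Multiplicative ℝ)
    (h : ∀ g, Circle.exp (ν g).toAdd = 1) :
    ∃ lam : Γ →* Multiplicative ℤ, ∀ g, (ν g).toAdd = 2 * Real.pi * ((lam g).toAdd : ℤ) := by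
  choose n hn using fun g => Circle.exp_eq_one.1 (h g)
  refine ⟨MonoidHom.mk' (fun g => Multiplicative.ofAdd (n g)) fun a b => ?_, fun g => ?_⟩
  · have := congrArg Multiplicative.toAdd (map_mul ν a b)
    rw [toAdd_mul, hn, hn, hn, ← add_mul, ← Int.cast_add] at this
    have := Int.cast_injective (mul_right_cancel₀ Real.two_pi_pos.ne' this)
    rw [this]
    rfl
  · rw [hn, mul_comm]
    rfl

theorem Rk_ext (k : ℕ) {G : Re (EK (gr 2 k)) → Circle} (hG : Continuous G) :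
    ∃ G' : Re (WK (gr 2 k)) → Circle, Continuous G' ∧ ∀ y, G' (incl _ y) = G y := by
  obtain ⟨ν, hν, c1, c2, -⟩ := exists_LG 2 k
  let Y : LC 4 (FreeGroup (Fin k)) := ⟨_, ν, down_gr 2 k, hν⟩
  obtain ⟨F, l⟩ := lift_cell Y.E Y.W (incl_emb (gr 2 k)).continuous (MonoidHom.id _) id
    (fun _ => 1) (fun _ ha => mem_WK.2 (mem_EK.1 ha).1) (fun _ _ _ h => h) (fun _ => Face.refl _)
    fun a _ b _ => by
      rw [one_mul, inv_one, mul_one]
      rfl
  have hd : ∀ a ∈ Y.K, dim a + 3 ≤ 4 := fun a ha => by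
    have := dim_gr ha
    omega
  have u : (LCv Y.E).Univ := univ_LCv (SCp.E (X := Y) c1 hd) (Conn.E (X := Y) c2 hd)
  generalize LCv Y.E = CE at F l u
  generalize LCv Y.W = CW at F l
  change Cv (Re (EK (gr 2 k))) _ at CE
  change Cv (Re (WK (gr 2 k))) _ at CW
  obtain ⟨φ, τ, a1, a2, a3⟩ := hom_of_circle u hG
  have := u.1
  obtain ⟨e₀⟩ : Nonempty CE.E := inferInstance
  obtain ⟨lam, hl⟩ := Rk_int τ fun g => by
    have := a2 (g • e₀)
    rw [a3, Circle.exp_add, a2, CE.cov.map_smul] at this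
    exact mul_eq_right.1 this
  obtain ⟨ψ, b1, b2⟩ := exists_real CW lam
  obtain ⟨v, v1, v2⟩ := CvC_desc CE (incl_emb (gr 2 k))
    (φ := fun e => φ e - 2 * Real.pi * ψ (F e)) (a1.sub ((b1.comp l.cont).const_mul _))
    fun g e => by
      rw [l.eqv, a3, b2, hl, MonoidHom.id_apply]
      ring
  obtain ⟨w, w1, w2⟩ := exists_ext (isCompact_range (incl_emb (gr 2 k)).continuous).isClosed v1
  obtain ⟨f, f1, f2⟩ := CvC_desc CW IsEmbedding.id
    (φ := fun x => Circle.exp (2 * Real.pi * ψ x)) (by fun_prop) fun g x => by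
      rw [b2, mul_add, Circle.exp_add, mul_comm (2 * Real.pi), Circle.exp_int_mul_two_pi, one_mul]
  rw [range_id, continuousOn_univ] at f1
  refine ⟨fun z => f z * Circle.exp (w z), f1.mul (Circle.exp.continuous.comp w1), fun y => ?_⟩
  obtain ⟨e, rfl⟩ := CE.cov.surjective y
  have := f2 (F e)
  rw [l.proj, id] at this
  beta_reduce
  rw [this, w2 _ (mem_range_self _), v2, ← Circle.exp_add, add_sub_cancel, a2]

theorem Rk_deg {X : Type} [TopologicalSpace X] {G : X → Circle} (hG : Continuous G) (x : X) :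
    ∃ ν : Additive (FundamentalGroup X x) →+ ℤ, ∀ (γ : Path x x) (Γ : unitInterval → ℝ),
      Continuous Γ → (∀ s, Circle.exp (Γ s) = G (γ s)) →
        Γ 1 - Γ 0 = 2 * Real.pi * (ν (Additive.ofMul (Path.Homotopic.Quotient.mk γ)) : ℤ) := by
  have hp := Circle.isAddQuotientCoveringMap_exp
  let e : Circle.exp ⁻¹' {G x} := ⟨_, Circle.exp_arg _⟩
  let τ := (hp.fundamentalGroupToMulOpposite e).comp (FundamentalGroup.map (⟨G, hG⟩ : C(X, Circle)) x)
  let σ := (AddSubgroup.zmultiples (2 * Real.pi)).subtype.toMultiplicative.comp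
    (MulOpposite.opMulEquiv.symm.toMonoidHom.comp τ)
  have hσ : ∀ a, (σ a).toAdd = ((τ a).unop.toAdd : ℝ) := fun a => rfl
  obtain ⟨lam, hl⟩ := Rk_int σ fun a => by
    rw [hσ]
    obtain ⟨n, hn⟩ := (τ a).unop.toAdd.2
    exact Circle.exp_eq_one.2 ⟨n, by rw [← hn]; exact zsmul_eq_mul _ _⟩
  refine ⟨lam.toAdditiveLeft, fun γ Γ h1 h2 => ?_⟩
  have h0 : Circle.exp (Γ 0) = Circle.exp e.1 := by
    rw [h2, γ.source]
    exact (e.2 : _ = _).symm
  have h3 : ∀ s, Circle.exp (Γ s - Γ 0 + e.1) = G (γ s) := fun s => by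
    rw [Circle.exp_add, Circle.exp_sub, h0, h2, div_mul_cancel]
  let e' : Circle.exp ⁻¹' {G x} := ⟨Γ 1 - Γ 0 + e.1, (h3 1).trans (congrArg G γ.target)⟩
  let P : Path e.1 e'.1 := ⟨⟨fun s => Γ s - Γ 0 + e.1, by fun_prop⟩, by simp, rfl⟩
  have k1 : hp.isCoveringMap.monodromy (FundamentalGroup.map (⟨G, hG⟩ : C(X, Circle)) x
      (Path.Homotopic.Quotient.mk γ)) e = e' := by
    refine hp.isCoveringMap.monodromy_eq_of_map_eq (Path.Homotopic.Quotient.mk P) ?_
    exact congrArg Path.Homotopic.Quotient.mk (Path.ext (funext h3))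
  have k2 := hp.unop_fundamentalGroupToMulOpposite_smul (e := e)
    (γ := FundamentalGroup.map (⟨G, hG⟩ : C(X, Circle)) x (Path.Homotopic.Quotient.mk γ))
  rw [k1] at k2
  have k3 : (σ (Path.Homotopic.Quotient.mk γ)).toAdd + e.1 = Γ 1 - Γ 0 + e.1 := k2
  rw [← add_right_cancel k3, hl]
  rfl

/-- the homomorphism with given values on the generators -/
def Rk_hom {k : ℕ} (v : Fin k → ℤ) : FreeGroup (Fin k) →* Multiplicative ℤ :=
  FreeGroup.lift fun i => Multiplicative.ofAdd (v i)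

/-- the map dual to a homomorphism of free groups -/
def Rk_dual {g k : ℕ} (η : FreeGroup (Fin g) →* FreeGroup (Fin k)) : (Fin k → ℤ) →ₗ[ℤ] Fin g → ℤ :=
  (AddMonoidHom.mk' (fun v i => (Rk_hom v (η (FreeGroup.of i))).toAdd) fun v w => by
    have : Rk_hom (v + w) = Rk_hom v * Rk_hom w := FreeGroup.ext_hom _ _ fun i => by
      simp [Rk_hom]
    rw [this]
    rfl).toIntLinearMap

theorem Rk_alg {g k₀ k₁ : ℕ} {M : Type} [AddCommGroup M] [Module.Finite ℤ M]
    (η₀ : FreeGroup (Fin g) →* FreeGroup (Fin k₀)) {η₁ : FreeGroup (Fin g) →* FreeGroup (Fin k₁)}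
    (h₁ : Surjective η₁) (Q : M →+ Fin k₀ → ℤ)
    (hQ : ∀ (μ₀ : FreeGroup (Fin k₀) →* Multiplicative ℤ)
      (μ₁ : FreeGroup (Fin k₁) →* Multiplicative ℤ), μ₀.comp η₀ = μ₁.comp η₁ →
        ∃ m, ∀ i, Q m i = (μ₀ (FreeGroup.of i)).toAdd) :
    k₀ + k₁ ≤ g + Module.finrank ℤ M := by
  let Φ := (Rk_dual η₀).coprod (-Rk_dual η₁)
  have hk : ∀ p ∈ LinearMap.ker Φ, (Rk_hom p.1).comp η₀ = (Rk_hom p.2).comp η₁ := fun p hp =>
    FreeGroup.ext_hom _ _ fun i => Multiplicative.toAdd.injective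
      (add_neg_eq_zero.1 (congrFun (LinearMap.mem_ker.1 hp) i))
  have a1 := (LinearMap.ker Φ).finrank_quotient_add_finrank
  rw [Φ.quotKerEquivRange.finrank_eq, Module.finrank_prod, Module.finrank_fin_fun,
    Module.finrank_fin_fun] at a1
  have a2 := (LinearMap.range Φ).finrank_le
  rw [Module.finrank_fin_fun] at a2
  have a3 := LinearMap.finrank_range_le Q.toIntLinearMap
  let ι : LinearMap.ker Φ →ₗ[ℤ] LinearMap.range Q.toIntLinearMap :=
    ((LinearMap.fst ℤ _ _).comp (LinearMap.ker Φ).subtype).codRestrict _ fun p => by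
      obtain ⟨m, hm⟩ := hQ _ _ (hk p.1 p.2)
      exact ⟨m, funext fun i => (hm i).trans (congrArg Multiplicative.toAdd
        FreeGroup.lift_apply_of)⟩
  have a4 := LinearMap.finrank_le_finrank_of_injective (f := ι) (by
    rw [← LinearMap.ker_eq_bot, LinearMap.ker_eq_bot']
    intro p hp
    have h0 : p.1.1 = 0 := congrArg Subtype.val hp
    have h1 := hk p.1 p.2
    refine Subtype.ext (Prod.ext h0 (funext fun i => ?_))
    obtain ⟨a, ha⟩ := h₁ (FreeGroup.of i)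
    have h2 := DFunLike.congr_fun h1 a
    have h3 : Rk_hom p.1.1 = 1 := FreeGroup.ext_hom _ _ fun i => by simp [Rk_hom, h0]
    rw [MonoidHom.comp_apply, MonoidHom.comp_apply, ha, h3] at h2
    exact (congrArg Multiplicative.toAdd (h2.trans FreeGroup.lift_apply_of)).symm)
  omega

theorem Rk_glue {X R : Type} [TopologicalSpace X] [TopologicalSpace R] {A B : Set X}
    (hA : IsClosed A) (hB : IsClosed B) {f g : X → R} (hf : ContinuousOn f A)
    (hg : ContinuousOn g B) (h : ∀ x ∈ A, x ∈ B → f x = g x) :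
    ∃ G : X → R, ContinuousOn G (A ∪ B) ∧ ∀ x ∈ A, G x = f x := by
  classical
  refine ⟨A.piecewise f g, ContinuousOn.union_of_isClosed
    (hf.congr fun x hx => piecewise_eq_of_mem _ _ _ hx) (hg.congr fun x hx => ?_) hA hB,
    fun x hx => piecewise_eq_of_mem _ _ _ hx⟩
  by_cases k : x ∈ A
  · rw [piecewise_eq_of_mem _ _ _ k, h x k hx]
  · exact piecewise_eq_of_notMem _ _ _ k

theorem Rk_circ {X Z Γ : Type} [TopologicalSpace X] [TopologicalSpace Z] [Group Γ]
    [CompactSpace Z] [T2Space Z] (C : Cv Z Γ) {h : Z → X} (hh : IsEmbedding h)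
    (μ : Γ →* Multiplicative ℤ) : ∃ (φ : C.E → ℝ) (f : X → Circle), Continuous φ ∧
      (∀ g e, φ (g • e) = ((μ g).toAdd : ℤ) + φ e) ∧ ContinuousOn f (range h) ∧
      ∀ e, f (h (C.p e)) = Circle.exp (2 * Real.pi * φ e) := by
  obtain ⟨φ, c1, c2⟩ := exists_real C μ
  obtain ⟨f, f1, f2⟩ := CvC_desc C hh (φ := fun x => Circle.exp (2 * Real.pi * φ x))
    (by fun_prop) fun g x => by
      rw [c2, mul_add, Circle.exp_add, mul_comm (2 * Real.pi), Circle.exp_int_mul_two_pi, one_mul]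
  exact ⟨φ, f, c1, c2, f1, f2⟩

theorem Rk_main {X : Type} [TopologicalSpace X] [T2Space X] [CompactSpace X] (hX : Loc 4 X) {g : ℕ}
    {T : Fin 3 → Set X} {j : Re (EK (gr3 g)) → X} (hj : IsEmbedding j)
    (hT : Trisection g (range j) T) :
    ∃ (k₀ k₁ : ℕ) (x : X), Nonempty (T 0 ≃ₜ Th 2 k₀) ∧ Nonempty (T 1 ≃ₜ Th 2 k₁) ∧
      (Module.Finite ℤ (Additive (FundamentalGroup X x) →+ ℤ) →
        k₀ + k₁ ≤ g + Module.finrank ℤ (Additive (FundamentalGroup X x) →+ ℤ)) := by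
  obtain ⟨P, _, CS, CW, p, L₀, F₀, s1, s2, s3, s4, -⟩ := surf_lifts g
  have := Sur_pc s1
  obtain ⟨k, h, b, β, t1, t2, t3, t4, t5, t6⟩ := tri_data hX hj hT
  choose CZ z1 z2 using fun i => sector_cv (k i)
  choose E hE using fun i => Sur_homeo (t1 i) (t3 i)
  have cl : ∀ i, IsClosed (T i) := fun i => t3 i ▸ (isCompact_range (t1 i).continuous).isClosed
  obtain ⟨z, ψ, F, a1, a2, a3, a4⟩ := Sur_su s1 s2 (CZ := CZ) s3 s4 hj t1 t2
    (by simpa only [t3] using hT.2.2.2.2) (by simpa only [t3] using t4) t6 (fun i => by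
      rw [← t5, range_comp, preimage_image_eq _ (t1 i).injective]
      exact z2 i) 1
  have r0 : range (b 0) = T 0 ∩ T 1 := t4 0
  obtain ⟨m₀, hm₀, em₀⟩ := lift_emb (t1 0) (t2 0) (by
    rw [r0, t3]
    exact inter_subset_left)
  obtain ⟨m₁, hm₁, em₁⟩ := lift_emb (t1 1) (t2 0) (by
    rw [r0, t3]
    exact inter_subset_right)
  obtain ⟨η₀, M₀, l₀⟩ := Lf.exists s2 (CZ 0) hm₀.continuous
  obtain ⟨α, A, lA⟩ := Lf.exists s1 CS (β 0).continuous
  have := s1.1
  have e1 : m₁ ∘ incl _ ∘ β 0 = z := funext fun y =>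
    (t1 1).injective ((em₁ _).trans ((t6 0 y).trans (a2 y).symm))
  obtain ⟨η₁, M₁, l₁, -, k3⟩ := Lf.factor s2 hm₁.continuous (lA.comp s3) (e1 ▸ a3)
  have su : Surjective η₁ := fun c => by
    obtain ⟨d, rfl⟩ := a4 c
    exact ⟨_, k3 d⟩
  have := (z1 0).1
  obtain ⟨t⟩ : Nonempty (CZ 0).E := inferInstance
  let δ : ∀ i : Fin (k 0), Path t (FreeGroup.of i • t) := fun i => PathConnectedSpace.somePath _ _
  let c : (CZ 0).E → X := fun e => h 0 ((CZ 0).p e)
  have hc : Continuous c := (t1 0).continuous.comp (CZ 0).cov.continuous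
  let γ : Fin (k 0) → Path (c t) (c t) := fun i =>
    ((δ i).map hc).cast rfl (congrArg (h 0) ((CZ 0).cov.map_smul _).symm)
  refine ⟨k 0, k 1, c t, ⟨(E 0).symm.trans (Homeomorph.setCongr (Re_WK_gr 2 _))⟩,
    ⟨(E 1).symm.trans (Homeomorph.setCongr (Re_WK_gr 2 _))⟩, fun fin => Rk_alg η₀ su
      (AddMonoidHom.mk' (fun ν i => ν (Additive.ofMul (Path.Homotopic.Quotient.mk (γ i))))
        fun _ _ => rfl) fun μ₀ μ₁ hμ => ?_⟩
  obtain ⟨φ₀, f₀, c1, c2, c3, c4⟩ := Rk_circ (CZ 0) (t1 0) μ₀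
  obtain ⟨φ₁, f₁, d1, d2, d3, d4⟩ := Rk_circ (CZ 1) (t1 1) μ₁
  rw [t3] at c3 d3
  obtain ⟨u, u1, u2⟩ := CvC_desc CW (t2 0)
    (φ := fun x => 2 * Real.pi * φ₀ (M₀ x) - 2 * Real.pi * φ₁ (M₁ x))
    (((c1.comp l₀.cont).const_mul _).sub ((d1.comp l₁.cont).const_mul _)) fun a x => by
      have : μ₀ (η₀ a) = μ₁ (η₁ a) := DFunLike.congr_fun hμ a
      rw [l₀.eqv, l₁.eqv, c2, d2, this]
      ring
  obtain ⟨v, v1, v2⟩ := exists_ext (isCompact_range (t2 0).continuous).isClosed u1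
  obtain ⟨G₁, g1, g2⟩ := Rk_glue (cl 0) (cl 1) c3
    (g := fun x => f₁ x * Circle.exp (v x))
    (d3.mul (Circle.exp.continuous.comp v1).continuousOn) fun x h0 h1 => by
      obtain ⟨w, rfl⟩ := r0.symm.subset ⟨h0, h1⟩
      obtain ⟨y, rfl⟩ := CW.cov.surjective w
      have q0 := c4 (M₀ y)
      have q1 := d4 (M₁ y)
      rw [l₀.proj, em₀] at q0
      rw [l₁.proj, em₁] at q1
      rw [v2 _ (mem_range_self _), u2, q0, q1, ← Circle.exp_add, add_sub_cancel]
  have r2 : range (h 2 ∘ incl _) = T 2 ∩ T 0 ∪ T 1 ∩ T 2 := by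
    rw [t5, t4, t4]
    rfl
  obtain ⟨G', g3, g4⟩ := Rk_ext (k 2) (G := G₁ ∘ h 2 ∘ incl _)
    (g1.comp_continuous ((t1 2).continuous.comp (incl_emb _).continuous) fun y =>
      (r2.subset (mem_range_self y)).elim (fun q => Or.inl q.2) fun q => Or.inr q.1)
  obtain ⟨f₂, e2, e3⟩ := CvC_desc (CZ 2) (t1 2) (φ := fun e => G' ((CZ 2).p e))
    (g3.comp (CZ 2).cov.continuous) fun a e => by rw [(CZ 2).cov.map_smul]
  rw [t3] at e2
  obtain ⟨G, g5, g6⟩ := Rk_glue ((cl 0).union (cl 1)) (cl 2) g1 e2 fun x h0 h2 => by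
    obtain ⟨y, rfl⟩ := r2.symm.subset (h0.elim (fun q => Or.inl ⟨h2, q⟩) fun q => Or.inr ⟨q, h2⟩)
    obtain ⟨e, he⟩ := (CZ 2).cov.surjective (incl _ y)
    have := e3 e
    rw [he, g4] at this
    exact this.symm
  have cov : T 0 ∪ T 1 ∪ T 2 = univ := by
    rw [← hT.1]
    ext x
    simp [Fin.exists_fin_succ, or_assoc]
  rw [cov, continuousOn_univ] at g5
  obtain ⟨ν, hν⟩ := Rk_deg g5 (c t)
  refine ⟨ν, fun i => ?_⟩
  have := hν (γ i) (fun s => 2 * Real.pi * φ₀ (δ i s)) ((c1.comp (δ i).continuous).const_mul _)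
    fun s => by
      have q : h 0 ((CZ 0).p (δ i s)) ∈ T 0 := t3 0 ▸ mem_range_self _
      exact (c4 _).symm.trans ((g2 _ q).symm.trans (g6 _ (Or.inl q)).symm)
  rw [(δ i).source, (δ i).target, c2, ← mul_sub, add_sub_cancel_right] at this
  exact (Int.cast_injective (mul_left_cancel₀ Real.two_pi_pos.ne' this)).symm

theorem Rk_uniq {k l : ℕ} (e : Th 2 k ≃ₜ Th 2 l) : k = l := by
  obtain ⟨C, h, -⟩ := sector_cv k
  obtain ⟨C', h', -⟩ := sector_cv l
  let e' := (Homeomorph.setCongr (Re_WK_gr 2 k)).trans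
    (e.trans (Homeomorph.setCongr (Re_WK_gr 2 l)).symm)
  obtain ⟨θ, F, a⟩ := Lf.exists h C' e'.continuous
  simpa using Fintype.card_congr
    (Equiv.ofFreeGroupEquiv (MulEquiv.ofBijective θ (Lf.bij h h' e' a)))

theorem Rk_fin {G : Type} [Group G] {k : ℕ} {h : FreeGroup (Fin k) →* G} (hh : Surjective h) :
    Module.Finite ℤ (Additive G →+ ℤ) := by
  refine Module.Finite.of_injective (AddMonoidHom.mk' (M := Additive G →+ ℤ) (G := Fin k → ℤ)
    (fun ν i => ν (Additive.ofMul (h (FreeGroup.of i)))) fun _ _ => rfl).toIntLinearMap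
    fun ν ν' q => ?_
  have : ν.toMultiplicativeRight.comp h = ν'.toMultiplicativeRight.comp h :=
    FreeGroup.ext_hom _ _ fun i => congrArg Multiplicative.ofAdd (congrFun q i)
  refine AddMonoidHom.ext fun a => ?_
  obtain ⟨c, hc⟩ := hh a.toMul
  have := DFunLike.congr_fun this c
  rw [MonoidHom.comp_apply, MonoidHom.comp_apply, hc] at this
  exact congrArg Multiplicative.toAdd this

theorem Rk_rank {G G' : Type} [Group G] [Group G'] (e : G ≃* G') :
    Module.finrank ℤ (Additive G →+ ℤ) = Module.finrank ℤ (Additive G' →+ ℤ) :=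
  (AddEquiv.addMonoidHomCongrLeft (N := ℤ) e.toAdditive).toIntLinearEquiv.finrank_eq

theorem Rk_bdry {X : Type} [TopologicalSpace X] [ChartedSpace (EuclideanSpace ℝ (Fin 4)) X]
    [T2Space X] {g : ℕ} (e : Hb (Fg g) X) :
    ∃ j : Re (EK (gr3 g)) → X, IsEmbedding j ∧ e.bdry = range j := by
  have hF : ∀ x, Fg g x = 0 ↔ FK (gr3 g) x = 1 / 2 := fun x => sub_eq_zero
  obtain ⟨u⟩ := super_homeo (down_gr 1 g)
  have q : {x | 0 ≤ Fg g x} = {x | 1 / 2 ≤ FK (gr3 g) x} := by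
    simp only [Fg, sub_nonneg]
  have : CompactSpace {x | 0 ≤ Fg g x} := ((Homeomorph.setCongr q).trans u).symm.compactSpace
  have he : IsEmbedding e.map := (e.map.continuous.isClosedEmbedding fun x y h =>
    Subtype.ext (e.inj (e.sub x.2) (e.sub y.2) h)).isEmbedding
  obtain ⟨e₃, -⟩ := level_near (down_gr 1 g)
  let w : Re (EK (gr3 g)) → {x | 0 ≤ Fg g x} := fun y => ⟨(e₃ y).1, ((hF _).2 (e₃ y).2).ge⟩
  have hw : IsEmbedding w := (IsEmbedding.subtypeVal.comp e₃.isEmbedding).codRestrict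
    {x | 0 ≤ Fg g x} fun y => (w y).2
  refine ⟨e.map ∘ w, he.comp hw, ?_⟩
  ext z
  constructor
  · rintro ⟨x, hx, rfl⟩
    obtain ⟨y, hy⟩ := e₃.surjective ⟨x, (hF x).1 hx⟩
    exact ⟨y, congrArg e.Φ (congrArg Subtype.val hy)⟩
  · rintro ⟨y, rfl⟩
    exact ⟨_, (hF _).2 (e₃ y).2, rfl⟩

/-- The ranks of two sectors add up to at most the genus plus the first Betti number. -/
theorem tri_rank {X : Type} [TopologicalSpace X] [ChartedSpace (EuclideanSpace ℝ (Fin 4)) X]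
    [T2Space X] [CompactSpace X] [ConnectedSpace X] {g k₀ k₁ : ℕ} (e : Hb (Fg g) X)
    {T : Fin 3 → Set X} (hT : Trisection g e.bdry T) (h01 : T 0 ∩ T 1 = e.body)
    (h0 : Nonempty (T 0 ≃ₜ Th 2 k₀)) (h1 : Nonempty (T 1 ≃ₜ Th 2 k₁)) (x : X) :
    k₀ + k₁ ≤ g + Module.finrank ℤ (Additive (FundamentalGroup X x) →+ ℤ) := by
  have := ChartedSpace.locallyPathConnectedSpace (EuclideanSpace ℝ (Fin 4)) X
  have : PathConnectedSpace X := pathConnectedSpace_iff_connectedSpace.2 inferInstance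
  obtain ⟨y, -, h, -, hh, -⟩ := tri_fact e hT h01 h0
  obtain ⟨j, hj, q⟩ := Rk_bdry e
  rw [q] at hT
  obtain ⟨l₀, l₁, x', ⟨a₀⟩, ⟨a₁⟩, a⟩ := Rk_main loc_chart hj hT
  obtain ⟨b₀⟩ := h0
  obtain ⟨b₁⟩ := h1
  let B := FundamentalGroup.fundamentalGroupMulEquivOfPath
    (PathConnectedSpace.somePath (e.map y) x')
  rw [Rk_uniq (b₀.symm.trans a₀), Rk_uniq (b₁.symm.trans a₁),
    Rk_rank (FundamentalGroup.fundamentalGroupMulEquivOfPath (PathConnectedSpace.somePath x x'))]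
  exact a (Rk_fin (h := B.toMonoidHom.comp h) (B.surjective.comp hh))

end Pool.Agent.Work.MP_7ba843_gt.C
end
end

-- merged part: Pool.Agent.Work.MP_7ba843_gt.C.Fin
section
/-! The criterion in its final form. -/

open Set
open scoped Manifold ContDiff

namespace Pool.Agent.Work.MP_7ba843_gt.C

open Pool.Agent.Work.MP_7ba843_gt.N Pool.Agent.Work.MP_7ba843_gt.S

theorem Fin_image {X : Type} [TopologicalSpace X] {g : ℕ} {S : Set X} {T : Fin 3 → Set X}
    (h : Trisection g S T) (ψ : X ≃ₜ X) : Trisection g (ψ '' S) fun i => ψ '' T i := by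
  obtain ⟨h1, h2, h3, h4, h5⟩ := h
  refine ⟨?_, fun i j hij => ?_, fun i => ?_, fun i j hij => ?_, ?_⟩
  · rw [← image_iUnion, h1, image_univ, ψ.surjective.range_eq]
  · rw [← ψ.image_interior, ← ψ.image_interior]
    exact (disjoint_image_iff ψ.injective).2 (h2 i j hij)
  · obtain ⟨k, ⟨e⟩⟩ := h3 i
    exact ⟨k, ⟨(ψ.image (T i)).symm.trans e⟩⟩
  · obtain ⟨e⟩ := h4 i j hij
    exact ⟨(Homeomorph.setCongr (image_inter ψ.injective).symm).trans
      ((ψ.image (T i ∩ T j)).symm.trans e)⟩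
  · rw [← h5, image_iInter ψ.bijective]

theorem Fin_swap {X : Type} [TopologicalSpace X] {g : ℕ} {S : Set X} {T : Fin 3 → Set X}
    (h : Trisection g S T) (σ : Equiv.Perm (Fin 3)) : Trisection g S fun i => T (σ i) := by
  obtain ⟨h1, h2, h3, h4, h5⟩ := h
  exact ⟨(σ.surjective.iUnion_comp T).trans h1, fun i j hij => h2 _ _ (σ.injective.ne hij),
    fun i => h3 _, fun i j hij => h4 _ _ (σ.injective.ne hij), (σ.surjective.iInter_comp T).trans h5⟩

theorem Fin_gens {G H : Type} [Group G] [Group H] {n : ℕ} (h : Gens G n) {f : G →* H}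
    (hf : Function.Surjective f) : Gens H n :=
  let ⟨s, hs⟩ := h
  ⟨f ∘ s, AlgB_gen hs hf⟩

section

variable {F : (Fin 3 → ℝ) → ℝ} {X : Type} [TopologicalSpace X]
  [ChartedSpace (EuclideanSpace ℝ (Fin 4)) X]

theorem Fin_emb (e : Hb F X) : SmEmb (EuclideanSpace ℝ (Fin 4)) e.map :=
  ⟨e.O, e.Φ, e.isOpen, e.sub, e.smooth, e.inj, e.imm, fun _ => rfl⟩

theorem Fin_hb {f : C({x | 0 ≤ F x}, X)} (h : SmEmb (EuclideanSpace ℝ (Fin 4)) f) :
    ∃ e : Hb F X, e.map = f :=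
  let ⟨O, Φ, h1, h2, h3, h4, h5, h6⟩ := h
  ⟨⟨O, Φ, h1, h2, h3, h4, h5⟩, ContinuousMap.ext h6⟩

theorem Fin_body (e : Hb F X) : range e.map = e.body :=
  Set.ext fun _ => ⟨fun ⟨x, h⟩ => ⟨x.1, x.2, h⟩, fun ⟨x, hx, h⟩ => ⟨⟨x, hx⟩, h⟩⟩

theorem Fin_bdry (e : Hb F X) : e.map '' {x | F x = 0} = e.bdry :=
  Set.ext fun _ => ⟨fun ⟨x, hx, h⟩ => ⟨x.1, hx, h⟩,
    fun ⟨x, hx, h⟩ => ⟨⟨x, le_of_eq (Eq.symm hx)⟩, hx, h⟩⟩

end

theorem criterion (g : ℕ) : ∃ F : (Fin 3 → ℝ) → ℝ, ContDiff ℝ ∞ F ∧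
    (∀ x, F x = 0 → fderiv ℝ F x ≠ 0) ∧ Nonempty ({x | 0 ≤ F x} ≃ₜ Th 1 g) ∧
    Crit (EuclideanSpace ℝ (Fin 4)) F g := by
  refine ⟨Fg g, (model g).1, (model g).2.1, (model g).2.2, fun X _ _ _ _ _ _ f₀ T h₀ hT h01 => ?_⟩
  obtain ⟨e₀, rfl⟩ := Fin_hb h₀
  rw [Fin_bdry] at hT
  rw [Fin_body] at h01 ⊢
  have A : ∀ e : Hb (Fg g) X, e₀.Equiv e → ∃ ψ : X ≃ₘ⟮𝓡 4, 𝓡 4⟯ X,
      ψ '' e₀.body = e.body ∧ Trisection g e.bdry fun i => ψ '' T i := fun e h => by
    obtain ⟨ψ, h1, h2⟩ := main_A e₀ e h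
    exact ⟨ψ, h1, h2 ▸ Fin_image hT ψ.toHomeomorph⟩
  refine ⟨fun f hf h => ?_, fun x r b hr hb hc S => ?_⟩
  · obtain ⟨e, rfl⟩ := Fin_hb hf
    rw [Fin_body, Fin_bdry]
    exact A e h
  have pc := Main_pc X
  have mv : ∀ {y z : X} {n : ℕ}, Gens (FundamentalGroup X y) n → Gens (FundamentalGroup X z) n :=
    fun {y z n} h => Fin_gens h (f := (FundamentalGroup.fundamentalGroupMulEquivOfPath
      (PathConnectedSpace.somePath y z)).toMonoidHom) (MulEquiv.surjective _)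
  obtain ⟨k, hk, hf⟩ : ∃ k, r + k ≤ g ∧ e₀.Fact k := by
    obtain ⟨k₀, h0⟩ := hT.2.2.1 0
    obtain ⟨k₁, h1⟩ := hT.2.2.1 1
    have f0 := tri_fact e₀ hT h01 h0
    have f1 : e₀.Fact k₁ :=
      tri_fact e₀ (Fin_swap hT (Equiv.swap 0 1)) ((inter_comm _ _).trans h01) h1
    have rk := tri_rank e₀ hT h01 h0 h1 x
    rw [← hb] at rk
    rcases hc with ⟨k, hk, h⟩ | h | ⟨h, hl⟩
    · exact ⟨k, h, tri_fact e₀ hT h01 hk⟩
    · by_cases q : r + k₀ ≤ g
      · exact ⟨k₀, q, f0⟩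
      · exact ⟨k₁, by omega, f1⟩
    · obtain ⟨y, p, q, -, hq, -⟩ := f1
      have := hl k₁ (mv (Fin_gens ⟨_, FreeGroup.closure_range_of _⟩ hq))
      exact ⟨k₀, by omega, f0⟩
  constructor
  · rintro ⟨ψ, h⟩
    have e : S = ψ '' e₀.bdry := h.2.2.2.2.symm.trans (Fin_image hT ψ.toHomeomorph).2.2.2.2
    obtain ⟨e', h1, h2⟩ := main_B1 e₀ hk hf (fun _ => mv hr) ψ
    exact ⟨e'.map, Fin_emb e', (Fin_bdry e').trans (h1.trans e.symm), h2⟩
  · rintro ⟨f, h1, rfl, he⟩
    obtain ⟨e, rfl⟩ := Fin_hb h1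
    obtain ⟨ψ, -, h⟩ := A e (main_B2 e₀ e hk hf he)
    exact ⟨ψ, (Fin_bdry e).symm ▸ h⟩

end Pool.Agent.Work.MP_7ba843_gt.C
end
end

-- merged part: Pool.Agent.Work.MP_7ba843_gt.X.Nil
section
/-! Groups in which all generating tuples of a given length are Nielsen equivalent. -/

open Set Function
open scoped commutatorElement

namespace Pool.Agent.Work.MP_7ba843_gt.X

open Pool.Agent.Work.MP_7ba843_gt.C

variable {ι G G' : Type} [Group G] [Group G'] [DecidableEq ι]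

theorem NE_trans {u v w : ι → G} (h : NE u v) (h' : NE v w) : NE u w :=
  Relation.ReflTransGen.trans h h'

theorem NE_lift (f : G →* G') {v : ι → G} {w : ι → G'} (h : NE (f ∘ v) w) :
    ∃ v', NE v v' ∧ f ∘ v' = w := by
  induction h with
  | refl => exact ⟨v, .refl, rfl⟩
  | tail _ m ih =>
    obtain ⟨u, h1, rfl⟩ := ih
    rcases m with ⟨i, rfl⟩ | ⟨i, j, k, rfl⟩
    · exact ⟨_, h1.tail (Or.inl ⟨i, rfl⟩), by rw [comp_update, map_inv]; rfl⟩
    · exact ⟨_, h1.tail (Or.inr ⟨i, j, k, rfl⟩), by rw [comp_update, map_mul]; rfl⟩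

theorem NE_upd (v : ι → G) (i : ι) {x : G}
    (h : (v i)⁻¹ * x ∈ Subgroup.closure (v '' {j | j ≠ i})) : NE v (update v i x) := by
  simpa only [mul_inv_cancel_left] using NE.mul_mem v i h

omit [DecidableEq ι] in
theorem zp_le (v : ι → G) {i j : ι} (h : j ≠ i) {a : G} (e : v j = a) :
    Subgroup.zpowers a ≤ Subgroup.closure (v '' {l | l ≠ i}) :=
  Subgroup.zpowers_le_of_mem (Subgroup.subset_closure ⟨j, h, e⟩)

theorem NE_fill [Finite ι] (j : ι) {v v' : ι → G} (h1 : v j = v' j)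
    (h2 : ∀ i, (v i)⁻¹ * v' i ∈ Subgroup.zpowers (v' j)) : NE v v' := by
  have key : ∀ D : Finset ι, j ∉ D → NE v (D.piecewise v' v) := by
    intro D
    induction D using Finset.induction_on with
    | empty => exact fun _ => .refl
    | insert i D hi ih =>
      intro hj
      rw [Finset.mem_insert, not_or] at hj
      rw [Finset.piecewise_insert]
      refine NE_trans (ih hj.2) (NE_upd _ _ ?_)
      rw [Finset.piecewise_eq_of_notMem _ _ _ hi]
      refine zp_le _ hj.1 ?_ (h2 i)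
      rw [Finset.piecewise_eq_of_notMem _ _ _ hj.2, h1]
  have := Fintype.ofFinite ι
  have h3 := key (Finset.univ.erase j) (Finset.notMem_erase _ _)
  have e : (Finset.univ.erase j).piecewise v' v = v' := funext fun i => by
    by_cases q : i = j
    · rw [q, Finset.piecewise_eq_of_notMem _ _ _ (Finset.notMem_erase _ _), h1]
    · exact Finset.piecewise_eq_of_mem _ _ _ (Finset.mem_erase.2 ⟨q, Finset.mem_univ _⟩)
  rwa [e] at h3

theorem NE_euclid (v : ι → G) {i j : ι} (h : i ≠ j) (a : G) (n m : ℤ) :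
    ∃ d : ℤ, NE (update (update v i (a ^ m)) j (a ^ n)) (update (update v i (a ^ d)) j 1) := by
  induction n, m using EuclideanDomain.GCD.induction with
  | H0 x => exact ⟨x, by rw [zpow_zero]; exact .refl⟩
  | H1 n m _ ih =>
    obtain ⟨d, hd⟩ := ih
    refine ⟨d, NE_trans (NE_trans ?_ (AlgM_swap (update (update v i (a ^ (m % n))) j (a ^ n)) h))
      ?_⟩
    · have := NE_upd (update (update v i (a ^ m)) j (a ^ n)) i (x := a ^ (m % n)) (by
        refine zp_le _ h.symm (update_self ..) ⟨-(m / n), ?_⟩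
        rw [update_of_ne h, update_self, ← zpow_neg, ← zpow_add]
        beta_reduce
        rw [← zpow_mul, Int.emod_def]
        congr 1
        ring)
      rwa [← update_comm h, update_idem] at this
    · have e : update (update v i (a ^ (m % n))) j (a ^ n) ∘ Equiv.swap j i =
          update (update v i (a ^ n)) j (a ^ (m % n)) := funext fun l => by
        by_cases q : l = j
        · simp [q, h]
        · by_cases q' : l = i
          · simp [q', h]
          · simp [Equiv.swap_apply_of_ne_of_ne q q', q, q']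
      rwa [e]

theorem NE_comm [Finite ι] (j : ι) (s : Finset ι) (hj : j ∉ s) : ∀ (A : Type) [CommGroup A]
    (v w : ι → A), Subgroup.closure (range v) = ⊤ → Subgroup.closure (w '' s) = ⊤ →
      (∀ i ∉ s, w i = 1) → NE v w := by
  induction s using Finset.induction_on with
  | empty =>
    intro A _ v w _ h _
    rw [Finset.coe_empty, image_empty, Subgroup.closure_empty] at h
    have : v = w := funext fun i => by
      rw [Subgroup.mem_bot.1 (h.ge (Subgroup.mem_top (v i))),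
        Subgroup.mem_bot.1 (h.ge (Subgroup.mem_top (w i)))]
    exact this ▸ .refl
  | insert a s ha ih =>
    intro A _ v w hv hw h1
    rw [Finset.mem_insert, not_or] at hj
    let π := QuotientGroup.mk' (Subgroup.zpowers (w a))
    have hπ : Surjective π := QuotientGroup.mk'_surjective _
    have ker : ∀ x, π x = 1 ↔ x ∈ Subgroup.zpowers (w a) := fun x => QuotientGroup.eq_one_iff x
    have ka : π (w a) = 1 := (ker _).2 (Subgroup.mem_zpowers _)
    have h2 : Subgroup.closure ((π ∘ w) '' s) = ⊤ := by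
      rw [eq_top_iff, ← Subgroup.map_top_of_surjective π hπ, ← hw, MonoidHom.map_closure,
        Subgroup.closure_le]
      rintro _ ⟨_, ⟨i, hi, rfl⟩, rfl⟩
      rcases Finset.mem_insert.1 hi with rfl | hi
      · rw [ka]
        exact one_mem _
      · exact Subgroup.subset_closure ⟨i, hi, rfl⟩
    obtain ⟨u, h3, h4⟩ := NE_lift π (ih hj.2 _ (π ∘ v) (π ∘ w) (AlgB_gen hv hπ) h2 fun i hi => by
      by_cases q : i = a
      · rw [q]
        exact ka
      · exact (congrArg π (h1 i fun h => (Finset.mem_insert.1 h).elim q hi)).trans (map_one π))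
    have wj : w j = 1 := h1 j fun h => (Finset.mem_insert.1 h).elim hj.1 hj.2
    obtain ⟨m, hm⟩ := (ker (u a)).1 ((congrFun h4 a).trans ka)
    obtain ⟨n, hn⟩ := (ker (u j)).1 ((congrFun h4 j).trans ((congrArg π wj).trans (map_one π)))
    obtain ⟨d, hd⟩ := NE_euclid u (Ne.symm hj.1) (w a) n m
    beta_reduce at hm hn
    rw [hm, hn, update_eq_self, update_eq_self] at hd
    have h5 := NE_trans h3 hd
    have h6 := NE_upd (update (update u a (w a ^ d)) j 1) j (x := w a) (by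
      refine (Subgroup.eq_top_iff' _).1 ?_ _
      rw [eq_top_iff, ← hv, h5.closure, Subgroup.closure_le]
      rintro _ ⟨i, rfl⟩
      by_cases q : i = j
      · rw [q, update_self]
        exact one_mem _
      · exact Subgroup.subset_closure ⟨i, q, rfl⟩)
    rw [update_idem] at h6
    have h7 : NE (update (update u a (w a ^ d)) j (w a)) (update w j (w a)) := by
      refine NE_fill j (by rw [update_self, update_self]) fun i => ?_
      rw [update_self, ← ker, map_mul, map_inv, inv_mul_eq_one]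
      by_cases q : i = j
      · rw [q, update_self, update_self]
      · rw [update_of_ne q, update_of_ne q]
        by_cases q' : i = a
        · rw [q', update_self, map_zpow, ka, one_zpow]
        · rw [update_of_ne q']
          exact congrFun h4 i
    have h8 := NE_upd w j (x := w a) (by
      rw [wj, inv_one, one_mul]
      exact Subgroup.subset_closure ⟨a, Ne.symm hj.1, rfl⟩)
    exact NE_trans (NE_trans (NE_trans h5 h6) h7) h8.symm

theorem coatomic {κ : Type} [Finite κ] {w : κ → G} (hw : Subgroup.closure (range w) = ⊤) :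
    IsCoatomic (Subgroup G) := by
  refine IsCoatomic.of_isChain_bounded fun c hc hn ht => ⟨sSup c, fun e => ht ?_,
    fun H hH => le_sSup hH⟩
  have h1 : ∀ i, ∃ H ∈ c, w i ∈ H := fun i =>
    (Subgroup.mem_sSup_of_directedOn hn hc.directedOn).1 (e.ge (Subgroup.mem_top _))
  choose H h2 h3 using h1
  have := hn.to_subtype
  obtain ⟨M, hM⟩ := hc.directedOn.directed_val.finite_le fun i => (⟨H i, h2 i⟩ : c)
  have h4 : M.1 = ⊤ := top_unique (hw.ge.trans ((Subgroup.closure_le _).2 (by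
    rintro _ ⟨i, rfl⟩
    exact hM i (h3 i))))
  exact h4 ▸ M.2

theorem gen_ab {κ : Type} [Finite κ] {w : κ → G} (hw : Subgroup.closure (range w) = ⊤)
    (hG : ∀ M : Subgroup G, IsCoatom M → M.Normal) {S : Set G}
    (h : Subgroup.closure (Abelianization.of '' S) = ⊤) : Subgroup.closure S = ⊤ := by
  have := coatomic hw
  refine (eq_top_or_exists_le_coatom (Subgroup.closure S)).resolve_right ?_
  rintro ⟨M, hM, h1⟩
  have := hG M hM
  have h2 : commutator G ≤ M := by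
    rw [commutator_def, Subgroup.commutator_le]
    intro a _ b _
    by_cases q : a ∈ M
    · rw [commutatorElement_def, mul_assoc, mul_assoc, ← mul_assoc b]
      exact mul_mem q (this.conj_mem _ (inv_mem q) b)
    · have h3 := hM.2 (M ⊔ Subgroup.zpowers a) (left_lt_sup.2 fun k => q (k (Subgroup.mem_zpowers a)))
      have h4 : b ∈ ((M ⊔ Subgroup.zpowers a : Subgroup G) : Set G) := h3.ge (Subgroup.mem_top b)
      rw [Subgroup.normal_mul] at h4
      obtain ⟨x, hx, _, ⟨n, rfl⟩, rfl⟩ := h4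
      have : ⁅a, x * a ^ n⁆ = a * x * a⁻¹ * x⁻¹ := by
        rw [commutatorElement_def]
        group
      beta_reduce
      rw [this]
      exact mul_mem (‹M.Normal›.conj_mem x hx a) (inv_mem hx)
  apply hM.1
  rw [← MonoidHom.map_closure] at h
  have h5 := congrArg (Subgroup.comap (Abelianization.of (G := G))) h
  rw [Subgroup.comap_map_eq, Subgroup.comap_top, Abelianization.ker_of] at h5
  exact top_unique (h5.ge.trans (sup_le h1 h2))

theorem NE_nil [Finite ι] (hG : ∀ M : Subgroup G, IsCoatom M → M.Normal) (j : ι) (s : Finset ι)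
    (hj : j ∉ s) {v w : ι → G} (hv : Subgroup.closure (range v) = ⊤)
    (hw : Subgroup.closure (w '' s) = ⊤) (h1 : ∀ i ∉ s, w i = 1) : NE v w := by
  let π : G →* Abelianization G := Abelianization.of
  have hπ : Surjective π := QuotientGroup.mk'_surjective _
  have h2 : Subgroup.closure ((π ∘ w) '' s) = ⊤ := by
    rw [image_comp, ← MonoidHom.map_closure, hw, Subgroup.map_top_of_surjective π hπ]
  obtain ⟨u, h3, h4⟩ := NE_lift π (NE_comm j s hj _ (π ∘ v) (π ∘ w) (AlgB_gen hv hπ) h2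
    fun i hi => (congrArg π (h1 i hi)).trans (map_one π))
  have chg : ∀ (t : ι → G) (i : ι) (x : G), (∀ a ∈ s, ∃ l, l ≠ i ∧ π (t l) = π (w a)) →
      NE t (update t i x) := fun t i x h => NE_upd t i ((gen_ab hv hG (top_unique (h2.ge.trans
        (Subgroup.closure_mono (by
          rintro _ ⟨a, ha, rfl⟩
          obtain ⟨l, q, e⟩ := h a ha
          exact ⟨_, ⟨l, q, rfl⟩, e⟩))))).ge (Subgroup.mem_top _))
  have ne : ∀ a ∈ s, a ≠ j := fun a ha q => hj (q ▸ ha)
  have one : ∀ (t : ι → G) (i : ι), π ∘ t = π ∘ w → NE t (update t i (w i)) := by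
    intro t i ht
    by_cases q : i = j
    · exact chg t i _ fun a ha => ⟨a, q ▸ ne a ha, congrFun ht a⟩
    have k1 := chg t j (w i) fun a ha => ⟨a, ne a ha, congrFun ht a⟩
    have k2 := chg (update t j (w i)) i (w i) fun a ha => by
      by_cases q' : a = i
      · exact ⟨j, Ne.symm q, by rw [update_self, q']⟩
      · exact ⟨a, q', by rw [update_of_ne (ne a ha)]; exact congrFun ht a⟩
    have k3 := chg (update t i (w i)) j (w i) fun a ha => ⟨a, ne a ha, by
      by_cases q' : a = i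
      · rw [q', update_self]
      · rw [update_of_ne q']
        exact congrFun ht a⟩
    rw [update_comm q] at k3
    exact NE_trans (NE_trans k1 k2) k3.symm
  have key : ∀ D : Finset ι, NE u (D.piecewise w u) := by
    intro D
    induction D using Finset.induction_on with
    | empty => exact .refl
    | insert i D hi ih =>
      rw [Finset.piecewise_insert]
      refine NE_trans ih (one _ i (funext fun l => ?_))
      by_cases q : l ∈ D
      · exact congrArg π (Finset.piecewise_eq_of_mem _ _ _ q)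
      · exact (congrArg π (Finset.piecewise_eq_of_notMem _ _ _ q)).trans (congrFun h4 l)
  have := Fintype.ofFinite ι
  have h5 := key Finset.univ
  rw [Finset.piecewise_univ] at h5
  exact NE_trans h3 h5

/-- all generating `g`-tuples are Nielsen equivalent -/
def One (G : Type) [Group G] (g : ℕ) : Prop :=
  ∀ v w : Fin g → G, Subgroup.closure (range v) = ⊤ → Subgroup.closure (range w) = ⊤ → NE v w

theorem One.equiv {g : ℕ} (h : One G g) (e : G ≃* G') : One G' g := fun v w hv hw => by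
  have := (h _ _ (AlgB_gen hv (f := e.symm.toMonoidHom) e.symm.surjective)
    (AlgB_gen hw (f := e.symm.toMonoidHom) e.symm.surjective)).map e.toMonoidHom
  simpa [comp_def] using this

theorem one_free (g r : ℕ) : One (FreeGroup (Fin r)) g := fun _ _ hv hw =>
  NE_trans (niel_std hv).2 (niel_std hw).2.symm

theorem one_nil {g r : ℕ} (hr : r < g) (hG : ∀ M : Subgroup G, IsCoatom M → M.Normal)
    (h : S.Gens G r) : One G g := by
  obtain ⟨s, hs⟩ := h
  have key : ∀ v : Fin g → G, Subgroup.closure (range v) = ⊤ → NE v fun i => AlgB_ext s i :=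
    fun v hv => NE_nil hG ⟨r, hr⟩ (Finset.univ.filter fun i => i.1 < r) (by simp) hv
      (top_unique (hs.ge.trans (Subgroup.closure_mono (by
        rintro _ ⟨a, rfl⟩
        exact ⟨⟨a, a.2.trans hr⟩, by simp, AlgB_ext_val s a⟩))))
      fun i hi => dif_neg (by simpa using hi)
  exact fun v w hv hw => NE_trans (key v hv) (key w hw).symm

theorem one_int (h : Module.finrank ℤ (Additive G →+ ℤ) ≠ 0) : One G 1 := by
  intro v w hv hw
  have : Nontrivial (Additive G →+ ℤ) := Module.nontrivial_of_finrank_pos (Nat.pos_of_ne_zero h)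
  obtain ⟨ν, hν⟩ := exists_ne (0 : Additive G →+ ℤ)
  have z : ∀ {u : Fin 1 → G}, Subgroup.closure (range u) = ⊤ → ∀ x, ∃ n : ℤ, u 0 ^ n = x :=
    fun {u} hu x => by
      rw [range_unique, ← Subgroup.zpowers_eq_closure] at hu
      exact hu.ge (Subgroup.mem_top x)
  obtain ⟨m, hm⟩ := z hv (w 0)
  obtain ⟨n, hn⟩ := z hw (v 0)
  have h0 : ν (Additive.ofMul (v 0)) ≠ 0 := fun q => hν (AddMonoidHom.ext fun x => by
    obtain ⟨k, hk⟩ := z hv x.toMul
    rw [← ofMul_toMul x, ← hk, ofMul_zpow, map_zsmul, q, smul_zero]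
    rfl)
  have h1 := congrArg (fun x => ν (Additive.ofMul x)) hn
  simp only [← hm, ofMul_zpow, map_zsmul, smul_eq_mul] at h1
  rw [← mul_assoc, mul_eq_right₀ h0] at h1
  rcases Int.eq_one_or_neg_one_of_mul_eq_one' h1 with ⟨-, rfl⟩ | ⟨-, rfl⟩
  · have : v = w := funext fun i => by rw [Subsingleton.elim i 0, ← hm, zpow_one]
    exact this ▸ .refl
  · refine .single (Or.inl ⟨0, funext fun i => ?_⟩)
    rw [Subsingleton.elim i 0, update_self, ← hm, zpow_neg_one]

omit [DecidableEq ι] in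
theorem small_gens [Finite G] (v : ι → G) (D : Finset ι) : ∃ s : Finset ι,
    Subgroup.closure (v '' s) = Subgroup.closure (v '' D) ∧
      2 ^ s.card ≤ Nat.card (Subgroup.closure (v '' s)) := by
  classical
  induction D using Finset.induction_on with
  | empty => exact ⟨∅, rfl, Nat.card_pos⟩
  | insert i D _ ih =>
    obtain ⟨s, h1, h2⟩ := ih
    have e : ∀ t : Finset ι, Subgroup.closure (v '' (insert i t : Finset ι)) =
        Subgroup.closure {v i} ⊔ Subgroup.closure (v '' t) := fun t => by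
      rw [Finset.coe_insert, image_insert_eq, insert_eq, Subgroup.closure_union]
    by_cases q : v i ∈ Subgroup.closure (v '' s)
    · refine ⟨s, ?_, h2⟩
      rw [e, ← h1, sup_eq_right.2 ((Subgroup.closure_le _).2 (singleton_subset_iff.2 q))]
    · refine ⟨insert i s, by rw [e, e, h1], ?_⟩
      have le : Subgroup.closure (v '' s) ≤ Subgroup.closure (v '' (insert i s : Finset ι)) :=
        e s ▸ le_sup_right
      obtain ⟨m, hm⟩ := Subgroup.card_dvd_of_le le
      have m0 : m ≠ 0 := fun k => by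
        rw [k, mul_zero] at hm
        exact Nat.card_pos.ne' hm
      have m1 : m ≠ 1 := fun k => by
        rw [k, mul_one] at hm
        exact q (Subgroup.eq_of_le_of_card_ge le hm.le ▸
          Subgroup.subset_closure ⟨i, by simp, rfl⟩)
      rw [Finset.card_insert_of_notMem fun k => q (Subgroup.subset_closure ⟨i, k, rfl⟩), hm,
        pow_succ]
      exact Nat.mul_le_mul h2 (by omega)

theorem one_fin [Finite G] {g r : ℕ} (hr : r + Nat.log 2 (Nat.card G) ≤ g) (h : S.Gens G r) :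
    One G g := by
  obtain ⟨y, hy⟩ := h
  have key : ∀ v : Fin g → G, Subgroup.closure (range v) = ⊤ → NE v fun i => AlgB_ext y i := by
    intro v hv
    obtain ⟨s, h1, h2⟩ := small_gens v Finset.univ
    rw [Finset.coe_univ, image_univ, hv] at h1
    rw [h1, Subgroup.card_top] at h2
    have h3 := Nat.le_log_of_pow_le one_lt_two h2
    have hk : s.card ≤ g := by omega
    obtain ⟨σ, hσ⟩ := Equiv.Perm.exists_extending_pair _ _ (Fin.castLE_injective hk)
      (s.orderEmbOfFin rfl).injective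
    have h4 : Subgroup.closure (range (v ∘ s.orderEmbOfFin rfl)) = ⊤ := by
      rw [range_comp, Finset.range_orderEmbOfFin, h1]
    refine NE_trans (NE_trans (NE.perm v σ) (AlgB_fill h4 {i : Fin g | i.1 < s.card}
      (fun i hi => ?_) fun a => ⟨Fin.castLE hk a, a.2, AlgB_ext_val _ a⟩))
      (AlgB_stab (by omega) hy h4).symm
    exact (congrArg v (hσ ⟨i, hi⟩)).trans (AlgB_ext_val (v ∘ s.orderEmbOfFin rfl) ⟨i, hi⟩).symm
  exact fun v w hv hw => NE_trans (key v hv) (key w hw).symm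

theorem alg_C {Γ : Type} [Group Γ] {g : ℕ} (e : Γ ≃* FreeGroup (Fin g)) (h : One G g)
    {φ φ' : Γ →* G} (h1 : Surjective φ) (h2 : Surjective φ') :
    ∃ α : Γ ≃* Γ, ∀ a, φ' (α a) = φ a := by
  have gen : ∀ {ψ : Γ →* G}, Surjective ψ →
      Subgroup.closure (range ((ψ.comp e.symm.toMonoidHom) ∘ FreeGroup.of)) = ⊤ := fun hψ =>
    AlgB_gen (FreeGroup.closure_range_of _) (hψ.comp e.symm.surjective)
  obtain ⟨α, hα⟩ := NE.aut (h _ _ (gen h2) (gen h1))
  have key : ∀ φ : FreeGroup (Fin g) →* G, FreeGroup.lift (φ ∘ FreeGroup.of) = φ :=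
    fun φ => FreeGroup.ext_hom _ _ fun i => FreeGroup.lift_apply_of
  refine ⟨e.trans (α.trans e.symm), fun a => ?_⟩
  have h4 := hα (e a)
  rw [key, key] at h4
  simpa using h4

end Pool.Agent.Work.MP_7ba843_gt.X
end

-- merged part: Pool.Agent.Work.MP_7ba843_gt.X.Fin
section
/-! The Euler characteristic of a trisection and the final criterion. -/

open Set Topology Function
open scoped Manifold ContDiff

namespace Pool.Agent.Work.MP_7ba843_gt.X

open Pool.Agent.Work.MP_735653_gt Pool.Agent.Work.MP_7ba843_gt.N Pool.Agent.Work.MP_7ba843_gt.C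
  Pool.Agent.Work.MP_7ba843_gt.S

theorem chi_sum (g : ℕ) : ∑ k ∈ Finset.range (4 * g + 3),
    (if k % 2 = 0 then 1 else if k % 4 = 3 then -2 else -1 : ℤ) = 1 - g := by
  induction g with
  | zero => decide
  | succ g ih =>
    rw [show 4 * (g + 1) + 3 = 4 * g + 3 + 1 + 1 + 1 + 1 by ring, Finset.sum_range_succ,
      Finset.sum_range_succ, Finset.sum_range_succ, Finset.sum_range_succ, ih,
      if_neg (by omega), if_pos (by omega), if_pos (by omega), if_neg (by omega),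
      if_neg (by omega), if_pos (by omega)]
    push_cast
    ring

theorem chi_gr (D g : ℕ) : chi (gr D g) = 1 - g := by
  classical
  have e : gr D g = ((Finset.range (4 * g + 3) ×ˢ Finset.range 3).filter
      fun p => Gp g p.1 p.2).image fun p => Graph_pt (p.1 : ℤ) (p.2 : ℤ) := by
    ext a
    simp only [Finset.mem_image, Finset.mem_filter, Finset.mem_product, Finset.mem_range]
    constructor
    · intro h
      have h1 := (mem_gr.1 h).1
      have h2 := h1
      simp only [Gp, Tt, Tp] at h2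
      have e0 : ((a 0).toNat : ℤ) = a 0 := by omega
      have e1 : ((a 1).toNat : ℤ) = a 1 := by omega
      exact ⟨((a 0).toNat, (a 1).toNat), ⟨⟨by omega, by omega⟩, by rwa [e0, e1]⟩, by
        rw [e0, e1]; exact (Graph_ex h).symm⟩
    · rintro ⟨p, h, rfl⟩
      exact Graph_mem.2 h.2
  have s : ∀ k h : ℤ, sgn (dim (Graph_pt k h : Cell (D + 2))) = CW_t k * CW_t h := fun k h => by
    rw [CW_prod, Fin.prod_univ_succ, Fin.prod_univ_succ, Finset.prod_eq_one, mul_one]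
    · rfl
    · intro i _
      rw [Graph_ge _ _ (by simp)]
      rfl
  rw [chi, e, Finset.sum_image fun p _ q _ h => Prod.ext
    (Int.ofNat_inj.1 (congrFun h 0)) (Int.ofNat_inj.1 (congrFun h 1)), Finset.sum_filter,
    Finset.sum_product, ← chi_sum]
  refine Finset.sum_congr rfl fun k hk => ?_
  rw [Finset.mem_range] at hk
  have k0 : (0 : ℤ) ≤ k := by omega
  have k1 : (k : ℤ) ≤ 4 * g + 2 := by omega
  have g0 : Gp g k ((0 : ℕ) : ℤ) := .inl ⟨k0, k1, le_rfl, by decide, fun _ => rfl⟩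
  have t0 : CW_t ((0 : ℕ) : ℤ) = 1 := rfl
  have t1 : CW_t ((1 : ℕ) : ℤ) = -1 := rfl
  have t2 : CW_t ((2 : ℕ) : ℤ) = 1 := rfl
  simp only [Finset.sum_range_succ, Finset.sum_range_zero, s, t0, t1, t2]
  rw [if_pos g0]
  by_cases c : k % 2 = 0
  · have g1 : Gp g k ((1 : ℕ) : ℤ) := .inl ⟨k0, k1, by decide, by decide, fun _ => by omega⟩
    have g2 : Gp g k ((2 : ℕ) : ℤ) := .inl ⟨k0, k1, by decide, by decide, fun _ => by omega⟩
    rw [if_pos g1, if_pos g2, if_pos c]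
    ring_nf
    exact if_neg (by omega)
  have g1 : ¬Gp g k ((1 : ℕ) : ℤ) := by
    rintro (h | h)
    · exact absurd (h.2.2.2.2 (by omega)) (by decide)
    · exact absurd h.2.2.2 (by decide)
  have tk : CW_t k = -1 := if_pos (by omega)
  rw [if_neg g1, if_neg c, tk]
  by_cases d : k % 4 = 3
  · have g2 : Gp g k ((2 : ℕ) : ℤ) := .inr ⟨k0, k1, by omega, rfl⟩
    rw [if_pos g2, if_pos d]
    rfl
  · have g2 : ¬Gp g k ((2 : ℕ) : ℤ) := by
      rintro (h | h)
      · exact absurd (h.2.2.2.2 (by omega)) (by decide)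
      · exact d (by have := h.2.2.1; omega)
    rw [if_neg g2, if_neg d]
    rfl

theorem chi_WK {D : ℕ} (K : Finset (Cell D)) : chi (WK K) = chi K := by
  have h1 : chi (WK K) = 1 ^ D * chi K := by
    refine CW_fib (fun j => 2 * (j / 4) + if j % 4 = 3 then 1 else 0) 1 (fun y => mem_WK)
      fun k => ?_
    by_cases q : k % 2 = 1
    · refine ⟨_, fun j => ?_, (CW_one k).trans (by rw [CW_t, if_pos q, one_mul])⟩
      rw [Finset.mem_singleton]
      split_ifs <;> omega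
    · refine ⟨_, fun j => ?_, (CW_three k).trans (by rw [CW_t, if_neg q, one_mul])⟩
      simp only [Finset.mem_insert, Finset.mem_singleton]
      split_ifs <;> omega
  rwa [one_pow, one_mul] at h1

theorem eu_Th {X : Type} [TopologicalSpace X] [T3Space X] {A : Set X} {D k : ℕ}
    (h : Nonempty (A ≃ₜ Th D k)) : IsCompact A ∧ Eu A (1 - k) := by
  obtain ⟨e⟩ := h
  let e' := (Homeomorph.setCongr (Re_WK_gr D k)).trans e.symm
  have c : Continuous (Subtype.val ∘ e') := continuous_subtype_val.comp e'.continuous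
  have h1 := (eu_cw (euler_Re (down_WK (down_gr D k)) (Homeomorph.refl _))).emb c
    (Subtype.val_injective.comp e'.injective)
  have h2 := isCompact_range c
  rw [e'.surjective.range_comp, Subtype.range_val] at h1 h2
  rw [chi_WK, chi_gr] at h1
  exact ⟨h2, by exact_mod_cast h1⟩

theorem tri_chi {X : Type} [TopologicalSpace X] [T2Space X] [CompactSpace X] {c : ℤ}
    (hc : HasEulerChar X c) {g k₀ k₁ k₂ : ℕ} {T : Fin 3 → Set X} {j : Re (EK (gr3 g)) → X}
    (hj : IsEmbedding j) (hT : Trisection g (range j) T) (h0 : Nonempty (T 0 ≃ₜ Th 2 k₀))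
    (h1 : Nonempty (T 1 ≃ₜ Th 2 k₁)) (h2 : Nonempty (T 2 ≃ₜ Th 2 k₂)) :
    c + k₀ + k₁ + k₂ = 2 + g := by
  obtain ⟨a0, b0⟩ := eu_Th h0
  obtain ⟨a1, b1⟩ := eu_Th h1
  obtain ⟨a2, b2⟩ := eu_Th h2
  obtain ⟨-, b3⟩ := eu_Th (hT.2.2.2.1 0 1 (by decide))
  obtain ⟨a4, b4⟩ := eu_Th (hT.2.2.2.1 0 2 (by decide))
  obtain ⟨a5, b5⟩ := eu_Th (hT.2.2.2.1 1 2 (by decide))
  have b6 := (eu_cw (euler_Re (down_EK (down_gr 1 g)) (Homeomorph.refl _))).emb hj.continuous
    hj.injective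
  have e1 : range j = (T 0 ∩ T 2) ∩ (T 1 ∩ T 2) := by
    rw [← hT.2.2.2.2]
    ext x
    simp only [mem_iInter, Fin.forall_fin_succ, mem_inter_iff, IsEmpty.forall_iff, and_true]
    exact ⟨fun h => ⟨⟨h.1, h.2.2⟩, h.2.1, h.2.2⟩, fun h => ⟨h.1.1, h.2.1, h.2.2⟩⟩
  have e2 : T 0 ∪ T 1 ∪ T 2 = univ := by
    rw [← hT.1]
    ext x
    simp [Fin.exists_fin_succ, or_assoc]
  rw [e1, chi_EK (down_gr 1 g), chi_gr] at b6
  have b7 := b4.union a4 a5 b5 b6
  rw [← union_inter_distrib_right] at b7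
  have b8 := (b0.union a0 a1 b1 b3).union (a0.union a1) a2 b2 b7
  rw [e2] at b8
  have b9 := b8.uniq (eu_cw hc)
  push_cast at b9
  have : (c : ℚ) + k₀ + k₁ + k₂ = 2 + g := by linarith only [b9]
  exact_mod_cast this

theorem tri_gens {X : Type} [TopologicalSpace X] [ChartedSpace (EuclideanSpace ℝ (Fin 4)) X]
    [T2Space X] {g k : ℕ} {T : Fin 3 → Set X} {j : Re (EK (gr3 g)) → X} (hj : IsEmbedding j)
    (hT : Trisection g (range j) T) {i : Fin 3} (hk : Nonempty (T i ≃ₜ Th 2 k)) :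
    ∃ x : X, Gens (FundamentalGroup X x) k := by
  obtain ⟨c1, c2, c3, c4⟩ := sur_sector loc_chart hj hT
  obtain ⟨P, _, CS, CW, p, L₀, F₀, s1, -⟩ := surf_lifts g
  obtain ⟨y₀⟩ := (Sur_pc s1).nonempty
  have hi : ∀ l, range j ⊆ T l := fun l => hT.2.2.2.2 ▸ iInter_subset _ l
  let x₀ : range j := ⟨j y₀, y₀, rfl⟩
  let vl : C(T i, X) := ⟨Subtype.val, continuous_subtype_val⟩
  have st : (FundamentalGroup.map vl ⟨x₀.1, hi i x₀.2⟩).range = ⊤ := by
    refine sec c1 hT.1 c2 c3 (fun l => hi l x₀.2) _ fun l c => ?_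
    obtain ⟨d, rfl⟩ := c4 l (hi l) x₀ c
    obtain ⟨δ, rfl⟩ := Sur_rep d
    exact ⟨Path.Homotopic.Quotient.mk (δ.map (ContinuousMap.inclusion (hi i)).continuous), rfl⟩
  obtain ⟨v⟩ := hk
  obtain ⟨C, z1, -⟩ := sector_cv k
  let C' := C.homeo ((Homeomorph.setCongr (Re_WK_gr 2 k)).trans v.symm)
  have : SimplyConnectedSpace C'.E := z1.1
  obtain ⟨t, ht⟩ := C'.cov.surjective ⟨x₀.1, hi i x₀.2⟩
  let φ : FreeGroup (Fin k) ≃* FundamentalGroup (T i) ⟨x₀.1, hi i x₀.2⟩ :=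
    (MulEquiv.inv' _).trans (C'.cov.fundamentalGroupEquiv ⟨t, ht⟩).symm
  exact ⟨_, Fin_gens (Fin_gens ⟨_, FreeGroup.closure_range_of _⟩ (f := φ.toMonoidHom) φ.surjective)
    (MonoidHom.range_eq_top.1 st)⟩

section

variable {X : Type} [TopologicalSpace X] [ChartedSpace (EuclideanSpace ℝ (Fin 4)) X]
  [IsManifold (𝓡 4) ∞ X] [T2Space X] [CompactSpace X] [ConnectedSpace X] {g : ℕ}

omit [IsManifold (𝓡 4) ∞ X] [T2Space X] [CompactSpace X] [ConnectedSpace X] in
theorem onto_rebase {e : Hb (Fg g) X} {x : {x | 0 ≤ Fg g x}}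
    (h : Surjective (FundamentalGroup.map e.map x)) (y : {x | 0 ≤ Fg g x}) :
    Surjective (FundamentalGroup.map e.map y) := by
  have := isPathConnected_iff_pathConnectedSpace.1 (model_free (Main_N g)).1
  let γ := PathConnectedSpace.somePath x y
  intro c
  obtain ⟨c, rfl⟩ := (FundamentalGroup.fundamentalGroupMulEquivOfPath
    (γ.map e.map.continuous)).surjective c
  obtain ⟨a, rfl⟩ := h c
  exact ⟨_, Main_nat e.map γ a⟩

omit [IsManifold (𝓡 4) ∞ X] [T2Space X] [CompactSpace X] [ConnectedSpace X] in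
theorem fact_onto {e : Hb (Fg g) X} {k : ℕ} (h : e.Fact k) (y : {x | 0 ≤ Fg g x}) :
    Surjective (FundamentalGroup.map e.map y) := by
  obtain ⟨x, p, q, h1, h2, h3⟩ := h
  refine onto_rebase (x := x) ?_ y
  rw [← h3]
  exact h2.comp h1

omit [IsManifold (𝓡 4) ∞ X] [T2Space X] [CompactSpace X] [ConnectedSpace X] in
theorem fact_le {e : Hb (Fg g) X} {k : ℕ} (h : e.Fact k) : k ≤ g := by
  obtain ⟨x, p, q, h1, -⟩ := h
  obtain ⟨F⟩ := (model_free (Main_N g)).2 x
  exact (niel_std (AlgB_gen (FreeGroup.closure_range_of _) (f := p.comp F.symm.toMonoidHom)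
    (h1.comp F.symm.surjective))).1

omit [IsManifold (𝓡 4) ∞ X] [T2Space X] [CompactSpace X] in
theorem main_C (e e' : Hb (Fg g) X) {z : X} (h : One (FundamentalGroup X z) g)
    {x : {x | 0 ≤ Fg g x}} (h1 : Surjective (FundamentalGroup.map e.map x))
    (h2 : Surjective (FundamentalGroup.map e'.map x)) : e.Equiv e' := by
  have pc := Main_pc X
  obtain ⟨F⟩ := (model_free (Main_N g)).2 x
  let γ := PathConnectedSpace.somePath (e.map x) (e'.map x)
  let B := FundamentalGroup.fundamentalGroupMulEquivOfPath γ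
  obtain ⟨α, hα⟩ := alg_C F (h.equiv (FundamentalGroup.fundamentalGroupMulEquivOfPath
    (PathConnectedSpace.somePath z (e'.map x))))
    (φ := B.toMonoidHom.comp (FundamentalGroup.map e.map x)) (B.surjective.comp h1) h2
  exact ⟨x, γ, α, fun a => (hα a).symm⟩

omit [IsManifold (𝓡 4) ∞ X] [T2Space X] [CompactSpace X] [ConnectedSpace X] in
theorem push_fact (e : Hb (Fg g) X) {r : ℕ} (h : e.Fact r) (ψ : X ≃ₘ⟮𝓡 4, 𝓡 4⟯ X) :
    ∃ e' : Hb (Fg g) X, e'.bdry = ψ '' e.bdry ∧ e'.Fact r := by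
  obtain ⟨x, f', h', k1, k2, k3⟩ := h
  let c : C(X, X) := ⟨ψ, ψ.continuous⟩
  refine ⟨e.push ψ, image_comp ψ e.Φ _, x, f', (FundamentalGroup.map c (e.map x)).comp h', k1,
    (Main_surj c ⟨ψ.symm, ψ.symm.continuous⟩ ψ.apply_symm_apply ψ.symm_apply_apply _).comp k2,
    MonoidHom.ext fun a => ?_⟩
  change FundamentalGroup.map c (e.map x) (h'.comp f' a) = _
  rw [k3]
  exact (Main_comp e.map c x a).symm

omit [IsManifold (𝓡 4) ∞ X] [CompactSpace X] [ConnectedSpace X] in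
theorem bdry_onto (e : Hb (Fg g) X) (y : e.bdry) (h : Surjective
    (FundamentalGroup.map (⟨Subtype.val, continuous_subtype_val⟩ : C(e.bdry, X)) y))
    (x : {x | 0 ≤ Fg g x}) : Surjective (FundamentalGroup.map e.map x) := by
  have : CompactSpace {x | 0 ≤ Fg g x} :=
    isCompact_iff_compactSpace.1 (Main_N g ▸ NK_compact _)
  have he : IsEmbedding e.map := (e.map.continuous.isClosedEmbedding fun x y h =>
    Subtype.ext (e.inj (e.sub x.2) (e.sub y.2) h)).isEmbedding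
  obtain ⟨m, hm, em⟩ := lift_emb he (IsEmbedding.subtypeVal (p := (· ∈ e.bdry)))
    (Subtype.range_val.subset.trans ((Fin_bdry e).symm.subset.trans (image_subset_range _ _)))
  refine onto_rebase (x := m y) ?_ x
  obtain ⟨y, hy⟩ := y
  have q := em ⟨y, hy⟩
  generalize hz : m ⟨y, hy⟩ = z at q
  subst q
  intro c
  obtain ⟨d, rfl⟩ := h c
  obtain ⟨δ, rfl⟩ := Sur_rep d
  refine ⟨Path.Homotopic.Quotient.mk ((δ.map hm.continuous).cast hz.symm hz.symm), ?_⟩
  have : ((δ.map hm.continuous).cast hz.symm hz.symm).map e.map.continuous =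
      δ.map continuous_subtype_val := Path.ext (funext fun t => em _)
  exact congrArg Path.Homotopic.Quotient.mk this

end

theorem cores (g : ℕ) : ∃ F : (Fin 3 → ℝ) → ℝ, ContDiff ℝ ∞ F ∧
    (∀ x, F x = 0 → fderiv ℝ F x ≠ 0) ∧ Nonempty ({x | 0 ≤ F x} ≃ₜ Th 1 g) ∧
    Cores (EuclideanSpace ℝ (Fin 4)) F g := by
  refine ⟨Fg g, (model g).1, (model g).2.1, (model g).2.2, fun X _ _ _ _ _ _ f₀ T h₀ hT h01 => ?_⟩
  obtain ⟨e₀, rfl⟩ := Fin_hb h₀
  rw [Fin_bdry] at hT
  rw [Fin_body] at h01 ⊢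
  have A : ∀ e : Hb (Fg g) X, e₀.Equiv e → ∃ ψ : X ≃ₘ⟮𝓡 4, 𝓡 4⟯ X,
      ψ '' e₀.body = e.body ∧ Trisection g e.bdry fun i => ψ '' T i := fun e h => by
    obtain ⟨ψ, h1, h2⟩ := main_A e₀ e h
    exact ⟨ψ, h1, h2 ▸ Fin_image hT ψ.toHomeomorph⟩
  refine ⟨fun f hf h => ?_, fun x r b hr hb => ?_⟩
  · obtain ⟨e, rfl⟩ := Fin_hb hf
    rw [Fin_body, Fin_bdry]
    exact A e h
  have pc := Main_pc X
  have mv : ∀ {y z : X} {n : ℕ}, Gens (FundamentalGroup X y) n → Gens (FundamentalGroup X z) n :=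
    fun {y z n} h => Fin_gens h (f := (FundamentalGroup.fundamentalGroupMulEquivOfPath
      (PathConnectedSpace.somePath y z)).toMonoidHom) (MulEquiv.surjective _)
  obtain ⟨k₀, h0⟩ := hT.2.2.1 0
  obtain ⟨k₁, h1⟩ := hT.2.2.1 1
  obtain ⟨k₂, h2⟩ := hT.2.2.1 2
  have f0 := tri_fact e₀ hT h01 h0
  have f1 : e₀.Fact k₁ :=
    tri_fact e₀ (Fin_swap hT (Equiv.swap 0 1)) ((inter_comm _ _).trans h01) h1
  refine ⟨fun hc S => ?_, fun hc f S y hf hS hy => ?_⟩
  · obtain ⟨m1, m2⟩ : (∀ ψ : X ≃ₘ⟮𝓡 4, 𝓡 4⟯ X, ∃ e' : Hb (Fg g) X, e'.bdry = ψ '' e₀.bdry ∧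
        e'.Fact r) ∧ ∀ e : Hb (Fg g) X, e.Fact r → e₀.Equiv e := by
      by_cases q : ∃ k, r + k ≤ g ∧ e₀.Fact k
      · obtain ⟨k, hk, hf⟩ := q
        exact ⟨main_B1 e₀ hk hf fun _ => mv hr, fun e => main_B2 e₀ e hk hf⟩
      have q0 : ¬ r + k₀ ≤ g := fun h => q ⟨_, h, f0⟩
      have q1 : ¬ r + k₁ ≤ g := fun h => q ⟨_, h, f1⟩
      have rk := tri_rank e₀ hT h01 h0 h1 x
      rw [← hb] at rk
      rcases hc with ⟨k, hk, h⟩ | h | ⟨hl, h⟩
      · exact absurd ⟨k, h, tri_fact e₀ hT h01 hk⟩ q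
      · omega
      obtain ⟨j, hj, ej⟩ := Rk_bdry e₀
      rw [ej] at hT
      have l0 := hl _ (mv (tri_gens hj hT h0).choose_spec)
      have l1 := hl _ (mv (tri_gens hj hT h1).choose_spec)
      have l2 := hl _ (mv (tri_gens hj hT h2).choose_spec)
      rcases h with h | ⟨c, hc, h⟩
      · omega
      have ec := tri_chi hc hj hT h0 h1 h2
      have u0 := fact_le f0
      have u1 := fact_le f1
      obtain ⟨rfl, rfl, rfl, hb0⟩ : g = 1 ∧ r = 1 ∧ k₀ = 1 ∧ b ≠ 0 := by omega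
      refine ⟨push_fact e₀ f0, fun e he => ?_⟩
      obtain ⟨z⟩ := (model_free (Main_N 1)).1.nonempty.to_subtype
      exact main_C e₀ e (one_int (hb ▸ hb0)) (fact_onto f0 z) (fact_onto he z)
    constructor
    · rintro ⟨ψ, h⟩
      have e : S = ψ '' e₀.bdry := h.2.2.2.2.symm.trans (Fin_image hT ψ.toHomeomorph).2.2.2.2
      obtain ⟨e', h1, h2⟩ := m1 ψ
      exact ⟨e'.map, Fin_emb e', (Fin_bdry e').trans (h1.trans e.symm), h2⟩
    · rintro ⟨f, h1, rfl, he⟩
      obtain ⟨e, rfl⟩ := Fin_hb h1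
      obtain ⟨ψ, -, h⟩ := A e (m2 e he)
      exact ⟨ψ, (Fin_bdry e).symm ▸ h⟩
  · obtain ⟨e, rfl⟩ := Fin_hb hf
    rw [Fin_bdry] at hS
    subst hS
    have o : One (FundamentalGroup X x) g := by
      rcases hc with ⟨⟨φ⟩⟩ | ⟨h, h'⟩ | ⟨h, h'⟩
      exacts [(one_free g r).equiv φ.symm, one_nil h h' hr, one_fin h' hr]
    obtain ⟨z⟩ := (model_free (Main_N g)).1.nonempty.to_subtype
    obtain ⟨ψ, -, h⟩ := A e (main_C e₀ e o (fact_onto f0 z) (bdry_onto e y hy z))
    exact ⟨ψ, h⟩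

end Pool.Agent.Work.MP_7ba843_gt.X
end
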